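import Pool.Agent.P.MP_aef18a_nt.OW.Iface

namespace Pool.Agent.P.MP_aef18a_nt.OW

open Polynomial Matrix LaurentPolynomial

namespace Cntx

open UniqueFactorizationMonoid EuclideanDomain in
/-- a member of the ideal of `S` and `X S'` controls the multiple roots of `S` -/
lemma roots {S h : ℚ[X]} (h0 : S.coeff 0 ≠ 0) (hh : h ≠ 0)
    (hm : toLaurent h ∈ Ideal.span {toLaurent S, toLaurent (-(X * derivative S))}) :
    ∃ Z : Finset ℂˣ, (∀ α ∈ Z, aeval ((α⁻¹ : ℂˣ) : ℂ) S = 0) ∧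
      S.natDegree ≤ Z.card + h.natDegree := by
  classical
  have d1 : toLaurent (divRadical S) ∣ toLaurent h := by
    obtain ⟨U, V, e⟩ := Ideal.mem_span_pair.mp hm
    rw [← e]
    exact dvd_add ((_root_.map_dvd _ (divRadical_dvd_self S)).mul_left _)
      ((_root_.map_dvd _ ((divRadical_dvd_derivative S).mul_left _).neg_right).mul_left _)
  have d2 : divRadical S ∣ h := by
    obtain ⟨f, e⟩ := d1
    obtain ⟨n, f', e'⟩ := exists_T_pow f
    have c : IsCoprime (divRadical S) X := (irreducible_X.coprime_iff_not_dvd.2 fun d =>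
      h0 (X_dvd_iff.1 (d.trans (divRadical_dvd_self S)))).symm
    refine (c.pow_right (n := n)).dvd_of_dvd_mul_right ⟨f', toLaurent_injective ?_⟩
    rw [map_mul, map_mul, toLaurent_X_pow, e, e', mul_assoc]
  have nd : ((radical S).aroots ℂ).Nodup :=
    nodup_roots (PerfectField.separable_iff_squarefree.2 squarefree_radical).map
  have rt : ∀ z ∈ ((radical S).aroots ℂ).toFinset, aeval z S = 0 := fun z hz =>
    aeval_eq_zero_of_dvd_aeval_eq_zero radical_dvd_self (mem_aroots.1 (Multiset.mem_toFinset.1 hz)).2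
  have inj : Function.Injective fun α : ℂˣ => ((α⁻¹ : ℂˣ) : ℂ) :=
    Units.val_injective.comp inv_injective
  refine ⟨((radical S).aroots ℂ).toFinset.preimage _ inj.injOn,
    fun α hα => rt _ ((Finset.mem_preimage (hf := inj.injOn)).1 hα), ?_⟩
  conv_lhs => rw [← radical_mul_divRadical (a := S)]
  refine natDegree_mul_le.trans (add_le_add ?_ (natDegree_le_of_dvd d2 hh))
  rw [← card_aroots, ← Multiset.toFinset_card_of_nodup nd]
  refine Finset.card_le_card_of_surjOn (fun α : ℂˣ => ((α⁻¹ : ℂˣ) : ℂ)) fun z hz => ?_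
  have z0 : z ≠ 0 := by
    rintro rfl
    exact h0 (by simpa [← coeff_zero_eq_aeval_zero'] using rt 0 hz)
  exact ⟨(Units.mk0 z z0)⁻¹, Finset.mem_coe.2 (Finset.mem_preimage.2 (by simpa using hz)), by simp⟩

end Cntx

theorem p_CntA (hE : S_Ebz) (hN : S_Nd) : S_CntA := by
  intro r D E Y p Q G b hQ nc G0 dv wb pp hp hD E0 hY nr Z hZ
  obtain ⟨B0, rp⟩ := relPrime_of_not_dvd hQ (hN r D p Q G hQ nc G0 dv wb pp hp)
  obtain ⟨h, h0, h1, h2⟩ := hE ℚ r (p * D) E Y Q _ b hQ.ne_zero B0 rp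
    ((wb.of_dvd G0 dv).mono (Nat.le_mul_of_pos_left D pp.pos)) (wb.dil p) hD E0 hY nr
  refine (Nat.mul_le_mul_right E ?_).trans h1
  classical
  rw [← card_aroots]
  refine le_trans (Finset.card_le_card_of_injOn Units.val (fun α hα => ?_)
    Units.val_injective.injOn) (Multiset.toFinset_card_le _)
  exact Multiset.mem_toFinset.2 (mem_aroots.2 ⟨h0, aeval_eq_zero_of_mem h2 (hZ α hα).1
    ((evc_dil p b α G).trans (hZ α hα).2)⟩)

theorem p_CntB (hE : S_Ebz) : S_CntB := by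
  intro r D E Y Q b hQ wb hD E0 hY nr u hu u' hu'
  rcases r.eq_zero_or_pos with rfl | r0
  · exact ⟨∅, by simp, by simp [dotProduct]⟩
  obtain ⟨t, ht, mx⟩ := Q.coeff.support.exists_max_image (· ⬝ᵥ b) ⟨u, hu⟩
  obtain ⟨A, hA⟩ : ∃ A : LP r, A = AddMonoidAlgebra.single (-t) 1 * Q := ⟨_, rfl⟩
  have un : IsUnit (AddMonoidAlgebra.single (-t) 1 : LP r) := isUnit_single _ isUnit_one
  have mem : ∀ z, z ∈ A.coeff.support ↔ t + z ∈ Q.coeff.support := fun z => by
    simp [hA, AddMonoidAlgebra.coeff_single_mul_apply]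
  have irr : Irreducible A := hA ▸ (irreducible_isUnit_mul un).2 hQ
  have wa : Wb D A := fun z hz z' hz' i => by
    simpa using wb _ ((mem z).1 hz) _ ((mem z').1 hz') i
  have ng : Ng b A := fun z hz => by simpa using mx _ ((mem z).1 hz)
  have inj := (nr.mono (show D ≤ E by nlinarith)).injOn wa
  obtain ⟨B0, rp⟩ := relPrime_of_not_dvd irr (not_dvd_dv irr inj)
  obtain ⟨h, h0, h1, h2⟩ := hE ℚ r D E Y A _ (-b) irr.ne_zero B0 rp wa
    (wa.subset (support_dv _ A)) hD E0 (by simpa using hY) fun c c0 hc => by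
      simpa using nr c c0 hc
  rw [← toLaurent_pl ng, ← toLaurent_pl (ng.subset (support_dv _ A)), pl_dv ng] at h2
  have ne : ∀ z ∈ A.coeff.support, (pl b A).coeff (-(z ⬝ᵥ b)).toNat ≠ 0 := fun z hz => by
    rw [pl_coeff_inj ng inj hz]
    exact Finsupp.mem_support_iff.1 hz
  obtain ⟨Z, z1, z2⟩ := Cntx.roots (by simpa using ne 0 ((mem 0).2 (by simpa using ht))) h0 h2
  refine ⟨Z, fun α hα => ?_, ?_⟩
  · have := z1 α hα
    rw [aeval_pl ng, hA, map_mul] at this
    exact (mul_eq_zero.1 this).resolve_left (evc_ne_zero_of_isUnit b α un)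
  · have a1 := le_natDegree_of_ne_zero (ne (u' - t) ((mem _).2 (by simpa using hu')))
    have a2 := mx u hu
    have a3 : (u - u') ⬝ᵥ b ≤ (Z.card + h.natDegree : ℕ) := by
      rw [sub_dotProduct] at a1 ⊢
      omega
    have a4 := mul_le_mul_of_nonneg_right a3 (Int.natCast_nonneg E)
    have a5 : (h.natDegree * E : ℤ) ≤ 4 * r ^ 3 * D ^ 2 * Y := by exact_mod_cast h1
    push_cast at a4
    linarith

theorem p_NtrN (hA : S_CntA) (hB : S_CntB) (hC : S_CycP) : S_NtrN := by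
  intro r D E Y p Q G b hQ nc G0 dv wb pp hp hl hD E0 hY nr u hu u' hu' lt
  rw [hasL_spec]
  by_contra hn
  have wq : Wb D (toQ G : LP r) := wb.subset (support_toQ G).le
  obtain ⟨Z, z1, z2⟩ := hB r (p * D) E Y Q b hQ ((wq.of_dvd (toQ_ne_zero G0) dv).mono
    (Nat.le_mul_of_pos_left D pp.pos)) hD E0 hY nr u hu u' hu'
  have := hA r D E Y p Q _ b hQ nc (toQ_ne_zero G0) dv wq pp hp hD E0 hY nr Z fun α hα =>
    ⟨z1 α hα, hC r p G b α pp hl (fun n => hn ⟨α, n, z1 α hα⟩)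
      (eq_zero_of_zero_dvd (z1 α hα ▸ _root_.map_dvd (evc b α) dv))⟩
  have a : (Z.card * E : ℤ) ≤ 4 * r ^ 3 * (p * D) ^ 2 * Y := by exact_mod_cast this
  push_cast at z2
  linarith

end Pool.Agent.P.MP_aef18a_nt.OW
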