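import Pool.Agent.P.MP_aef18a_nt.OW.Iface

namespace Pool.Agent.P.MP_aef18a_nt.OW

open Polynomial Matrix LaurentPolynomial

namespace Corex

variable {K : Type} [Field K] [NumberField K]

theorem root (σ : K →+* ℂ) {y : K} {g : ℚ[X]} (hy : aeval y g = 0) : aeval (σ y) g = 0 := by
  have := Polynomial.aeval_algHom_apply σ.toRatAlgHom y g
  rw [hy, map_zero] at this
  exact this

omit [NumberField K] in
theorem det_map (σ : K →+* ℂ) {m : ℕ} (y : Fin m → K) (e : Fin m → ℕ) :
    (Matrix.of fun i' i => σ (y i') ^ e i).det = σ (Matrix.of fun i' i => y i' ^ e i).det := by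
  rw [RingHom.map_det]
  congr 1
  ext i j
  simp

theorem card_emb : (Finset.univ : Finset (K →+* ℂ)).card = Module.finrank ℚ K :=
  NumberField.Embeddings.card K ℂ

/-- the product formula for the determinant -/
theorem det_low (hA : S_Avg) {m : ℕ} (y : Fin m → K) (e : Fin m → ℕ) {c : ℤ} (hc : c ≠ 0)
    (hD : (Matrix.of fun i' i => y i' ^ e i).det ≠ 0)
    (hi : ∀ (σ : K →+* ℂ) i' i, IsIntegral ℤ (c * σ (y i') ^ e i)) :
    0 ≤ Module.finrank ℚ K * (m * Real.log |(c : ℝ)|) +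
      ∑ σ : K →+* ℂ, Real.log ‖σ (Matrix.of fun i' i => y i' ^ e i).det‖ := by
  have hn : 0 < (Finset.univ : Finset (K →+* ℂ)).card := by
    rw [card_emb]; exact Module.finrank_pos
  obtain ⟨σ₀, -⟩ := Finset.card_pos.1 hn
  have hc' : (c : K) ≠ 0 := Int.cast_ne_zero.2 hc
  have h1 : IsIntegral ℤ ((c : K) ^ m * (Matrix.of fun i' i => y i' ^ e i).det) := by
    have h2 := Matrix.det_smul (Matrix.of fun i' i => y i' ^ e i) (c : K)
    rw [Fintype.card_fin] at h2
    rw [← h2]
    refine IsIntegral.det fun i j => ?_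
    refine (isIntegral_algHom_iff σ₀.toIntAlgHom σ₀.injective).1 ?_
    have := hi σ₀ i j
    simpa using this
  have h3 := (hA K _).2 (mul_ne_zero (pow_ne_zero _ hc') hD) h1
  refine h3.trans (le_of_eq ?_)
  rw [← card_emb, ← nsmul_eq_mul, ← Finset.sum_const, ← Finset.sum_add_distrib]
  refine Finset.sum_congr rfl fun σ _ => ?_
  have h4 : (c : ℝ) ≠ 0 := Int.cast_ne_zero.2 hc
  rw [map_mul, norm_mul, Real.log_mul (norm_ne_zero_iff.2 ((map_ne_zero σ).2 (pow_ne_zero _ hc')))
    (norm_ne_zero_iff.2 ((map_ne_zero σ).2 hD)), map_pow, norm_pow, Real.log_pow, map_intCast,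
    Complex.norm_intCast]

/-- the average over the embeddings -/
theorem avg (hA : S_Avg) {m : ℕ} (y : Fin m → K) {g : ℚ[X]} (hg : Irreducible g)
    (hy : ∀ i, aeval (y i) g = 0) (φ : ℂ → ℝ) :
    ∑ σ : K →+* ℂ, ∑ i, φ (σ (y i)) =
      Module.finrank ℚ K * ((m : ℝ) / g.natDegree * ((g.aroots ℂ).map φ).sum) := by
  have hd : (g.natDegree : ℝ) ≠ 0 := by exact_mod_cast hg.natDegree_pos.ne'
  rw [Finset.sum_comm]
  have h1 : ∀ i, ∑ σ : K →+* ℂ, φ (σ (y i)) =
      Module.finrank ℚ K * ((g.aroots ℂ).map φ).sum / g.natDegree := fun i => by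
    rw [← (hA K (y i)).1 g φ hg (hy i)]
    field_simp
  simp only [h1, Finset.sum_const, Finset.card_univ, Fintype.card_fin, nsmul_eq_mul]
  field_simp

theorem log_fact (n : ℕ) : Real.log (n.factorial : ℝ) ≤ n * Real.log n := by
  rw [← Real.log_pow]
  refine Real.log_le_log (by exact_mod_cast n.factorial_pos) ?_
  exact_mod_cast Nat.factorial_le_pow n

end Corex

theorem p_Core (h1 : S_Fc1) (h2 : S_Fc2) (hA : S_Avg) : S_Core := by
  intro g g' m m' e e' c C A h Λ hg hg' hm hc hC hA0 hz hz' hβ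
  have hgg : g * g' ≠ 0 := mul_ne_zero hg.ne_zero hg'.ne_zero
  let K := (g * g').SplittingField
  have : CharZero K := charZero_of_injective_algebraMap (algebraMap ℚ K).injective
  have : NumberField K := ⟨⟩
  have hs : ((g * g').map (algebraMap ℚ K)).Splits := SplittingField.splits _
  have hs0 : (g * g').map (algebraMap ℚ K) ≠ 0 := Polynomial.map_ne_zero hgg
  obtain ⟨y, hy, hDy⟩ := h2 K g m e hg
    (hs.of_dvd hs0 (Polynomial.map_dvd _ (dvd_mul_right g g'))) hz
  obtain ⟨x, hx, hDx⟩ := h2 K g' m' e' hg'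
    (hs.of_dvd hs0 (Polynomial.map_dvd _ (dvd_mul_left g' g))) hz'
  have hy' := fun (σ : K →+* ℂ) i => hβ (σ (y i)) (Or.inl (Corex.root σ (hy i)))
  have hx' := fun (σ : K →+* ℂ) j => hβ (σ (x j)) (Or.inr (Corex.root σ (hx j)))
  have hone : ∀ σ : K →+* ℂ, (∑ i, Real.log ‖h (σ (y i))‖) +
      Real.log ‖σ (Matrix.of fun i' i => y i' ^ e i).det‖ +
      Real.log ‖σ (Matrix.of fun i' i => x i' ^ e' i).det‖ ≤
      ((m + m' : ℝ) * (Real.log (m + m') + Real.log C) + (m' - m : ℝ) * A) +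
        ∑ j, Real.log ‖h (σ (x j))‖ := by
    intro σ
    have h3 := h1 m m' (fun i => σ (y i)) (fun j => σ (x j)) e e' h Λ C A hC hA0 hm
      (fun i j => ((hx' σ j).1 i).2) (fun i j => ((hy' σ i).2.1 j).2)
      (fun j j' => ((hx' σ j').2.1 j).2) (fun i i' => (hy' σ i').2.2.2 i)
      (fun i j' => (hx' σ j').2.2.2 i) (fun j => (hx' σ j).2.2.1)
    rw [Corex.det_map, Corex.det_map] at h3
    have p1 : ∀ i, 0 < ‖h (σ (y i))‖ := fun i => (Real.exp_pos _).trans_le (hy' σ i).2.2.1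
    have p2 : ∀ j, 0 < ‖h (σ (x j))‖ := fun j => (Real.exp_pos _).trans_le (hx' σ j).2.2.1
    have p3 := norm_pos_iff.2 ((map_ne_zero σ).2 hDy)
    have p4 := norm_pos_iff.2 ((map_ne_zero σ).2 hDx)
    have p5 : 0 < ∏ i, ‖h (σ (y i))‖ := Finset.prod_pos fun i _ => p1 i
    have p6 : 0 < ∏ j, ‖h (σ (x j))‖ := Finset.prod_pos fun j _ => p2 j
    have p7 : (0 : ℝ) < (m + m').factorial := by exact_mod_cast Nat.factorial_pos _
    have p8 : 0 < C := by linarith
    have h4 := Real.log_le_log (by positivity) h3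
    rw [Real.log_mul (by positivity) p4.ne', Real.log_mul p5.ne' p3.ne',
      Real.log_mul (by positivity) p6.ne', Real.log_mul (by positivity) (Real.exp_pos _).ne',
      Real.log_mul p7.ne' (by positivity), Real.log_exp, Real.log_pow,
      Real.log_prod fun i _ => (p1 i).ne', Real.log_prod fun j _ => (p2 j).ne'] at h4
    have h5 := Corex.log_fact (m + m')
    push_cast at h4 h5
    linarith
  have h6 := Finset.sum_le_sum fun σ (_ : σ ∈ (Finset.univ : Finset (K →+* ℂ))) => hone σ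
  rw [Finset.sum_add_distrib, Finset.sum_add_distrib, Finset.sum_add_distrib, Finset.sum_const,
    Corex.card_emb, nsmul_eq_mul, Corex.avg hA y hg hy fun β => Real.log ‖h β‖,
    Corex.avg hA x hg' hx fun β => Real.log ‖h β‖] at h6
  have h7 := Corex.det_low hA y e hc hDy fun σ i' i => ((hy' σ i').1 i).1
  have h8 := Corex.det_low hA x e' hc hDx fun σ i' i => ((hx' σ i').2.1 i).1
  have hn : (0 : ℝ) < Module.finrank ℚ K := by exact_mod_cast Module.finrank_pos
  refine le_of_mul_le_mul_left ?_ hn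
  linarith

end Pool.Agent.P.MP_aef18a_nt.OW
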