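import Pool.Agent.P.MP_aef18a_nt.OW.Iface

namespace Pool.Agent.P.MP_aef18a_nt.OW

open Polynomial Matrix LaurentPolynomial

namespace Core2x

theorem fin (α : ℂ) (E : Finset ℕ) :
    Module.Finite ℚ (Submodule.span ℚ ((fun e : ℕ => α ^ e) '' (E : Set ℕ))) :=
  Module.Finite.span_of_finite ℚ (E.finite_toSet.image _)

theorem bas (α : ℂ) (E : Finset ℕ) : ∃ e : Fin (rk α E) → ℕ, (∀ i, e i ∈ E) ∧
    (∀ z : Fin (rk α E) → ℚ, ∑ i, (z i : ℂ) * α ^ e i = 0 → z = 0) ∧
    ∀ a ∈ E, ∃ μ : Fin (rk α E) → ℚ, α ^ a = ∑ j, (μ j : ℂ) * α ^ e j := by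
  have := fin α E
  obtain ⟨f, h1, h2, h3⟩ :=
    Submodule.exists_fun_fin_finrank_span_eq ℚ ((fun e : ℕ => α ^ e) '' (E : Set ℕ))
  choose e he hf using h1
  refine ⟨e, he, fun z hz => ?_, fun a ha => ?_⟩
  · funext i
    refine Fintype.linearIndependent_iff.1 h3 z ?_ i
    rw [← hz]
    exact Finset.sum_congr rfl fun j _ => by rw [← hf j, Rat.smul_def]
  · have : α ^ a ∈ Submodule.span ℚ (Set.range f) := by
      rw [h2]; exact Submodule.subset_span ⟨a, ha, rfl⟩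
    obtain ⟨μ, hμ⟩ := (Submodule.mem_span_range_iff_exists_fun ℚ).1 this
    refine ⟨μ, hμ.symm.trans ?_⟩
    exact Finset.sum_congr rfl fun j _ => by rw [← hf j, Rat.smul_def]

theorem rk_mono (α : ℂ) {E E' : Finset ℕ} (h : E ⊆ E') : rk α E ≤ rk α E' := by
  have := fin α E'
  exact Submodule.finrank_mono (Submodule.span_mono (Set.image_mono (Finset.coe_subset.2 h)))

theorem push {m : ℕ} {E : Finset ℕ} {e : Fin m → ℕ} (he : ∀ j, e j ∈ E) (z : Fin m → ℚ) (β : ℂ) :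
    ∑ a ∈ E, ((∑ j, if e j = a then z j else 0 : ℚ) : ℂ) * β ^ a = ∑ j, (z j : ℂ) * β ^ e j := by
  push_cast
  simp only [Finset.sum_mul]
  rw [Finset.sum_comm]
  refine Finset.sum_congr rfl fun j _ => ?_
  rw [Finset.sum_eq_single (e j)]
  · simp
  · intro a _ ha
    simp [ha.symm]
  · intro h; exact absurd (he j) h

theorem aev {m : ℕ} (e : Fin m → ℕ) (z : Fin m → ℚ) (β : ℂ) :
    aeval β (∑ i, monomial (e i) (z i) : ℚ[X]) = ∑ j, (z j : ℂ) * β ^ e j := by
  simp [map_sum, aeval_monomial]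

end Core2x

open Core2x in
theorem p_Core2 (h : S_Core) : S_Core2 := by
  intro α α' E E' c C A f Λ hα hα' hE hc hC hA hiff hβ
  obtain ⟨e, he, hi, -⟩ := bas α E
  obtain ⟨e', he', hi', hs⟩ := bas α E'
  choose! μ hμ using hs
  have rel : ∀ β : ℂ, aeval β (minpoly ℚ α) = 0 ∨ aeval β (minpoly ℚ α') = 0 → ∀ a ∈ E',
      β ^ a = ∑ j, (μ a j : ℂ) * β ^ e' j := by
    intro β hb a ha
    have key : ∀ γ : ℂ, ∑ b ∈ E', (((if b = a then 1 else 0) -
        ∑ j, if e' j = b then μ a j else 0 : ℚ) : ℂ) * γ ^ b =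
        aeval γ (X ^ a - ∑ i, monomial (e' i) (μ a i) : ℚ[X]) := fun γ => by
      rw [map_sub, aev, ← push he' (μ a) γ, map_pow, aeval_X]
      simp only [Rat.cast_sub, sub_mul, Finset.sum_sub_distrib]
      congr 1
      rw [Finset.sum_eq_single a]
      · simp
      · intro b _ hb; simp [hb]
      · intro k; exact absurd ha k
    have h1 : aeval α (X ^ a - ∑ i, monomial (e' i) (μ a i) : ℚ[X]) = 0 := by
      rw [map_sub, aev, map_pow, aeval_X, hμ a ha, sub_self]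
    have h2 : aeval α' (X ^ a - ∑ i, monomial (e' i) (μ a i) : ℚ[X]) = 0 := by
      rw [← key] at h1 ⊢
      exact (hiff _).1 h1
    have h3 : aeval β (X ^ a - ∑ i, monomial (e' i) (μ a i) : ℚ[X]) = 0 := by
      rcases hb with hb | hb
      · exact aeval_eq_zero_of_dvd_aeval_eq_zero (minpoly.dvd ℚ α h1) hb
      · exact aeval_eq_zero_of_dvd_aeval_eq_zero (minpoly.dvd ℚ α' h2) hb
    rwa [map_sub, aev, map_pow, aeval_X, sub_eq_zero] at h3
  refine h (minpoly ℚ α) (minpoly ℚ α') (rk α E) (rk α E') e e' c C A f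
    (fun i j => ∑ a ∈ E', Λ (e i) a * μ a j) (minpoly.irreducible hα) (minpoly.irreducible hα')
    (rk_mono α hE) hc hC hA (fun z hz => hi z ?_) (fun z hz => hi' z ?_) fun β hb => ?_
  · rw [← aev]; exact minpoly.dvd_iff.1 hz
  · have h1 := minpoly.dvd_iff.1 hz
    rw [aev, ← push he'] at h1
    rw [← push he']
    exact (hiff _).2 h1
  · obtain ⟨h1, h2, h3⟩ := hβ β hb
    refine ⟨fun i => h1 _ (hE (he i)), fun j => h1 _ (he' j), h2, fun i => ?_⟩
    rw [h3 _ (he i)]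
    simp only [Finset.sum_mul]
    rw [Finset.sum_comm]
    refine Finset.sum_congr rfl fun a ha => ?_
    rw [rel β hb a ha, Finset.mul_sum]
    exact Finset.sum_congr rfl fun j _ => by ring

end Pool.Agent.P.MP_aef18a_nt.OW
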