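import Pool.Agent.P.MP_aef18a_nt.OW.Iface

namespace Pool.Agent.P.MP_aef18a_nt.OW

namespace Divx

theorem succ_pow_le (B a : ℕ) (hB : 1 ≤ B) : (a + 1) ^ B ≤ B ^ B * 2 ^ a := by
  have h1 : a + 1 ≤ B * 2 ^ (a / B) := by
    have h2 : a / B + 1 ≤ 2 ^ (a / B) := Nat.lt_two_pow_self
    have h3 : a < B * (a / B + 1) := Nat.lt_mul_div_succ a hB
    calc a + 1 ≤ B * (a / B + 1) := h3
      _ ≤ B * 2 ^ (a / B) := Nat.mul_le_mul_left _ h2
  calc (a + 1) ^ B ≤ (B * 2 ^ (a / B)) ^ B := Nat.pow_le_pow_left h1 _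
    _ = B ^ B * 2 ^ (a / B * B) := by rw [mul_pow, ← pow_mul]
    _ ≤ B ^ B * 2 ^ a :=
      Nat.mul_le_mul_left _ (Nat.pow_le_pow_right (by omega) (Nat.div_mul_le_self a B))

theorem card_divisors_pow_le (B : ℕ) (hB : 1 ≤ B) :
    ∃ C : ℕ, 1 ≤ C ∧ ∀ n : ℕ, n ≠ 0 → n.divisors.card ^ B ≤ C * n := by
  have hBB : 1 ≤ B ^ B := Nat.one_le_pow _ _ hB
  refine ⟨(B ^ B) ^ (2 ^ B), Nat.one_le_pow _ _ hBB, fun n hn => ?_⟩
  rw [Nat.card_divisors hn, ← Finset.prod_pow]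
  have h1 : ∏ p ∈ n.primeFactors, (n.factorization p + 1) ^ B ≤
      ∏ p ∈ n.primeFactors, ((if p < 2 ^ B then B ^ B else 1) * p ^ n.factorization p) := by
    refine Finset.prod_le_prod' fun p hp => ?_
    have hp2 := (Nat.prime_of_mem_primeFactors hp).two_le
    split_ifs with h
    · exact (succ_pow_le B _ hB).trans (Nat.mul_le_mul_left _ (Nat.pow_le_pow_left hp2 _))
    · rw [one_mul]
      have h2 : n.factorization p + 1 ≤ 2 ^ n.factorization p := Nat.lt_two_pow_self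
      calc (n.factorization p + 1) ^ B ≤ (2 ^ n.factorization p) ^ B := Nat.pow_le_pow_left h2 _
        _ = (2 ^ B) ^ n.factorization p := by rw [← pow_mul, ← pow_mul, mul_comm]
        _ ≤ p ^ n.factorization p := Nat.pow_le_pow_left (by omega) _
  refine h1.trans ?_
  rw [Finset.prod_mul_distrib]
  have h2 : ∏ p ∈ n.primeFactors, p ^ n.factorization p = n := by
    conv_rhs => rw [← Nat.prod_factorization_pow_eq_self hn]
    rfl
  rw [h2]
  refine Nat.mul_le_mul_right _ ?_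
  rw [← Finset.prod_filter, Finset.prod_const]
  refine Nat.pow_le_pow_right hBB ?_
  calc (n.primeFactors.filter fun p => p < 2 ^ B).card ≤ (Finset.range (2 ^ B)).card :=
        Finset.card_le_card fun p hp => Finset.mem_range.2 (Finset.mem_filter.1 hp).2
    _ = 2 ^ B := Finset.card_range _

end Divx

open Divx

theorem p_Div : S_Div := by
  intro ε hε
  obtain ⟨B, hB⟩ := exists_nat_one_div_lt hε
  obtain ⟨C, hC1, hC⟩ := card_divisors_pow_le (B + 1) (by omega)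
  have hC0 : (0 : ℝ) < C := by exact_mod_cast hC1
  refine ⟨(C : ℝ) ^ (((B + 1 : ℕ) : ℝ)⁻¹), by positivity, fun m hm => ?_⟩
  have hm1 : (1 : ℝ) ≤ m := by exact_mod_cast Nat.one_le_iff_ne_zero.2 hm
  have h1 : (m.divisors.card : ℝ) ^ (B + 1) ≤ C * m := by exact_mod_cast hC m hm
  calc (m.divisors.card : ℝ) = ((m.divisors.card : ℝ) ^ (B + 1)) ^ (((B + 1 : ℕ) : ℝ)⁻¹) :=
        (Real.pow_rpow_inv_natCast (by positivity) (by omega)).symm
    _ ≤ ((C : ℝ) * m) ^ (((B + 1 : ℕ) : ℝ)⁻¹) :=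
        Real.rpow_le_rpow (by positivity) h1 (by positivity)
    _ = (C : ℝ) ^ (((B + 1 : ℕ) : ℝ)⁻¹) * (m : ℝ) ^ (((B + 1 : ℕ) : ℝ)⁻¹) :=
        Real.mul_rpow hC0.le (by positivity)
    _ ≤ _ := by
        refine mul_le_mul_of_nonneg_left (Real.rpow_le_rpow_of_exponent_le hm1 ?_) (by positivity)
        push_cast; rw [← one_div]; exact hB.le

end Pool.Agent.P.MP_aef18a_nt.OW
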