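import Pool.Agent.P.MP_aef18a_nt.OW.Iface

namespace Pool.Agent.P.MP_aef18a_nt.OW

open Polynomial Matrix LaurentPolynomial

namespace Ebzx

/-- the box -/
noncomputable def box (r E : ℕ) : Finset (Fin r → ℤ) :=
  Fintype.piFinset fun _ => Finset.Ico (0 : ℤ) E

lemma mem_box {r E : ℕ} {v : Fin r → ℤ} : v ∈ box r E ↔ ∀ i, 0 ≤ v i ∧ v i < E := by
  simp [box]

lemma card_box (r E : ℕ) : (box r E).card = E ^ r := by
  simp [box]

lemma card_slice {r E : ℕ} (hE : 0 < E) (i : Fin r) :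
    ((box r E).filter fun v => v i = 0).card * E = E ^ r := by
  rw [box, Fintype.card_filter_piFinset_const_eq_of_mem _ i (by simpa using hE)]
  simp only [Int.card_Ico, sub_zero, Int.toNat_natCast, Fintype.card_fin]
  rw [← pow_succ, Nat.sub_add_cancel (Nat.one_le_of_lt i.2)]

lemma num {r D E Y : ℕ} (h : 2 * r * D ≤ E) (hE : 0 < E) :
    r ^ 2 * D ^ 2 * (2 * (r * E * Y) / (4 * r ^ 3 * D ^ 2 * Y / E + 1) + 1) < E ^ 2 := by
  have h1 : 4 * r ^ 3 * D ^ 2 * Y < (4 * r ^ 3 * D ^ 2 * Y / E + 1) * E :=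
    (Nat.div_lt_iff_lt_mul hE).1 (Nat.lt_succ_self _)
  generalize 4 * r ^ 3 * D ^ 2 * Y / E + 1 = l at h1 ⊢
  have h2 := Nat.div_mul_le_self (2 * (r * E * Y)) l
  generalize 2 * (r * E * Y) / l = q at h2 ⊢
  have h3 : 2 * (r ^ 2 * D ^ 2 * q) * l < E ^ 2 * l :=
    calc 2 * (r ^ 2 * D ^ 2 * q) * l = 2 * r ^ 2 * D ^ 2 * (q * l) := by ring
      _ ≤ 2 * r ^ 2 * D ^ 2 * (2 * (r * E * Y)) := Nat.mul_le_mul_left _ h2
      _ = 4 * r ^ 3 * D ^ 2 * Y * E := by ring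
      _ < l * E * E := Nat.mul_lt_mul_of_pos_right h1 hE
      _ = E ^ 2 * l := by ring
  have h4 := Nat.lt_of_mul_lt_mul_right h3
  have h5 : 4 * (r ^ 2 * D ^ 2) ≤ E ^ 2 :=
    calc 4 * (r ^ 2 * D ^ 2) = (2 * r * D) ^ 2 := by ring
      _ ≤ E ^ 2 := Nat.pow_le_pow_left h 2
  rw [mul_add]
  omega

lemma span_map {R S : Type} [CommRing R] [CommRing S] (φ : R →+* S) {A B f : R}
    (h : f ∈ Ideal.span {A, B}) : φ f ∈ Ideal.span {φ A, φ B} := by
  obtain ⟨a, b, rfl⟩ := Ideal.mem_span_pair.1 h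
  exact Ideal.mem_span_pair.2 ⟨φ a, φ b, by rw [map_add, map_mul, map_mul]⟩

lemma poly {K : Type} [Field K] {r : ℕ} (f : LQ K r) (b : Fin r → ℤ) (s : ℤ) (n : ℕ)
    (h : ∀ u ∈ f.coeff.support, 0 ≤ u ⬝ᵥ b + s ∧ u ⬝ᵥ b + s ≤ n) :
    ∃ p : K[X], p.natDegree ≤ n ∧ toLaurent p = spk b f * T s := by
  refine ⟨∑ u ∈ f.coeff.support, monomial (u ⬝ᵥ b + s).toNat (f.coeff u),
    natDegree_sum_le_of_forall_le _ _ fun u hu => (natDegree_monomial_le _).trans ?_, ?_⟩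
  · have := h u hu
    omega
  · rw [map_sum]
    conv_rhs => rw [eq_sum_single f, map_sum, Finset.sum_mul]
    refine Finset.sum_congr rfl fun u hu => ?_
    rw [spk_single, toLaurent_C_mul_T, mul_T_assoc, Int.toNat_of_nonneg (h u hu).1]

end Ebzx

open Ebzx

theorem p_Ebz (h : S_Ebz1) : S_Ebz := by
  intro K _ r D E Y A B b hA hB hAB wA wB hD hE hb hN
  rcases r.eq_zero_or_pos with rfl | hr
  · refine ⟨1, one_ne_zero, by simp, ?_⟩
    have h1 : IsUnit A := isUnit_iff.2 ⟨hA, fun u _ u' _ => Subsingleton.elim _ _⟩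
    rw [Ideal.eq_top_of_isUnit_mem _ (Ideal.subset_span (Set.mem_insert _ _)) (h1.map (spk b))]
    exact Submodule.mem_top
  have h1 := num (Y := Y) hD hE
  have h2 := Nat.div_mul_le_self (4 * r ^ 3 * D ^ 2 * Y) E
  generalize 4 * r ^ 3 * D ^ 2 * Y / E = l at h1 h2
  have h3 : ∀ v ∈ box r E, |v ⬝ᵥ b| ≤ (r * E * Y : ℕ) := fun v hv => by
    push_cast
    exact abs_dot_le (fun i => by
      have := mem_box.1 hv i
      rw [abs_of_nonneg this.1]
      exact this.2.le) hb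
  obtain ⟨c, -, hc⟩ := Finset.exists_lt_card_fiber_of_mul_lt_card_of_maps_to (s := box r E)
    (t := Finset.range (2 * (r * E * Y) / (l + 1) + 1))
    (f := fun v => (v ⬝ᵥ b + (r * E * Y : ℕ)).toNat / (l + 1))
    (n := r ^ 2 * D ^ 2 * E ^ r / E ^ 2) (fun v hv => by
      have := abs_le.1 (h3 v hv)
      exact Finset.mem_range.2 (Nat.lt_succ_of_le (Nat.div_le_div_right (by omega)))) (by
      rw [Finset.card_range, card_box]
      generalize 2 * (r * E * Y) / (l + 1) + 1 = N at h1 ⊢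
      refine Nat.lt_of_mul_lt_mul_right (a := E ^ 2) ?_
      calc N * (r ^ 2 * D ^ 2 * E ^ r / E ^ 2) * E ^ 2
          ≤ N * (r ^ 2 * D ^ 2 * E ^ r) := by
            rw [mul_assoc]
            exact Nat.mul_le_mul_left _ (Nat.div_mul_le_self _ _)
        _ = E ^ r * (r ^ 2 * D ^ 2 * N) := by ring
        _ < E ^ r * E ^ 2 := Nat.mul_lt_mul_of_pos_left h1 (pow_pos hE r))
  obtain ⟨f, f0, fI, fZ⟩ := h K r D E A B hA hB hAB wA wB (by nlinarith) _
    (fun v hv => mem_box.1 (Finset.mem_filter.1 hv).1)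
    ((Nat.div_lt_iff_lt_mul (pow_pos hE 2)).1 hc)
  obtain ⟨p, p1, p2⟩ := poly f b ((r * E * Y : ℕ) - (c * (l + 1) : ℕ)) l fun u hu => by
    obtain ⟨h4, h5⟩ := Finset.mem_filter.1 (fZ hu)
    have h6 := abs_le.1 (h3 u h4)
    have h7 := Nat.div_add_mod' (u ⬝ᵥ b + (r * E * Y : ℕ)).toNat (l + 1)
    have h8 := Nat.mod_lt (u ⬝ᵥ b + (r * E * Y : ℕ)).toNat (y := l + 1) l.succ_pos
    rw [h5] at h7
    generalize (u ⬝ᵥ b + (r * E * Y : ℕ)).toNat % (l + 1) = x at h7 h8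
    generalize c * (l + 1) = y at h7 ⊢
    omega
  have h9 : spk b f ≠ 0 := spk_ne_zero (hN.injOn fun u hu u' hu' i => by
    have a1 := mem_box.1 (Finset.mem_filter.1 (fZ hu)).1 i
    have a2 := mem_box.1 (Finset.mem_filter.1 (fZ hu')).1 i
    omega) f0
  refine ⟨p, ?_, (Nat.mul_le_mul_right _ p1).trans h2, ?_⟩
  · rintro rfl
    rw [map_zero] at p2
    exact h9 ((isUnit_T _).mul_left_eq_zero.1 p2.symm)
  · rw [p2]
    exact Ideal.mul_mem_right _ _ (span_map _ fI)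

theorem p_Cpx (h : S_Ebz1) : S_Cpx := by
  intro r m A B R hm hA hB hAB dA dB
  obtain ⟨D₁, -, b1⟩ := exists_bx A
  obtain ⟨D₂, -, b2⟩ := exists_bx B
  have wA := (b1.mono (Nat.le_add_right D₁ D₂)).wb
  have wB := (b2.mono (Nat.le_add_left D₂ D₁)).wb
  generalize 2 * (D₁ + D₂) = D at wA wB
  refine isUnit_iff.2 ⟨ne_zero_of_dvd_ne_zero (toC_ne_zero (dil_ne_zero hm hA)) dA,
    fun u hu u' hu' => funext fun i => ?_⟩
  obtain ⟨E, hE⟩ : ∃ E, E = r ^ 2 * D ^ 2 + 2 * D + 1 := ⟨_, rfl⟩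
  have h0 : 0 < E := by omega
  obtain ⟨f, f0, fI, fZ⟩ := h ℚ r D E A B hA hB hAB wA wB (by omega)
    ((box r E).filter fun v => v i = 0) (fun v hv => mem_box.1 (Finset.mem_filter.1 hv).1) (by
      rw [pow_two E, ← mul_assoc, card_slice h0, mul_comm]
      exact Nat.mul_lt_mul_of_pos_left (by omega) (pow_pos h0 r))
  have h1 : R ∣ toC (dil m f) := by
    obtain ⟨a, b, e⟩ := Ideal.mem_span_pair.1 (span_map toC (span_map (dil m) fI))
    rw [← e]
    exact (dA.mul_left _).add (dB.mul_left _)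
  have h2 : ∀ v ∈ (toC (dil m f)).coeff.support, crd i v = 0 := fun v hv => by
    rw [support_toC] at hv
    obtain ⟨w, hw, rfl⟩ := mem_dil hv
    simp [(Finset.mem_filter.1 (fZ hw)).2]
  have h3 := const_of_dvd (crd i) (toC_ne_zero (dil_ne_zero hm f0)) h1
    (fun v hv v' hv' => by rw [h2 v hv, h2 v' hv']) u hu u' hu'
  exact Int.cast_injective (α := ℝ) h3

end Pool.Agent.P.MP_aef18a_nt.OW
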