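import Pool.Agent.P.MP_aef18a_nt.OW.Iface

namespace Pool.Agent.P.MP_aef18a_nt.OW

open Polynomial Matrix LaurentPolynomial

namespace Ebz1x

lemma num {D E : ℤ} (hD : 0 ≤ D) (hE : 2 * D ≤ E) : ∀ (r : ℕ) (a b : Fin r → ℤ),
    (∀ i, 0 ≤ a i ∧ a i ≤ D) → (∀ i, 0 ≤ b i ∧ b i ≤ D) →
    (0 ≤ ∏ i, (E - a i - b i) ∧ ∏ i, (E - a i - b i) ≤ E ^ r) ∧
    (∏ i, (E - a i) - ∏ i, (E - a i - b i)) * E ≤ r * D * E ^ r ∧
    (∏ i, (E - b i) - ∏ i, (E - a i - b i)) * E ≤ r * D * E ^ r ∧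
    (E ^ r - ∏ i, (E - a i) - ∏ i, (E - b i) + ∏ i, (E - a i - b i)) * E ^ 2 ≤
      r ^ 2 * D ^ 2 * E ^ r := by
  intro r
  induction r with
  | zero => simp
  | succ r ih =>
    intro a b ha hb
    obtain ⟨⟨h1, h2⟩, h3, h4, h5⟩ := ih (fun i => a i.succ) (fun i => b i.succ)
      (fun i => ha _) fun i => hb _
    obtain ⟨a1, a2⟩ := ha 0
    obtain ⟨b1, b2⟩ := hb 0
    simp only [Fin.prod_univ_succ, pow_succ E r]
    generalize ∏ i : Fin r, (E - a i.succ - b i.succ) = z at *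
    generalize ∏ i : Fin r, (E - a i.succ) = x at *
    generalize ∏ i : Fin r, (E - b i.succ) = y at *
    have hP : 0 ≤ E ^ r := h1.trans h2
    generalize E ^ r = P at *
    generalize a 0 = s at *
    generalize b 0 = t at *
    have hr : (0 : ℤ) ≤ r := Int.natCast_nonneg r
    have hE0 : 0 ≤ E := by omega
    have hR : 0 ≤ r * D * P := by positivity
    have k : ∀ x s t : ℤ, 0 ≤ s → s ≤ D → 0 ≤ t → t ≤ D → (x - z) * E ≤ r * D * P →
        ((E - s) * x - (E - s - t) * z) * E ≤ (r + 1) * D * (P * E) := by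
      intro x s t s1 s2 t1 t2 h
      have e1 := mul_le_mul_of_nonneg_left h (show 0 ≤ E - s by omega)
      have e2 := mul_nonneg s1 hR
      have e3 := mul_le_mul_of_nonneg_right (mul_le_mul t2 h2 h1 hD) hE0
      linarith
    push_cast
    refine ⟨⟨mul_nonneg (by omega) h1, ?_⟩, k x s t a1 a2 b1 b2 h3, ?_, ?_⟩
    · rw [mul_comm P]
      exact mul_le_mul (by omega) h2 h1 hE0
    · rw [sub_right_comm E s t]
      exact k y t s b1 b2 a1 a2 h4
    · have e1 := mul_le_mul_of_nonneg_left h5 hE0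
      have e2 := mul_le_mul_of_nonneg_left h3 (mul_nonneg a1 hE0)
      have e3 := mul_le_mul_of_nonneg_left h4 (mul_nonneg b1 hE0)
      have e4 := mul_le_mul_of_nonneg_right a2 (mul_nonneg hE0 hR)
      have e5 := mul_le_mul_of_nonneg_right b2 (mul_nonneg hE0 hR)
      have e6 : 0 ≤ D ^ 2 * (P * E) := by positivity
      linarith

variable {K : Type} [Field K] {r : ℕ}

/-- the space of Laurent polynomials supported in a finite set -/
noncomputable def sp (K : Type) [Field K] (Z : Finset (Fin r → ℤ)) : Submodule K (LQ K r) :=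
  AddMonoidAlgebra.supported K K (Z : Set (Fin r → ℤ))

lemma mem_sp {Z : Finset (Fin r → ℤ)} {f : LQ K r} : f ∈ sp K Z ↔ f.coeff.support ⊆ Z :=
  AddMonoidAlgebra.mem_supported.trans Finset.coe_subset

instance (Z : Finset (Fin r → ℤ)) : FiniteDimensional K (sp K Z) :=
  (AddMonoidAlgebra.supportedEquivFinsupp (R := K) (S := K)
    (Z : Set (Fin r → ℤ))).symm.finiteDimensional

lemma finrank_sp (Z : Finset (Fin r → ℤ)) : Module.finrank K (sp K Z) = Z.card := by
  rw [sp, (AddMonoidAlgebra.supportedEquivFinsupp (R := K) (S := K)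
    (Z : Set (Fin r → ℤ))).finrank_eq, Module.finrank_finsupp_self]
  simp

/-- a box -/
noncomputable def box (l h : Fin r → ℤ) : Finset (Fin r → ℤ) :=
  Fintype.piFinset fun i => Finset.Ico (l i) (h i)

lemma mem_box {l h v : Fin r → ℤ} : v ∈ box l h ↔ ∀ i, l i ≤ v i ∧ v i < h i := by
  simp [box]

lemma card_box {l h : Fin r → ℤ} (H : ∀ i, l i ≤ h i) :
    ((box l h).card : ℤ) = ∏ i, (h i - l i) := by
  rw [box, Fintype.card_piFinset, Nat.cast_prod]
  exact Finset.prod_congr rfl fun i _ => Int.card_Ico_of_le _ _ (H i)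

/-- `l`, `h` are the least and the largest exponents -/
def Ex (A : LQ K r) (l h : Fin r → ℤ) : Prop :=
  ∀ i, (∀ u ∈ A.coeff.support, l i ≤ u i ∧ u i ≤ h i) ∧ (∃ u ∈ A.coeff.support, u i = l i) ∧
    ∃ u ∈ A.coeff.support, u i = h i

lemma exists_ex {A : LQ K r} (hA : A ≠ 0) : ∃ l h, Ex A l h := by
  choose u hu h1 using fun i =>
    A.coeff.support.exists_min_image (fun u => u i) (support_nonempty hA)
  choose w hw h2 using fun i =>
    A.coeff.support.exists_max_image (fun u => u i) (support_nonempty hA)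
  exact ⟨fun i => u i i, fun i => w i i, fun i =>
    ⟨fun v hv => ⟨h1 i v hv, h2 i v hv⟩, ⟨_, hu i, rfl⟩, _, hw i, rfl⟩⟩

lemma Ex.wd {A : LQ K r} {l h : Fin r → ℤ} (H : Ex A l h) {D : ℕ} (hD : Wb D A) (i : Fin r) :
    0 ≤ h i - l i ∧ h i - l i ≤ D := by
  obtain ⟨h1, ⟨u, hu, e1⟩, w, hw, e2⟩ := H i
  have := h1 u hu
  have := hD w hw u hu i
  omega

lemma Ex.mul_mem {A U : LQ K r} {l h p q : Fin r → ℤ} (H : Ex A l h)
    (hU : U ∈ sp K (box (p - l) (q - h))) : A * U ∈ sp K (box p q) := by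
  refine mem_sp.2 fun z hz => mem_box.2 fun i => ?_
  obtain ⟨u, hu, w, hw, rfl⟩ := mem_mul hz
  have := (H i).1 u hu
  have := mem_box.1 (mem_sp.1 hU hw) i
  simp only [Pi.sub_apply, Pi.add_apply] at *
  omega

lemma Ex.of_mul {A W : LQ K r} {l h p q : Fin r → ℤ} (H : Ex A l h) (hA : A ≠ 0)
    (hU : A * W ∈ sp K (box p q)) : W ∈ sp K (box (p - l) (q - h)) := by
  rcases eq_or_ne W 0 with rfl | hW
  · exact zero_mem _
  refine mem_sp.2 fun v hv => mem_box.2 fun i => ?_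
  obtain ⟨-, ⟨u1, hu1, e1⟩, u2, hu2, e2⟩ := H i
  obtain ⟨u, -, w, -, z, hz, a1, a2, a3⟩ := exists_top_mul (crd i) hA hW
  obtain ⟨u', -, w', -, z', hz', b1, b2, b3⟩ := exists_top_mul (-crd i) hA hW
  have c1 := a1 u2 hu2
  have c2 := a2 v hv
  have c3 := b1 u1 hu1
  have c4 := b2 v hv
  have c5 := (mem_box.1 (mem_sp.1 hU hz) i).2
  have c6 := (mem_box.1 (mem_sp.1 hU hz') i).1
  simp only [AddMonoidHom.neg_apply, crd_apply] at *
  norm_cast at *
  simp only [Pi.sub_apply]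
  omega

lemma finrank_map {A : LQ K r} (hA : A ≠ 0) (Z : Finset (Fin r → ℤ)) :
    Module.finrank K ((sp K Z).map (LinearMap.mulLeft K A)) = Z.card := by
  rw [← finrank_sp (K := K) Z]
  exact (Submodule.equivMapOfInjective _ (mul_right_injective₀ hA) _).finrank_eq.symm

end Ebz1x

open Ebz1x in
theorem p_Ebz1 : S_Ebz1 := by
  intro K _ r D E A B hA hB hAB wA wB hE Z hZ hc
  have := ufd K r
  obtain ⟨l, h, eA⟩ := exists_ex hA
  obtain ⟨l', h', eB⟩ := exists_ex hB
  have dA := eA.wd wA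
  have dB := eB.wd wB
  have hE' : 2 * (D : ℤ) ≤ E := by exact_mod_cast hE
  have hn := (num (Int.natCast_nonneg D) hE' r _ _ dA dB).2.2.2
  set q : Fin r → ℤ := fun _ => E with hq
  set X := (sp K (box (0 - l) (q - h))).map (LinearMap.mulLeft K A) with hX
  set Y := (sp K (box (0 - l') (q - h'))).map (LinearMap.mulLeft K B) with hY
  have h1 : X ⊓ Y ≤ (sp K (box (0 - l' - l) (q - h' - h))).map (LinearMap.mulLeft K (B * A)) := by
    rintro f ⟨⟨U, -, e1⟩, V, hV, e2⟩
    simp only [LinearMap.mulLeft_apply] at e1 e2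
    obtain ⟨W, rfl⟩ : A ∣ V := hAB.dvd_of_dvd_mul_left ⟨U, e2.trans e1.symm⟩
    exact ⟨W, eA.of_mul hA hV, by rw [LinearMap.mulLeft_apply, mul_assoc, e2]⟩
  have h2 : X ⊔ Y ≤ sp K (box 0 q) := by
    refine sup_le ?_ ?_
    · rintro _ ⟨U, hU, rfl⟩
      exact eA.mul_mem hU
    · rintro _ ⟨U, hU, rfl⟩
      exact eB.mul_mem hU
  have h3 : sp K Z ≤ sp K (box 0 q) := fun f hf =>
    mem_sp.2 ((mem_sp.1 hf).trans fun v hv => mem_box.2 (hZ v hv))
  by_contra hno
  have h4 : (X ⊔ Y) ⊓ sp K Z = ⊥ := by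
    refine (Submodule.eq_bot_iff _).2 fun f hf => ?_
    by_contra h0
    obtain ⟨_, ⟨U, -, rfl⟩, _, ⟨V, -, rfl⟩, e⟩ := Submodule.mem_sup.1 hf.1
    exact hno ⟨f, h0, Ideal.mem_span_pair.2 ⟨U, V, by rw [← e, mul_comm U, mul_comm V]; rfl⟩,
      mem_sp.1 hf.2⟩
  have f1 := Submodule.finrank_sup_add_finrank_inf_eq X Y
  have f2 := Submodule.finrank_sup_add_finrank_inf_eq (X ⊔ Y) (sp K Z)
  have f3 := Submodule.finrank_mono h1
  have f4 := Submodule.finrank_mono (sup_le h2 h3)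
  rw [h4, finrank_bot, finrank_sp] at f2
  rw [finrank_map (mul_ne_zero hB hA)] at f3
  rw [finrank_sp] at f4
  have fX : Module.finrank K X = _ := finrank_map hA _
  have fY : Module.finrank K Y = _ := finrank_map hB _
  have c0 : ((box 0 q).card : ℤ) = E ^ r := by
    rw [card_box fun i => by simp [hq]]
    simp [hq]
  have c1 : ((box (0 - l) (q - h)).card : ℤ) = ∏ i, (E - (h i - l i)) := by
    rw [card_box fun i => by have := dA i; simp only [Pi.sub_apply, Pi.zero_apply, hq]; omega]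
    exact Finset.prod_congr rfl fun i _ => by simp only [Pi.sub_apply, Pi.zero_apply, hq]; ring
  have c2 : ((box (0 - l') (q - h')).card : ℤ) = ∏ i, (E - (h' i - l' i)) := by
    rw [card_box fun i => by have := dB i; simp only [Pi.sub_apply, Pi.zero_apply, hq]; omega]
    exact Finset.prod_congr rfl fun i _ => by simp only [Pi.sub_apply, Pi.zero_apply, hq]; ring
  have c3 : ((box (0 - l' - l) (q - h' - h)).card : ℤ) =
      ∏ i, (E - (h i - l i) - (h' i - l' i)) := by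
    rw [card_box fun i => by
      have := dA i; have := dB i; simp only [Pi.sub_apply, Pi.zero_apply, hq]; omega]
    exact Finset.prod_congr rfl fun i _ => by simp only [Pi.sub_apply, Pi.zero_apply, hq]; ring
  rw [← c0, ← c1, ← c2, ← c3, c0] at hn
  have hc' : (r : ℤ) ^ 2 * D ^ 2 * E ^ r < Z.card * E ^ 2 := by exact_mod_cast hc
  have := lt_of_mul_lt_mul_right (hn.trans_lt hc') (sq_nonneg _)
  omega

end Pool.Agent.P.MP_aef18a_nt.OW
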