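import Pool.Agent.P.MP_aef18a_nt.OW.Iface

/-! The logarithmic energy of the roots. -/

namespace Pool.Agent.P.MP_aef18a_nt.OW

open Polynomial Matrix LaurentPolynomial

namespace Energyx

open Finset ComplexConjugate

theorem series (R : Finset ℂ) (z : ℂ → ℂ) (h : ∀ β ∈ R, ‖z β‖ < 1) :
    HasSum (fun n : ℕ => ‖∑ β ∈ R, z β ^ n‖ ^ 2 / n)
      (∑ β ∈ R, ∑ β' ∈ R, -Real.log ‖1 - z β * conj (z β')‖) := by
  have h1 := hasSum_sum (s := R) fun β hβ => hasSum_sum (s := R) fun β' hβ' =>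
    Complex.hasSum_re (Complex.hasSum_taylorSeries_neg_log (z := z β * conj (z β')) (by
      rw [norm_mul, Complex.norm_conj]
      exact mul_lt_one_of_nonneg_of_lt_one_left (norm_nonneg _) (h β hβ) (h β' hβ').le))
  simp only [Complex.neg_re, Complex.log_re] at h1
  refine h1.congr_fun fun n => ?_
  simp only [← Complex.re_sum, ← sum_div, mul_pow, ← map_pow, ← sum_mul_sum, ← map_sum,
    Complex.mul_conj, Complex.div_natCast_re, Complex.ofReal_re, Complex.sq_norm]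

theorem off {z w : ℂ} (hz : ‖z‖ ≤ 1) (hw : ‖w‖ ≤ 1) : ‖z - w‖ ≤ ‖1 - z * conj w‖ := by
  have h1 : ‖z‖ ^ 2 ≤ 1 := pow_le_one₀ (norm_nonneg _) hz
  have h2 : ‖w‖ ^ 2 ≤ 1 := pow_le_one₀ (norm_nonneg _) hw
  refine le_of_pow_le_pow_left₀ two_ne_zero (norm_nonneg _) ?_
  have := mul_nonneg (sub_nonneg.2 h1) (sub_nonneg.2 h2)
  simp only [Complex.sq_norm, Complex.normSq_apply, Complex.sub_re, Complex.sub_im, Complex.mul_re,
    Complex.mul_im, Complex.conj_re, Complex.conj_im, Complex.one_re, Complex.one_im] at this ⊢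
  nlinarith

theorem diag {z : ℂ} {N : ℝ} (hN : 1 ≤ N) (hz : ‖z‖ ≤ Real.exp (-(1 / N))) :
    ‖z‖ < 1 ∧ -Real.log ‖1 - z * conj z‖ ≤ 1 + Real.log N := by
  have N0 : 0 < N := by linarith
  have h1 : Real.exp (-(1 / N)) ≤ N / (N + 1) := by
    rw [Real.exp_neg, ← inv_div (N + 1)]
    refine inv_anti₀ (by positivity) ((Real.add_one_le_exp _).trans' (le_of_eq ?_))
    field_simp
    ring
  have h2 : N / (N + 1) ≤ 1 - (2 * N)⁻¹ := by
    rw [div_le_iff₀ (by positivity)]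
    field_simp
    nlinarith
  have h3 : 0 < (2 * N)⁻¹ := by positivity
  have h4 : ‖z‖ < 1 := by linarith
  have h5 : (2 * N)⁻¹ ≤ ‖1 - z * conj z‖ := by
    have := norm_sub_norm_le 1 (z * conj z)
    rw [norm_one, norm_mul, Complex.norm_conj] at this
    nlinarith [norm_nonneg z]
  have h6 := Real.log_le_log h3 h5
  rw [Real.log_inv, Real.log_mul two_ne_zero N0.ne'] at h6
  exact ⟨h4, by linarith [Real.log_two_lt_d9]⟩

theorem main {C : ℝ} (hC : 1 ≤ C) (R : Finset ℂ) {N : ℕ} (hN : 1 ≤ N) (hd : R.card ≤ N)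
    (h : ∀ β ∈ R, ‖β‖ ^ N ≤ C) (hD : 0 ≤ ∑ β ∈ R, ∑ β' ∈ R.erase β, Real.log ‖β - β'‖) :
    ∑ j ∈ Icc 1 N, ‖∑ β ∈ R, β ^ j‖ ^ 2 / j ≤
      Real.exp (2 * (1 + Real.log C)) * (2 + Real.log C) * N * (1 + Real.log N) := by
  have N1 : (1 : ℝ) ≤ N := by exact_mod_cast hN
  have N0 : (0 : ℝ) < N := by linarith
  have d1 : (R.card : ℝ) ≤ N := by exact_mod_cast hd
  have lC := Real.log_nonneg hC
  have lN := Real.log_nonneg N1
  obtain ⟨L, hL⟩ : ∃ L, L = 1 + Real.log C := ⟨_, rfl⟩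
  have L0 : 0 ≤ L := by linarith
  obtain ⟨ρ, hρ⟩ : ∃ ρ, ρ = Real.exp (-(L / N)) := ⟨_, rfl⟩
  have ρ0 : 0 < ρ := hρ ▸ Real.exp_pos _
  have nz : ∀ β : ℂ, ‖(ρ : ℂ) * β‖ = ρ * ‖β‖ := fun β => by
    rw [norm_mul, Complex.norm_real, Real.norm_of_nonneg ρ0.le]
  have hz : ∀ β ∈ R, ‖(ρ : ℂ) * β‖ ≤ Real.exp (-(1 / N)) := fun β hβ => by
    have h1 : ‖β‖ ≤ Real.exp (Real.log C / N) := by
      refine le_of_pow_le_pow_left₀ (n := N) (by omega) (Real.exp_pos _).le ?_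
      rw [← Real.exp_nat_mul, mul_div_cancel₀ _ N0.ne', Real.exp_log (by linarith)]
      exact h β hβ
    rw [nz]
    refine (mul_le_mul_of_nonneg_left h1 ρ0.le).trans_eq ?_
    rw [hρ, ← Real.exp_add, hL]
    congr 1
    ring
  have h1 := sum_le_hasSum (Icc 1 N) (fun _ _ => by positivity)
    (series R (fun β => ρ * β) fun β hβ => (diag N1 (hz β hβ)).1)
  have h2 : ∑ β ∈ R, ∑ β' ∈ R, -Real.log ‖1 - ρ * β * conj (ρ * β')‖ ≤
      ∑ β ∈ R, (1 + Real.log N + L - ∑ β' ∈ R.erase β, Real.log ‖β - β'‖) := by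
    refine sum_le_sum fun β hβ => ?_
    have h3 : ∑ β' ∈ R.erase β, -Real.log ‖1 - ρ * β * conj (ρ * β')‖ ≤
        ∑ β' ∈ R.erase β, (L / N - Real.log ‖β - β'‖) := by
      refine sum_le_sum fun β' hβ' => ?_
      have n0 : 0 < ‖β - β'‖ := norm_pos_iff.2 (sub_ne_zero.2 (mem_erase.1 hβ').1.symm)
      have h4 := off (diag N1 (hz β hβ)).1.le (diag N1 (hz β' (mem_erase.1 hβ').2)).1.le
      rw [← mul_sub, nz] at h4
      have h5 := Real.log_le_log (mul_pos ρ0 n0) h4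
      rw [Real.log_mul ρ0.ne' n0.ne'] at h5
      have h6 : Real.log ρ = -(L / N) := by rw [hρ, Real.log_exp]
      linarith
    have h7 : ((R.erase β).card : ℝ) * (L / N) ≤ L := by
      have : ((R.erase β).card : ℝ) ≤ N := by exact_mod_cast card_erase_le.trans hd
      exact (mul_le_mul_of_nonneg_right this (by positivity)).trans_eq (mul_div_cancel₀ _ N0.ne')
    rw [sum_sub_distrib, sum_const, nsmul_eq_mul] at h3
    rw [← add_sum_erase _ _ hβ]
    linarith [(diag N1 (hz β hβ)).2]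
  rw [sum_sub_distrib, sum_const, nsmul_eq_mul] at h2
  have h8 : ∑ j ∈ Icc 1 N, ‖∑ β ∈ R, β ^ j‖ ^ 2 / j ≤
      Real.exp (2 * L) * ∑ j ∈ Icc 1 N, ‖∑ β ∈ R, ((ρ : ℂ) * β) ^ j‖ ^ 2 / j := by
    rw [mul_sum]
    refine sum_le_sum fun j hj => ?_
    have j1 : (j : ℝ) ≤ N := by exact_mod_cast (mem_Icc.1 hj).2
    have e : 1 ≤ Real.exp (2 * L) * (ρ ^ j) ^ 2 := by
      rw [hρ, ← Real.exp_nat_mul, ← Real.exp_nat_mul, ← Real.exp_add]
      refine Real.one_le_exp ?_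
      have := (mul_le_mul_of_nonneg_right j1 (div_nonneg L0 N0.le)).trans_eq
        (mul_div_cancel₀ _ N0.ne')
      push_cast
      linarith
    simp only [mul_pow, ← mul_sum, norm_mul, norm_pow, Complex.norm_real,
      Real.norm_of_nonneg ρ0.le]
    rw [mul_div_assoc, ← mul_assoc]
    exact le_mul_of_one_le_left (by positivity) e
  rw [← hL, mul_assoc, mul_assoc]
  refine h8.trans (mul_le_mul_of_nonneg_left (h1.trans (h2.trans ?_)) (Real.exp_pos _).le)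
  have h9 := mul_le_mul_of_nonneg_right d1 (show 0 ≤ 1 + Real.log N + L by linarith)
  have h10 : 0 ≤ (N : ℝ) * (L * Real.log N) := by positivity
  rw [show 2 + Real.log C = 1 + L by linarith]
  nlinarith

theorem disc (h : S_Nrm) {f : ℤ[X]} (hf : f.Monic) (R : Finset ℂ) (hR : f.aroots ℂ = R.val) :
    0 ≤ ∑ β ∈ R, ∑ β' ∈ R.erase β, Real.log ‖β - β'‖ := by
  obtain ⟨z, hz⟩ := h f (derivative f) hf
  have e : ∀ β ∈ R, aeval β (derivative f) = ∏ β' ∈ R.erase β, (β - β') := fun β hβ => by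
    have := (IsAlgClosed.splits (f.map (algebraMap ℤ ℂ))).eval_root_derivative (hf.map _)
      (x := β) (by rw [← aroots_def, hR]; exact hβ)
    rw [derivative_map, eval_map_algebraMap, ← aroots_def, hR] at this
    exact this
  have n0 : ∀ β ∈ R, ∀ β' ∈ R.erase β, ‖β - β'‖ ≠ 0 := fun β _ β' hβ' =>
    norm_ne_zero_iff.2 (sub_ne_zero.2 (mem_erase.1 hβ').1.symm)
  have e1 : ∏ β ∈ R, ∏ β' ∈ R.erase β, ‖β - β'‖ = |(z : ℝ)| := by
    rw [← Complex.norm_intCast, ← hz, hR, ← prod_eq_multiset_prod, prod_congr rfl e]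
    simp only [norm_prod]
  have z0 : z ≠ 0 := fun k => by
    rw [k, Int.cast_zero, abs_zero] at e1
    exact prod_ne_zero_iff.2 (fun β hβ => prod_ne_zero_iff.2 (n0 β hβ)) e1
  rw [← sum_congr rfl fun β hβ => Real.log_prod (n0 β hβ),
    ← Real.log_prod fun β hβ => prod_ne_zero_iff.2 (n0 β hβ), e1]
  exact Real.log_nonneg (by exact_mod_cast Int.one_le_abs z0)

end Energyx

theorem p_Energy (h : S_Nrm) : S_Energy := by
  intro C hC
  refine ⟨Real.exp (2 * (1 + Real.log C)) * (2 + Real.log C), fun f N hN hu hd hn hb => ?_⟩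
  refine Energyx.main hC ⟨f.aroots ℂ, hn⟩ hN ((card_roots' _).trans (natDegree_map_le.trans hd))
    hb ?_
  rcases Int.isUnit_iff.1 hu with e | e
  · exact Energyx.disc h e _ rfl
  · exact Energyx.disc h (f := -f) (by rw [Monic, leadingCoeff_neg, e, neg_neg]) _ (aroots_neg f)

end Pool.Agent.P.MP_aef18a_nt.OW
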