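import Pool.Agent.P.MP_aef18a_nt.OW.Iface

namespace Pool.Agent.P.MP_aef18a_nt.OW

open Polynomial Matrix LaurentPolynomial

namespace Ex1x

lemma isNS_one : IsNS 1 fun _ => 0 := by
  unfold IsNS
  ext j
  simp

lemma zero_of_gap (hN : S_NS) {V : PowerSeries ℂ} {y : ℕ → ℂ} {s : ℕ}
    (h0 : PowerSeries.coeff 0 V = 1) (hV : IsNS V y)
    (h : ∀ i, 0 < i → i < s → PowerSeries.coeff i V = 0) {j : ℕ} (h1 : 1 ≤ j) (hj : j < s) :
    y j = 0 := by
  refine (hN.2.2.2 V 1 y (fun _ => 0) j h0 (by simp) hV isNS_one).2 (fun i hi => ?_) j h1 le_rfl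
  rcases Nat.eq_zero_or_pos i with rfl | hi0
  · simpa using h0
  · rw [h i hi0 (by omega), PowerSeries.coeff_one, if_neg hi0.ne']

lemma abs_le_of_mul {k s : ℕ} {a B : ℝ} (hs : 1 ≤ s) (hk : s ≤ k) (ha : 0 ≤ a)
    (h : (k : ℝ) * a ≤ B * s) : a ≤ B := by
  have h1 : (1 : ℝ) ≤ s := by exact_mod_cast hs
  have h2 : (s : ℝ) ≤ k := by exact_mod_cast hk
  have h3 : (s : ℝ) * a ≤ k * a := mul_le_mul_of_nonneg_right h2 ha
  by_contra hc
  push Not at hc
  nlinarith

end Ex1x

open Ex1x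

theorem p_Ex1 (hL : S_Lac) (hN : S_NS) (hK : S_Neck) (h1 : S_Nu1) (hC : S_CycMu) : S_Ex1 := by
  intro L s K t S g h St c y₀ η hLac hdeg hS hLev ht
  obtain ⟨-, -, -, hL2, hrev, -⟩ := hL L s S hLac
  have hL2' : 2 ≤ L := (hL2 hdeg).2
  have hs1 : 1 ≤ s := hLac.2.2.1
  have hss : s / L + 1 ≤ s := Nat.div_lt_self hs1 hL2'
  have hS0 : S ≠ 0 := fun e => hLac.1 (by simp [e])
  have hgh : g * h ≠ 0 := hS.gh ▸ hS0
  have hg0 : g ≠ 0 := left_ne_zero_of_mul hgh
  obtain ⟨hg1, hg2⟩ := hN.1 g hg0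
  obtain ⟨e, U, hU0, hV, hy⟩ := hK (rv g) (ps g) (s / L + 1) hg1 hg2 fun i hi =>
    (h1 L s S g h hLac hS.gh).1 i ((Nat.le_div_iff_mul_le (by omega)).1 (by omega))
  set V := rv g * PowerSeries.map (Int.castRingHom ℂ) U with hVdef
  set y : ℕ → ℂ := fun j => ps g j - ∑ d ∈ j.divisors.filter (· < s / L + 1), (d : ℂ) * e d
    with hydef
  have hV0 : PowerSeries.coeff 0 V = 1 := by
    rw [hVdef, PowerSeries.coeff_zero_eq_constantCoeff, map_mul,
      ← PowerSeries.coeff_zero_eq_constantCoeff, hg1, PowerSeries.coeff_map, hU0]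
    simp
  refine ⟨PowerSeries.C h.leadingCoeff * (g.reverse : PowerSeries ℤ) * U, V, y, ?_, hV0, hV, hy,
    fun j hj hjK => ?_⟩
  · have hlc : (g.leadingCoeff : ℂ) ≠ 0 := by exact_mod_cast leadingCoeff_ne_zero.2 hg0
    rw [hVdef, rv, map_mul, map_mul, PowerSeries.map_C, ← Polynomial.polynomial_map_coe, hS.gh,
      leadingCoeff_mul, ← mul_assoc, ← mul_assoc, ← map_mul]
    congr 3
    push_cast
    field_simp
    simp
  · set δ : ℂ := (g.natDegree : ℂ) / St.natDegree with hδ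
    obtain ⟨hS1, hS2⟩ := hN.1 S hS0
    have hpsS : ∀ i, 1 ≤ i → i < s → ps S i = 0 := fun i a b =>
      zero_of_gap hN hS1 hS2 (fun i a b => by
        rw [rv, PowerSeries.coeff_C_mul, coeff_coe, coeff_map, hrev i a b]
        simp) a b
    have hy0 : ∀ i, 1 ≤ i → i < s / L + 1 → y i = 0 := fun i a b => zero_of_gap hN hV0 hy hV a b
    have hη : 0 ≤ (S.natDegree : ℝ) * η :=
      (norm_nonneg _).trans (hS.flat j hj (by exact_mod_cast hjK))
    have hcyc : St * (c.map fun l => cyclotomic l ℤ).prod ≠ 0 := hS.cyc ▸ hS0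
    have key : ∀ d ∈ j.divisors, ‖mu (fun i => y i - δ * ps S i) d‖ ≤ t * (S.natDegree * η) := by
      intro d hd
      have hd1 : 1 ≤ d := Nat.pos_of_mem_divisors hd
      have hdK : d ≤ K := (Nat.divisor_le hd).trans hjK
      by_cases hds : d < s / L + 1
      · rw [mu_congr (y := fun _ => 0) fun i a b _ => by
          rw [hy0 i a (by omega), hpsS i a (by omega)]; simp]
        simp only [mu, mul_zero, Finset.sum_const_zero, norm_zero]
        positivity
      · have e1 : mu (fun i : ℕ => ∑ d ∈ i.divisors.filter (· < s / L + 1), (d : ℂ) * e d) d = 0 := by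
          simp only [Finset.sum_filter]
          rw [mu_sum (fun d => if d < s / L + 1 then (d : ℂ) * e d else 0) hd1, if_neg hds]
        have e2 : mu (ps (c.map fun l => cyclotomic l ℤ).prod) d = 0 := by
          refine hC c d fun l hl => ⟨hS.pos l hl, ?_⟩
          have a1 : cyclotomic l ℤ ∣ S := by
            rw [hS.cyc]
            exact (Multiset.dvd_prod (Multiset.mem_map_of_mem _ hl)).mul_left _
          have a2 := (Nat.le_div_iff_mul_le (by omega : 0 < L)).2 (hLev l (hS.pos l hl) a1)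
          omega
        have e3 : mu (fun i => y i - δ * ps S i) d = mu (fun i => ps g i - δ * ps St i) d := by
          have a1 : (fun i => y i - δ * ps S i) = fun i => (ps g i - δ * ps St i) -
              (∑ d ∈ i.divisors.filter (· < s / L + 1), (d : ℂ) * e d +
                δ * ps (c.map fun l => cyclotomic l ℤ).prod i) := by
            funext i
            conv_lhs => rw [hydef, hS.cyc, ps_mul hcyc]
            ring
          rw [a1, mu_sub, mu_add, mu_mul, e1, e2]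
          simp
        rw [e3]
        refine (norm_mu_le_card (C := S.natDegree * η) fun i a b =>
          hS.flat i a (by exact_mod_cast b.trans hdK)).trans ?_
        exact mul_le_mul_of_nonneg_right (by exact_mod_cast ht d hd1 hdK) hη
    rw [← sum_mu (fun i => y i - δ * ps S i) hj]
    refine (norm_sum_le _ _).trans ((Finset.sum_le_card_nsmul _ _ _ key).trans ?_)
    rw [nsmul_eq_mul]
    calc (j.divisors.card : ℝ) * (t * (S.natDegree * η)) ≤ t * (t * (S.natDegree * η)) :=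
          mul_le_mul_of_nonneg_right (by exact_mod_cast ht j hj hjK) (by positivity)
      _ = _ := by ring

theorem p_Ex2 : S_Ex2 := by
  intro s K k₀ Q₁ Q₂ y x δ ξ P₁ P γ hs hsk hkK hx0 hQ1 hQ2 ⟨v, hv⟩ ⟨σ, hσ⟩ hP1 hj hγ1 hγ2 hξ hsm
  have hs' : (1 : ℝ) ≤ s := by exact_mod_cast hs
  have hq0 : 0 ≤ |(Q₁ : ℝ)| := abs_nonneg _
  have hσ0 : σ ≠ 0 := by
    rintro rfl
    simp only [Int.cast_zero, mul_zero, mul_eq_zero, Int.cast_eq_zero] at hσ
    tauto
  have hσ1 : (1 : ℝ) ≤ |(σ : ℝ)| := by exact_mod_cast Int.one_le_abs hσ0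
  have hσ' : (σ : ℝ) ≠ 0 := by exact_mod_cast hσ0
  have a1 : |(σ : ℝ)| ≤ |(Q₁ : ℝ)| * P₁ := by
    refine abs_le_of_mul hs hsk (abs_nonneg _) ?_
    have := congrArg norm hσ
    rw [norm_mul, norm_mul, Complex.norm_intCast, Complex.norm_intCast, Complex.norm_natCast] at this
    rw [← this, mul_assoc]
    exact mul_le_mul_of_nonneg_left hP1 hq0
  obtain ⟨-, -, hk1, hk2⟩ := hj k₀ hsk hkK
  have hξ0 : 0 ≤ ξ := by
    have := (norm_nonneg _).trans hk1
    by_contra a
    push Not at a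
    nlinarith
  have hP0 : 0 ≤ P := by
    have := (norm_nonneg _).trans hk2
    by_contra a
    push Not at a
    nlinarith
  have a2 : |(v : ℝ) - δ * σ| ≤ |(Q₁ : ℝ)| * ξ := by
    refine abs_le_of_mul hs hsk (abs_nonneg _) ?_
    have e : (Q₁ : ℂ) * (y k₀ - δ * x k₀) = k₀ * (((v : ℝ) - δ * σ : ℝ) : ℂ) := by
      push_cast
      linear_combination hv - δ * hσ
    have := congrArg norm e
    rw [norm_mul, norm_mul, Complex.norm_intCast, Complex.norm_real, Complex.norm_natCast,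
      Real.norm_eq_abs] at this
    rw [← this, mul_assoc]
    exact mul_le_mul_of_nonneg_left hk1 hq0
  set δ' : ℝ := v / σ with hδ'
  have hvσ : (v : ℝ) = δ' * σ := by rw [hδ']; field_simp
  have a3 : |δ' - δ| ≤ |(Q₁ : ℝ)| * ξ := by
    rw [hvσ, ← sub_mul, abs_mul] at a2
    exact (le_mul_of_one_le_right (abs_nonneg _) hσ1).trans a2
  have a4 := abs_le.1 a3
  have b0 : 0 < δ' := by linarith [a4.1]
  have b1 : δ' < 1 := by linarith [a4.2]
  have c0 : ((σ.natAbs : ℕ) : ℝ) = |(σ : ℝ)| := by rw [Nat.cast_natAbs, Int.cast_abs]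
  have c1 : ((v.natAbs : ℕ) : ℝ) = δ' * σ.natAbs := by
    rw [Nat.cast_natAbs, Int.cast_abs, hvσ, abs_mul, abs_of_pos b0, c0]
  refine ⟨v.natAbs, σ.natAbs, ?_, ?_, by rw [c0]; exact a1, fun j h1 h2 => ?_⟩
  · have : (0 : ℝ) < (v.natAbs : ℕ) := by rw [c1, c0]; positivity
    exact_mod_cast this
  · have : ((v.natAbs : ℕ) : ℝ) < (σ.natAbs : ℕ) := by rw [c1, c0]; nlinarith
    exact_mod_cast this
  · obtain ⟨⟨z, hz⟩, ⟨z', hz'⟩, g1, g2⟩ := hj j h1 h2
    set s₀ := σ.natAbs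
    set r := v.natAbs
    have c2 : (r : ℂ) = (δ' : ℂ) * s₀ := by exact_mod_cast congrArg Complex.ofReal c1
    have e : (Q₂ : ℂ) * (s₀ * y j - r * x j) = j * ((s₀ * z - r * z' : ℤ) : ℂ) := by
      push_cast
      linear_combination s₀ * hz - r * hz'
    have d1 : ‖(s₀ : ℂ) * y j - r * x j‖ ≤ s₀ * ((ξ + |(Q₁ : ℝ)| * ξ * P) * s) := by
      have e2 : (s₀ : ℂ) * y j - r * x j =
          s₀ * ((y j - δ * x j) - ((δ' - δ : ℝ) : ℂ) * x j) := by
        rw [c2]; push_cast; ring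
      rw [e2, norm_mul, Complex.norm_natCast]
      refine mul_le_mul_of_nonneg_left ((norm_sub_le _ _).trans ?_) (Nat.cast_nonneg _)
      rw [norm_mul, Complex.norm_real, Real.norm_eq_abs]
      have := mul_le_mul a3 g2 (norm_nonneg _) (by positivity)
      linarith
    have d2 : |((s₀ * z - r * z' : ℤ) : ℝ)| ≤
        |(Q₁ : ℝ)| * P₁ * |(Q₂ : ℝ)| * (ξ + |(Q₁ : ℝ)| * ξ * P) := by
      refine abs_le_of_mul hs h1 (abs_nonneg _) ?_
      have := congrArg norm e
      rw [norm_mul, norm_mul, Complex.norm_intCast, Complex.norm_intCast,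
        Complex.norm_natCast] at this
      rw [← this]
      have d3 : (s₀ : ℝ) * ((ξ + |(Q₁ : ℝ)| * ξ * P) * s) ≤
          |(Q₁ : ℝ)| * P₁ * ((ξ + |(Q₁ : ℝ)| * ξ * P) * s) :=
        mul_le_mul_of_nonneg_right (c0 ▸ a1) (by positivity)
      exact (mul_le_mul_of_nonneg_left (d1.trans d3) (abs_nonneg _)).trans_eq (by ring)
    have d4 : s₀ * z - r * z' = (0 : ℤ) := by
      have : |((s₀ * z - r * z' : ℤ) : ℝ)| < 1 := d2.trans_lt hsm
      rw [← Int.cast_abs] at this
      exact Int.abs_lt_one_iff.1 (by exact_mod_cast this)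
    rw [d4, Int.cast_zero, mul_zero, mul_eq_zero] at e
    exact sub_eq_zero.1 (e.resolve_left (by exact_mod_cast hQ2))

end Pool.Agent.P.MP_aef18a_nt.OW
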