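import Pool.Agent.P.MP_aef18a_nt.OW.Iface

namespace Pool.Agent.P.MP_aef18a_nt.OW

open Polynomial Matrix LaurentPolynomial

namespace Exactx

lemma small (A Cd c : ℝ) (T : ℕ) (hA : 0 ≤ A) (hC : 0 < Cd) (hc : 0 < c) : ∃ N₀ : ℕ, 1 ≤ N₀ ∧
    ∀ N : ℕ, N₀ ≤ N → A * ((⌈Cd * ((T * N : ℕ) : ℝ) ^ (c / 16)⌉₊ : ℝ) ^ 2 * (N : ℝ) ^ (-c)) <
      (N : ℝ) ^ (-(c / 2)) := by
  have h1 := ((tendsto_rpow_atTop (show 0 < 3 * c / 8 by positivity)).comp
    tendsto_natCast_atTop_atTop).eventually_gt_atTop (A * (Cd * (T : ℝ) ^ (c / 16) + 1) ^ 2)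
  obtain ⟨N₀, h2⟩ := Filter.eventually_atTop.1 h1
  refine ⟨max N₀ 1, le_max_right _ _, fun N hN => ?_⟩
  have h3 : A * (Cd * (T : ℝ) ^ (c / 16) + 1) ^ 2 < (N : ℝ) ^ (3 * c / 8) :=
    h2 N ((le_max_left _ _).trans hN)
  have n1 : (1 : ℝ) ≤ N := by exact_mod_cast (le_max_right _ _).trans hN
  have n0 : (0 : ℝ) < N := by linarith
  have h4 : (1 : ℝ) ≤ (N : ℝ) ^ (c / 16) := Real.one_le_rpow n1 (by positivity)
  have h5 : (⌈Cd * ((T * N : ℕ) : ℝ) ^ (c / 16)⌉₊ : ℝ) ≤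
      (Cd * (T : ℝ) ^ (c / 16) + 1) * (N : ℝ) ^ (c / 16) := by
    refine (Nat.ceil_lt_add_one (by positivity)).le.trans ?_
    rw [Nat.cast_mul, Real.mul_rpow (by positivity) n0.le]
    linarith
  have h6 := pow_le_pow_left₀ (by positivity) h5 2
  have h7 : (N : ℝ) ^ (-(c / 2)) =
      (N : ℝ) ^ (3 * c / 8) * (((N : ℝ) ^ (c / 16)) ^ 2 * (N : ℝ) ^ (-c)) := by
    rw [sq, ← Real.rpow_add n0, ← Real.rpow_add n0, ← Real.rpow_add n0]
    congr 1; ring
  rw [h7]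
  refine lt_of_le_of_lt ?_ (mul_lt_mul_of_pos_right h3 (by positivity))
  rw [mul_pow] at h6
  have := mul_le_mul_of_nonneg_left
    (mul_le_mul_of_nonneg_right h6 (Real.rpow_nonneg n0.le (-c))) hA
  linarith

lemma van (hN : S_NS) {u : PowerSeries ℂ} {x : ℕ → ℂ} (h0 : PowerSeries.coeff 0 u = 1)
    (h : IsNS u x) (K : ℕ) :
    (∀ j, 1 ≤ j → j ≤ K → x j = 0) ↔ ∀ i, 0 < i → i ≤ K → PowerSeries.coeff i u = 0 := by
  have h1 : IsNS 1 fun _ => 0 := by
    unfold IsNS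
    ext n
    simp
  rw [hN.2.2.2 u 1 x (fun _ => 0) K h0 (by simp) h h1]
  constructor
  · intro k i hi hK
    rw [k i hK, PowerSeries.coeff_one, if_neg hi.ne']
  · intro k i hK
    rcases Nat.eq_zero_or_pos i with rfl | hi
    · rw [h0]; simp
    · rw [k i hi hK, PowerSeries.coeff_one, if_neg hi.ne']

lemma c_rv {S : ℤ[X]} (h : S ≠ 0) : PowerSeries.C (S.leadingCoeff : ℂ) * rv S =
    PowerSeries.map (Int.castRingHom ℂ) (S.reverse : PowerSeries ℤ) := by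
  have : (S.leadingCoeff : ℂ) ≠ 0 := by exact_mod_cast leadingCoeff_ne_zero.2 h
  rw [rv, ← mul_assoc, ← map_mul, mul_inv_cancel₀ this, map_one, one_mul, polynomial_map_coe]

lemma c_coeff {c : ℂ} {V : PowerSeries ℂ} {Y : PowerSeries ℤ}
    (h : PowerSeries.C c * V = PowerSeries.map (Int.castRingHom ℂ) Y) (i : ℕ) :
    c * PowerSeries.coeff i V = (PowerSeries.coeff i Y : ℤ) := by
  rw [← PowerSeries.coeff_C_mul, h, PowerSeries.coeff_map]; rfl

lemma rt {S : ℤ[X]} (h : S ≠ 0) {V : PowerSeries ℂ} {Y : PowerSeries ℤ} {r s₀ K : ℕ}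
    (hY : PowerSeries.C (S.leadingCoeff : ℂ) * V = PowerSeries.map (Int.castRingHom ℂ) Y)
    (h0 : PowerSeries.coeff 0 V = 1) (hr : r ≤ s₀)
    (he : ∀ j ≤ K, PowerSeries.coeff j (V ^ s₀) = PowerSeries.coeff j (rv S ^ r)) :
    Rt S.reverse r s₀ K Y := by
  constructor
  · have := c_coeff hY 0
    rw [h0, mul_one] at this
    rw [coeff_zero_reverse]
    exact_mod_cast this.symm
  · refine PowerSeries.X_pow_dvd_iff.2 fun m hm => ?_
    have e : PowerSeries.C ((S.leadingCoeff : ℂ) ^ s₀) * (V ^ s₀ - rv S ^ r) =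
        PowerSeries.map (Int.castRingHom ℂ) (Y ^ s₀ - PowerSeries.C (S.reverse.coeff 0 ^ (s₀ - r)) *
          (S.reverse : PowerSeries ℤ) ^ r) := by
      obtain ⟨k, rfl⟩ := Nat.exists_eq_add_of_le hr
      rw [map_sub, map_mul, map_pow (PowerSeries.map _), map_pow (PowerSeries.map _), ← hY,
        ← c_rv h, PowerSeries.map_C, coeff_zero_reverse, Nat.add_sub_cancel_left]
      simp only [map_pow, eq_intCast]
      ring
    have := c_coeff e m
    rw [map_sub, he m (by omega), sub_self, mul_zero] at this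
    exact_mod_cast this.symm

lemma absQ {c : ℤ} {L : ℕ} (h : c.natAbs ≤ L) (M : ℕ) :
    |((c ^ M * M.factorial : ℤ) : ℝ)| ≤ (L : ℝ) ^ M * M.factorial := by
  have : |(c : ℝ)| ≤ L := by
    rw [← Int.cast_abs, Int.abs_eq_natAbs]
    exact_mod_cast h
  push_cast
  rw [abs_mul, abs_pow, Nat.abs_cast]
  gcongr

end Exactx

open Exactx in
theorem p_Exact (hL : S_Lac) (hN : S_NS) (h2 : S_Nu2) (hX1 : S_Ex1) (hX2 : S_Ex2) (hD : S_Div) :
    S_Exact := by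
  intro L J
  refine ⟨L ^ (J * L) * (J * L).factorial * (J * L * L ^ J), fun T c₀ hT hc => ?_⟩
  obtain ⟨Cd, hCd, hd⟩ := hD (c₀ / 16) (by positivity)
  set A1 : ℝ := (L : ℝ) ^ (J * L) * (J * L).factorial with hA1
  set A2 : ℝ := (L : ℝ) ^ (T * J * L) * (T * J * L).factorial with hA2
  set P1 : ℝ := J * L * (L : ℝ) ^ J with hP1
  set P : ℝ := J * L * (L : ℝ) ^ (T * J) with hP
  have a1 : 0 ≤ A1 := by positivity
  have a2 : 0 ≤ A2 := by positivity
  have p1 : 0 ≤ P1 := by positivity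
  have p0 : 0 ≤ P := by positivity
  obtain ⟨N₀, n0, hs⟩ := small (A1 * (J * L) + A1 * P1 * A2 * (J * L * (1 + A1 * P))) Cd c₀ T
    (by positivity) hCd hc
  refine ⟨N₀, fun s S g h St c hN₀ hl hJ hS hv => ?_⟩
  have hs := hs _ hN₀
  have nN : 0 < S.natDegree := by omega
  have nR : (1 : ℝ) ≤ S.natDegree := by exact_mod_cast nN
  obtain ⟨-, l2, -, l4, l5, l6⟩ := hL L s S hl
  obtain ⟨l3, l4⟩ := l4 nN
  have S0 : S ≠ 0 := fun e => hl.1 (by rw [e, coeff_zero])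
  have c0 : S.leadingCoeff ≠ 0 := leadingCoeff_ne_zero.2 S0
  have cC : (S.leadingCoeff : ℂ) ≠ 0 := by exact_mod_cast c0
  set t : ℕ := ⌈Cd * ((T * S.natDegree : ℕ) : ℝ) ^ (c₀ / 16)⌉₊ with ht
  obtain ⟨Y, V, y, y1, y2, y3, y4, y5⟩ := hX1 L s (T * S.natDegree) t S g h St c _ _ hl nN hS hv
    fun m m1 m2 => by
      have : (m.divisors.card : ℝ) ≤ t := (hd m (by omega)).trans (le_trans (by gcongr)
        (Nat.le_ceil _))
      exact_mod_cast this
  set s' := s / L + 1 with hs'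
  have s1 : s' ≤ s := Nat.div_lt_self hl.2.2.1 l4
  have s2 : s ≤ L * s' := (Nat.lt_mul_div_succ s (by omega)).le
  have s0 : 1 ≤ s' := Nat.le_add_left _ _
  clear_value s'
  have s3 : S.natDegree ≤ J * L * s' := by
    rw [mul_assoc]; exact hJ.trans (Nat.mul_le_mul_left _ s2)
  have s4 : (S.natDegree : ℝ) ≤ J * L * s' := by exact_mod_cast s3
  have nK : S.natDegree ≤ T * S.natDegree := Nat.le_mul_of_pos_left _ hT
  obtain ⟨r1, r2⟩ := hN.1 S S0
  have r3 : ∀ i, 0 < i → i < s' → PowerSeries.coeff i (rv S) = 0 := fun i i1 i2 => by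
    have := c_coeff (c_rv S0) i
    rw [coeff_coe, l5 i i1 (by omega), Int.cast_zero] at this
    exact (mul_eq_zero.1 this).resolve_left cC
  have z1 := (van hN y2 y4 (s' - 1)).2 fun i i1 i2 => y3 i i1 (by omega)
  have z2 := (van hN r1 r2 (s' - 1)).2 fun i i1 i2 => r3 i i1 (by omega)
  obtain ⟨k₀, k1, k2, k3⟩ : ∃ k₀, 1 ≤ k₀ ∧ k₀ ≤ S.natDegree ∧ ps S k₀ ≠ 0 := by
    by_contra k
    push Not at k
    have e := c_coeff (c_rv S0) S.natDegree
    rw [(van hN r1 r2 _).1 k _ nN le_rfl, mul_zero, coeff_coe, coeff_reverse, revAt_le le_rfl,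
      Nat.sub_self] at e
    exact hl.1 (by exact_mod_cast e.symm)
  have k4 : s' ≤ k₀ := by
    by_contra k
    exact k3 (z2 k₀ k1 (by omega))
  have nu : ∀ M j : ℕ, 1 ≤ j → j ≤ M * s' →
      (∃ z : ℤ, ((S.leadingCoeff ^ M * M.factorial : ℤ) : ℂ) * y j = j * z) ∧
      ∃ z : ℤ, ((S.leadingCoeff ^ M * M.factorial : ℤ) : ℂ) * ps S j = j * z := fun M j j1 j2 => by
    push_cast
    exact ⟨h2 V y _ s' M j (by omega) y2 y3 (fun i => ⟨_, c_coeff y1 i⟩) y4 j1 j2,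
      h2 _ _ _ s' M j (by omega) r1 r3 (fun i => ⟨_, c_coeff (c_rv S0) i⟩) r2 j1 j2⟩
  have bd : ∀ M j : ℕ, j ≤ M * s → ‖ps S j‖ ≤ J * L * (L : ℝ) ^ M * s' := fun M j hj => by
    refine (norm_ps_le fun β hβ => (l6 β (mem_aroots.1 hβ).2).2.1 M j hj).trans ?_
    have := mul_le_mul_of_nonneg_right s4 (show (0 : ℝ) ≤ (L : ℝ) ^ M by positivity)
    linarith
  have q0 : ∀ M : ℕ, S.leadingCoeff ^ M * (M.factorial : ℤ) ≠ 0 := fun M =>
    mul_ne_zero (pow_ne_zero _ c0) (by exact_mod_cast M.factorial_ne_zero)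
  have q1 := absQ l2 (J * L)
  have q2 := absQ l2 (T * J * L)
  rw [← hA1] at q1
  rw [← hA2] at q2
  have hn : (St.natDegree : ℝ) ≤ S.natDegree := by
    exact_mod_cast natDegree_le_of_dvd ⟨_, hS.cyc⟩ S0
  have g0 : 0 < (S.natDegree : ℝ) ^ (-(c₀ / 2)) := by positivity
  have g1 : (S.natDegree : ℝ) ^ (-(c₀ / 2)) ≤ 1 :=
    Real.rpow_le_one_of_one_le_of_nonpos nR (by linarith)
  have g2 : (S.natDegree : ℝ) ^ (1 - c₀ / 2) = (S.natDegree : ℝ) ^ (-(c₀ / 2)) * S.natDegree := by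
    rw [sub_eq_neg_add, Real.rpow_add (by linarith), Real.rpow_one]
  have g3 := hS.lo
  have g4 := hS.hi
  rw [g2] at g3 g4
  have g5 := mul_le_mul_of_nonneg_left hn g0.le
  have g6 : (0 : ℝ) < St.natDegree := by
    have : 0 < (S.natDegree : ℝ) ^ (-(c₀ / 2)) * S.natDegree := by positivity
    linarith
  set u : ℝ := (t : ℝ) ^ 2 * (S.natDegree : ℝ) ^ (-c₀) with hu
  have u0 : 0 ≤ u := by positivity
  have v1 : 0 ≤ A1 * (J * L) * u := by positivity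
  have v2 : 0 ≤ A1 * P1 * A2 * (J * L * (1 + A1 * P)) * u := by positivity
  obtain ⟨r, s₀, e1, e2, e3, e4⟩ := hX2 s' (T * S.natDegree) k₀ _ _ y (ps S)
    (g.natDegree / St.natDegree) (J * L * u) P1 P ((S.natDegree : ℝ) ^ (-(c₀ / 2))) (by omega) k4
    (k2.trans nK) k3 (q0 (J * L)) (q0 (T * J * L)) (nu _ _ k1 (k2.trans s3)).1
    (nu _ _ k1 (k2.trans s3)).2 (bd J k₀ (k2.trans hJ))
    (fun j j1 j2 => by
      have j3 : j ≤ T * J * L * s' := by
        rw [mul_assoc T, mul_assoc T]; exact j2.trans (Nat.mul_le_mul_left _ s3)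
      refine ⟨(nu _ _ (by omega) j3).1, (nu _ _ (by omega) j3).2, ?_, bd _ _ ?_⟩
      · have k5 := y5 j (by omega) j2
        have k6 := mul_le_mul_of_nonneg_right s4 u0
        push_cast
        rw [hu] at k6 ⊢
        linarith
      · rw [mul_assoc]; exact j2.trans (Nat.mul_le_mul_left _ hJ))
    (by rw [le_div_iff₀ g6]; linarith) (by rw [div_le_iff₀ g6]; linarith)
    (by
      have := mul_le_mul_of_nonneg_right q1 (show 0 ≤ J * L * u by positivity)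
      linarith)
    (by
      refine lt_of_le_of_lt (b := A1 * P1 * A2 * (J * L * u + A1 * (J * L * u) * P)) ?_
        (by linarith)
      gcongr)
  refine ⟨r, s₀, Y, e1, e2, ?_, rt S0 y1 y2 e2.le ?_⟩
  · have := e3.trans (mul_le_mul_of_nonneg_right q1 p1)
    rw [hA1, hP1] at this
    exact_mod_cast this
  · refine (hN.2.2.2 _ _ _ _ _ ?_ ?_ (hN.2.2.1 _ _ s₀ y4) (hN.2.2.1 _ _ r r2)).1 fun j j1 j2 => ?_
    · rw [PowerSeries.coeff_zero_eq_constantCoeff] at y2 ⊢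
      rw [map_pow, y2, one_pow]
    · rw [PowerSeries.coeff_zero_eq_constantCoeff] at r1 ⊢
      rw [map_pow, r1, one_pow]
    · by_cases j3 : s' ≤ j
      · exact e4 j j3 j2
      · show (s₀ : ℂ) * y j = r * ps S j
        rw [z1 j j1 (by omega), z2 j j1 (by omega), mul_zero, mul_zero]

end Pool.Agent.P.MP_aef18a_nt.OW
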