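import Pool.Agent.P.MP_aef18a_nt.OW.Iface

/-! Conjugates of an algebraic number: a nonzero determinant, and averages over embeddings. -/

namespace Pool.Agent.P.MP_aef18a_nt.OW

open Polynomial Matrix LaurentPolynomial

namespace Fc2x

section
variable {K : Type} [Field K] [Algebra ℚ K]

/-- a functional applied to all coefficients -/
noncomputable def cw (f : K →ₗ[ℚ] ℚ) : K[X] →ₗ[ℚ] ℚ[X] := lsum fun n => monomial n ∘ₗ f

theorem cw_mon (f : K →ₗ[ℚ] ℚ) (n : ℕ) (a : K) : cw f (monomial n a) = monomial n (f a) := by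
  rw [cw, lsum_apply, sum_monomial_index] <;> simp

theorem cw_mul (f : K →ₗ[ℚ] ℚ) (g : ℚ[X]) (s : K[X]) :
    cw f (g.map (algebraMap ℚ K) * s) = g * cw f s := by
  induction g using Polynomial.induction_on' with
  | add p q hp hq => rw [Polynomial.map_add, add_mul, map_add, hp, hq, add_mul]
  | monomial k c =>
    induction s using Polynomial.induction_on' with
    | add p q hp hq => rw [mul_add, map_add, hp, hq, map_add, mul_add]
    | monomial n a =>
      rw [map_monomial, monomial_mul_monomial, cw_mon, cw_mon, monomial_mul_monomial,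
        ← Algebra.smul_def, map_smul, smul_eq_mul]

theorem inj {g : ℚ[X]} {m : ℕ} {e : Fin m → ℕ} (hg : Irreducible g)
    (hs : (g.map (algebraMap ℚ K)).Splits)
    (h : ∀ z : Fin m → ℚ, g ∣ ∑ i, monomial (e i) (z i) → z = 0) (z : Fin m → K)
    (hz : ∀ β : K, aeval β g = 0 → ∑ i, β ^ e i * z i = 0) : z = 0 := by
  have h0 : g.map (algebraMap ℚ K) ≠ 0 := Polynomial.map_ne_zero hg.ne_zero
  have h1 : g.map (algebraMap ℚ K) ∣ ∑ i, monomial (e i) (z i) := by
    by_cases hp : ∑ i, monomial (e i) (z i) = 0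
    · rw [hp]
      exact dvd_zero _
    refine hs.dvd_of_roots_le_roots h0
      ((Multiset.le_iff_subset (nodup_roots hg.separable.map)).2 fun β hβ => ?_)
    rw [mem_roots h0, IsRoot, eval_map_algebraMap] at hβ
    rw [mem_roots hp, IsRoot, eval_finsetSum, ← hz β hβ]
    simp only [eval_monomial, mul_comm]
  obtain ⟨s, hs⟩ := h1
  funext i
  refine (Module.forall_dual_apply_eq_zero_iff ℚ _).1 fun f => ?_
  refine congrFun (h (fun i => f (z i)) ⟨cw f s, ?_⟩) i
  rw [← cw_mul, ← hs, map_sum]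
  simp only [cw_mon]

end

open IntermediateField in
theorem avg {F K : Type} [Field F] [Field K] [Algebra F K] [Algebra F ℂ] [CharZero F]
    [FiniteDimensional F K] (y : K) (φ : ℂ → ℝ) :
    ∑ σ : K →ₐ[F] ℂ, φ (σ y) = Module.finrank F⟮y⟯ K • (((minpoly F y).aroots ℂ).map φ).sum := by
  classical
  have hy : IsIntegral F y := Algebra.IsIntegral.isIntegral y
  let pb := adjoin.powerBasis hy
  have e1 : ∑ σ : F⟮y⟯ →ₐ[F] ℂ, φ (σ pb.gen) = (((minpoly F y).aroots ℂ).map φ).sum := by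
    rw [← minpoly_gen F y, ← adjoin.powerBasis_gen hy, Fintype.sum_equiv pb.liftEquiv'
      (fun σ => φ (σ pb.gen)) (fun x => φ x) fun σ => by rw [PowerBasis.liftEquiv'_apply_coe],
      Finset.sum_mem_multiset _ _ φ fun _ => rfl, Finset.sum_eq_multiset_sum,
      Multiset.toFinset_val, Multiset.dedup_eq_self.mpr]
    exact nodup_roots (minpoly.irreducible pb.isIntegral_gen).separable.map
  rw [← e1, Fintype.sum_equiv (algHomEquivSigma (B := F⟮y⟯))
      (fun σ : K →ₐ[F] ℂ => φ (σ y)) (fun σ => φ (σ.1 pb.gen)) fun _ => rfl,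
    ← Finset.univ_sigma_univ, Finset.sum_sigma, ← Finset.sum_nsmul]
  refine Finset.sum_congr rfl fun σ _ => ?_
  let : Algebra F⟮y⟯ ℂ := σ.toRingHom.toAlgebra
  simp_rw [Finset.sum_const, Finset.card_univ, ← AlgHom.card F⟮y⟯ K ℂ]

end Fc2x

open Fc2x

theorem p_Fc2 : S_Fc2 := by
  intro K _ _ g m e hg hs h
  have h1 : Submodule.span K {v : Fin m → K | ∃ β, aeval β g = 0 ∧ v = fun i => β ^ e i} = ⊤ := by
    by_contra hn
    obtain ⟨f, h0, hf⟩ := Submodule.exists_le_ker_of_lt_top _ (lt_top_iff_ne_top.2 hn)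
    have := inj hg hs h (fun i => f fun j => if i = j then 1 else 0) fun β hβ =>
      (LinearMap.pi_apply_eq_sum_univ f _).symm.trans (hf (Submodule.subset_span ⟨β, hβ, rfl⟩))
    refine h0 (LinearMap.ext fun v => ?_)
    rw [LinearMap.pi_apply_eq_sum_univ]
    exact Finset.sum_eq_zero fun i _ => by rw [congrFun this i, Pi.zero_apply, smul_zero]
  have h2 := Submodule.exists_fun_fin_finrank_span_eq K
    {v : Fin m → K | ∃ β, aeval β g = 0 ∧ v = fun i => β ^ e i}
  rw [h1, finrank_top, Module.finrank_fin_fun] at h2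
  obtain ⟨f, h3, -, h4⟩ := h2
  choose y h5 h6 using h3
  refine ⟨y, h5, ((isUnit_iff_isUnit_det _).1 (linearIndependent_rows_iff_isUnit.1 ?_)).ne_zero⟩
  obtain rfl := funext h6
  exact h4

open IntermediateField in
theorem p_Avg : S_Avg := by
  intro K _ _ y
  refine ⟨fun g φ hg hy => ?_, fun h0 hy => ?_⟩
  · have e := minpoly.eq_of_irreducible hg hy
    have hl : g.leadingCoeff⁻¹ ≠ 0 := inv_ne_zero (leadingCoeff_ne_zero.2 hg.ne_zero)
    rw [Fintype.sum_equiv (RingHom.equivRatAlgHom K ℂ) (fun σ => φ (σ y)) (fun σ => φ (σ y))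
      fun _ => rfl, avg, ← Module.finrank_mul_finrank ℚ ℚ⟮y⟯ K,
      adjoin.finrank (Algebra.IsIntegral.isIntegral y), ← e, natDegree_mul_C hl, mul_comm g,
      aroots_C_mul _ hl, nsmul_eq_mul, Nat.cast_mul, mul_assoc]
  · obtain ⟨n, hn⟩ := IsIntegrallyClosed.isIntegral_iff.1 (Algebra.isIntegral_norm ℚ hy)
    have h1 : n ≠ 0 := by
      rintro rfl
      exact h0 (Algebra.norm_eq_zero_iff.1 (hn.symm.trans (map_zero _)))
    rw [← Real.log_prod fun σ _ => norm_ne_zero_iff.2 ((map_ne_zero σ).2 h0), ← norm_prod,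
      Fintype.prod_equiv (RingHom.equivRatAlgHom K ℂ) (fun σ => σ y) (fun σ => σ y) fun _ => rfl,
      ← Algebra.norm_eq_prod_embeddings, ← hn]
    refine Real.log_nonneg ?_
    simpa using (show (1 : ℝ) ≤ |(n : ℝ)| by exact_mod_cast Int.one_le_abs h1)

end Pool.Agent.P.MP_aef18a_nt.OW
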