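import Pool.Agent.P.MP_aef18a_nt.OW.Fin

namespace Pool.Agent.P.MP_aef18a_nt.OW

open Polynomial Matrix LaurentPolynomial

/-- the set of matrices does not depend on the margin -/
def S_Fin2 : Prop :=
  ∀ (n : ℕ) (F : LP n), Irreducible F → NonCol F →
    ∃ Ω : Finset (Matrix (Fin n) (Fin n) ℤ), (∀ M ∈ Ω, M.det ≠ 0) ∧
      ∀ κ : ℝ, 0 < κ → ∃ Γ : Finset (Fin n → ℤ), 0 ∉ Γ ∧
        ∀ a : Fin n → ℤ, Margin κ F a → (∃ c ∈ Γ, c ⬝ᵥ a = 0) ∨ Alt F Ω a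

open Finx in
theorem p_Fin2 (hZ : S_CZ) (hK : S_K) (hL : S_Lat) (hA : S_AbsF) (hM : S_Mt) (hN : S_Norm)
    (hS : S_StarIrr) : S_Fin2 := by
  classical
  intro n F hF hc
  obtain ⟨m₀, hm, hk⟩ := hK n F hF hc
  obtain ⟨Ω, hΩ, hΩ'⟩ := hL n m₀ hm
  refine ⟨Ω.image Prod.fst, fun M hM' => ?_, fun κ hκ => ?_⟩
  · obtain ⟨q, hq, rfl⟩ := Finset.mem_image.mp hM'
    exact (det_ne hm (hΩ q hq)).1
  obtain ⟨Γ, h0, hΓ⟩ := Off.finset Ω fun q hq =>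
    off_push hm (hΩ q hq) (off_sep hZ hA hM hN hF hc hκ hm hk (hΩ q hq))
  refine ⟨Γ, h0, fun a ha => ?_⟩
  by_cases hb : ∃ c ∈ Γ, c ⬝ᵥ a = 0
  · exact Or.inl hb
  · push Not at hb
    obtain ⟨q, hq, b, rfl, e1, e2⟩ := hΩ' a
    exact Or.inr (alt_of_sep hS (Finset.mem_image_of_mem _ hq) (hΓ _ hb q hq b e1 e1 e2 ha))

end Pool.Agent.P.MP_aef18a_nt.OW
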