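import Pool.Agent.P.MP_aef18a_nt.OW.Iface

namespace Pool.Agent.P.MP_aef18a_nt.OW

open Polynomial Matrix LaurentPolynomial

namespace Flatx

lemma log_est {u : ℂ} (hu : ‖u‖ ≤ 1 / 4) : |Real.log ‖1 - u‖ + u.re| ≤ ‖u‖ ^ 2 := by
  have h := Complex.norm_log_one_add_sub_self_le (z := -u) (by rw [norm_neg]; linarith)
  have e : Real.log ‖1 - u‖ + u.re = (Complex.log (1 + -u) - -u).re := by
    rw [Complex.sub_re, Complex.log_re, Complex.neg_re, sub_neg_eq_add, ← sub_eq_add_neg]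
  rw [e]
  refine (Complex.abs_re_le_norm _).trans (h.trans ?_)
  rw [norm_neg, mul_div_assoc]
  refine mul_le_of_le_one_right (sq_nonneg _) ?_
  rw [div_le_one two_pos]
  exact inv_le_of_inv_le₀ two_pos (by linarith)

lemma exp_le {u : ℂ} {t : ℝ} (hu : ‖u‖ ≤ t) (ht : t ≤ 1 / 4) (D : ℕ) :
    Real.exp (-(2 * D * t)) ≤ ‖(1 - u) ^ D‖ := by
  have h1 := (abs_le.1 (log_est (hu.trans ht))).1
  have h2 := (le_abs_self _).trans (Complex.abs_re_le_norm u)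
  have h0 := norm_nonneg u
  have h3 : -(2 * t) ≤ Real.log ‖1 - u‖ := by nlinarith
  have h4 : 0 < ‖1 - u‖ := by
    have := norm_sub_norm_le (1 : ℂ) u
    rw [norm_one] at this
    linarith
  rw [norm_pow, ← Real.exp_log (pow_pos h4 D), Real.log_pow]
  exact Real.exp_le_exp.2 (by nlinarith [Nat.cast_nonneg (α := ℝ) D])

lemma sum_log (ζ : ℂ) (k D : ℕ) {t : ℝ} (ht : t ≤ 1 / 4) (R : Multiset ℂ)
    (h : ∀ β ∈ R, ‖ζ * β ^ k‖ ≤ t) :
    |(R.map fun β => Real.log ‖(1 - ζ * β ^ k) ^ D‖).sum +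
      D * (ζ * (R.map (· ^ k)).sum).re| ≤ R.card * (D * t ^ 2) := by
  induction R using Multiset.induction_on with
  | empty => simp
  | cons β R ih =>
    have h1 := ih fun γ hγ => h γ (Multiset.mem_cons_of_mem hγ)
    have h2 := h β (Multiset.mem_cons_self _ _)
    have h3 := (log_est (h2.trans ht)).trans (pow_le_pow_left₀ (norm_nonneg _) h2 2)
    have h4 : |(D : ℝ) * (Real.log ‖1 - ζ * β ^ k‖ + (ζ * β ^ k).re)| ≤ D * t ^ 2 := by
      rw [abs_mul, Nat.abs_cast]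
      exact mul_le_mul_of_nonneg_left h3 (Nat.cast_nonneg D)
    rw [Multiset.map_cons, Multiset.map_cons, Multiset.sum_cons, Multiset.sum_cons,
      Multiset.card_cons, mul_add ζ, Complex.add_re, norm_pow, Real.log_pow]
    push_cast
    rw [abs_le] at h1 h4 ⊢
    constructor <;> linarith [h1.1, h1.2, h4.1, h4.2]

lemma mean_log (ζ : ℂ) (k D : ℕ) {t : ℝ} (ht : t ≤ 1 / 4) {α : ℂ} (hα : IsIntegral ℚ α)
    (h : ∀ β : ℂ, aeval β (minpoly ℚ α) = 0 → ‖ζ * β ^ k‖ ≤ t) :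
    |(((minpoly ℚ α).aroots ℂ).map fun β => Real.log ‖(1 - ζ * β ^ k) ^ D‖).sum /
      (minpoly ℚ α).natDegree + D * (ζ * tau α k).re| ≤ D * t ^ 2 := by
  have d0 : (0 : ℝ) < (minpoly ℚ α).natDegree := by exact_mod_cast minpoly.natDegree_pos hα
  have h1 := sum_log ζ k D ht _ fun β hβ => h β (mem_aroots.1 hβ).2
  rw [card_aroots] at h1
  rw [tau, ps, ← mul_div_assoc, Complex.div_natCast_re, ← mul_div_assoc, ← add_div, abs_div,
    abs_of_pos d0, div_le_iff₀ d0]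
  linarith

lemma norm_tau_le {α : ℂ} (hα : IsIntegral ℚ α) {k : ℕ} {C : ℝ}
    (h : ∀ β : ℂ, aeval β (minpoly ℚ α) = 0 → ‖β‖ ^ k ≤ C) : ‖tau α k‖ ≤ C := by
  have d0 : (0 : ℝ) < (minpoly ℚ α).natDegree := by exact_mod_cast minpoly.natDegree_pos hα
  rw [tau, norm_div, Complex.norm_natCast, div_le_iff₀ d0, mul_comm]
  exact norm_ps_le fun β hβ => h β (mem_aroots.1 hβ).2

lemma final {m m' X δ P P' r r' Λ : ℝ} (hm : 0 < m) (hmm : m ≤ m') (hX : 2 ≤ X)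
    (h1 : X ^ 2 * (m' - m) ≤ m) (h2 : |P + r| ≤ X) (h3 : |P' + r'| ≤ X)
    (h4 : r' - r = X ^ 2 * δ) (h5 : |r'| ≤ X ^ 3) (h6 : Λ ≤ X)
    (h7 : m * P ≤ m' * P' + (m' - m) * (2 * X ^ 3) + (m + m') * Λ) : δ ≤ 9 / X := by
  have X0 : 0 < X := by linarith
  have a1 := mul_le_mul_of_nonneg_left (abs_le.1 h2).1 hm.le
  have a2 := mul_le_mul_of_nonneg_left (abs_le.1 h3).2 (hm.le.trans hmm)
  have a3 := mul_le_mul_of_nonneg_left (abs_le.1 h5).1 (sub_nonneg.2 hmm)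
  have a4 := mul_le_mul_of_nonneg_left h6 (add_nonneg hm.le (hm.le.trans hmm))
  have a5 := mul_le_mul_of_nonneg_left h1 X0.le
  have a6 : 4 * (m' - m) ≤ m :=
    (mul_le_mul_of_nonneg_right (by nlinarith) (sub_nonneg.2 hmm)).trans h1
  have a7 := mul_le_mul_of_nonneg_left a6 X0.le
  have a8 : m * (r' - r) = m * (X ^ 2 * δ) := by rw [h4]
  have a9 := mul_pos hm X0
  rw [le_div_iff₀ X0]
  refine le_of_mul_le_mul_left ?_ a9
  nlinarith

lemma pigeon {x : ℕ} (hx : 2 ≤ x) {m : ℕ → ℕ} (h0 : 1 ≤ m 0) (h1 : m (x ^ 3) < 2 ^ x) :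
    ∃ i < x ^ 3, (x : ℝ) ^ 2 * (m (i + 1) - m i) ≤ m i := by
  by_contra! h
  have X0 : (0 : ℝ) < x := by exact_mod_cast (by omega : 0 < x)
  have k : ∀ i ≤ x ^ 3, (1 + ((x : ℝ) ^ 2)⁻¹) ^ i ≤ m i := by
    intro i hi
    induction i with
    | zero => simpa using h0
    | succ i ih =>
      have a := (h i (by omega)).le
      rw [← div_le_iff₀' (by positivity), div_eq_mul_inv] at a
      rw [pow_succ]
      have b := mul_le_mul_of_nonneg_right (ih (by omega))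
        (show 0 ≤ 1 + ((x : ℝ) ^ 2)⁻¹ by positivity)
      linarith
  have a := one_add_mul_le_pow (a := ((x : ℝ) ^ 2)⁻¹) (le_trans (by norm_num) (by positivity :
    (0 : ℝ) ≤ ((x : ℝ) ^ 2)⁻¹)) (x ^ 2)
  rw [Nat.cast_pow, mul_inv_cancel₀ (by positivity), one_add_one_eq_two] at a
  have b := pow_le_pow_left₀ zero_le_two a x
  rw [← pow_mul, ← pow_succ] at b
  have c : ((m (x ^ 3) : ℕ) : ℝ) < 2 ^ x := by exact_mod_cast h1
  linarith [k _ le_rfl]

lemma rk_le (α : ℂ) (E : Finset ℕ) : rk α E ≤ E.card := by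
  classical
  have := finrank_span_finset_le_card (R := ℚ) (E.image fun e : ℕ => α ^ e)
  rw [Finset.coe_image] at this
  exact this.trans Finset.card_image_le

lemma rk_mono (α : ℂ) {E E' : Finset ℕ} (h : E ⊆ E') : rk α E ≤ rk α E' := by
  have := FiniteDimensional.span_of_finite ℚ (E'.finite_toSet.image fun e : ℕ => α ^ e)
  exact Submodule.finrank_mono (Submodule.span_mono (Set.image_mono h))

lemma rk_pos (α : ℂ) {E : Finset ℕ} (h : 0 ∈ E) : 1 ≤ rk α E := by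
  have := FiniteDimensional.span_of_finite ℚ (E.finite_toSet.image fun e : ℕ => α ^ e)
  refine Nat.one_le_iff_ne_zero.2 fun e => ?_
  have a : α ^ 0 ∈ Submodule.span ℚ ((fun e : ℕ => α ^ e) '' (E : Set ℕ)) :=
    Submodule.subset_span ⟨0, h, rfl⟩
  rw [Submodule.finrank_eq_zero.1 e, pow_zero, Submodule.mem_bot] at a
  exact one_ne_zero a

lemma closure (hR : S_Red) {L s k x D i e : ℕ} {S : ℤ[X]} {B : ℕ → Finset ℤ} (hS : Lac L s S)
    (hk : k ≤ x * s) (hB : Monotone B)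
    (hc : ∀ i, ∀ e ∈ B i, e + k ∈ B (i + 1) ∧ ∀ j ∈ S.support, e - (S.natDegree - j) ∈ B (i + 1))
    (he : e < S.natDegree) (hi : (e : ℤ) ∈ B i) (ζ : ℂ) :
    ∃ Λ : ℕ → ℂ, ∀ β : ℂ, aeval β S = 0 → (1 - ζ * β ^ k) ^ D * β ^ e =
      ∑ e' ∈ (Finset.range S.natDegree).filter (fun e : ℕ => (e : ℤ) ∈ B (i + D + D * x)),
        Λ e' * β ^ e' := by
  have a : ∀ j : ℕ, ((e + j * k : ℕ) : ℤ) ∈ B (i + j) := by
    intro j
    induction j with
    | zero => simpa using hi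
    | succ j ih =>
      have := (hc _ _ ih).1
      push_cast at this ⊢
      rwa [add_mul, one_mul, ← add_assoc (e : ℤ)]
  have b : ∀ j ∈ Finset.range (D + 1), ∃ lam : ℕ → ℚ, ∀ β : ℂ, aeval β S = 0 →
      β ^ (e + j * k) = ∑ e' ∈ (Finset.range S.natDegree).filter
        (fun e : ℕ => (e : ℤ) ∈ B (i + D + D * x)), (lam e' : ℂ) * β ^ e' := by
    intro j hj
    have hj' : j ≤ D := Nat.lt_succ_iff.1 (Finset.mem_range.1 hj)
    refine hR L s (D * x) (i + D) _ S B hS hB (fun i e h => (hc i e h).2)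
      (hB (by omega) (a j)) ?_
    have := Nat.mul_le_mul hj' hk
    rw [mul_assoc]
    omega
  choose! lam hl using b
  refine ⟨fun e' => ∑ j ∈ Finset.range (D + 1), (-ζ) ^ j * (D.choose j : ℂ) * lam j e',
    fun β hβ => ?_⟩
  rw [sub_eq_neg_add, add_pow, Finset.sum_mul]
  simp only [Finset.sum_mul]
  rw [Finset.sum_comm]
  refine Finset.sum_congr rfl fun j hj => ?_
  simp only [mul_assoc, ← Finset.mul_sum]
  rw [← hl j hj β hβ, ← neg_mul, mul_pow]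
  ring

end Flatx

open Flatx in
theorem p_Flat (hL : S_Lac) (hC : S_Core2) (hR : S_Red) : S_Flat := by
  intro L s J k x S B hS hJ hx hk hb h0 hB hc hM α α' hα hα' hiff
  obtain ⟨L1, Lc, -, -, -, hroot⟩ := hL L s S hS
  have S0 : S ≠ 0 := fun e => hS.1 (by rw [e, coeff_zero])
  have N0 : 0 < S.natDegree := by
    refine Nat.pos_of_ne_zero fun e => hS.1 ?_
    rw [eq_C_of_natDegree_eq_zero e, aeval_C] at hα
    simpa using hα
  have int : ∀ γ : ℂ, aeval γ S = 0 → IsIntegral ℚ γ := fun γ h =>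
    IsAlgebraic.isIntegral ⟨S.map (Int.castRingHom ℚ),
      (Polynomial.map_ne_zero_iff (Int.castRingHom ℚ).injective_int).2 S0,
      (aeval_map_int S γ).trans h⟩
  have conj : ∀ γ : ℂ, aeval γ S = 0 → ∀ β : ℂ, aeval β (minpoly ℚ γ) = 0 → aeval β S = 0 :=
    fun γ h β hβ => (aeval_map_int S β).symm.trans
      (aeval_eq_zero_of_dvd_aeval_eq_zero (minpoly.dvd ℚ γ ((aeval_map_int S γ).trans h)) hβ)
  have X2 : (2 : ℝ) ≤ x := by exact_mod_cast hx
  have X0 : (0 : ℝ) < x := by linarith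
  set E : ℕ → Finset ℕ := fun i => (Finset.range S.natDegree).filter
    fun e : ℕ => (e : ℤ) ∈ B (i * (x ^ 5 + x ^ 5 * x)) with hE
  have Emono : ∀ i, E i ⊆ E (i + 1) := fun i =>
    Finset.monotone_filter_right _ fun e _ h => hB (Nat.mul_le_mul_right _ i.le_succ) h
  have Etop : ∀ i ≤ x ^ 3, ∀ e ∈ E i, (e : ℤ) ∈ B (x ^ 10) := fun i hi e he => by
    refine hB ((Nat.mul_le_mul_right _ hi).trans ?_) (Finset.mem_filter.1 he).2
    have : 1 + x ≤ x ^ 2 := by nlinarith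
    calc x ^ 3 * (x ^ 5 + x ^ 5 * x) = x ^ 8 * (1 + x) := by ring
      _ ≤ x ^ 8 * x ^ 2 := Nat.mul_le_mul_left _ this
      _ = x ^ 10 := by ring
  have rkM : ∀ i ≤ x ^ 3, rk α (E i) ≤ (B (x ^ 10)).card := fun i hi =>
    (rk_le α _).trans (Finset.card_le_card_of_injOn (fun e : ℕ => (e : ℤ)) (Etop i hi)
      Nat.cast_injective.injOn)
  have z0 : ∀ i, 0 ∈ E i := fun i =>
    Finset.mem_filter.2 ⟨Finset.mem_range.2 N0, hB (Nat.zero_le _) h0⟩
  have LJ : 1 ≤ L ^ (2 * J) := Nat.one_le_pow _ _ L1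
  obtain ⟨i, hi, hm⟩ := pigeon hx (m := fun i => rk α (E i)) (rk_pos α (z0 0)) (by
    have a := rkM _ le_rfl
    have b := rk_pos α (z0 (x ^ 3))
    have c := Nat.mul_le_mul_left (2 * (B (x ^ 10)).card) LJ
    omega)
  by_cases hτ : tau α' k - tau α k = 0
  · rw [norm_sub_rev, hτ, norm_zero]; positivity
  set δ := ‖tau α' k - tau α k‖ with hδ
  have δ0 : 0 < δ := norm_pos_iff.2 hτ
  set ζ : ℂ := ((((x : ℝ) ^ 3)⁻¹ / δ : ℝ) : ℂ) * (starRingEnd ℂ) (tau α' k - tau α k) with hζ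
  have nζ : ‖ζ‖ = ((x : ℝ) ^ 3)⁻¹ := by
    rw [hζ, norm_mul, Complex.norm_real, Complex.norm_conj, ← hδ, Real.norm_of_nonneg
      (by positivity), div_mul_cancel₀ _ δ0.ne']
  have rζ : (ζ * tau α' k).re - (ζ * tau α k).re = ((x : ℝ) ^ 3)⁻¹ * δ := by
    rw [← Complex.sub_re, ← mul_sub, hζ, mul_assoc, Complex.conj_mul', ← hδ,
      ← Complex.ofReal_pow, ← Complex.ofReal_mul, Complex.ofReal_re]
    field_simp
  have t4 : ((x : ℝ) ^ 2)⁻¹ ≤ 1 / 4 := by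
    rw [one_div]
    exact inv_anti₀ (by norm_num) (by nlinarith)
  have hu : ∀ w : ℂ, ‖w‖ ≤ x → ‖ζ * w‖ ≤ ((x : ℝ) ^ 2)⁻¹ := fun w hw => by
    rw [norm_mul, nζ]
    refine (mul_le_mul_of_nonneg_left hw (by positivity)).trans (le_of_eq ?_)
    field_simp
  have hu' : ∀ β : ℂ, aeval β S = 0 → ‖ζ * β ^ k‖ ≤ ((x : ℝ) ^ 2)⁻¹ := fun β hβ =>
    hu _ ((norm_pow β k).le.trans (hb β hβ))
  have cl : ∀ e ∈ E i, ∃ Λ : ℕ → ℂ, ∀ β : ℂ, aeval β S = 0 →
      (1 - ζ * β ^ k) ^ x ^ 5 * β ^ e = ∑ e' ∈ E (i + 1), Λ e' * β ^ e' := by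
    intro e he
    obtain ⟨a, b⟩ := Finset.mem_filter.1 he
    have := closure (D := x ^ 5) hR hS hk hB hc (Finset.mem_range.1 a) b ζ
    rwa [add_assoc, ← add_one_mul] at this
  choose! La hLa using cl
  have lc0 : S.leadingCoeff ≠ 0 := leadingCoeff_ne_zero.2 S0
  have L1' : (1 : ℝ) ≤ L := by exact_mod_cast L1
  have core := hC α α' (E i) (E (i + 1)) (S.leadingCoeff ^ J) ((L : ℝ) ^ J)
    (2 * ((x ^ 5 : ℕ) : ℝ) * ((x : ℝ) ^ 2)⁻¹) (fun β => (1 - ζ * β ^ k) ^ x ^ 5) La (int α hα)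
    (int α' hα') (Emono i) (pow_ne_zero _ lc0) (one_le_pow₀ L1') (by positivity)
    (fun z => hiff _ z (Etop _ hi)) fun β hβ => by
      have hβ' : aeval β S = 0 := hβ.elim (conj α hα β) (conj α' hα' β)
      refine ⟨fun e he => ?_, exp_le (hu' β hβ') t4 _, fun e he => hLa e he β hβ'⟩
      have : e ≤ J * s := (Finset.mem_range.1 (Finset.mem_filter.1 he).1).le.trans hJ
      exact ⟨by exact_mod_cast (hroot β hβ').2.2 J e this,
        (norm_pow β e).le.trans ((hroot β hβ').2.1 J e this)⟩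
  have m1 := mean_log ζ k (x ^ 5) t4 (int α hα) fun β hβ => hu' β (conj α hα β hβ)
  have m2 := mean_log ζ k (x ^ 5) t4 (int α' hα') fun β hβ => hu' β (conj α' hα' β hβ)
  have e1 : ((x ^ 5 : ℕ) : ℝ) * (((x : ℝ) ^ 2)⁻¹) ^ 2 = x := by push_cast; field_simp
  have e2 : 2 * ((x ^ 5 : ℕ) : ℝ) * ((x : ℝ) ^ 2)⁻¹ = 2 * (x : ℝ) ^ 3 := by push_cast; field_simp
  rw [e1] at m1 m2
  rw [e2, div_mul_eq_mul_div, div_mul_eq_mul_div, mul_div_assoc, mul_div_assoc] at core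
  have p1 : (1 : ℝ) ≤ rk α (E i) := by exact_mod_cast rk_pos α (z0 i)
  have p2 : (rk α (E i) : ℝ) ≤ rk α (E (i + 1)) := by exact_mod_cast rk_mono α (Emono i)
  rw [norm_sub_rev]
  refine final (by linarith) p2 X2 hm m1 m2 ?_ ?_ ?_ core
  · rw [← mul_sub, rζ, norm_sub_rev, ← norm_sub_rev, ← hδ]
    push_cast
    field_simp
  · rw [abs_mul, Nat.abs_cast]
    refine (mul_le_mul_of_nonneg_left ((Complex.abs_re_le_norm _).trans (hu _ (norm_tau_le
      (int α' hα') fun β hβ => hb β (conj α' hα' β hβ)))) (Nat.cast_nonneg _)).trans (le_of_eq ?_)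
    push_cast
    field_simp
  · have c0 : (0 : ℝ) < |((S.leadingCoeff ^ J : ℤ) : ℝ)| :=
      abs_pos.2 (by exact_mod_cast pow_ne_zero _ lc0)
    have c1 : |((S.leadingCoeff ^ J : ℤ) : ℝ)| ≤ (L : ℝ) ^ J := by
      rw [Int.cast_pow, abs_pow]
      refine pow_le_pow_left₀ (abs_nonneg _) ?_ J
      rw [← Int.cast_abs, ← Nat.cast_natAbs]
      exact_mod_cast Lc
    have c2 : (rk α (E i) : ℝ) + rk α (E (i + 1)) ≤ 2 * ((B (x ^ 10)).card : ℝ) := by
      have a := rkM i hi.le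
      have b := rkM (i + 1) hi
      exact_mod_cast (by omega : rk α (E i) + rk α (E (i + 1)) ≤ 2 * (B (x ^ 10)).card)
    have c3 : 2 * ((B (x ^ 10)).card : ℝ) * (L : ℝ) ^ (2 * J) ≤ 2 ^ x := by exact_mod_cast hM
    rw [← Real.log_mul (by linarith) (by positivity), ← Real.log_mul (by positivity) c0.ne',
      Real.log_le_iff_le_exp (by positivity)]
    calc _ ≤ 2 * ((B (x ^ 10)).card : ℝ) * (L : ℝ) ^ J * (L : ℝ) ^ J := by gcongr
      _ = 2 * ((B (x ^ 10)).card : ℝ) * (L : ℝ) ^ (2 * J) := by ring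
      _ ≤ 2 ^ x := c3
      _ ≤ Real.exp 1 ^ x := by
        gcongr
        linarith [Real.add_one_le_exp 1]
      _ = Real.exp x := by rw [← Real.exp_nat_mul, mul_one]

end Pool.Agent.P.MP_aef18a_nt.OW
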