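import Pool.Agent.P.MP_aef18a_nt.OW.Iface

namespace Pool.Agent.P.MP_aef18a_nt.OW

open Polynomial Matrix LaurentPolynomial

namespace FlatAllx

/-- the small combinations of the coordinates of `a` and of `j` -/
noncomputable def BB {k : ℕ} (a : Fin k → ℤ) (De j i : ℕ) : Finset ℤ :=
  (Fintype.piFinset (fun _ : Fin k => Finset.Icc (-(De * i : ℤ)) (De * i)) ×ˢ
    Finset.Icc (-(i : ℤ)) i).image fun p => p.1 ⬝ᵥ a + p.2 * j

lemma mem_BB {k : ℕ} {a : Fin k → ℤ} {De j i : ℕ} {e : ℤ} : e ∈ BB a De j i ↔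
    ∃ (v : Fin k → ℤ) (t : ℤ), (∀ l, |v l| ≤ De * i) ∧ |t| ≤ i ∧ e = v ⬝ᵥ a + t * j := by
  simp only [BB, Finset.mem_image, Finset.mem_product, Fintype.mem_piFinset, Finset.mem_Icc,
    Prod.exists, abs_le]
  exact ⟨fun ⟨v, t, ⟨h1, h2⟩, h3⟩ => ⟨v, t, h1, h2, h3.symm⟩,
    fun ⟨v, t, h1, h2, h3⟩ => ⟨v, t, ⟨h1, h2⟩, h3.symm⟩⟩

lemma mono_BB {k : ℕ} (a : Fin k → ℤ) (De j : ℕ) : Monotone (BB a De j) := fun i i' h e he => by
  obtain ⟨v, t, h1, h2, h3⟩ := mem_BB.1 he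
  have : (i : ℤ) ≤ i' := by exact_mod_cast h
  exact mem_BB.2 ⟨v, t, fun l => (h1 l).trans (by gcongr), h2.trans this, h3⟩

lemma card_BB {k : ℕ} (a : Fin k → ℤ) (j : ℕ) {De x : ℕ} (h : De ≤ x) (hx : 3 ≤ x) :
    (BB a De j (x ^ 10)).card ≤ x ^ (12 * k + 12) := by
  have h1 : 1 ≤ x ^ 10 := Nat.one_le_pow _ _ (by omega)
  have h2 : ∀ D, D ≤ x → (Finset.Icc (-(D * (x ^ 10 : ℕ) : ℤ)) (D * (x ^ 10 : ℕ))).card ≤ x ^ 12 :=
    fun D hD => by
      rw [Int.card_Icc, Int.toNat_le]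
      have a1 : D * x ^ 10 ≤ x * x ^ 10 := Nat.mul_le_mul_right _ hD
      have a2 : 3 * (x * x ^ 10) ≤ x * (x * x ^ 10) := Nat.mul_le_mul_right _ hx
      have a3 : 1 ≤ x * x ^ 10 := Nat.mul_pos (by omega) h1
      have a4 : D * x ^ 10 + 1 + D * x ^ 10 ≤ x ^ 12 := by
        rw [show x ^ 12 = x * (x * x ^ 10) by ring]
        omega
      rw [sub_neg_eq_add]
      exact_mod_cast a4
  refine Finset.card_image_le.trans ?_
  rw [Finset.card_product, Fintype.card_piFinset, Finset.prod_const, Finset.card_univ,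
    Fintype.card_fin, pow_add, pow_mul]
  refine Nat.mul_le_mul (Nat.pow_le_pow_left (h2 De h) k) ?_
  simpa using h2 1 (by omega)

lemma big (m : ℕ) : ∃ x₁ : ℕ, ∀ x, x₁ ≤ x → x ^ m ≤ 2 ^ x := by
  obtain ⟨x₁, h⟩ := Filter.eventually_atTop.1
    ((tendsto_pow_const_div_const_pow_of_one_lt m one_lt_two).eventually (gt_mem_nhds one_pos))
  refine ⟨x₁, fun x hx => ?_⟩
  have := (div_lt_one (by positivity)).1 (h x hx)
  exact_mod_cast this.le

/-- the real estimates -/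
lemma num {L J q x N : ℕ} (hL : 1 ≤ L) (hq : 0 < q) (hN : 0 < N) (h1 : N ≤ x ^ q) (h2 : 81 ≤ x)
    (h3 : L ^ 2 ≤ x) :
    (∃ T : ℕ, 1 / (2 * q * (J + 1) * (Real.log L + 1)) * J * Real.log N ≤ T ∧ T ≤ x ∧
      L ^ T ≤ x) ∧ 9 / (x : ℝ) ≤ (N : ℝ) ^ (-(1 / (2 * q) : ℝ)) := by
  have hx : (81 : ℝ) ≤ x := by exact_mod_cast h2
  have hN' : (0 : ℝ) < N := by exact_mod_cast hN
  have hq' : (0 : ℝ) < q := by exact_mod_cast hq
  have hL' : (0 : ℝ) < L := by exact_mod_cast hL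
  have l0 := Real.log_natCast_nonneg L
  have x0 := Real.log_natCast_nonneg x
  have n0 := Real.log_natCast_nonneg N
  have a1 : Real.log N ≤ q * Real.log x := by
    rw [← Real.log_pow]
    exact Real.log_le_log hN' (by exact_mod_cast h1)
  have a2 : 2 * Real.log L ≤ Real.log x := by
    have := Real.log_le_log (by positivity) (show (L : ℝ) ^ 2 ≤ x by exact_mod_cast h3)
    rwa [Real.log_pow] at this
  have a3 : 2 * Real.log 9 ≤ Real.log x := by
    have := Real.log_le_log (by positivity) (show (9 : ℝ) ^ 2 ≤ x by linarith)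
    rwa [Real.log_pow] at this
  constructor
  · obtain ⟨y, hy⟩ : ∃ y : ℝ, y = 1 / (2 * q * (J + 1) * (Real.log L + 1)) * J * Real.log N :=
      ⟨_, rfl⟩
    have y0 : 0 ≤ y := by rw [hy]; positivity
    have b1 : y * (Real.log L + 1) ≤ Real.log x / 2 := by
      have : y * (Real.log L + 1) * (2 * q * (J + 1)) = J * Real.log N := by
        rw [hy]
        field_simp
      refine le_of_mul_le_mul_right ?_ (by positivity : (0 : ℝ) < 2 * q * (J + 1))
      rw [this]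
      nlinarith [mul_le_mul_of_nonneg_left a1 (J.cast_nonneg (α := ℝ)), mul_nonneg hq'.le x0]
    have b2 := (Nat.ceil_lt_add_one y0).le
    refine ⟨⌈y⌉₊, hy ▸ Nat.le_ceil y, Nat.ceil_le.2 ?_, ?_⟩
    · nlinarith [Real.log_le_self (x.cast_nonneg (α := ℝ)), mul_nonneg y0 l0]
    · have : (L : ℝ) ^ ⌈y⌉₊ ≤ x := by
        rw [← Real.log_le_log_iff (by positivity) (by linarith), Real.log_pow]
        nlinarith [mul_le_mul_of_nonneg_right b2 l0]
      exact_mod_cast this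
  · rw [Real.rpow_def_of_pos hN', ← Real.log_le_iff_le_exp (by positivity),
      Real.log_div (by norm_num) (by linarith)]
    have : Real.log N * (1 / (2 * q)) ≤ Real.log x / 2 := by
      rw [mul_one_div, div_le_div_iff₀ (by positivity) two_pos]
      nlinarith
    linarith

end FlatAllx

open FlatAllx in
theorem p_FlatAll (hK : S_Link) (hL : S_Lac) (hF : S_Flat) : S_FlatAll := by
  intro k F J A h0 hA
  obtain ⟨De, -, hD⟩ := exists_bx F
  obtain ⟨x₁, hx₁⟩ := big (12 * k + 13)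
  have l0 := Real.log_natCast_nonneg (l1 F)
  refine ⟨1 / (2 * (11 * A + 1 : ℕ)), 1 / (2 * (11 * A + 1 : ℕ) * (J + 1) * (Real.log (l1 F) + 1)),
    by positivity, by positivity,
    (x₁ + k * De * 2 ^ (11 * A) + De + 81 + l1 F ^ 2 + 2 * l1 F ^ (2 * J)) ^ (11 * A),
    fun a s hν hG hI hN hS α α' t1 t2 r1 r2 j _ hj => ?_⟩
  obtain ⟨k1, k2, -, -, -, k3, k4, -⟩ := hK k F a J s h0 hG hI
  obtain ⟨m1, -, -, m2, -, m3⟩ := hL _ _ _ k1
  have hp : 11 * A ≠ 0 := by omega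
  have hx := (Nat.le_nthRoot_iff hp).2 hν
  have p1 := Nat.pow_nthRoot_le (n := 11 * A) (a := nu a) (Or.inl hp)
  have p2 := Nat.lt_pow_nthRoot_add_one hp (nu a)
  generalize Nat.nthRoot (11 * A) (nu a) = x at hx p1 p2
  have hN1 : (SS F a).natDegree ≤ k * De * nu a := by
    obtain ⟨u, hu, e⟩ := k3 0 (mem_support_iff.2 k1.1)
    have := (neg_le_abs _).trans (abs_dot_le (hD u hu) (le_nu a))
    rw [← e, Nat.cast_zero, sub_zero] at this
    exact_mod_cast this
  have hN2 : (SS F a).natDegree ≤ x ^ (11 * A + 1) :=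
    calc _ ≤ k * De * (2 * x) ^ (11 * A) := hN1.trans
          (Nat.mul_le_mul_left _ (p2.le.trans (Nat.pow_le_pow_left (by omega) _)))
      _ = x ^ (11 * A) * (k * De * 2 ^ (11 * A)) := by ring
      _ ≤ _ := Nat.mul_le_mul_left _ (by omega)
  obtain ⟨⟨T, n1, n2, n3⟩, n4⟩ := num (J := J) m1 (11 * A).succ_pos hN hN2 (by omega) (by omega)
  have hT : j ≤ T * s := by
    have b1 : ((SS F a).natDegree : ℝ) ≤ J * s := by exact_mod_cast k2
    have b2 := Real.log_natCast_nonneg (SS F a).natDegree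
    have : (j : ℝ) ≤ T * s := by
      refine hj.trans (le_trans ?_ (mul_le_mul_of_nonneg_right n1 s.cast_nonneg))
      refine le_trans (mul_le_mul_of_nonneg_right (mul_le_mul_of_nonneg_left b1 ?_) b2)
        (le_of_eq (by ring))
      positivity
    exact_mod_cast this
  have hjx : j ≤ x * s := hT.trans (Nat.mul_le_mul_right _ n2)
  have hkD : k * De ≤ x :=
    (Nat.le_mul_of_pos_right _ (by positivity : 0 < 2 ^ (11 * A))).trans (by omega)
  have hSt := hS (x ^ 11) j (by rwa [← pow_mul]) <|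
    calc j ≤ x * (x * nu a) := hjx.trans (Nat.mul_le_mul_left _
          ((m2 hN).1.trans (hN1.trans (Nat.mul_le_mul_right _ hkD))))
      _ = nu a * x ^ 2 := by ring
      _ ≤ _ := Nat.mul_le_mul_left _ (Nat.pow_le_pow_right (by omega) (by omega))
  have root : ∀ β : ℂˣ, aeval (β : ℂ) (SS F a) = 0 → evc a β (toQ F) = 0 := fun β h =>
    (mul_eq_zero.1 ((k4 β).symm.trans h)).resolve_left (pow_ne_zero _ β.ne_zero)
  refine le_trans (hF _ s J j x _ (BB a De j) k1 k2 (by omega) hjx (fun β hβ => ?_)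
    (mem_BB.2 ⟨0, 0, by simp, by simp, by simp⟩) (mono_BB a De j) (fun i e he => ?_) ?_ α α' r1 r2
    fun E z hE => ?_) n4
  · exact ((m3 β hβ).2.1 T j hT).trans (by exact_mod_cast n3)
  · obtain ⟨v, t, h1, h2, rfl⟩ := mem_BB.1 he
    refine ⟨mem_BB.2 ⟨v, t + 1, fun l => (h1 l).trans ?_, (abs_add_le t 1).trans ?_, by ring⟩,
      fun l hl => ?_⟩
    · push_cast
      linarith [De.cast_nonneg (α := ℤ)]
    · push_cast
      rw [abs_one]
      linarith
    · obtain ⟨u, hu, e⟩ := k3 l hl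
      refine mem_BB.2 ⟨v + u, t, fun l => (abs_add_le _ _).trans ?_, h2.trans ?_, ?_⟩
      · push_cast
        linarith [h1 l, hD u hu l]
      · push_cast
        linarith
      · rw [e, add_dotProduct]
        ring
  · calc _ = (BB a De j (x ^ 10)).card * (2 * l1 F ^ (2 * J)) := by ring
      _ ≤ x ^ (12 * k + 12) * x := Nat.mul_le_mul (card_BB a j (by omega) (by omega)) (by omega)
      _ ≤ _ := hx₁ x (by omega)
  · have hE' : ∀ e ∈ E, ∃ (v : Fin k → ℤ) (t : ℤ), (∀ i, |v i| ≤ (x ^ 11 : ℕ)) ∧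
        |t| ≤ (x ^ 11 : ℕ) ∧ (e : ℤ) = v ⬝ᵥ a + t * j := fun e he => by
      obtain ⟨v, t, h1, h2, h3⟩ := mem_BB.1 (hE e he)
      have b1 : De * x ^ 10 ≤ x ^ 11 := by
        rw [pow_succ' x 10]
        exact Nat.mul_le_mul_right _ (by omega)
      have b2 : x ^ 10 ≤ x ^ 11 := Nat.pow_le_pow_right (by omega) (by omega)
      exact ⟨v, t, fun i => (h1 i).trans (by exact_mod_cast b1), h2.trans (by exact_mod_cast b2),
        h3⟩
    exact ⟨hSt α α' t1 t2 (root α r1) (root α' r2) E z hE',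
      hSt α' α t2 t1 (root α' r2) (root α r1) E z hE'⟩

end Pool.Agent.P.MP_aef18a_nt.OW
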