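import Pool.Agent.P.MP_aef18a_nt.OW.Iface

namespace Pool.Agent.P.MP_aef18a_nt.OW

open Polynomial Matrix LaurentPolynomial

theorem p_Gap2 : S_Gap2 := by
  intro n Δ e κ F a a' hκ hB h16 he ha hG
  have ht : (√(nu a : ℝ)) ^ 2 = nu a := Real.sq_sqrt (Nat.cast_nonneg _)
  have ht4 : 4 ≤ √(nu a : ℝ) := Real.le_sqrt_of_sq_le (by exact_mod_cast h16)
  have h0 : (0 : ℝ) ≤ κ * e := by positivity
  have h1 : (0 : ℝ) ≤ n * Δ * e := by positivity
  have h2 : (4 * e : ℝ) ≤ nu a := by nlinarith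
  have h3 : 4 * e ≤ nu a := by exact_mod_cast h2
  have up : 2 * nu a' ≤ nu a + e := by
    have : nu a' ≤ (nu a + e) / 2 := nu_le fun i => by
      have b1 := abs_le.1 (ha i)
      have b2 := abs_le.1 (le_nu a i)
      rw [abs_le]
      omega
    omega
  have lo : nu a ≤ 2 * nu a' + e := by
    obtain ⟨i, hi⟩ := exists_nu (show 0 < nu a by omega)
    have b1 := abs_le.1 (ha i)
    have b2 := abs_le.1 (le_nu a' i)
    rcases abs_cases (a i) with h | h <;> omega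
  refine ⟨fun u hu hu0 => ?_, by omega⟩
  have up' : (2 * nu a' : ℝ) ≤ nu a + e := by exact_mod_cast up
  have lo' : (nu a : ℝ) ≤ 2 * nu a' + e := by exact_mod_cast lo
  have h4 : 3 / 5 * √(nu a : ℝ) ≤ √(nu a' : ℝ) := Real.le_sqrt_of_sq_le (by nlinarith)
  have h5 := (abs_le.1 (abs_dot_le (a := fun i => 2 * a' i - a i) (hB u hu) ha)).2
  have e1 : (u ⬝ᵥ fun i => 2 * a' i - a i) = 2 * (u ⬝ᵥ a') - u ⬝ᵥ a := by
    simp only [dotProduct, Finset.mul_sum, ← Finset.sum_sub_distrib]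
    exact Finset.sum_congr rfl fun i _ => by ring
  rw [e1] at h5
  have h6 : (2 * ((u ⬝ᵥ a' : ℤ) : ℝ) - (u ⬝ᵥ a : ℤ)) ≤ n * Δ * e := by exact_mod_cast h5
  have h7 := hG u hu hu0
  rw [Int.cast_neg] at h7 ⊢
  have h8 := mul_le_mul_of_nonneg_left up' hκ.le
  have h9 : (0 : ℝ) ≤ e := Nat.cast_nonneg _
  nlinarith

theorem p_Geo2 : S_Geo2 := by
  intro k F κ hκ
  obtain ⟨Δ, -, hB⟩ := exists_bx F
  refine ⟨⌈4 / κ⌉₊ * (k * Δ + 1), ⌈(20 / κ) ^ 2⌉₊ + ⌈4 / κ⌉₊, fun a ha hG => ⟨⌊κ * nu a / 2⌋₊, ?_⟩⟩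
  have ha' : (⌈(20 / κ) ^ 2⌉₊ + ⌈4 / κ⌉₊ : ℝ) ≤ nu a := by exact_mod_cast ha
  have c1 := Nat.le_ceil ((20 / κ) ^ 2)
  have c2 := Nat.le_ceil (4 / κ)
  have c3 : (0 : ℝ) ≤ ⌈(20 / κ) ^ 2⌉₊ := Nat.cast_nonneg _
  have c4 : (0 : ℝ) ≤ ⌈4 / κ⌉₊ := Nat.cast_nonneg _
  have h1 : 4 ≤ κ * nu a := by
    have : 4 / κ ≤ nu a := by linarith
    rwa [div_le_iff₀' hκ] at this
  have h2 : 20 ≤ κ * √(nu a : ℝ) := by
    have : 20 / κ ≤ √(nu a : ℝ) := Real.le_sqrt_of_sq_le (by linarith)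
    rwa [div_le_iff₀' hκ] at this
  have ht : √(nu a : ℝ) * √(nu a : ℝ) = nu a := Real.mul_self_sqrt (Nat.cast_nonneg _)
  have h3 : 10 * √(nu a : ℝ) ≤ κ * nu a / 2 := by
    have := mul_le_mul_of_nonneg_right h2 (Real.sqrt_nonneg (nu a : ℝ))
    rw [mul_assoc, ht] at this
    linarith
  have s1 := Nat.floor_le (show 0 ≤ κ * nu a / 2 by linarith)
  have s2 := Nat.lt_floor_add_one (κ * nu a / 2)
  generalize ⌊κ * nu a / 2⌋₊ = s at s1 s2
  have h4 : nu a ≤ ⌈4 / κ⌉₊ * s := by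
    have b1 : (nu a : ℝ) ≤ 4 / κ * s := by
      rw [div_mul_eq_mul_div, le_div_iff₀' hκ]
      linarith
    exact_mod_cast b1.trans (mul_le_mul_of_nonneg_right c2 (Nat.cast_nonneg s))
  refine ⟨?_, fun u hu hu0 => ?_, h4.trans (Nat.mul_le_mul_right _ (Nat.le_mul_of_pos_right _ (Nat.succ_pos _))),
    fun u hu => ?_⟩
  · have : (1 : ℝ) ≤ s := by linarith
    exact_mod_cast this
  · have h5 := hG u hu hu0
    have : (s : ℝ) ≤ ((-(u ⬝ᵥ a) : ℤ) : ℝ) := by linarith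
    have : (s : ℤ) ≤ -(u ⬝ᵥ a) := by exact_mod_cast this
    omega
  · have h5 := (abs_le.1 (abs_dot_le (hB u hu) fun i => (le_nu a i).trans (Int.ofNat_le.2 h4))).1
    have h6 : (0 : ℤ) ≤ (⌈4 / κ⌉₊ : ℤ) * s := by positivity
    push_cast at h5 ⊢
    linarith

theorem p_Col : S_Col := by
  intro n F h
  by_contra hn
  refine h ?_
  simp only [NonCol, not_exists, not_and, ne_eq, not_not] at hn
  by_cases h1 : (F.coeff.support : Set (Fin n → ℤ)).Subsingleton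
  · rcases (h1.image pt).eq_empty_or_singleton with e | ⟨x, e⟩
    · rw [e]; exact collinear_empty _ _
    · rw [e]; exact collinear_singleton _ _
  obtain ⟨u, hu, v, hv, huv⟩ := Set.not_subsingleton_iff.1 h1
  obtain ⟨l, hl⟩ := Function.ne_iff.1 huv
  have hl' : ((v l : ℝ) - u l) ≠ 0 := by exact_mod_cast sub_ne_zero.2 hl.symm
  refine (collinear_iff_of_mem (Set.mem_image_of_mem pt hu)).2 ⟨pt v - pt u, ?_⟩
  rintro _ ⟨w, hw, rfl⟩
  refine ⟨((w l : ℝ) - u l) / ((v l : ℝ) - u l), funext fun j => ?_⟩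
  have e : ((v l : ℝ) - u l) * (w j - u j) = (v j - u j) * (w l - u l) := by
    exact_mod_cast hn u hu v hv w hw l j
  simp only [pt, vadd_eq_add, Pi.add_apply, Pi.smul_apply, Pi.sub_apply, smul_eq_mul]
  field_simp
  linear_combination e

end Pool.Agent.P.MP_aef18a_nt.OW
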