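import Pool.Agent.P.MP_aef18a_nt.OW.Iface

namespace Pool.Agent.P.MP_aef18a_nt.OW

open Polynomial Matrix LaurentPolynomial

namespace Growx

lemma cont_lin {k : ℕ} (u : Fin k → ℤ) : Continuous fun θ : Fin k → ℝ => lin θ u := by
  unfold lin; fun_prop

lemma lin_smul {k : ℕ} (t : ℝ) (θ : Fin k → ℝ) (u : Fin k → ℤ) : lin (t • θ) u = t * lin θ u := by
  simp only [lin, Pi.smul_apply, smul_eq_mul, Finset.mul_sum]
  exact Finset.sum_congr rfl fun i _ => by ring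

lemma cover {k : ℕ} (F : LQ ℤ k) (κ Θ : ℝ)
    (hc : ∀ J w, Continuous fun θ : Fin k → ℝ => (Psi F θ J).coeff w)
    (h : ∀ θ : Fin k → ℝ, (∀ u ∈ F.coeff.support, u ≠ 0 → lin θ u ≤ -κ) →
      ∃ (w : Fin k → ℤ) (J : ℕ), -lin θ w < (J + 1) * κ ∧ Θ < ‖(Psi F θ J).coeff w‖) :
    ∃ t : Finset ((Fin k → ℤ) × ℕ), ∀ θ : Fin k → ℝ, (∀ i, |θ i| ≤ 1) →
      (∀ u ∈ F.coeff.support, u ≠ 0 → lin θ u ≤ -κ) →
      ∃ q ∈ t, -lin θ q.1 < (q.2 + 1) * κ ∧ Θ < ‖(Psi F θ q.2).coeff q.1‖ := by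
  have h1 : IsClosed {θ : Fin k → ℝ | ∀ u ∈ F.coeff.support, u ≠ 0 → lin θ u ≤ -κ} := by
    simp only [Set.setOf_forall]
    exact isClosed_iInter fun u => isClosed_iInter fun _ => isClosed_iInter fun _ =>
      isClosed_le (cont_lin u) continuous_const
  obtain ⟨t, ht⟩ := ((isCompact_closedBall (0 : Fin k → ℝ) 1).inter_right h1).elim_finite_subcover
    (fun q : (Fin k → ℤ) × ℕ =>
      {θ : Fin k → ℝ | -lin θ q.1 < (q.2 + 1) * κ ∧ Θ < ‖(Psi F θ q.2).coeff q.1‖})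
    (fun q => (isOpen_lt (cont_lin q.1).neg continuous_const).inter
      (isOpen_lt continuous_const (hc q.2 q.1).norm))
    (fun θ hθ => by
      obtain ⟨w, J, e⟩ := h θ hθ.2
      exact Set.mem_iUnion.2 ⟨(w, J), e⟩)
  refine ⟨t, fun θ h2 h3 => ?_⟩
  have := ht ⟨mem_closedBall_zero_iff.2 ((pi_norm_le_iff_of_nonneg zero_le_one).2 h2), h3⟩
  simpa only [Set.mem_iUnion, Set.mem_setOf_eq, exists_prop] using this

end Growx

open Growx in
theorem p_Grow (hK : S_Link) (hL : S_Lac) (hO : S_Out) (hP : S_Psi) (hT : S_GrowT)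
    (hQ : S_Qcoef) : S_Grow := by
  intro k F J Θ hF h1
  obtain ⟨B1, hB1⟩ := hO k F J hF h1
  obtain ⟨De, hDe1, hDe⟩ := exists_bx F
  by_cases hex : ∃ a0 s0, NoRel B1 a0 ∧ Gp F a0 J s0
  swap
  · exact ⟨B1, 0, fun a s h2 h3 => absurd ⟨a, s, h2, h3⟩ hex⟩
  obtain ⟨a0, s0, hr0, hg0⟩ := hex
  obtain ⟨u', hu', hu0⟩ := hF.nc.exists_mem 0
  have hJ : 0 < J := by
    have e1 := hg0.2.1 u' hu' hu0
    have e2 := hg0.2.2.2 u' hu'
    have e3 := hg0.1
    rcases Nat.eq_zero_or_pos J with rfl | h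
    · simp only [Nat.cast_zero, zero_mul] at e2; omega
    · exact h
  have hJR : (0 : ℝ) < J := by exact_mod_cast hJ
  set M : ℝ := max Θ 0 + (l1 F : ℝ) ^ (J + 1) with hM
  have hM0 : 0 ≤ M := by positivity
  obtain ⟨t, ht⟩ := cover F (1 / J) (M * ((k : ℝ) * De) ^ 2) (fun J1 => (hP k F J1 h1).2.2.2.1)
    fun θ hθ => hT k F a0 θ _ _ h1 (by positivity)
      (fun u hu h0 => by have := hg0.2.1 u hu h0; have := hg0.1; omega)
      (hB1 a0 s0 hr0 hg0 θ fun u hu h0 => (hθ u hu h0).trans_lt (neg_lt_zero.2 (by positivity)))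
  refine ⟨2 * De + ∑ q ∈ t, 2 * ((q.2 + 2) * De), J * ∑ q ∈ t, k * nu q.1, fun a s hr hg => ?_⟩
  obtain ⟨hs, hgap, hnu, -⟩ := id hg
  obtain ⟨hLac, hN, -, hrev, hlo, hsup, -⟩ := hK k F a J s hF.c0 hg
    ((hr.mono (Nat.le_add_right _ _)).injOn hDe.wb)
  set N := (SS F a).natDegree with hNd
  have hsN : s ≤ N := by
    have := (hlo u' hu').1
    have := hgap u' hu' hu0
    omega
  have hNle : (N : ℝ) ≤ k * De * nu a := by
    obtain ⟨u, hu, e⟩ := hsup 0 (mem_support_iff.2 hLac.1)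
    have := abs_dot_le (hDe u hu) (le_nu a)
    have h2 : (N : ℤ) ≤ k * De * nu a := by
      have := neg_le_abs (u ⬝ᵥ a)
      simp only [Nat.cast_zero, sub_zero] at e
      omega
    exact_mod_cast h2
  have hN0 : (0 : ℝ) < N := by exact_mod_cast hs.trans hsN
  have hν : (0 : ℝ) < nu a := by
    refine (Nat.cast_nonneg _).lt_of_ne fun e => ?_
    rw [← e, mul_zero] at hNle
    linarith
  have hνs : (nu a : ℝ) ≤ J * s := by exact_mod_cast hnu
  set θa : Fin k → ℝ := fun i => (a i : ℝ) with hθa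
  have hlin : ∀ u, lin ((nu a : ℝ)⁻¹ • θa) u = (nu a : ℝ)⁻¹ * ((u ⬝ᵥ a : ℤ) : ℝ) := fun u => by
    rw [lin_smul, lin_cast]
  obtain ⟨⟨w, J1⟩, hq, hw1, hw2⟩ := ht ((nu a : ℝ)⁻¹ • θa)
    (fun i => by
      rw [Pi.smul_apply, smul_eq_mul, abs_mul, abs_of_pos (inv_pos.2 hν), inv_mul_le_iff₀ hν,
        mul_one]
      simp only [hθa]
      exact_mod_cast le_nu a i)
    (fun u hu h0 => by
      have e : ((u ⬝ᵥ a : ℤ) : ℝ) + s ≤ 0 := by exact_mod_cast hgap u hu h0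
      rw [hlin, inv_mul_le_iff₀ hν, mul_neg, mul_one_div, le_neg, div_le_iff₀ hJR]
      nlinarith)
  simp only at hw1 hw2
  obtain ⟨p1, p2, p3, -, p5⟩ := hP k F J1 h1
  have e0 := p5 ((nu a : ℝ)⁻¹ • θa) (nu a) w
  rw [smul_smul, mul_inv_cancel₀ hν.ne', one_smul] at e0
  have hbig : M * (N : ℝ) ^ 2 < ‖(Psi F θa J1).coeff w‖ := by
    rw [e0, norm_mul, norm_pow, Complex.norm_real, Real.norm_eq_abs, abs_of_pos hν]
    calc M * (N : ℝ) ^ 2 ≤ M * (k * De * nu a) ^ 2 := by gcongr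
      _ = (nu a : ℝ) ^ 2 * (M * ((k : ℝ) * De) ^ 2) := by ring
      _ < _ := by gcongr
  have hw : w ∈ (Psi F θa J1).coeff.support := by
    rw [Finsupp.mem_support_iff]
    intro e
    rw [e, norm_zero] at hbig
    exact absurd hbig (not_lt.2 (by positivity))
  have hwa : w ⬝ᵥ a ≤ 0 := by
    have := p2 θa (dotR a) (fun u hu h0 => by
      rw [dotR_apply]
      have := hgap u hu h0
      exact_mod_cast (by omega : u ⬝ᵥ a ≤ 0)) w hw
    rw [dotR_apply] at this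
    exact_mod_cast this
  obtain ⟨m, hm⟩ := Int.eq_ofNat_of_zero_le (neg_nonneg.2 hwa)
  have hmR : -((w ⬝ᵥ a : ℤ) : ℝ) = m := by exact_mod_cast hm
  have hm1 : m < (J1 + 1) * s := by
    rw [hlin, ← mul_neg, hmR, inv_mul_lt_iff₀ hν, mul_one_div, mul_div_assoc',
      lt_div_iff₀ hJR] at hw1
    have h2 : (m : ℝ) * J < ((J1 + 1) * s) * J := by
      nlinarith [mul_le_mul_of_nonneg_right hνs (by positivity : (0 : ℝ) ≤ J1 + 1)]
    exact_mod_cast lt_of_mul_lt_mul_right h2 hJR.le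
  have hng : Ng a (toC F : LQ ℂ k) := (ng_of_gap hgap).subset (support_toC F).subset
  have hf : pl a (toC F : LQ ℂ k) = (SS F a).reverse.map (Int.castRingHom ℂ) := by
    rw [pl_toC, hrev]; rfl
  have hcv : (fun i => ((θa i : ℝ) : ℂ)) = cv ℂ a := by
    funext i; simp [hθa, cv]
  have hc0 : PowerSeries.constantCoeff (pl a (toC F : LQ ℂ k) : PowerSeries ℂ) ≠ 0 := by
    rw [Polynomial.constantCoeff_coe, pl_toC, coeff_map, pl_coeff_zero hs hgap]
    simpa using hF.c0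
  obtain ⟨ψ, hψ⟩ : ∃ ψ : PowerSeries ℂ, (pl a (toC F : LQ ℂ k) : PowerSeries ℂ) * ψ =
      (pl a (dv (fun i => ((θa i : ℝ) : ℂ)) (toC F)) : PowerSeries ℂ) ^ 2 :=
    ⟨(pl a (toC F : LQ ℂ k) : PowerSeries ℂ)⁻¹ * _, by
      rw [← mul_assoc, PowerSeries.mul_inv_cancel _ hc0, one_mul]⟩
  have hcoef : PowerSeries.coeff m ψ = (Psi F θa J1).coeff w := by
    have hi := (hr.mono ((Finset.single_le_sum (f := fun q : (Fin k → ℤ) × ℕ =>
      2 * ((q.2 + 2) * De)) (fun _ _ => Nat.zero_le _) hq).trans (Nat.le_add_left _ _))).injOn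
      (p3 θa De hDe).wb
    rw [p1 θa a s ψ hs hgap hψ m hm1]
    refine Finset.sum_eq_single_of_mem w (Finset.mem_filter.2 ⟨hw, hm⟩) fun v hv hne => ?_
    obtain ⟨v1, v2⟩ := Finset.mem_filter.1 hv
    exact absurd (hi v1 hw (by simp only; omega)) hne
  rw [hcv, pl_dv hng, Polynomial.coe_neg, neg_sq, hf] at hψ
  rw [← hcoef] at hbig
  obtain ⟨-, q2⟩ := hQ (l1 F) s J m (SS F a) ψ hLac hN hψ (lt_of_le_of_lt
    (mul_le_mul_of_nonneg_right (le_add_of_nonneg_left (le_max_right _ _)) (by positivity)) hbig)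
  refine ⟨m - N, ?_, ?_⟩
  · have h2 : (m : ℤ) ≤ k * nu w * nu a := by
      have := abs_dot_le (le_nu w) (le_nu a)
      have := neg_le_abs (w ⬝ᵥ a)
      omega
    have h3 : m ≤ k * nu w * nu a := by exact_mod_cast h2
    have h4 : k * nu w ≤ ∑ q ∈ t, k * nu q.1 :=
      Finset.single_le_sum (f := fun q : (Fin k → ℤ) × ℕ => k * nu q.1)
        (fun _ _ => Nat.zero_le _) hq
    calc m - N ≤ k * nu w * nu a := (Nat.sub_le _ _).trans h3
      _ ≤ (∑ q ∈ t, k * nu q.1) * (J * N) :=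
        Nat.mul_le_mul h4 (hnu.trans (Nat.mul_le_mul_left _ hsN))
      _ = _ := by ring
  · rw [q2]
    refine le_trans (mul_le_mul_of_nonneg_right ?_ (by positivity)) hbig.le
    exact (le_max_left _ _).trans (le_add_of_nonneg_right (by positivity))

end Pool.Agent.P.MP_aef18a_nt.OW
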