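import Pool.Agent.P.MP_aef18a_nt.OW.Iface

namespace Pool.Agent.P.MP_aef18a_nt.OW

open Polynomial Matrix LaurentPolynomial

namespace GrowTx

lemma swap (R : Multiset ℂ) (I : Finset ℕ) (c : ℕ → ℂ) (k : ℕ) :
    ∑ i ∈ I, c i * (R.map (· ^ (k + i))).sum =
      (R.map fun β => β ^ k * ∑ i ∈ I, c i * β ^ i).sum := by
  induction R using Multiset.induction_on with
  | empty => simp
  | cons β R ih =>
    simp only [Multiset.map_cons, Multiset.sum_cons, mul_add, Finset.sum_add_distrib, ih]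
    congr 1
    rw [Finset.mul_sum]
    exact Finset.sum_congr rfl fun i _ => by ring

lemma aeval_sum (S : ℤ[X]) (β : ℂ) : aeval β S = ∑ i ∈ S.support, (S.coeff i : ℂ) * β ^ i := by
  rw [aeval_def, eval₂_eq_sum, Polynomial.sum_def]
  rfl

lemma aeval_der (S : ℤ[X]) (β : ℂ) :
    β * aeval β (derivative S) = ∑ i ∈ S.support, ((i : ℂ) * S.coeff i) * β ^ i := by
  rw [derivative_apply, Polynomial.sum_def, map_sum, Finset.mul_sum]
  refine Finset.sum_congr rfl fun i _ => ?_
  cases i with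
  | zero => simp
  | succ i =>
    simp only [map_mul, map_pow, aeval_X, Nat.add_sub_cancel, eq_intCast, map_intCast,
      map_natCast]
    push_cast
    ring

lemma der_eq (S : ℤ[X]) : X * derivative (S.reverse.map (Int.castRingHom ℂ)) =
    ∑ i ∈ S.support, Polynomial.C (((S.natDegree - i : ℕ) : ℂ) * S.coeff i) *
      X ^ (S.natDegree - i) := by
  ext g
  rw [finsetSum_coeff]
  simp only [coeff_C_mul_X_pow]
  have e : (X * derivative (S.reverse.map (Int.castRingHom ℂ))).coeff g =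
      g * (S.coeff (revAt S.natDegree g) : ℂ) := by
    cases g with
    | zero => simp
    | succ g =>
      rw [coeff_X_mul, coeff_derivative, coeff_map, coeff_reverse]
      simp [mul_comm]
  rw [e]
  by_cases hg : g ≤ S.natDegree
  · rw [revAt_le hg, Finset.sum_eq_single (S.natDegree - g)]
    · rw [Nat.sub_sub_self hg, if_pos rfl]
    · intro i hi hne
      have := le_natDegree_of_mem_supp i hi
      rw [if_neg (by omega)]
    · intro hn
      simp [notMem_support_iff.mp hn]
  · rw [revAt_eq_self_of_lt (by omega), coeff_eq_zero_of_natDegree_lt (by omega),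
      Finset.sum_eq_zero fun i _ => if_neg (by omega)]
    simp

lemma coeff_psi (hN : S_NS) {S : ℤ[X]} (hS : S ≠ 0) {ψ : PowerSeries ℂ}
    (h : ((S.reverse.map (Int.castRingHom ℂ) : ℂ[X]) : PowerSeries ℂ) * ψ =
      ((X * derivative (S.reverse.map (Int.castRingHom ℂ)) : ℂ[X]) : PowerSeries ℂ) ^ 2) (m : ℕ) :
    PowerSeries.coeff m ψ = -∑ i ∈ S.support, (((S.natDegree - i : ℕ) : ℂ) * S.coeff i) *
      if S.natDegree - i < m then ps S (m - (S.natDegree - i)) else 0 := by
  have h1 := (hN.1 S hS).2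
  have hc : (S.leadingCoeff : ℂ) ≠ 0 := by exact_mod_cast leadingCoeff_ne_zero.mpr hS
  have hf : ((S.reverse.map (Int.castRingHom ℂ) : ℂ[X]) : PowerSeries ℂ) ≠ 0 := by
    rw [Ne, Polynomial.coe_eq_zero_iff,
      Polynomial.map_eq_zero_iff (RingHom.injective_int _), reverse_eq_zero]
    exact hS
  have h2 : ((S.reverse.map (Int.castRingHom ℂ) : ℂ[X]) : PowerSeries ℂ) *
      PowerSeries.mk (fun j => if j = 0 then 0 else ps S j) =
      -((X * derivative (S.reverse.map (Int.castRingHom ℂ)) : ℂ[X]) : PowerSeries ℂ) := by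
    unfold IsNS rv at h1
    rw [← PowerSeries.smul_eq_C_mul, Derivation.map_smul, PowerSeries.derivative_coe,
      smul_mul_assoc, mul_smul_comm, ← smul_neg] at h1
    rw [Polynomial.coe_mul, Polynomial.coe_X]
    exact smul_right_injective _ (inv_ne_zero hc) h1
  have h3 : ψ = -(((X * derivative (S.reverse.map (Int.castRingHom ℂ)) : ℂ[X]) : PowerSeries ℂ) *
      PowerSeries.mk (fun j => if j = 0 then 0 else ps S j)) := by
    refine mul_left_cancel₀ hf ?_
    rw [h]
    linear_combination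
      ((X * derivative (S.reverse.map (Int.castRingHom ℂ)) : ℂ[X]) : PowerSeries ℂ) * h2
  rw [h3, map_neg, der_eq, ← Polynomial.coeToPowerSeries.ringHom_apply, map_sum, Finset.sum_mul,
    map_sum]
  congr 1
  refine Finset.sum_congr rfl fun i _ => ?_
  rw [Polynomial.coeToPowerSeries.ringHom_apply, Polynomial.coe_mul, Polynomial.coe_C,
    Polynomial.coe_pow, Polynomial.coe_X, mul_assoc, PowerSeries.coeff_C_mul,
    PowerSeries.coeff_X_pow_mul', PowerSeries.coeff_mk]
  congr 1
  by_cases h4 : S.natDegree - i < m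
  · rw [if_pos h4.le, if_neg (by omega), if_pos h4]
  · rw [if_neg h4]
    split_ifs with h5 h6
    · rfl
    · omega
    · rfl

end GrowTx

open GrowTx in
theorem p_Qcoef (hL : S_Lac) (hN : S_NS) : S_Qcoef := by
  intro L s J m S ψ hS hd h hlt
  have h0 : S ≠ 0 := fun e => hS.1 (by rw [e, coeff_zero])
  have e := coeff_psi hN h0 h m
  have hm : S.natDegree < m := by
    by_contra hm
    refine absurd hlt (not_lt.mpr ?_)
    have b1 : ∀ j ≤ S.natDegree, ‖ps S j‖ ≤ S.natDegree * (L : ℝ) ^ J := fun j hj =>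
      norm_ps_le fun β hβ =>
        ((hL L s S hS).2.2.2.2.2 β (mem_aroots.mp hβ).2).2.1 J j (hj.trans hd)
    rw [e, norm_neg]
    have b2 : (∑ i ∈ S.support, (((S.coeff i).natAbs : ℕ) : ℝ)) ≤ L := by exact_mod_cast hS.2.1
    calc _ ≤ _ := norm_sum_le _ _
      _ ≤ ∑ i ∈ S.support, (((S.coeff i).natAbs : ℕ) : ℝ) *
            ((S.natDegree : ℝ) ^ 2 * (L : ℝ) ^ J) := Finset.sum_le_sum fun i _ => by
          rw [norm_mul, norm_mul, Complex.norm_natCast, Complex.norm_intCast, Nat.cast_natAbs,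
            Int.cast_abs]
          have a1 : ((S.natDegree - i : ℕ) : ℝ) ≤ S.natDegree := by
            exact_mod_cast Nat.sub_le _ _
          have a2 : ‖if S.natDegree - i < m then ps S (m - (S.natDegree - i)) else 0‖ ≤
              S.natDegree * (L : ℝ) ^ J := by
            split_ifs
            · exact b1 _ (by omega)
            · rw [norm_zero]; positivity
          calc _ ≤ (S.natDegree : ℝ) * |(S.coeff i : ℝ)| * (S.natDegree * (L : ℝ) ^ J) := by
                gcongr
            _ = _ := by ring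
      _ ≤ L * ((S.natDegree : ℝ) ^ 2 * (L : ℝ) ^ J) := by
          rw [← Finset.sum_mul]
          gcongr
      _ = _ := by ring
  refine ⟨hm, ?_⟩
  have e1 : ∑ i ∈ S.support, (S.coeff i : ℂ) * ps S (m - S.natDegree + i) = 0 := by
    unfold ps
    rw [GrowTx.swap]
    refine Multiset.sum_eq_zero fun x hx => ?_
    obtain ⟨β, hβ, rfl⟩ := Multiset.mem_map.mp hx
    rw [← aeval_sum, (mem_aroots.mp hβ).2, mul_zero]
  have e2 : Qs S (m - S.natDegree) =
      ∑ i ∈ S.support, ((i : ℂ) * S.coeff i) * ps S (m - S.natDegree + i) := by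
    unfold ps Qs
    rw [GrowTx.swap]
    simp only [aeval_der]
  rw [e, e2, ← sub_eq_zero, sub_neg_eq_add, ← Finset.sum_add_distrib, ← mul_zero
    (S.natDegree : ℂ), ← e1, Finset.mul_sum]
  refine Finset.sum_congr rfl fun i hi => ?_
  have hi' := le_natDegree_of_mem_supp i hi
  rw [if_pos (by omega), show m - (S.natDegree - i) = m - S.natDegree + i by omega,
    Nat.cast_sub hi']
  ring

theorem p_GrowT (hP : S_Psi) (hQ : S_Pole) : S_GrowT := by
  classical
  intro k F a θ κ Θ h1 hκ hgap ⟨α, hα, hα0, hα1⟩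
  by_contra hn
  push Not at hn
  have hgap' : ∀ u ∈ F.coeff.support, u ≠ 0 → u ⬝ᵥ a + ((1 : ℕ) : ℤ) ≤ 0 := by
    simpa using hgap
  have hgapC : ∀ u ∈ (toC F).coeff.support, u ≠ 0 → u ⬝ᵥ a + ((1 : ℕ) : ℤ) ≤ 0 := by
    rwa [support_toC]
  have ng : Ng a (toC F) := ng_of_gap hgapC
  have ng' : Ng a (dv (fun i => (θ i : ℂ)) (toC F)) := ng.subset (support_dv _ _)
  have c0 : PowerSeries.constantCoeff (pl a (toC F) : PowerSeries ℂ) ≠ 0 := by
    rw [Polynomial.constantCoeff_coe, pl_coeff_zero le_rfl hgapC, toC_coeff]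
    have : F.coeff 0 ≠ 0 := fun e => by simp [e] at h1
    simpa using this
  obtain ⟨ψ, hψ⟩ : ∃ ψ : PowerSeries ℂ, (pl a (toC F) : PowerSeries ℂ) * ψ =
      (pl a (dv (fun i => (θ i : ℂ)) (toC F)) : PowerSeries ℂ) ^ 2 :=
    ⟨(pl a (toC F) : PowerSeries ℂ)⁻¹ * _, by
      rw [← mul_assoc, PowerSeries.mul_inv_cancel _ c0, one_mul]⟩
  obtain ⟨D, -, hD⟩ := exists_bx F
  have bd : ∀ m : ℕ, ‖PowerSeries.coeff m ψ‖ ≤
      max Θ 0 * (2 * D + 1) ^ k * ((m : ℝ) + 1) ^ k := by
    intro m
    obtain ⟨J₀, hJ₀⟩ := exists_nat_gt ((D * m * ∑ i, |θ i|) / κ)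
    obtain ⟨p1, p2, -⟩ := hP k F (J₀ + m) h1
    rw [p1 θ a 1 ψ le_rfl hgap' hψ m (by omega)]
    have b1 : ∀ w ∈ (Psi F θ (J₀ + m)).coeff.support.filter (fun w => -(w ⬝ᵥ a) = m),
        ∀ i, |w i| ≤ D * m := by
      intro w hw i
      obtain ⟨hw1, hw2⟩ := Finset.mem_filter.mp hw
      have key : ∀ σ : ℤ, |σ| = 1 → σ * w i + D * (w ⬝ᵥ a) ≤ 0 := fun σ hσ => by
        have := p2 θ ((σ : ℝ) • crd i + (D : ℝ) • dotR a) (fun u hu hu0 => by
          have a1 := hgap u hu hu0
          have a2 := hD u hu i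
          have a3 : σ * u i ≤ D := (le_abs_self _).trans (by rw [abs_mul, hσ, one_mul]; exact a2)
          have a4 : σ * u i + D * (u ⬝ᵥ a) ≤ 0 := by nlinarith [Int.natCast_nonneg D]
          simp only [AddMonoidHom.add_apply, AddMonoidHom.smul_apply, crd_apply, dotR_apply,
            smul_eq_mul]
          exact_mod_cast a4) w hw1
        simp only [AddMonoidHom.add_apply, AddMonoidHom.smul_apply, crd_apply, dotR_apply,
          smul_eq_mul] at this
        exact_mod_cast this
      have k1 := key 1 rfl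
      have k2 := key (-1) rfl
      rw [show w ⬝ᵥ a = -m by omega] at k1 k2
      rw [abs_le]
      constructor <;> linarith
    have b2 : ∀ w ∈ (Psi F θ (J₀ + m)).coeff.support.filter (fun w => -(w ⬝ᵥ a) = m),
        ‖(Psi F θ (J₀ + m)).coeff w‖ ≤ max Θ 0 := by
      intro w hw
      refine (hn w (J₀ + m) ?_).trans (le_max_left _ _)
      have a1 : -lin θ w ≤ D * m * ∑ i, |θ i| := by
        rw [lin, ← Finset.sum_neg_distrib, Finset.mul_sum]
        refine Finset.sum_le_sum fun i _ => (neg_le_abs _).trans ?_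
        rw [abs_mul]
        refine mul_le_mul_of_nonneg_right ?_ (abs_nonneg _)
        exact_mod_cast b1 w hw i
      rw [div_lt_iff₀ hκ] at hJ₀
      have a2 : (J₀ : ℝ) * κ ≤ (((J₀ + m : ℕ) : ℝ) + 1) * κ := by
        refine mul_le_mul_of_nonneg_right ?_ hκ.le
        push_cast
        have : (0 : ℝ) ≤ m := Nat.cast_nonneg _
        linarith
      linarith
    have b3 : ((Psi F θ (J₀ + m)).coeff.support.filter (fun w => -(w ⬝ᵥ a) = m)).card ≤
        (2 * D + 1) ^ k * (m + 1) ^ k := by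
      refine (Finset.card_le_card (t := Fintype.piFinset fun _ : Fin k =>
        Finset.Icc (-((D * m : ℕ) : ℤ)) ((D * m : ℕ) : ℤ)) fun w hw => ?_).trans ?_
      · refine Fintype.mem_piFinset.2 fun i => Finset.mem_Icc.2 (abs_le.1 ?_)
        exact_mod_cast b1 w hw i
      · rw [Fintype.card_piFinset, Finset.prod_const, Finset.card_univ, Fintype.card_fin,
          Int.card_Icc, ← mul_pow]
        refine Nat.pow_le_pow_left ?_ _
        have : (2 * D + 1) * (m + 1) = 2 * (D * m) + 1 + (2 * D + m) := by ring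
        omega
    calc _ ≤ _ := norm_sum_le _ _
      _ ≤ _ := Finset.sum_le_card_nsmul _ _ _ b2
      _ ≤ ((2 * D + 1) ^ k * (m + 1) ^ k : ℕ) * max Θ 0 := by
          rw [nsmul_eq_mul]
          exact mul_le_mul_of_nonneg_right (by exact_mod_cast b3) (le_max_right _ _)
      _ = _ := by push_cast; ring
  have key := hQ (pl a (toC F)) (pl a (dv (fun i => (θ i : ℂ)) (toC F)) ^ 2) ψ
    ((α⁻¹ : ℂˣ) : ℂ) _ k (by rw [hψ, Polynomial.coe_pow])
    (by rw [← coe_aeval_eq_eval, aeval_pl ng, hα0])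
    (by rw [Units.val_inv_eq_inv_val, norm_inv]; exact inv_lt_one_of_one_lt₀ hα) bd
  rw [eval_pow, ← coe_aeval_eq_eval, aeval_pl ng'] at key
  exact hα1 (pow_eq_zero_iff two_ne_zero |>.mp key)

end Pool.Agent.P.MP_aef18a_nt.OW
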