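import Pool.Agent.P.MP_aef18a_nt.OW.Iface

namespace Pool.Agent.P.MP_aef18a_nt.OW

open Polynomial Matrix LaurentPolynomial

namespace Injx

lemma quasi {n r : ℕ} (M : Matrix (Fin n) (Fin r) ℤ) (h : ∀ u : Fin n → ℤ, u ᵥ* M = 0 → u = 0) :
    ∃ (m : ℕ) (N : Matrix (Fin r) (Fin n) ℤ), 0 < m ∧ M * N = (m : ℤ) • 1 := by
  have hd : (M * M.transpose).det ≠ 0 := by
    intro e
    obtain ⟨u, hu, h0⟩ := Matrix.exists_vecMul_eq_zero_iff.2 e
    refine hu (h u (dotProduct_self_eq_zero.1 ?_))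
    rw [← vecMul_vecMul, vecMul_transpose] at h0
    rw [← dotProduct_mulVec, h0, dotProduct_zero]
  refine ⟨((M * M.transpose).det ^ 2).toNat,
    (M * M.transpose).det • (M.transpose * (M * M.transpose).adjugate), ?_, ?_⟩
  · have := pow_pos (abs_pos.2 hd) 2
    rw [sq_abs] at this
    omega
  · rw [Int.toNat_of_nonneg (sq_nonneg _), Matrix.mul_smul, ← Matrix.mul_assoc, mul_adjugate,
      smul_smul, sq]

lemma root (β : ℂˣ) {n : ℤ} (hn : n ≠ 0) : ∃ γ : ℂˣ, γ ^ n = β := by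
  obtain ⟨z, hz⟩ := IsAlgClosed.exists_pow_nat_eq (β : ℂ) (Int.natAbs_pos.2 hn)
  have h0 : z ≠ 0 := by
    rintro rfl
    rw [zero_pow (Int.natAbs_pos.2 hn).ne'] at hz
    exact β.ne_zero hz.symm
  have h1 : Units.mk0 z h0 ^ n.natAbs = β := Units.ext (by simpa using hz)
  rcases Int.natAbs_eq n with e | e
  · exact ⟨Units.mk0 z h0, by rw [e, zpow_natCast, h1]⟩
  · exact ⟨(Units.mk0 z h0)⁻¹, by rw [e, _root_.zpow_neg, _root_.inv_zpow, inv_inv, zpow_natCast, h1]⟩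

end Injx

open Injx in
theorem p_Inj : S_Inj := by
  intro n r M b P hP hM hA G₁ G₂ he
  obtain ⟨m, N, hm, hN⟩ := quasi M hM
  have hinj : Function.Injective fun u : Fin n → ℤ => u ᵥ* M := fun u v e =>
    sub_eq_zero.1 (hM _ (by rw [sub_vecMul]; exact sub_eq_zero.2 e))
  have h0 : pb M P ≠ 0 := mapDomain_ne_zero hinj.injOn hP
  have key : ∀ G : LP r, G ∣ pb M P → ∀ u ∈ G.coeff.support, ∀ u' ∈ G.coeff.support,
      ((u - u') ᵥ* N) ᵥ* M = (m : ℤ) • (u - u') := by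
    intro G hG u hu u' hu'
    funext j
    have h1 : ∀ z ∈ (pb M P).coeff.support,
        ((crd j).comp (vm (N * M - (m : ℤ) • 1))) z = 0 := by
      intro z hz
      obtain ⟨y, -, rfl⟩ := mem_pb hz
      have : (y ᵥ* M) ᵥ* (N * M - (m : ℤ) • 1) = 0 := by
        rw [vecMul_vecMul, Matrix.mul_sub, ← Matrix.mul_assoc, hN, Matrix.smul_mul,
          Matrix.mul_smul, Matrix.one_mul, Matrix.mul_one, sub_self, vecMul_zero]
      rw [AddMonoidHom.comp_apply, vm_apply, this, map_zero]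
    have h2 := const_of_dvd ((crd j).comp (vm (N * M - (m : ℤ) • 1))) h0 hG
      (fun z hz z' hz' => (h1 z hz).trans (h1 z' hz').symm) u hu u' hu'
    rw [← sub_eq_zero, ← map_sub, AddMonoidHom.comp_apply, vm_apply, vecMul_sub, vecMul_smul,
      vecMul_one, ← vecMul_vecMul] at h2
    have h3 : (((u - u') ᵥ* N) ᵥ* M - (m : ℤ) • (u - u')) j = 0 := by
      simp only [crd, AddMonoidHom.mk'_apply] at h2
      exact_mod_cast h2
    exact sub_eq_zero.1 h3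
  have unit : ∀ G : LP r, G ∣ pb M P → IsUnit (pb N G) → IsUnit G := by
    intro G hG hu
    have hi : Set.InjOn (fun u : Fin r → ℤ => u ᵥ* N) G.coeff.support := by
      intro u h1 u' h2 e
      have := key G hG u h1 u' h2
      simp only at e
      rw [sub_vecMul, e, sub_self, zero_vecMul] at this
      exact sub_eq_zero.1 (smul_inj hm (this.symm.trans (smul_zero _).symm))
    refine isUnit_iff.2 ⟨ne_zero_of_dvd_ne_zero h0 hG, fun u h1 u' h2 => hi h1 h2 ?_⟩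
    exact (isUnit_iff.1 hu).2 _ (mem_mapDomain_injOn hi h1) _ (mem_mapDomain_injOn hi h2)
  have e : dil m P = pb N G₁ * pb N G₂ := by rw [← map_mul, ← he, pb_pb, hN, dil_eq_pb]
  refine (hA m hm _ _ e fun z hz z' hz' => ?_).imp (unit G₁ ⟨_, he⟩)
    (unit G₂ ⟨_, he.trans (mul_comm _ _)⟩)
  obtain ⟨u, hu, rfl⟩ := mem_pb hz
  obtain ⟨u', hu', rfl⟩ := mem_pb hz'
  rw [← sub_vecMul, dotProduct_mulVec, key G₁ ⟨_, he⟩ u hu u' hu', smul_dotProduct, smul_eq_mul]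
  exact dvd_mul_right _ _

open Injx in
theorem p_NtrC : S_NtrC := by
  intro r D Q b b' hQ hc hW hb hb' hL
  obtain ⟨α, hα, h0⟩ := (hasL_spec b Q).1 hL
  rw [hasL_spec]
  obtain ⟨u0, hu0, u1, hu1, hne⟩ : ∃ u0 ∈ Q.coeff.support, ∃ u1 ∈ Q.coeff.support, u1 ≠ u0 := by
    by_contra hn
    push Not at hn
    exact evc_ne_zero_of_isUnit b α (isUnit_iff.2 ⟨hQ, fun u hu u' hu' => hn u' hu' u hu⟩) h0
  obtain ⟨g, hg, d0, v, hd, hv⟩ := CznA.prim (sub_ne_zero.2 hne)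
  have hg' : (g : ℤ) ≠ 0 := by exact_mod_cast hg.ne'
  have hd' : ∀ i, u1 i - u0 i = g * d0 i := fun i => congrFun hd i
  have hline : ∀ w ∈ Q.coeff.support, w = u0 + (v ⬝ᵥ (w - u0)) • d0 := by
    intro w hw
    have h1 : ∀ i j, d0 i * (w j - u0 j) = d0 j * (w i - u0 i) := by
      intro i j
      by_contra hn
      refine hc ⟨u0, hu0, u1, hu1, w, hw, i, j, fun e => hn (mul_left_cancel₀ hg' ?_)⟩
      rw [hd', hd'] at e
      linear_combination e
    funext j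
    have h2 : (v ⬝ᵥ (w - u0)) * d0 j = (v ⬝ᵥ d0) * (w j - u0 j) := by
      simp only [dotProduct, Finset.sum_mul, Pi.sub_apply]
      exact Finset.sum_congr rfl fun i _ => by linear_combination v i * h1 j i
    rw [hv] at h2
    simp only [Pi.add_apply, Pi.smul_apply, smul_eq_mul]
    linear_combination -h2
  have hd0 : d0 ≠ 0 := by
    rintro rfl
    simp at hv
  have hD : ∀ i, |d0 i| ≤ D := fun i => by
    have := hW.abs hu1 hu0 i
    rw [hd', abs_mul] at this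
    exact le_trans (le_mul_of_one_le_left (abs_nonneg _) (Int.one_le_abs hg')) this
  have hn := hb d0 hd0 hD
  obtain ⟨γ, hγ⟩ := root (α ^ (d0 ⬝ᵥ b)) (hb' d0 hd0 hD)
  have hsum : ∀ (c : Fin r → ℤ) (z : ℂˣ), evc c z Q = (z : ℂ) ^ (u0 ⬝ᵥ c) *
      ∑ w ∈ Q.coeff.support, algebraMap ℚ ℂ (Q.coeff w) *
        ((z ^ (d0 ⬝ᵥ c) : ℂˣ) : ℂ) ^ (v ⬝ᵥ (w - u0)) := by
    intro c z
    rw [evc_eq_sum, Finset.mul_sum]
    refine Finset.sum_congr rfl fun w hw => ?_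
    have : w ⬝ᵥ c = u0 ⬝ᵥ c + (d0 ⬝ᵥ c) * (v ⬝ᵥ (w - u0)) := by
      conv_lhs => rw [hline w hw]
      rw [add_dotProduct, smul_dotProduct, smul_eq_mul, mul_comm]
    rw [this, zpow_add₀ z.ne_zero, _root_.zpow_mul, Units.val_zpow_eq_zpow_val]
    ring
  refine ⟨γ, ?_, ?_⟩
  · rintro ⟨m, hm, e⟩
    have e1 : γ ^ m = 1 := Units.ext (by simpa using e)
    have e2 : α ^ ((d0 ⬝ᵥ b) * m) = 1 := by
      rw [_root_.zpow_mul, ← hγ, ← _root_.zpow_mul, mul_comm, _root_.zpow_mul, zpow_natCast, e1,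
        _root_.one_zpow]
    have h2 : (d0 ⬝ᵥ b) * m ≠ 0 := mul_ne_zero hn (by exact_mod_cast hm.ne')
    refine hα ⟨((d0 ⬝ᵥ b) * m).natAbs, Int.natAbs_pos.2 h2, ?_⟩
    have e3 : α ^ ((d0 ⬝ᵥ b) * m).natAbs = 1 := pow_natAbs_eq_one.2 e2
    rw [← Units.val_pow_eq_pow_val, e3, Units.val_one]
  · rw [hsum] at h0 ⊢
    rw [hγ, (mul_eq_zero.1 h0).resolve_left (zpow_ne_zero _ α.ne_zero), mul_zero]

end Pool.Agent.P.MP_aef18a_nt.OW
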