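import Pool.Agent.P.MP_aef18a_nt.OW.Iface

namespace Pool.Agent.P.MP_aef18a_nt.OW

open Polynomial Matrix LaurentPolynomial

namespace K0x

open AddMonoidAlgebra

variable {r m : ℕ}

/-- the pairing of a residue vector with an exponent -/
def pr (j : Fin r → ZMod m) (u : Fin r → ℤ) : ZMod m := ∑ i, j i * (u i : ZMod m)

lemma pr_add_left (j j' : Fin r → ZMod m) (u : Fin r → ℤ) :
    pr (j + j') u = pr j u + pr j' u := by
  simp [pr, add_mul, Finset.sum_add_distrib]

lemma pr_neg_left (j : Fin r → ZMod m) (u : Fin r → ℤ) : pr (-j) u = -pr j u := by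
  simp [pr]

lemma pr_zero_left (u : Fin r → ℤ) : pr (0 : Fin r → ZMod m) u = 0 := by simp [pr]

lemma pr_add (j : Fin r → ZMod m) (u v : Fin r → ℤ) : pr j (u + v) = pr j u + pr j v := by
  simp [pr, mul_add, Finset.sum_add_distrib]

lemma pr_zero (j : Fin r → ZMod m) : pr j 0 = 0 := by simp [pr]

lemma pr_smul (j : Fin r → ZMod m) (u : Fin r → ℤ) : pr j ((m : ℤ) • u) = 0 := by
  simp [pr]

lemma pr_single (i : Fin r) (x : ZMod m) (u : Fin r → ℤ) :
    pr (Pi.single i x) u = x * (u i : ZMod m) := by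
  rw [pr, Finset.sum_eq_single i]
  · simp
  · intro b _ hb
    simp [hb]
  · simp

variable [NeZero m]

/-- the twist by a character -/
noncomputable def tw (j : Fin r → ZMod m) : LQ ℂ r →ₐ[ℂ] LQ ℂ r :=
  AddMonoidAlgebra.lift ℂ (LQ ℂ r) (Fin r → ℤ)
    { toFun := fun u => single u.toAdd (ZMod.stdAddChar (pr j u.toAdd))
      map_one' := by simp [pr_zero, one_def]
      map_mul' := fun u w => by
        rw [toAdd_mul, single_mul_single, pr_add, AddChar.map_add_eq_mul] }

lemma tw_single (j : Fin r → ZMod m) (u : Fin r → ℤ) (c : ℂ) :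
    tw j (single u c) = single u (ZMod.stdAddChar (pr j u) * c) := by
  simp [tw, mul_comm]

lemma tw_coeff (j : Fin r → ZMod m) (A : LQ ℂ r) (u : Fin r → ℤ) :
    (tw j A).coeff u = ZMod.stdAddChar (pr j u) * A.coeff u := by
  induction A using AddMonoidAlgebra.induction_linear with
  | zero => simp
  | add x y hx hy => simp [map_add, hx, hy, mul_add]
  | single w c =>
    rw [tw_single, coeff_single, coeff_single]
    by_cases h : w = u
    · subst h; simp
    · simp [h]

lemma chi_ne (x : ZMod m) : ZMod.stdAddChar x ≠ 0 := by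
  intro h
  have := AddChar.map_add_eq_mul (ZMod.stdAddChar (N := m)) x (-x)
  rw [add_neg_cancel, h, zero_mul, AddChar.map_zero_eq_one] at this
  exact one_ne_zero this

lemma support_tw (j : Fin r → ZMod m) (A : LQ ℂ r) :
    (tw j A).coeff.support = A.coeff.support := by
  ext u
  simp [tw_coeff, chi_ne]

lemma tw_tw (j : Fin r → ZMod m) (A : LQ ℂ r) : tw (-j) (tw j A) = A := by
  ext u
  rw [tw_coeff, tw_coeff, ← mul_assoc, ← AddChar.map_add_eq_mul, pr_neg_left, neg_add_cancel,
    AddChar.map_zero_eq_one, one_mul]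

/-- the twist as an equivalence -/
noncomputable def twE (j : Fin r → ZMod m) : LQ ℂ r ≃* LQ ℂ r where
  toFun := tw j
  invFun := tw (-j)
  left_inv := tw_tw j
  right_inv A := by simpa using tw_tw (-j) A
  map_mul' := map_mul (tw j)

lemma prime_tw (j : Fin r → ZMod m) {R : LQ ℂ r} (h : Prime R) : Prime (tw j R) :=
  (MulEquiv.prime_iff (twE j)).mpr h

lemma tw_dil (j : Fin r → ZMod m) (G : LQ ℂ r) : tw j (dil m G) = dil m G := by
  induction G using AddMonoidAlgebra.induction_linear with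
  | zero => simp
  | add x y hx hy => simp only [map_add, hx, hy]
  | single u c => rw [dil_single, tw_single, pr_smul, AddChar.map_zero_eq_one, one_mul]

/-- the characters which are constant on the support -/
def Ann (m : ℕ) (R : LQ ℂ r) : AddSubgroup (Fin r → ZMod m) where
  carrier := {j | ∀ u ∈ R.coeff.support, ∀ u' ∈ R.coeff.support, pr j u = pr j u'}
  zero_mem' := fun u _ u' _ => by rw [pr_zero_left, pr_zero_left]
  add_mem' := fun {a b} ha hb u hu u' hu' => by
    rw [pr_add_left, pr_add_left, ha u hu u' hu', hb u hu u' hu']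
  neg_mem' := fun {a} ha u hu u' hu' => by rw [pr_neg_left, pr_neg_left, ha u hu u' hu']

lemma mem_of_dvd {R : LQ ℂ r} (hR : Prime R) {j j' : Fin r → ZMod m} (h : tw j R ∣ tw j' R) :
    -j + j' ∈ Ann m R := by
  obtain ⟨t, ht⟩ := eq_smul_of_dvd (prime_tw j hR).ne_zero h
    (by rw [support_tw, support_tw])
  have key : ∀ u ∈ R.coeff.support, ZMod.stdAddChar (pr (-j + j') u) = t := fun u hu => by
    have h1 := congrArg (fun B : LQ ℂ r => B.coeff u) ht
    simp only [tw_coeff, AddMonoidAlgebra.coeff_smul, Finsupp.smul_apply, smul_eq_mul] at h1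
    rw [← mul_assoc] at h1
    have h2 := mul_right_cancel₀ (Finsupp.mem_support_iff.mp hu) h1
    rw [pr_add_left, AddChar.map_add_eq_mul, h2, mul_left_comm, ← AddChar.map_add_eq_mul,
      pr_neg_left, neg_add_cancel, AddChar.map_zero_eq_one, mul_one]
  exact fun u hu u' hu' => ZMod.injective_stdAddChar ((key u hu).trans (key u' hu').symm)

omit [NeZero m] in
lemma prod_dvd {ι M : Type*} [CommRing M] (f : ι → M) (n : M) (s : Finset ι)
    (hp : ∀ a ∈ s, Prime (f a)) (hd : ∀ a ∈ s, f a ∣ n)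
    (hn : ∀ a ∈ s, ∀ b ∈ s, f a ∣ f b → a = b) : ∏ a ∈ s, f a ∣ n := by
  classical
  induction s using Finset.induction_on with
  | empty => simp
  | insert a s ha ih =>
    obtain ⟨c, hc⟩ := ih (fun b hb => hp b (Finset.mem_insert_of_mem hb))
      (fun b hb => hd b (Finset.mem_insert_of_mem hb))
      (fun b hb b' hb' => hn b (Finset.mem_insert_of_mem hb) b' (Finset.mem_insert_of_mem hb'))
    have pa := hp a (Finset.mem_insert_self a s)
    have h1 := hd a (Finset.mem_insert_self a s)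
    rw [hc] at h1
    rw [Finset.prod_insert ha, hc, mul_comm (f a)]
    refine mul_dvd_mul_left _ ((pa.dvd_or_dvd h1).resolve_left fun h2 => ?_)
    obtain ⟨b, hb, h3⟩ := (pa.dvd_finsetProd_iff f).mp h2
    exact ha (hn a (Finset.mem_insert_self a s) b (Finset.mem_insert_of_mem hb) h3 ▸ hb)

omit [NeZero m] in
lemma top_prod {ι : Type*} (ω : (Fin r → ℤ) →+ ℝ) (f : ι → LQ ℂ r) (u : Fin r → ℤ)
    (s : Finset ι) (hu : ∀ a ∈ s, u ∈ (f a).coeff.support) :
    ∃ z ∈ (∏ a ∈ s, f a).coeff.support, s.card * ω u ≤ ω z := by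
  classical
  induction s using Finset.induction_on with
  | empty => exact ⟨0, by simp [one_def], by simp⟩
  | insert a s ha ih =>
    obtain ⟨z, hz, h1⟩ := ih fun b hb => hu b (Finset.mem_insert_of_mem hb)
    have h2 := hu a (Finset.mem_insert_self a s)
    have n1 : f a ≠ 0 := fun e => by simp [e] at h2
    have n2 : ∏ a ∈ s, f a ≠ 0 := fun e => by simp [e] at hz
    obtain ⟨x, -, y, -, w, hw, b1, b2, e⟩ := exists_top_mul ω n1 n2
    refine ⟨w, by rwa [Finset.prod_insert ha], ?_⟩
    have := b1 u h2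
    have := b2 z hz
    rw [Finset.card_insert_of_notMem ha]
    push_cast
    linarith

lemma index_mul_le {D : ℕ} {R G : LQ ℂ r} (hR : Prime R) (hG : G ≠ 0) (hW : Wb D G)
    (hd : R ∣ dil m G) {u u' : Fin r → ℤ} (hu : u ∈ R.coeff.support) (hu' : u' ∈ R.coeff.support)
    (i : Fin r) : ((Ann m R).index : ℤ) * (u i - u' i) ≤ m * D := by
  classical
  have : Fintype ((Fin r → ZMod m) ⧸ Ann m R) := Fintype.ofFinite _
  have h1 : ∏ q : (Fin r → ZMod m) ⧸ Ann m R, tw q.out R ∣ dil m G := by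
    refine prod_dvd _ _ _ (fun q _ => prime_tw _ hR) (fun q _ => ?_) fun q _ q' _ h => ?_
    · rw [← tw_dil q.out G]
      exact map_dvd _ hd
    · rw [← q.out_eq', ← q'.out_eq']
      exact QuotientAddGroup.eq.mpr (mem_of_dvd hR h)
  have h2 := (hW.dil m).of_dvd (dil_ne_zero (NeZero.pos m) hG) h1
  obtain ⟨z, hz, a1⟩ := top_prod (crd i) (fun q : (Fin r → ZMod m) ⧸ Ann m R => tw q.out R) u
    Finset.univ fun q _ => by rwa [support_tw]
  obtain ⟨z', hz', a2⟩ := top_prod (-crd i) (fun q : (Fin r → ZMod m) ⧸ Ann m R => tw q.out R) u'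
    Finset.univ fun q _ => by rwa [support_tw]
  have h3 : ((z i - z' i : ℤ) : ℝ) ≤ ((m * D : ℕ) : ℤ) := by exact_mod_cast h2 z hz z' hz' i
  simp only [AddMonoidHom.neg_apply, crd_apply, Finset.card_univ] at a1 a2
  rw [AddSubgroup.index, Nat.card_eq_fintype_card]
  push_cast at h3
  have h4 : (Fintype.card ((Fin r → ZMod m) ⧸ Ann m R) : ℝ) * (u i - u' i) ≤ m * D := by
    linarith
  exact_mod_cast h4

omit [NeZero m] in
lemma ar0 {M K w a b x y : ℤ} (ha : |a| ≤ w) (hb : |b| ≤ w) (hx : |x| ≤ K) (hy : |y| ≤ K)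
    (hM : 2 * w * K < M) (h : M ∣ x * a + y * b) : x * a + y * b = 0 := by
  refine Int.eq_zero_of_abs_lt_dvd h ?_
  have h1 : |x * a| ≤ K * w := by
    rw [abs_mul]
    exact mul_le_mul hx ha (abs_nonneg _) ((abs_nonneg _).trans hx)
  have h2 : |y * b| ≤ K * w := by
    rw [abs_mul]
    exact mul_le_mul hy hb (abs_nonneg _) ((abs_nonneg _).trans hy)
  have := abs_add_le (x * a) (y * b)
  linarith

lemma sq_le_index {R : LQ ℂ r} {u v w : Fin r → ℤ} (hu : u ∈ R.coeff.support)
    (hv : v ∈ R.coeff.support) (hw : w ∈ R.coeff.support) {i j : Fin r}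
    (hne : (v i - u i) * (w j - u j) ≠ (v j - u j) * (w i - u i)) {wd K : ℕ}
    (hb : ∀ x ∈ R.coeff.support, ∀ y ∈ R.coeff.support, ∀ l, |x l - y l| ≤ wd)
    (hK : 2 * wd * K < m) : (K + 1) ^ 2 ≤ (Ann m R).index := by
  classical
  have : Fintype ((Fin r → ZMod m) ⧸ Ann m R) := Fintype.ofFinite _
  rw [AddSubgroup.index, Nat.card_eq_fintype_card, ← Finset.card_univ]
  have hc : (Finset.range (K + 1) ×ˢ Finset.range (K + 1)).card = (K + 1) ^ 2 := by
    rw [Finset.card_product, Finset.card_range, sq]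
  rw [← hc]
  refine Finset.card_le_card_of_injOn
    (fun p => (QuotientAddGroup.mk (Pi.single i (p.1 : ZMod m) + Pi.single j (p.2 : ZMod m)) :
      (Fin r → ZMod m) ⧸ Ann m R)) (fun _ _ => Finset.mem_univ _) ?_
  rintro ⟨x, y⟩ hp ⟨x', y'⟩ hp' e
  have hA := QuotientAddGroup.eq.mp e
  simp only [Finset.coe_product, Finset.coe_range, Set.mem_prod, Set.mem_Iio] at hp hp'
  have key : ∀ z ∈ R.coeff.support,
      ((x' : ℤ) - x) * (z i - u i) + ((y' : ℤ) - y) * (z j - u j) = 0 := fun z hz => by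
    refine ar0 (M := m) (K := K) (hb z hz u hu i) (hb z hz u hu j) ?_ ?_
      (by exact_mod_cast hK) ?_
    · rw [abs_le]; omega
    · rw [abs_le]; omega
    · rw [← ZMod.intCast_zmod_eq_zero_iff_dvd]
      have := hA z hz u hu
      simp only [pr_add_left, pr_neg_left, pr_single] at this
      push_cast
      linear_combination this
  have k1 := key v hv
  have k2 := key w hw
  have hd := sub_ne_zero.mpr hne
  have e1 : ((x' : ℤ) - x) * ((v i - u i) * (w j - u j) - (v j - u j) * (w i - u i)) = 0 := by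
    linear_combination (w j - u j) * k1 - (v j - u j) * k2
  have e2 : ((y' : ℤ) - y) * ((v i - u i) * (w j - u j) - (v j - u j) * (w i - u i)) = 0 := by
    linear_combination (v i - u i) * k2 - (w i - u i) * k1
  have f1 := (mul_eq_zero.mp e1).resolve_right hd
  have f2 := (mul_eq_zero.mp e2).resolve_right hd
  ext <;> simp only <;> omega

end K0x

open K0x in
theorem p_K0 : S_K0 := by
  intro r D m R G hm hR hN hG hW hd
  have : NeZero m := ⟨hm.ne'⟩
  have h0 : 0 < (Ann m R).index := Nat.pos_of_ne_zero AddSubgroup.index_ne_zero_of_finite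
  refine ⟨(Ann m R).index, h0, ?_, fun u hu u' hu' i => ?_⟩
  · obtain ⟨u, hu, v, hv, w, hw, i, j, hne⟩ := hN
    generalize hι : (Ann m R).index = ι at h0
    obtain ⟨wd, hwd⟩ : ∃ wd, wd = m * D / ι := ⟨_, rfl⟩
    have h1 : wd * ι ≤ m * D := hwd ▸ Nat.div_mul_le_self _ _
    have h2 : m * D < (wd + 1) * ι := by
      rw [← Nat.div_lt_iff_lt_mul h0, hwd]
      exact Nat.lt_succ_self _
    have hb : ∀ x ∈ R.coeff.support, ∀ y ∈ R.coeff.support, ∀ l, |x l - y l| ≤ wd := by
      have hh : ∀ x ∈ R.coeff.support, ∀ y ∈ R.coeff.support, ∀ l, x l - y l ≤ wd := by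
        intro x hx y hy l
        have h3 := index_mul_le hR hG hW hd hx hy l
        rw [hι] at h3
        have h4 : (m * D : ℤ) < (wd + 1) * ι := by exact_mod_cast h2
        have h5 : (0 : ℤ) < ι := by exact_mod_cast h0
        by_contra h6
        nlinarith
      intro x hx y hy l
      have := hh y hy x hx l
      exact abs_le.mpr ⟨by linarith, hh x hx y hy l⟩
    have hw1 : 0 < wd := by
      by_contra h
      have h7 : wd = 0 := by omega
      have a1 := hb v hv u hu i
      have a2 := hb v hv u hu j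
      rw [h7, Nat.cast_zero, abs_nonpos_iff] at a1 a2
      exact hne (by rw [a1, a2, zero_mul, zero_mul])
    obtain ⟨K, hK⟩ : ∃ K, K = (m - 1) / (2 * wd) := ⟨_, rfl⟩
    have h3 : 2 * wd * K ≤ m - 1 := hK ▸ Nat.mul_div_le _ _
    have h4 : m - 1 < (K + 1) * (2 * wd) := by
      rw [← Nat.div_lt_iff_lt_mul (by omega), hK]
      exact Nat.lt_succ_self _
    have h5 := sq_le_index (m := m) hu hv hw hne hb (K := K) (by omega)
    rw [hι] at h5
    have h6 : m ≤ (K + 1) * (2 * wd) := by omega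
    have h7 : m ^ 2 ≤ ι * (2 * wd) ^ 2 := calc
      m ^ 2 ≤ ((K + 1) * (2 * wd)) ^ 2 := Nat.pow_le_pow_left h6 2
      _ = (K + 1) ^ 2 * (2 * wd) ^ 2 := mul_pow _ _ _
      _ ≤ _ := Nat.mul_le_mul_right _ h5
    refine Nat.le_of_mul_le_mul_left (c := m ^ 2) ?_ (by positivity)
    calc m ^ 2 * ι ≤ ι * (2 * wd) ^ 2 * ι := Nat.mul_le_mul_right _ h7
      _ = 4 * (wd * ι) ^ 2 := by ring
      _ ≤ 4 * (m * D) ^ 2 := Nat.mul_le_mul_left _ (Nat.pow_le_pow_left h1 2)
      _ = _ := by ring
  · have := (Ann m R).nsmul_index_mem (Pi.single i 1) u hu u' hu'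
    rw [← Pi.single_smul, pr_single, pr_single] at this
    rw [← ZMod.intCast_zmod_eq_zero_iff_dvd]
    push_cast
    simp only [nsmul_eq_mul, mul_one] at this
    linear_combination this

end Pool.Agent.P.MP_aef18a_nt.OW
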