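import Pool.Agent.P.MP_aef18a_nt.OW.Iface

namespace Pool.Agent.P.MP_aef18a_nt.OW

open Polynomial Matrix LaurentPolynomial

namespace K1x

variable {r : ℕ}

lemma toC_smul (c : ℚ) (Y : LP r) : toC (c • Y) = (algebraMap ℚ ℂ c) • toC Y := by
  ext u
  simp [toC_coeff]

lemma dvd_dv_mul {θ : Fin r → ℂ} {R R' : LQ ℂ r} (h : R ∣ dv θ R ∨ R ∣ R') :
    R ∣ dv θ (R * R') := by
  rw [dv_mul]
  refine dvd_add ?_ (dvd_mul_right _ _)
  exact h.elim (fun h => h.mul_right _) fun h => h.mul_left _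

lemma const_dot (h : S_Cpx) {m : ℕ} (hm : 0 < m) {Q : LP r} {R : LQ ℂ r} (hQ : Irreducible Q)
    (hR : ¬ IsUnit R) (hd : R ∣ toC (dil m Q)) (b : Fin r → ℤ)
    (hd' : R ∣ dv (cv ℂ b) (toC (dil m Q))) :
    ∀ u ∈ Q.coeff.support, ∀ u' ∈ Q.coeff.support, u ⬝ᵥ b = u' ⬝ᵥ b := by
  have e : dv (cv ℂ b) (toC (dil m Q)) = toC ((m : ℚ) • dil m (dv (cv ℚ b) Q)) := by
    rw [← dv_dil, toC_dv]
    congr 1
  have h2 : R ∣ toC (dil m (dv (cv ℚ b) Q)) := by
    have hm' : (m : ℚ) ≠ 0 := by exact_mod_cast hm.ne'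
    rw [← inv_smul_smul₀ hm' (dil m (dv (cv ℚ b) Q)), toC_smul, ← e, Algebra.smul_def]
    exact hd'.mul_left _
  have h3 : Q ∣ dv (cv ℚ b) Q := by
    by_contra hn
    obtain ⟨h4, h5⟩ := relPrime_of_not_dvd hQ hn
    exact hR (h r m Q _ R hm hQ.ne_zero h4 h5 hd h2)
  intro u hu u' hu'
  have := const_of_dvd_dv hQ.ne_zero h3 u hu u' hu'
  simp only [cv] at this
  simp only [dotProduct]
  exact_mod_cast this

lemma unit_of_const {G R R' : LQ ℂ r} (ω : (Fin r → ℤ) →+ ℝ) (e : G = R * R') (h0 : G.coeff 0 ≠ 0)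
    (hG : ∀ u ∈ G.coeff.support, u ≠ 0 → ω u < 0)
    (hR : ∀ u ∈ R.coeff.support, ∀ u' ∈ R.coeff.support, ω u = ω u') : IsUnit R := by
  have hG0 : G ≠ 0 := by
    rintro rfl
    simp at h0
  have hR0 : R ≠ 0 := left_ne_zero_of_mul (e ▸ hG0)
  have hR1 : R' ≠ 0 := right_ne_zero_of_mul (e ▸ hG0)
  obtain ⟨u₀, hu₀⟩ := support_nonempty hR0
  obtain ⟨m₂, b1, b2⟩ := exists_top ω hR1
  have a1 : Bd ω (ω u₀) R := fun u hu => (hR u hu u₀ hu₀).le
  have a2 : lev ω (ω u₀) R = R := by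
    ext u
    rw [lev_coeff]
    split_ifs with hu
    · rfl
    · by_contra hne
      exact hu (hR u (Finsupp.mem_support_iff.mpr (Ne.symm hne)) u₀ hu₀)
  have h1 := lev_mul ω a1 b1
  have h2 := bd_mul ω a1 b1
  rw [a2, ← e] at h1
  rw [← e] at h2
  have h3 := h2 0 (Finsupp.mem_support_iff.mpr h0)
  rw [map_zero] at h3
  have key : ∀ u ∈ (lev ω (ω u₀ + m₂) G).coeff.support, u = 0 := fun u hu => by
    rw [Finsupp.mem_support_iff, lev_coeff] at hu
    by_contra hne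
    split_ifs at hu with hl
    · have := hG u (Finsupp.mem_support_iff.mpr hu) hne
      linarith
    · exact hu rfl
  have h4 : IsUnit (lev ω (ω u₀ + m₂) G) :=
    isUnit_iff.mpr ⟨h1 ▸ mul_ne_zero hR0 b2, fun u hu u' hu' => (key u hu).trans (key u' hu').symm⟩
  rw [h1] at h4
  exact isUnit_of_mul_isUnit_left h4

end K1x

open K1x in
theorem p_K1 (h : S_Cpx) : S_K1 := by
  intro r m Q R hm hQ hnc hR hd
  have hR0 : R ≠ 0 := ne_zero_of_dvd_ne_zero (toC_ne_zero (dil_ne_zero hm hQ.ne_zero)) hd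
  by_contra hn
  obtain ⟨u₀, hu₀, u₁, hu₁, hne⟩ :
      ∃ u₀ ∈ R.coeff.support, ∃ u₁ ∈ R.coeff.support, u₁ ≠ u₀ := by
    by_contra e
    push Not at e
    exact hR (isUnit_iff.mpr ⟨hR0, fun u hu u' hu' => e u' hu' u hu⟩)
  refine not_nonCol_of_parallel (sub_ne_zero.mpr hne) (fun u hu v hv i j => ?_) hnc
  have hb : ∀ z : Fin r → ℤ,
      z ⬝ᵥ (Pi.single i (u₁ j - u₀ j) - Pi.single j (u₁ i - u₀ i) : Fin r → ℤ) =
        z i * (u₁ j - u₀ j) - z j * (u₁ i - u₀ i) := fun z => by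
    rw [dotProduct_sub, dotProduct_single, dotProduct_single]
  generalize (Pi.single i (u₁ j - u₀ j) - Pi.single j (u₁ i - u₀ i) : Fin r → ℤ) = b at hb
  have h1 : dv (cv ℂ b) R = ((u₀ ⬝ᵥ b : ℤ) : ℂ) • R := dv_eq_smul fun z hz => by
    have : z ⬝ᵥ b = u₀ ⬝ᵥ b := by
      rw [hb, hb]
      by_contra e
      exact hn ⟨u₀, hu₀, z, hz, u₁, hu₁, i, j, fun e' => e (by linarith)⟩
    rw [← this]
    simp [cv, dotProduct]
  have h2 := const_dot h hm hQ hR hd b (by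
    obtain ⟨R', e⟩ := hd
    rw [e]
    refine dvd_dv_mul (Or.inl ?_)
    rw [h1, Algebra.smul_def]
    exact dvd_mul_left _ _) u hu v hv
  rw [hb, hb] at h2
  simp only [Pi.sub_apply]
  linarith

open K1x in
theorem p_Cop (h : S_Cpx) : S_Cop := by
  intro k P θ hP h0 hθ
  have hP0 : toC P ≠ 0 := toC_ne_zero hP.ne_zero
  constructor
  · intro e
    refine hP.not_isUnit (isUnit_iff.mpr ⟨hP.ne_zero, ?_⟩)
    have key : ∀ u ∈ P.coeff.support, u = 0 := fun u hu => by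
      by_contra hne
      have h1 := dv_real_coeff θ (toC P) u
      rw [e] at h1
      have h2 : (toC P).coeff u ≠ 0 := Finsupp.mem_support_iff.mp (by rwa [support_toC])
      exact mul_ne_zero (Complex.ofReal_ne_zero.mpr (hθ u hu hne).ne) h2 (by simpa using h1.symm)
    exact fun u hu u' hu' => (key u hu).trans (key u' hu').symm
  · intro S hS1 hS2
    by_contra hS
    obtain ⟨R, hR, hRS⟩ := exists_prime_dvd (ne_zero_of_dvd_ne_zero hP0 hS1) hS
    have hd := hRS.trans hS1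
    have hd2 := hRS.trans hS2
    obtain ⟨R', e⟩ := id hd
    rw [e, dv_mul] at hd2
    rcases hR.dvd_or_dvd ((dvd_add_left (dvd_mul_right _ _)).mp hd2) with h1 | h1
    · refine hR.not_isUnit (unit_of_const (linH θ) e ?_ ?_ fun u hu u' hu' => ?_)
      · rwa [← Finsupp.mem_support_iff, support_toC, Finsupp.mem_support_iff]
      · rwa [support_toC]
      · have := const_of_dvd_dv hR.ne_zero h1 u hu u' hu'
        simp only [linH_apply, lin]
        exact_mod_cast this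
    · refine hP.not_isUnit (isUnit_iff.mpr ⟨hP.ne_zero, fun u hu u' hu' => funext fun i => ?_⟩)
      have := const_dot h one_pos hP hR.not_isUnit (by rwa [dil_one]) (Pi.single i 1)
        (by rw [dil_one, e]; exact dvd_dv_mul (Or.inr h1)) u hu u' hu'
      simpa using this

end Pool.Agent.P.MP_aef18a_nt.OW
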