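import Pool.Agent.P.MP_aef18a_nt.OW.Iface

namespace Pool.Agent.P.MP_aef18a_nt.OW

open Polynomial Matrix LaurentPolynomial

namespace Kkx

theorem wb_toC {r D : ℕ} {G : LP r} (h : Wb D G) : Wb D (toC G) := fun u hu u' hu' =>
  h u (support_toC G ▸ hu) u' (support_toC G ▸ hu')

end Kkx

open Kkx

theorem p_K (h0 : S_K0) (h1 : S_K1) : S_K := by
  intro r Q hQ hN
  obtain ⟨D, -, hD⟩ := exists_bx Q
  refine ⟨(4 * (2 * D) ^ 2).factorial, Nat.factorial_pos _, fun m hm R hR => ?_⟩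
  have key : ∀ R : LQ ℂ r, R ∣ toC (dil m Q) → ∀ u ∈ R.coeff.support, ∀ u' ∈ R.coeff.support,
      ∀ i, (m : ℤ) ∣ ((4 * (2 * D) ^ 2).factorial : ℕ) * (u i - u' i) := by
    have := ufd ℂ r
    intro R
    induction R using UniqueFactorizationMonoid.induction_on_prime with
    | h₁ => exact fun _ u hu => by simp at hu
    | h₂ x hx =>
      intro _ u hu u' hu' i
      rw [(isUnit_iff.1 hx).2 u hu u' hu', sub_self, mul_zero]
      exact dvd_zero _
    | h₃ a p _ hp ih =>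
      intro hd z hz z' hz' i
      obtain ⟨u, hu, w, hw, rfl⟩ := mem_mul hz
      obtain ⟨u', hu', w', hw', rfl⟩ := mem_mul hz'
      have hpd := (dvd_mul_right p a).trans hd
      obtain ⟨ι, i1, i2, i3⟩ := h0 r (2 * D) m p (toC Q) hm hp (h1 r m Q p hm hQ hN hp.not_isUnit hpd)
        (toC_ne_zero hQ.ne_zero) (wb_toC hD.wb) (toC_dil m Q ▸ hpd)
      have a1 := (i3 u hu u' hu' i).trans (mul_dvd_mul_right
        (Int.natCast_dvd_natCast.2 (Nat.dvd_factorial i1 i2)) _)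
      have a2 := ih ((dvd_mul_left a p).trans hd) w hw w' hw' i
      rw [Pi.add_apply, Pi.add_apply, add_sub_add_comm, mul_add]
      exact dvd_add a1 a2
  intro u hu u' hu'
  exact key (toC R) (map_dvd _ hR) u (by rwa [support_toC]) u' (by rwa [support_toC])

theorem p_AbsMod : S_AbsMod := by
  intro r m₀ Q a a' hK ha h m hm P₁ P₂ e hd
  refine h m hm P₁ P₂ e fun u hu u' hu' => ?_
  choose z hz using ha
  have h1 : (u - u') ⬝ᵥ a = (u - u') ⬝ᵥ a' - ∑ i, m₀ * (u i - u' i) * z i := by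
    rw [dotProduct, dotProduct, ← Finset.sum_sub_distrib]
    refine Finset.sum_congr rfl fun i _ => ?_
    rw [Pi.sub_apply]
    linear_combination (u' i - u i) * hz i
  rw [h1]
  exact dvd_sub (hd u hu u' hu') (Finset.dvd_sum fun i _ =>
    (hK m hm P₁ (e ▸ dvd_mul_right _ _) u hu u' hu' i).mul_right _)

theorem p_Nd (h0 : S_K0) (h1 : S_K1) : S_Nd := by
  intro r D p Q G hQ hN hG hQG hD hp hlt hd
  obtain ⟨R, hR, hRQ⟩ := exists_prime_dvd (toC_ne_zero hQ.ne_zero)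
    fun h => hQ.not_isUnit (isUnit_toC.1 h)
  have hRN := h1 r 1 Q R one_pos hQ hN hR.not_isUnit (by rwa [dil_one])
  obtain ⟨ι, i1, i2, i3⟩ := h0 r D p R (toC G) hp.pos hR hRN (toC_ne_zero hG) (wb_toC hD)
    (toC_dil p G ▸ hRQ.trans (map_dvd _ hd))
  have hW := (wb_toC hD).of_dvd (toC_ne_zero hG) (hRQ.trans (map_dvd _ hQG))
  obtain ⟨u, hu, -⟩ := hRN.exists_mem 0
  obtain ⟨u', hu', hne⟩ := hRN.exists_mem u
  refine hne (funext fun i => sub_eq_zero.1 ?_)
  have h2 : (p : ℤ) ∣ u' i - u i :=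
    ((Nat.prime_iff_prime_int.1 hp).dvd_or_dvd (i3 u' hu' u hu i)).resolve_left fun h =>
      absurd (Nat.le_of_dvd i1 (Int.natCast_dvd_natCast.1 h)) (by omega)
  have h3 : (D : ℤ) < p := by
    have : D ≤ D ^ 2 := Nat.le_self_pow two_ne_zero D
    omega
  have := hW u hu u' hu' i
  have := hW u' hu' u hu i
  exact Int.eq_zero_of_abs_lt_dvd h2 (abs_lt.2 ⟨by omega, by omega⟩)

end Pool.Agent.P.MP_aef18a_nt.OW
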