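import Pool.Agent.P.MP_aef18a_nt.OW.Iface

namespace Pool.Agent.P.MP_aef18a_nt.OW

open Polynomial Matrix LaurentPolynomial

namespace LSx

open Finset ComplexConjugate

theorem dual (Z : Finset ℂ) {q R : ℝ} (hq : 0 ≤ q)
    (h1 : ∀ β ∈ Z, ∀ β' ∈ Z, ‖q * conj β * β'‖ < 1)
    (h2 : ∀ β ∈ Z, ∑ β' ∈ Z, 1 / ‖1 - q * conj β * β'‖ ^ 2 ≤ R) (y : ℂ → ℂ) (s : Finset ℕ) :
    ∑ j ∈ s, (j + 1) * q ^ j * ‖∑ β ∈ Z, y β * β ^ j‖ ^ 2 ≤ R * ∑ β ∈ Z, ‖y β‖ ^ 2 := by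
  have a1 := Complex.hasSum_re (hasSum_sum fun β hβ => hasSum_sum fun β' hβ' =>
    (hasSum_choose_mul_geometric_of_norm_lt_one 1 (h1 β hβ β' hβ')).mul_left (conj (y β) * y β'))
  have a2 : ∀ j : ℕ, (∑ β ∈ Z, ∑ β' ∈ Z, conj (y β) * y β' *
      ((((j + 1).choose 1 : ℕ) : ℂ) * (q * conj β * β') ^ j)).re =
        (j + 1) * q ^ j * ‖∑ β ∈ Z, y β * β ^ j‖ ^ 2 := fun j => by
    rw [← Complex.ofReal_re (_ * _ * _)]
    congr 1
    push_cast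
    rw [← Complex.conj_mul', map_sum, sum_mul_sum, mul_sum]
    refine sum_congr rfl fun β _ => ?_
    rw [mul_sum]
    refine sum_congr rfl fun β' _ => ?_
    simp only [Nat.choose_one_right, map_mul, map_pow, mul_pow]
    push_cast
    ring
  simp only [a2] at a1
  refine (sum_le_hasSum s (fun j _ => by positivity) a1).trans ((Complex.re_le_norm _).trans ?_)
  have sy : ∀ β β' : ℂ, ‖1 - q * conj β * β'‖ = ‖1 - q * conj β' * β‖ := fun β β' => by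
    rw [← Complex.norm_conj]
    simp only [map_sub, map_one, map_mul, Complex.conj_ofReal, Complex.conj_conj, mul_right_comm]
  have a3 : ∑ β ∈ Z, ∑ β' ∈ Z, ‖y β‖ ^ 2 * (1 / ‖1 - q * conj β * β'‖ ^ 2) ≤
      R * ∑ β ∈ Z, ‖y β‖ ^ 2 := by
    rw [mul_sum]
    refine sum_le_sum fun β hβ => ?_
    rw [← mul_sum, mul_comm]
    exact mul_le_mul_of_nonneg_right (h2 β hβ) (sq_nonneg _)
  have a4 : ∑ β ∈ Z, ∑ β' ∈ Z, ‖y β'‖ ^ 2 * (1 / ‖1 - q * conj β * β'‖ ^ 2) ≤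
      R * ∑ β ∈ Z, ‖y β‖ ^ 2 := by
    rw [sum_comm]
    simpa only [sy] using a3
  refine le_trans ?_ (le_of_mul_le_mul_left (a := 2) (b := ∑ β ∈ Z, ∑ β' ∈ Z,
    ‖y β‖ * ‖y β'‖ * (1 / ‖1 - q * conj β * β'‖ ^ 2)) ?_ two_pos)
  · refine (norm_sum_le _ _).trans (sum_le_sum fun β _ =>
      (norm_sum_le _ _).trans (sum_le_sum fun β' _ => le_of_eq ?_))
    simp only [norm_mul, norm_div, norm_pow, norm_one, Complex.norm_conj]
  · rw [two_mul (R * _)]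
    refine le_trans ?_ (add_le_add a3 a4)
    simp only [mul_sum, ← sum_add_distrib]
    refine sum_le_sum fun β _ => sum_le_sum fun β' _ => ?_
    rw [← add_mul, ← mul_assoc]
    exact mul_le_mul_of_nonneg_right (by nlinarith [sq_nonneg (‖y β‖ - ‖y β'‖)]) (by positivity)

theorem primal (Z : Finset ℂ) {Λ : ℝ} (hΛ : 0 ≤ Λ) (N : ℕ) (h1 : ∀ β ∈ Z, 1 ≤ ‖β‖)
    (h : ∀ y : ℂ → ℂ, ∑ j ∈ range N, ‖∑ β ∈ Z, y β * β ^ (j + N)‖ ^ 2 ≤ Λ * ∑ β ∈ Z, ‖y β‖ ^ 2)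
    (x : ℕ → ℂ) :
    ∑ β ∈ Z, ‖∑ j ∈ range N, x j * β ^ j‖ ^ 2 ≤ Λ * ∑ j ∈ range N, ‖x j‖ ^ 2 := by
  set A : ℂ → ℂ := fun β => ∑ j ∈ range N, x j * β ^ (j + N) with hA
  have a1 : ∑ β ∈ Z, ‖∑ j ∈ range N, x j * β ^ j‖ ^ 2 ≤ ∑ β ∈ Z, ‖A β‖ ^ 2 :=
    sum_le_sum fun β hβ => by
      simp only [hA, pow_add, ← mul_assoc, ← sum_mul, norm_mul, norm_pow]
      exact pow_le_pow_left₀ (norm_nonneg _)
        (le_mul_of_one_le_right (norm_nonneg _) (one_le_pow₀ (h1 β hβ))) 2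
  refine a1.trans ?_
  have a2 := h fun β => conj (A β)
  simp only [Complex.norm_conj] at a2
  have a3 : ∑ β ∈ Z, ‖A β‖ ^ 2 ≤
      ∑ j ∈ range N, ‖x j‖ * ‖∑ β ∈ Z, conj (A β) * β ^ (j + N)‖ := by
    have e : ((∑ β ∈ Z, ‖A β‖ ^ 2 : ℝ) : ℂ) =
        ∑ j ∈ range N, x j * ∑ β ∈ Z, conj (A β) * β ^ (j + N) := by
      push_cast
      simp only [mul_sum]
      rw [sum_comm]
      refine sum_congr rfl fun β _ => ?_
      rw [← Complex.conj_mul']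
      generalize conj (A β) = c
      simp only [hA, mul_sum, mul_left_comm]
    rw [← Complex.ofReal_re (∑ β ∈ Z, _), e]
    refine (Complex.re_le_norm _).trans ((norm_sum_le _ _).trans (le_of_eq ?_))
    simp only [norm_mul]
  have a4 := sum_mul_sq_le_sq_mul_sq (range N) (fun j => ‖x j‖)
    fun j => ‖∑ β ∈ Z, conj (A β) * β ^ (j + N)‖
  have t0 : 0 ≤ ∑ β ∈ Z, ‖A β‖ ^ 2 := by positivity
  have x0 : 0 ≤ ∑ j ∈ range N, ‖x j‖ ^ 2 := by positivity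
  rcases t0.eq_or_lt with e | e
  · rw [← e]
    positivity
  refine le_of_mul_le_mul_right ?_ e
  have a5 := (pow_le_pow_left₀ t0 a3 2).trans (a4.trans (mul_le_mul_of_nonneg_left a2 x0))
  linarith

theorem sum_le {Z : Finset ℂ} {m : Multiset ℂ} (h : ∀ β ∈ Z, β ∈ m) {f : ℂ → ℝ}
    (hf : ∀ β, 0 ≤ f β) : ∑ β ∈ Z, f β ≤ (m.map f).sum := by
  obtain ⟨u, rfl⟩ := Multiset.le_iff_exists_add.1 ((Multiset.le_iff_subset Z.nodup).2 h)
  rw [Multiset.map_add, Multiset.sum_add]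
  exact le_add_of_nonneg_right (Multiset.sum_nonneg fun a ha => by
    obtain ⟨β, -, rfl⟩ := Multiset.mem_map.1 ha
    exact hf β)

end LSx

open Finset ComplexConjugate in
theorem p_LS (hL : S_Lac) (h1 : S_LS1) : S_LS := by
  intro L J
  refine ⟨(2 * L ^ 2) ^ (2 * J) * (2 * (1 + 4 * L)) + 1, by positivity,
    fun s S hS hN Z hZ x => ?_⟩
  obtain ⟨l1, -, -, -, -, hβ⟩ := hL L s S hS
  have l2 : (1 : ℝ) ≤ L := by exact_mod_cast l1
  have s0 : s ≠ 0 := Nat.one_le_iff_ne_zero.1 hS.2.2.1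
  obtain ⟨q, q0, q1⟩ : ∃ q : ℝ, 0 ≤ q ∧ q ^ s = (2 * (L : ℝ) ^ 2)⁻¹ :=
    ⟨_, by positivity, Real.rpow_inv_natCast_pow (by positivity) s0⟩
  have q2 : q ≤ 1 := (pow_le_one_iff_of_nonneg q0 s0).1
    (q1 ▸ inv_le_one_of_one_le₀ (by nlinarith))
  have b1 : ∀ β ∈ Z, ‖β‖ ^ s ≤ L := fun β h => by
    simpa using (hβ β (hZ β h).1).2.1 1 s (by omega)
  have b2 : ∀ β ∈ Z, ‖q * conj β‖ ^ s * (2 * L) ≤ 1 := fun β h => by
    rw [norm_mul, Complex.norm_conj, Complex.norm_real, Real.norm_of_nonneg q0, mul_pow, q1]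
    refine le_trans (b := (2 * (L : ℝ) ^ 2)⁻¹ * (L : ℝ) * (2 * (L : ℝ))) ?_ ?_
    · gcongr
      exact b1 β h
    · exact le_of_eq (by field_simp)
  have S0 : S ≠ 0 := fun e => hS.1 (by simp [e])
  have hd := LSx.dual Z q0 (fun β h β' h' => lt_of_pow_lt_pow_left₀ s zero_le_one (by
      have := mul_le_mul_of_nonneg_left (b1 β' h') (pow_nonneg (norm_nonneg (q * conj β)) s)
      rw [norm_mul, mul_pow, one_pow]
      linarith [b2 β h])) fun β h => (LSx.sum_le (fun β' h' => mem_aroots.2 ⟨S0, (hZ β' h').1⟩)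
        fun _ => by positivity).trans (h1 L s S _ hS (b2 β h))
  rcases Nat.eq_zero_or_pos S.natDegree with e | e
  · simp [e]
  refine LSx.primal Z (by positivity) _ (fun β h => (hZ β h).2) (fun y => ?_) x
  have n0 : (0 : ℝ) < S.natDegree := by exact_mod_cast e
  have a1 := hd y ((range S.natDegree).map (addRightEmbedding S.natDegree))
  rw [sum_map] at a1
  have a2 : S.natDegree * ((2 * (L : ℝ) ^ 2) ^ (2 * J))⁻¹ * ∑ j ∈ range S.natDegree,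
      ‖∑ β ∈ Z, y β * β ^ (j + S.natDegree)‖ ^ 2 ≤ _ := le_trans (by
    rw [mul_sum]
    refine sum_le_sum fun j hj => mul_le_mul_of_nonneg_right (mul_le_mul ?_ ?_ (by positivity)
      (by positivity)) (sq_nonneg _)
    · simp only [addRightEmbedding_apply, Nat.cast_add]
      linarith [Nat.cast_nonneg (α := ℝ) j]
    · rw [← inv_pow, ← q1, ← pow_mul]
      refine pow_le_pow_of_le_one q0 q2 ?_
      have := mem_range.1 hj
      rw [addRightEmbedding_apply]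
      nlinarith) a1
  have y0 : 0 ≤ ∑ β ∈ Z, ‖y β‖ ^ 2 := by positivity
  rw [← le_div_iff₀' (by positivity)] at a2
  refine a2.trans (le_trans (le_of_eq ?_) (mul_le_mul_of_nonneg_right
    (mul_le_mul_of_nonneg_right (le_add_of_nonneg_right zero_le_one) n0.le) y0))
  field_simp

end Pool.Agent.P.MP_aef18a_nt.OW
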