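import Pool.Agent.P.MP_aef18a_nt.OW.Iface

namespace Pool.Agent.P.MP_aef18a_nt.OW

open Polynomial Matrix LaurentPolynomial

namespace LS1x

lemma ev (S : ℤ[X]) (z : ℂ) : aeval z S = ∑ i ∈ S.support, (S.coeff i : ℂ) * z ^ i := by
  rw [aeval_def, eval₂_eq_sum, sum_def]
  simp

lemma evd (S : ℤ[X]) (z : ℂ) :
    z * aeval z (derivative S) = ∑ i ∈ S.support, (i : ℂ) * ((S.coeff i : ℂ) * z ^ i) := by
  conv_lhs => rw [S.as_sum_support]
  rw [derivative_sum, map_sum, Finset.mul_sum]
  refine Finset.sum_congr rfl fun i _ => ?_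
  rw [derivative_monomial, aeval_monomial]
  cases i with
  | zero => simp
  | succ i =>
    simp only [Nat.add_sub_cancel, map_mul, eq_intCast, map_natCast]
    ring

/-- the logarithmic derivative far from the origin -/
lemma quot {L s : ℕ} {S : ℤ[X]} (h : Lac L s S) (hL : 1 ≤ L) {z : ℂ} (h1 : 1 ≤ ‖z‖)
    (h2 : 2 * L ≤ ‖z‖ ^ s) :
    aeval z S ≠ 0 ∧ ‖z * (aeval z (derivative S) / aeval z S)‖ ≤ 2 * L * S.natDegree := by
  have hS : S ≠ 0 := fun e => h.1 (by simp [e])
  have hL' : (1 : ℝ) ≤ L := by exact_mod_cast hL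
  have hsum : ∑ i ∈ S.support, ‖(S.coeff i : ℂ)‖ ≤ L := by
    have := h.2.1
    simp only [Complex.norm_intCast, ← Int.cast_abs, ← Int.natCast_natAbs, Int.cast_natCast]
    exact_mod_cast this
  have hN := natDegree_mem_support_of_nonzero hS
  have r0 : 0 < ‖z‖ ^ S.natDegree := by positivity
  have a1 : ‖∑ i ∈ S.support.erase S.natDegree, (S.coeff i : ℂ) * z ^ i‖ ≤
      ‖z‖ ^ S.natDegree / 2 := by
    refine (norm_sum_le_of_le _ (n := fun i => ‖(S.coeff i : ℂ)‖ * (‖z‖ ^ S.natDegree / (2 * L)))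
      fun i hi => ?_).trans ?_
    · rw [norm_mul, norm_pow]
      refine mul_le_mul_of_nonneg_left ?_ (norm_nonneg _)
      rw [le_div_iff₀ (by positivity)]
      refine (mul_le_mul_of_nonneg_left h2 (by positivity)).trans ?_
      rw [← pow_add]
      exact pow_le_pow_right₀ h1 ((h.2.2.2 i (Finset.mem_of_mem_erase hi)).resolve_left
        (Finset.ne_of_mem_erase hi))
    · rw [← Finset.sum_mul]
      refine (mul_le_mul_of_nonneg_right ((Finset.sum_le_sum_of_subset_of_nonneg
        (Finset.erase_subset _ _) fun _ _ _ => norm_nonneg _).trans hsum) (by positivity)).trans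
        (le_of_eq ?_)
      field_simp
  have a2 : ‖z‖ ^ S.natDegree ≤ ‖(S.coeff S.natDegree : ℂ) * z ^ S.natDegree‖ := by
    rw [norm_mul, norm_pow, Complex.norm_intCast]
    refine le_mul_of_one_le_left r0.le ?_
    exact_mod_cast Int.one_le_abs (mem_support_iff.1 hN)
  have a3 : ‖z‖ ^ S.natDegree / 2 ≤ ‖aeval z S‖ := by
    rw [ev, ← Finset.add_sum_erase _ _ hN]
    linarith [norm_sub_norm_le ((S.coeff S.natDegree : ℂ) * z ^ S.natDegree)
      (-∑ i ∈ S.support.erase S.natDegree, (S.coeff i : ℂ) * z ^ i), norm_neg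
      (∑ i ∈ S.support.erase S.natDegree, (S.coeff i : ℂ) * z ^ i), congrArg norm (sub_neg_eq_add
      ((S.coeff S.natDegree : ℂ) * z ^ S.natDegree)
      (∑ i ∈ S.support.erase S.natDegree, (S.coeff i : ℂ) * z ^ i))]
  have a4 : ‖z * aeval z (derivative S)‖ ≤ L * (S.natDegree * ‖z‖ ^ S.natDegree) := by
    rw [evd]
    refine (norm_sum_le_of_le _
      (n := fun i => ‖(S.coeff i : ℂ)‖ * (S.natDegree * ‖z‖ ^ S.natDegree)) fun i hi => ?_).trans ?_
    · have := le_natDegree_of_mem_supp i hi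
      rw [norm_mul, norm_mul, norm_pow, Complex.norm_natCast, mul_left_comm]
      gcongr
    · rw [← Finset.sum_mul]
      exact mul_le_mul_of_nonneg_right hsum (by positivity)
  have a5 : 0 < ‖aeval z S‖ := (half_pos r0).trans_le a3
  refine ⟨norm_pos_iff.1 a5, ?_⟩
  rw [← mul_div_assoc, norm_div, div_le_iff₀ a5]
  refine a4.trans (le_trans (le_of_eq (by ring))
    (mul_le_mul_of_nonneg_left a3 (by positivity)))

lemma one_root {u : ℂ} {s : ℕ} (h : ‖u‖ ^ s ≤ 1 / 2) : 1 / ‖1 - u‖ ^ 2 ≤ 2 * s * (1 / (1 - u)).re := by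
  have a1 := one_add_mul_le_pow (a := ‖u‖ - 1) (by linarith [norm_nonneg u]) s
  rw [add_sub_cancel] at a1
  have a2 := mul_le_mul_of_nonneg_left (Complex.re_le_norm u) (s.cast_nonneg (α := ℝ))
  rw [one_div (1 - u), Complex.inv_re, Complex.normSq_eq_norm_sq, ← mul_div_assoc]
  refine div_le_div_of_nonneg_right ?_ (by positivity)
  rw [Complex.sub_re, Complex.one_re]
  linarith

end LS1x

open LS1x in
theorem p_LS1 (hL : S_Lac) (hN : S_NS) : S_LS1 := by
  intro L s S w h hw
  have _ := hN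
  obtain ⟨m1, -, -, m2, -, m3⟩ := hL L s S h
  have hL' : (1 : ℝ) ≤ L := by exact_mod_cast m1
  rcases S.natDegree.eq_zero_or_pos with e | hN0
  · rw [Multiset.card_eq_zero.1 ((card_aroots S).trans e)]
    simp [e]
  have hN1 : (1 : ℝ) ≤ S.natDegree := by exact_mod_cast hN0
  by_cases e : w = 0
  · simp only [e, zero_mul, sub_zero, norm_one, one_pow, div_one, Multiset.map_const',
      Multiset.sum_replicate, card_aroots, nsmul_eq_mul, mul_one]
    nlinarith [mul_nonneg (zero_le_one.trans hL') (sq_nonneg (S.natDegree : ℝ))]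
  have w0 : 0 < ‖w‖ := norm_pos_iff.2 e
  have w1 : ‖w‖ ≤ 1 := (pow_le_one_iff_of_nonneg w0.le (Nat.one_le_iff_ne_zero.1 h.2.2.1)).1
    (by nlinarith [pow_pos w0 s])
  obtain ⟨q1, q2⟩ := quot h m1 (z := w⁻¹) (by rw [norm_inv]; exact (one_le_inv₀ w0).2 w1) (by
    rw [norm_inv, inv_pow, ← one_div, le_div_iff₀ (pow_pos w0 s)]
    linarith)
  have q3 := (IsAlgClosed.splits (S.map (algebraMap ℤ ℂ))).eval_derivative_div_eval_of_ne_zero
    (x := w⁻¹) (by rwa [eval_map_algebraMap])
  rw [derivative_map, eval_map_algebraMap, eval_map_algebraMap, ← aroots_def] at q3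
  rw [q3, ← Multiset.sum_map_mul_left] at q2
  have q4 : ((S.aroots ℂ).map fun β => (1 / (1 - w * β)).re).sum ≤ 2 * L * S.natDegree := by
    refine le_trans (le_of_eq ?_) ((Complex.re_le_norm _).trans q2)
    rw [← Complex.coe_reAddGroupHom, map_multiset_sum, Multiset.map_map]
    refine congrArg _ (Multiset.map_congr rfl fun β _ => congrArg _ ?_)
    simp only [show 1 - w * β = w * (w⁻¹ - β) by field_simp, one_div, mul_inv]
  have hs : (s : ℝ) ≤ S.natDegree := by exact_mod_cast (m2 hN0).1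
  calc _ ≤ ((S.aroots ℂ).map fun β => 2 * s * (1 / (1 - w * β)).re).sum :=
        Multiset.sum_map_le_sum_map _ _ fun β hβ => one_root (by
          have := (m3 β (mem_aroots.1 hβ).2).2.1 1 s (by omega)
          rw [norm_mul, mul_pow]
          nlinarith [mul_le_mul_of_nonneg_left this (pow_pos w0 s).le])
    _ ≤ 2 * s * (2 * L * S.natDegree) := by
        rw [Multiset.sum_map_mul_left]
        exact mul_le_mul_of_nonneg_left q4 (by positivity)
    _ ≤ 2 * S.natDegree * (2 * L * S.natDegree) := by gcongr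
    _ ≤ _ := by nlinarith [mul_nonneg (zero_le_one.trans hL') (sq_nonneg (S.natDegree : ℝ))]

end Pool.Agent.P.MP_aef18a_nt.OW
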