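import Pool.Agent.P.MP_aef18a_nt.OW.Iface

namespace Pool.Agent.P.MP_aef18a_nt.OW

open Polynomial Matrix LaurentPolynomial

namespace Lacx

open Finset

variable {L s : ℕ} {S : ℤ[X]} {β : ℂ}

lemma ne_zero (h : Lac L s S) : S ≠ 0 := fun e => h.1 (by rw [e, coeff_zero])

lemma top_mem (h : Lac L s S) : S.natDegree ∈ S.support :=
  natDegree_mem_support_of_nonzero (ne_zero h)

lemma low (h : Lac L s S) {j : ℕ} (hj : j ∈ S.support.erase S.natDegree) :
    j + s ≤ S.natDegree := (h.2.2.2 j (mem_of_mem_erase hj)).resolve_left (ne_of_mem_erase hj)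

lemma card_le (h : Lac L s S) : S.support.card ≤ L := by
  refine le_trans ?_ h.2.1
  rw [card_eq_sum_ones]
  exact sum_le_sum fun i hi => Int.natAbs_pos.2 (mem_support_iff.1 hi)

lemma top (h : Lac L s S) (hβ : aeval β S = 0) (t : ℕ) :
    (S.leadingCoeff : ℂ) * β ^ (S.natDegree + t) =
      -∑ j ∈ S.support.erase S.natDegree, (S.coeff j : ℂ) * β ^ (j + t) := by
  rw [aeval_def, eval₂_eq_sum, Polynomial.sum, ← add_sum_erase _ _ (top_mem h)] at hβ
  simp only [eq_intCast] at hβ
  simp only [pow_add, ← mul_assoc, ← sum_mul, ← neg_mul]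
  rw [leadingCoeff, eq_neg_of_add_eq_zero_left hβ]

lemma deg_pos (h : Lac L s S) (hβ : aeval β S = 0) : 0 < S.natDegree := by
  refine Nat.pos_of_ne_zero fun e => h.1 ?_
  rw [eq_C_of_natDegree_eq_zero e, aeval_C, eq_intCast] at hβ
  exact Int.cast_eq_zero.1 hβ

lemma gap_le (h : Lac L s S) (hN : 0 < S.natDegree) : s ≤ S.natDegree := by
  have := h.2.2.2 0 (mem_support_iff.2 h.1)
  omega

lemma norm_le (h : Lac L s S) (hβ : aeval β S = 0) (h1 : 1 ≤ ‖β‖) : ‖β‖ ^ s ≤ L := by
  obtain ⟨t, ht⟩ := Nat.exists_eq_add_of_le (gap_le h (deg_pos h hβ))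
  have a1 : ‖β‖ ^ S.natDegree ≤ ‖(S.leadingCoeff : ℂ) * β ^ (S.natDegree + 0)‖ := by
    rw [norm_mul, norm_pow, add_zero, Complex.norm_intCast]
    refine le_mul_of_one_le_left (by positivity) ?_
    exact_mod_cast Int.one_le_abs (leadingCoeff_ne_zero.2 (ne_zero h))
  have a2 : ∑ j ∈ S.support.erase S.natDegree, ‖(S.coeff j : ℂ)‖ ≤ L := by
    have : ((∑ i ∈ S.support.erase S.natDegree, (S.coeff i).natAbs : ℕ) : ℝ) ≤ L :=
      Nat.cast_le.2 ((sum_le_sum_of_subset (erase_subset _ _)).trans h.2.1)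
    simpa only [Nat.cast_sum, Nat.cast_natAbs, Int.cast_abs, Complex.norm_intCast] using this
  rw [top h hβ, norm_neg] at a1
  have a3 := a1.trans ((norm_sum_le _ _).trans (sum_le_sum
    (g := fun j => ‖(S.coeff j : ℂ)‖ * ‖β‖ ^ t) fun j hj => by
      rw [norm_mul, norm_pow]
      exact mul_le_mul_of_nonneg_left (pow_le_pow_right₀ h1 (by have := low h hj; omega))
        (norm_nonneg _)))
  rw [← sum_mul] at a3
  have a4 := a3.trans (mul_le_mul_of_nonneg_right a2 (by positivity))
  rw [ht, pow_add] at a4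
  exact le_of_mul_le_mul_right a4 (by positivity)

lemma int_one (h : Lac L s S) (hβ : aeval β S = 0) {j : ℕ} (hj : j ≤ s) :
    IsIntegral ℤ ((S.leadingCoeff : ℂ) * β ^ j) := by
  have m : ∀ i < S.natDegree, ∀ c : ℤ, (c : ℂ) * β ^ i ∈
      Submodule.span ℤ ((fun i : ℕ => β ^ i) '' Set.Iio S.natDegree) := fun i hi c => by
    rw [← zsmul_eq_mul]
    exact Submodule.smul_mem _ _ (Submodule.subset_span ⟨i, hi, rfl⟩)
  refine isIntegral_of_smul_mem_submodule
    (Submodule.span ℤ ((fun i : ℕ => β ^ i) '' Set.Iio S.natDegree)) (fun e => ?_)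
    (Submodule.fg_span ((Set.finite_Iio _).image _)) _ fun n hn => ?_
  · simpa [e] using m 0 (deg_pos h hβ) 1
  · induction hn using Submodule.span_induction with
    | mem x hx =>
      obtain ⟨i, hi, rfl⟩ := hx
      rw [smul_eq_mul, mul_assoc, ← pow_add]
      rcases lt_or_ge (j + i) S.natDegree with a | a
      · exact m _ a _
      · obtain ⟨t, ht⟩ := Nat.exists_eq_add_of_le a
        rw [ht, top h hβ]
        refine neg_mem (Submodule.sum_mem _ fun l hl => m _ ?_ _)
        have := low h hl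
        have : i < S.natDegree := hi
        omega
    | zero => simp
    | add x y _ _ hx hy =>
      rw [smul_add]
      exact add_mem hx hy
    | smul c x _ hx =>
      rw [smul_comm]
      exact Submodule.smul_mem _ _ hx

end Lacx

theorem p_Lac : S_Lac := by
  intro L s S h
  have h0 := mem_support_iff.2 h.1
  have L1 : 1 ≤ L := (Finset.card_pos.2 ⟨0, h0⟩).trans_le (Lacx.card_le h)
  have L1' : (1 : ℝ) ≤ L := Nat.one_le_cast.2 L1
  refine ⟨L1, (Finset.single_le_sum (f := fun i => (S.coeff i).natAbs) (fun _ _ => Nat.zero_le _)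
    (Lacx.top_mem h)).trans h.2.1, Lacx.card_le h, fun hN => ⟨Lacx.gap_le h hN,
      (Finset.one_lt_card.2 ⟨0, h0, _, Lacx.top_mem h, hN.ne⟩).trans_le (Lacx.card_le h)⟩,
    fun i h1 h2 => ?_, fun β hβ => ⟨fun e => h.1 ?_, fun J e he => ?_, fun J => ?_⟩⟩
  · rcases le_or_gt i S.natDegree with a | a
    · rw [coeff_reverse, revAt_le a]
      by_contra b
      have := h.2.2.2 _ (mem_support_iff.2 b)
      omega
    · exact coeff_eq_zero_of_natDegree_lt ((reverse_natDegree_le S).trans_lt a)
  · rw [e, ← coeff_zero_eq_aeval_zero', eq_intCast] at hβ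
    exact Int.cast_eq_zero.1 hβ
  · rcases le_total ‖β‖ 1 with a | a
    · exact (pow_le_one₀ (norm_nonneg _) a).trans (one_le_pow₀ L1')
    · refine (pow_le_pow_right₀ a he).trans ?_
      rw [mul_comm, pow_mul]
      exact pow_le_pow_left₀ (by positivity) (Lacx.norm_le h hβ a) J
  · induction J with
    | zero =>
      intro e he
      rw [show e = 0 by omega, pow_zero, pow_zero, one_mul]
      exact isIntegral_one
    | succ J ih =>
      intro e he
      rw [Nat.succ_mul] at he
      have := (ih (e - s) (by omega)).mul (Lacx.int_one h hβ (j := min e s) (min_le_right _ _))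
      rwa [mul_mul_mul_comm, ← pow_succ, ← pow_add, show e - s + min e s = e by omega] at this

theorem p_Red : S_Red := by
  intro L s T i m S B h hB hs hm hT
  have base : ∀ T i m : ℕ, (m : ℤ) ∈ B i → m < S.natDegree → ∃ lam : ℕ → ℚ, ∀ β : ℂ,
      aeval β S = 0 → β ^ m = ∑ e ∈ (Finset.range S.natDegree).filter
        (fun e : ℕ => (e : ℤ) ∈ B (i + T)), (lam e : ℂ) * β ^ e := fun T i m hm a => by
    refine ⟨fun e => if e = m then 1 else 0, fun β _ => ?_⟩
    rw [Finset.sum_eq_single_of_mem m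
      (Finset.mem_filter.2 ⟨Finset.mem_range.2 a, hB (Nat.le_add_right _ _) hm⟩)
      fun e _ he => by simp [he]]
    simp
  induction T generalizing i m with
  | zero => exact base 0 i m hm (by omega)
  | succ T ih =>
    rcases lt_or_ge m S.natDegree with a | a
    · exact base _ i m hm a
    obtain ⟨t, rfl⟩ := Nat.exists_eq_add_of_le a
    rw [Nat.succ_mul] at hT
    have k := fun j (hj : j ∈ S.support.erase S.natDegree) => ih (i + 1) (j + t)
      (by
        have := hs i _ hm j (Finset.mem_of_mem_erase hj)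
        push_cast at this ⊢
        rwa [show (S.natDegree : ℤ) + t - (S.natDegree - j) = j + t by ring] at this)
      (by have := Lacx.low h hj; omega)
    choose! lam hl using k
    refine ⟨fun e => -∑ j ∈ S.support.erase S.natDegree,
      (S.coeff j : ℚ) / S.leadingCoeff * lam j e, fun β hβ => ?_⟩
    have c0 : (S.leadingCoeff : ℂ) ≠ 0 :=
      Int.cast_ne_zero.2 (leadingCoeff_ne_zero.2 (Lacx.ne_zero h))
    refine mul_left_cancel₀ c0 ?_
    rw [Lacx.top h hβ, Finset.sum_congr rfl fun j hj => by rw [hl j hj β hβ],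
      show i + (T + 1) = i + 1 + T by ring]
    push_cast
    simp only [Finset.mul_sum, Finset.sum_mul, neg_mul, mul_neg, Finset.sum_neg_distrib]
    rw [Finset.sum_comm]
    refine congrArg _ (Finset.sum_congr rfl fun e _ => Finset.sum_congr rfl fun j _ => ?_)
    field_simp

end Pool.Agent.P.MP_aef18a_nt.OW
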