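import Pool.Agent.P.MP_aef18a_nt.OW.Iface

namespace Pool.Agent.P.MP_aef18a_nt.OW

open Polynomial Matrix LaurentPolynomial

namespace Latx

lemma ex (n m₀ : ℕ) (h : 0 < m₀) (ρ : Fin n → ℤ) :
    ∃ q : Matrix (Fin n) (Fin n) ℤ × Matrix (Fin n) (Fin n) ℤ, q.1 * q.2 = (m₀ : ℤ) • 1 ∧
      (∀ j, (m₀ : ℤ) ∣ q.2 j ⬝ᵥ ρ) ∧ ∀ v : Fin n → ℤ, (m₀ : ℤ) ∣ v ⬝ᵥ ρ → ∃ v', v' ᵥ* q.2 = v := by
  let L : Submodule ℤ (Fin n → ℤ) :=
    { carrier := {v | (m₀ : ℤ) ∣ v ⬝ᵥ ρ}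
      add_mem' := fun {u v} hu hv => by
        show _ ∣ (u + v) ⬝ᵥ ρ
        rw [add_dotProduct]
        exact dvd_add hu hv
      zero_mem' := by
        show _ ∣ (0 : Fin n → ℤ) ⬝ᵥ ρ
        simp
      smul_mem' := fun c v hv => by
        show _ ∣ (c • v) ⬝ᵥ ρ
        rw [smul_dotProduct]
        exact Dvd.dvd.mul_left hv c }
  have hm : ∀ v : Fin n → ℤ, (m₀ : ℤ) • v ∈ L := fun v => by
    show _ ∣ ((m₀ : ℤ) • v) ⬝ᵥ ρ
    rw [smul_dotProduct]
    exact Dvd.intro _ rfl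
  have hr : Module.finrank ℤ L = n := by
    apply le_antisymm
    · simpa using Submodule.finrank_le L
    · have := LinearMap.finrank_le_finrank_of_injective
        (f := LinearMap.codRestrict L ((m₀ : ℤ) • LinearMap.id) hm)
        fun u v e => smul_inj h (congrArg Subtype.val e)
      simpa using this
  let b := Module.finBasisOfFinrankEq ℤ L hr
  have key : ∀ v : L, (fun i => b.repr v i) ᵥ* (Matrix.of fun i => (b i : Fin n → ℤ)) = v := by
    intro v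
    have := congrArg Subtype.val (b.sum_repr v)
    rw [← this, vecMul_eq_sum, Submodule.coe_sum]
    rfl
  refine ⟨(Matrix.of fun i j => b.repr ⟨_, hm (Pi.single i 1)⟩ j,
    Matrix.of fun i => (b i : Fin n → ℤ)), ?_, fun j => (b j).2, fun v hv => ⟨_, key ⟨v, hv⟩⟩⟩
  ext i j
  have := congrFun (key ⟨_, hm (Pi.single i 1)⟩) j
  refine Eq.trans this ?_
  simp [Pi.single_apply, Matrix.one_apply, eq_comm]

lemma inj {n m₀ : ℕ} {M E : Matrix (Fin n) (Fin n) ℤ} (h : 0 < m₀) (e : M * E = (m₀ : ℤ) • 1) :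
    Function.Injective (vm E) := by
  refine (injective_iff_map_eq_zero _).2 fun u hu => Matrix.eq_zero_of_vecMul_eq_zero ?_ hu
  intro h0
  have := congrArg Matrix.det e
  rw [det_mul, h0, mul_zero, det_smul, det_one, mul_one] at this
  exact pow_ne_zero _ (by exact_mod_cast h.ne') this.symm

end Latx

theorem p_Lat : S_Lat := by
  classical
  intro n m₀ h
  choose q h1 h2 h3 using Latx.ex n m₀ h
  have h0 : (m₀ : ℤ) ≠ 0 := by exact_mod_cast h.ne'
  refine ⟨Finset.univ.image fun ρ : Fin n → Fin m₀ => q fun i => (ρ i : ℕ), fun p hp => ?_,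
    fun a => ?_⟩
  · obtain ⟨ρ, -, rfl⟩ := Finset.mem_image.1 hp
    exact h1 _
  · have e : ∀ v : Fin n → ℤ, (m₀ : ℤ) ∣ v ⬝ᵥ a ↔ (m₀ : ℤ) ∣ v ⬝ᵥ fun i => a i % m₀ := fun v => by
      refine dvd_iff_dvd_of_dvd_sub ?_
      rw [← dotProduct_sub]
      exact Finset.dvd_sum fun i _ => Dvd.dvd.mul_left (Int.dvd_self_sub_emod) _
    have e2 : (q fun i => a i % m₀).2 *ᵥ a =
        (m₀ : ℤ) • fun j => ((q fun i => a i % m₀).2 j ⬝ᵥ a) / m₀ :=
      funext fun j => (Int.mul_ediv_cancel' ((e _).2 (h2 _ j))).symm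
    refine ⟨q fun i => a i % m₀, Finset.mem_image.2 ⟨fun i => ⟨(a i % m₀).toNat, ?_⟩,
      Finset.mem_univ _, congrArg q (funext fun i => ?_)⟩, _, smul_inj h ?_, e2,
      fun v hv => h3 _ v ((e v).1 hv)⟩
    · have := Int.emod_lt_of_pos (a i) (show (0 : ℤ) < m₀ by exact_mod_cast h)
      omega
    · exact Int.toNat_of_nonneg (Int.emod_nonneg _ h0)
    · show (m₀ : ℤ) • a = (m₀ : ℤ) • _
      rw [← mulVec_smul, ← e2, mulVec_mulVec, h1, smul_mulVec, one_mulVec]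

theorem p_AbsF (h1 : S_K1) : S_AbsF := by
  intro n m₀ F P M E h0 hF hN hK e hP hd
  have hi := Latx.inj h0 e
  have d1 : pb E P ∣ dil m₀ F := by
    rw [dil_eq_pb, ← e, ← pb_pb]
    exact map_dvd _ hd
  refine ⟨?_, fun a b hab hv m hm P₁ P₂ e1 hs => ?_⟩
  · have := h1 n m₀ F (toC (pb E P)) h0 hF hN
      (fun h => hP.not_isUnit (NormA.isUnit_of_map (vm E) hi (isUnit_toC.1 h))) (map_dvd _ d1)
    exact NonCol.of_mapDomain (φ := vm E) (this.of_support (B := pb E P) (support_toC _).subset)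
  · have n1 : dil m P ≠ 0 := dil_ne_zero hm hP.ne_zero
    have d2 : pb E P₁ ∣ dil (m * m₀) F := by
      rw [← dil_dil]
      refine dvd_trans ?_ (map_dvd (dil m) d1)
      rw [← pb_dil, e1]
      exact map_dvd _ (Dvd.intro _ rfl)
    have m0 : (m₀ : ℤ) ≠ 0 := by exact_mod_cast h0.ne'
    have m1 : (m : ℤ) ≠ 0 := by exact_mod_cast hm.ne'
    obtain ⟨u₀, hu₀⟩ := support_nonempty (A := P₁) (left_ne_zero_of_mul (e1 ▸ n1))
    let ι : (Fin n → ℤ) →+ (Fin n → ℤ) :=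
      AddMonoidHom.mk' (fun u : Fin n → ℤ => (m : ℤ) • u) fun u v => smul_add _ u v
    have hι : Function.Injective ι := smul_inj hm
    have key : ∀ u ∈ P₁.coeff.support, ∃ w, u₀ + ι w = u := fun u hu => by
      have a1 : ∀ i, (m : ℤ) ∣ ((u - u₀) ᵥ* E) i := fun i => by
        have := hK _ (Nat.mul_pos hm h0) _ d2 _ (mem_mapDomain_injOn (φ := vm E) hi.injOn hu) _
          (mem_mapDomain_injOn (φ := vm E) hi.injOn hu₀) i
        rw [Nat.cast_mul, mul_comm (m : ℤ), mul_dvd_mul_iff_left m0] at this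
        rwa [sub_vecMul]
      choose v a2 using a1
      have a3 : (u - u₀) ᵥ* E = (m : ℤ) • v := funext a2
      obtain ⟨c, hc⟩ := hs u hu u₀ hu₀
      have a4 : (m : ℤ) * (v ⬝ᵥ a) = m * (m₀ * c) := by
        rw [← smul_eq_mul, ← smul_dotProduct, ← a3, ← dotProduct_mulVec, hab, dotProduct_smul, hc,
          smul_eq_mul]
        ring
      obtain ⟨v', a5⟩ := hv v ⟨c, mul_left_cancel₀ m1 a4⟩
      have a6 : u - u₀ = (m : ℤ) • v' := hi (by
        rw [vm_apply, vm_apply, a3, smul_vecMul, a5])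
      exact ⟨v', (eq_add_of_sub_eq' a6).symm⟩
    obtain ⟨Q, e2⟩ : ∃ Q : LP n, P₁ = AddMonoidAlgebra.single u₀ 1 * dil m Q :=
      ⟨_, NormA.eq_sh ι hι u₀ P₁ key⟩
    have hu : IsUnit (AddMonoidAlgebra.single u₀ 1 : LP n) :=
      isUnit_iff.2 ⟨by simp, fun u a u' a' => (mem_single a).trans (mem_single a').symm⟩
    obtain ⟨Z, e3⟩ : Q ∣ P := dvd_of_mapDomain hι (show dil m Q ∣ dil m P from
      ⟨AddMonoidAlgebra.single u₀ 1 * P₂, by rw [e1, e2]; ring⟩)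
    refine (hP.isUnit_or_isUnit e3).imp (fun h => e2 ▸ hu.mul (h.map (dil m))) fun h => ?_
    have n2 : dil m Q ≠ 0 := dil_ne_zero hm (left_ne_zero_of_mul (e3 ▸ hP.ne_zero))
    have e4 : dil m Z = AddMonoidAlgebra.single u₀ 1 * P₂ :=
      mul_left_cancel₀ n2 (by rw [← map_mul, ← e3, e1, e2]; ring)
    exact isUnit_of_mul_isUnit_right (e4 ▸ h.map (dil m))

end Pool.Agent.P.MP_aef18a_nt.OW
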