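import Pool.Agent.P.MP_aef18a_nt.OW.Iface

namespace Pool.Agent.P.MP_aef18a_nt.OW

open Polynomial Matrix LaurentPolynomial

namespace Linkx

variable {k : ℕ} {F : LQ ℤ k} {a : Fin k → ℤ}

lemma mem_of_coeff {m : ℕ} (h : (pl a F).coeff m ≠ 0) :
    ∃ u ∈ F.coeff.support, (-(u ⬝ᵥ a)).toNat = m := by
  rw [pl_coeff] at h
  obtain ⟨u, hu, -⟩ := Finset.exists_ne_zero_of_sum_ne_zero h
  exact ⟨u, (Finset.mem_filter.mp hu).1, (Finset.mem_filter.mp hu).2⟩

lemma le_deg (hN : Ng a F) (hi : Set.InjOn (· ⬝ᵥ a) F.coeff.support) {u : Fin k → ℤ}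
    (hu : u ∈ F.coeff.support) : (-(u ⬝ᵥ a)).toNat ≤ (pl a F).natDegree :=
  le_natDegree_of_ne_zero (by rw [pl_coeff_inj hN hi hu]; exact Finsupp.mem_support_iff.mp hu)

lemma ss_coeff (hN : Ng a F) (hi : Set.InjOn (· ⬝ᵥ a) F.coeff.support) (i : ℕ) :
    (SS F a).coeff i = ∑ u ∈ F.coeff.support.filter
      (fun u => (pl a F).natDegree - (-(u ⬝ᵥ a)).toNat = i), F.coeff u := by
  rw [SS, coeff_reverse, pl_coeff]
  refine Finset.sum_congr (Finset.filter_congr fun u hu => ?_) fun _ _ => rfl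
  have h1 := le_deg hN hi hu
  by_cases h : i ≤ (pl a F).natDegree
  · rw [revAt_le h]; omega
  · rw [revAt_eq_self_of_lt (by omega)]; omega

lemma ss_eq (hN : Ng a F) (hi : Set.InjOn (· ⬝ᵥ a) F.coeff.support) :
    SS F a = ∑ u ∈ F.coeff.support,
      monomial ((pl a F).natDegree - (-(u ⬝ᵥ a)).toNat) (F.coeff u) := by
  ext i
  rw [ss_coeff hN hi, finsetSum_coeff, Finset.sum_filter]
  simp only [coeff_monomial]

lemma cast_exp (hN : Ng a F) (hi : Set.InjOn (· ⬝ᵥ a) F.coeff.support) {u : Fin k → ℤ}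
    (hu : u ∈ F.coeff.support) :
    (((pl a F).natDegree - (-(u ⬝ᵥ a)).toNat : ℕ) : ℤ) = u ⬝ᵥ a + (pl a F).natDegree := by
  have h1 := le_deg hN hi hu
  have h2 := hN u hu
  omega

lemma laurent (hN : Ng a F) (hi : Set.InjOn (· ⬝ᵥ a) F.coeff.support) :
    toLaurent ((SS F a).map (Int.castRingHom ℚ)) = spec a (toQ F) * T (pl a F).natDegree := by
  have h : spec a (toQ F) = ∑ u ∈ F.coeff.support,
      LaurentPolynomial.C ((F.coeff u : ℤ) : ℚ) * T (u ⬝ᵥ a) := by
    rw [spec_eq_spk]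
    conv_lhs => rw [eq_sum_single F, map_sum, map_sum]
    exact Finset.sum_congr rfl fun u _ => by rw [toQ_single, spk_single]
  rw [h, ss_eq hN hi, Polynomial.map_sum, map_sum, Finset.sum_mul]
  refine Finset.sum_congr rfl fun u hu => ?_
  rw [Polynomial.map_monomial, toLaurent_C_mul_T, cast_exp hN hi hu, T_add, mul_assoc]
  rfl

lemma der_mono (x : ℂ) (m : ℕ) (c : ℤ) :
    x * aeval x (derivative (monomial m c)) = (m : ℂ) * c * x ^ m := by
  rw [derivative_monomial, aeval_monomial]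
  cases m with
  | zero => simp
  | succ m =>
    simp only [Nat.add_sub_cancel, map_mul, eq_intCast, Int.cast_natCast]
    ring

lemma der (hN : Ng a F) (hi : Set.InjOn (· ⬝ᵥ a) F.coeff.support) (α : ℂˣ) :
    (α : ℂ) * aeval (α : ℂ) (derivative (SS F a)) = (α : ℂ) ^ (pl a F).natDegree *
      (((pl a F).natDegree : ℂ) * evc a α (toQ F) + evc a α (dv (cv ℚ a) (toQ F))) := by
  have h1 : evc a α (dv (cv ℚ a) (toQ F : LP k)) = ∑ u ∈ F.coeff.support,
      ((u ⬝ᵥ a : ℤ) : ℂ) * F.coeff u * (α : ℂ) ^ (u ⬝ᵥ a) := by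
    rw [evc_eq_sum, Finset.sum_subset ((support_dv _ _).trans (support_toQ F).subset)
      fun u _ hu => by rw [Finsupp.notMem_support_iff.mp hu]; simp]
    refine Finset.sum_congr rfl fun u _ => ?_
    rw [dv_cv_coeff, toQ_coeff]
    simp
  rw [h1, evc_toQ, evc_eq_sum, ss_eq hN hi, derivative_sum, map_sum, Finset.mul_sum,
    Finset.mul_sum, ← Finset.sum_add_distrib, Finset.mul_sum]
  refine Finset.sum_congr rfl fun u hu => ?_
  have h2 := cast_exp hN hi hu
  have h3 : (((pl a F).natDegree - (-(u ⬝ᵥ a)).toNat : ℕ) : ℂ) =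
      ((u ⬝ᵥ a : ℤ) : ℂ) + (pl a F).natDegree := by exact_mod_cast congrArg (Int.cast : ℤ → ℂ) h2
  rw [der_mono, h3, ← zpow_natCast, h2, zpow_add₀ α.ne_zero, zpow_natCast]
  simp only [eq_intCast]
  ring

lemma split (p : ℚ[X]) (hp : p ≠ 0) : ∃ (q : ℚ[X]) (s : Multiset ℕ), (∀ m ∈ s, 0 < m) ∧
    p = q * (s.map fun m => cyclotomic m ℚ).prod ∧
    ∀ α : ℂ, aeval α q = 0 → ¬ ∃ m, 0 < m ∧ α ^ m = 1 := by
  induction h : p.natDegree using Nat.strong_induction_on generalizing p with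
  | _ n ih =>
    by_cases hr : ∀ α : ℂ, aeval α p = 0 → ¬ ∃ m, 0 < m ∧ α ^ m = 1
    · exact ⟨p, 0, by simp, by simp, hr⟩
    push Not at hr
    obtain ⟨α, hα, m, hm, hαm⟩ := hr
    have hpos := (isOfFinOrder_iff_pow_eq_one.mpr ⟨m, hm, hαm⟩).orderOf_pos
    have hmin := cyclotomic_eq_minpoly_rat (IsPrimitiveRoot.orderOf α) hpos
    obtain ⟨p', hp'⟩ : cyclotomic (orderOf α) ℚ ∣ p := hmin ▸ minpoly.dvd ℚ α hα
    have h0 : p' ≠ 0 := by rintro rfl; exact hp (by simpa using hp')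
    have hlt : p'.natDegree < n := by
      rw [← h, hp', natDegree_mul (cyclotomic_ne_zero _ _) h0, natDegree_cyclotomic]
      have := Nat.totient_pos.mpr hpos
      omega
    obtain ⟨q, s, hs, e, hq⟩ := ih _ hlt p' h0 rfl
    refine ⟨q, orderOf α ::ₘ s, fun l hl => ?_, ?_, hq⟩
    · rcases Multiset.mem_cons.mp hl with rfl | hl
      exacts [hpos, hs l hl]
    · rw [Multiset.map_cons, Multiset.prod_cons, hp', e]
      ring

lemma exists_root {A : ℚ[T;T⁻¹]} (hA : A ≠ 0) (hu : ¬ IsUnit A) : ∃ α : ℂˣ, evL α A = 0 := by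
  obtain ⟨p, j, hp, h0⟩ := exists_poly hA
  have hd : p.degree ≠ 0 := fun hd => hu (isUnit_of_mul_isUnit_left
    (hp ▸ (isUnit_iff_degree_eq_zero.mpr hd).map toLaurent))
  obtain ⟨α, hα⟩ := IsAlgClosed.exists_aeval_eq_zero ℂ p hd
  have hne : α ≠ 0 := by
    rintro rfl
    rw [← coeff_zero_eq_aeval_zero'] at hα
    exact h0 (by simpa using hα)
  refine ⟨Units.mk0 α hne, ?_⟩
  have := congrArg (evL (Units.mk0 α hne)) hp
  rw [evL_toLaurent, map_mul, evL_T, Units.val_mk0, hα] at this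
  exact (mul_eq_zero.mp this.symm).resolve_right (zpow_ne_zero _ hne)

end Linkx

open Linkx in
theorem p_Link : S_Link := by
  intro k F a J s h0 hG hi
  obtain ⟨hs, hgap, -, hJ⟩ := hG
  have hN : Ng a F := ng_of_gap hgap
  have hc0 : (pl a F).coeff 0 = F.coeff 0 := pl_coeff_zero hs hgap
  have hf : pl a F ≠ 0 := fun e => h0 (by rw [← hc0, e, Polynomial.coeff_zero])
  have ht : (pl a F).natTrailingDegree = 0 := natTrailingDegree_eq_zero.mpr (Or.inr (hc0 ▸ h0))
  have hd : (SS F a).natDegree = (pl a F).natDegree := by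
    rw [SS, reverse_natDegree, ht, Nat.sub_zero]
  have hsup : ∀ j ∈ (SS F a).support, ∃ u ∈ F.coeff.support,
      (pl a F).natDegree - (-(u ⬝ᵥ a)).toNat = j := fun j hj => by
    rw [mem_support_iff, ss_coeff hN hi] at hj
    obtain ⟨u, hu, -⟩ := Finset.exists_ne_zero_of_sum_ne_zero hj
    exact ⟨u, (Finset.mem_filter.mp hu).1, (Finset.mem_filter.mp hu).2⟩
  have hev : ∀ α : ℂˣ, aeval (α : ℂ) (SS F a) =
      (α : ℂ) ^ (pl a F).natDegree * evc a α (toQ F) := fun α => by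
    have := congrArg (evL α) (laurent hN hi)
    rwa [evL_toLaurent, aeval_map_int, map_mul, evL_spec, evL_T, zpow_natCast, mul_comm] at this
  rw [hd]
  refine ⟨⟨?_, ?_, hs, fun i hi' => ?_⟩, ?_, ?_, ?_, fun u hu => ⟨?_, ?_⟩, fun j hj => ?_, hev,
    fun hS α hα h1 h2 => ?_, laurent hN hi⟩
  · rw [SS, coeff_zero_reverse]
    exact leadingCoeff_ne_zero.mpr hf
  · calc ∑ i ∈ (SS F a).support, ((SS F a).coeff i).natAbs
        ≤ ∑ i ∈ (SS F a).support, ∑ u ∈ F.coeff.support.filter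
          (fun u => (pl a F).natDegree - (-(u ⬝ᵥ a)).toNat = i), (F.coeff u).natAbs :=
          Finset.sum_le_sum fun i _ => by
            rw [ss_coeff hN hi]
            exact Int.natAbs_sum_le _ _
      _ ≤ l1 F := by
          rw [Finset.sum_fiberwise_eq_sum_filter]
          exact Finset.sum_le_sum_of_subset (Finset.filter_subset _ _)
  · obtain ⟨u, hu, rfl⟩ := hsup i hi'
    have h1 := le_deg hN hi hu
    rw [hd]
    by_cases e : u = 0
    · left
      simp [e]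
    · have := hgap u hu e
      omega
  · obtain ⟨u, hu, e⟩ := mem_of_coeff (leadingCoeff_ne_zero.mpr hf)
    have h1 := hJ u hu
    have h2 := hN u hu
    have h3 : ((J * s : ℕ) : ℤ) = J * s := Nat.cast_mul _ _
    omega
  · rw [SS, reverse_leadingCoeff, trailingCoeff, ht, hc0]
  · rw [reverse, hd, SS, reverse, reflect_reflect]
  · have h1 := le_deg hN hi hu
    omega
  · refine ⟨(pl a F).natDegree - (-(u ⬝ᵥ a)).toNat, ?_⟩
    have h1 := le_deg hN hi hu
    rw [SS, coeff_reverse, revAt_le (by omega), Nat.sub_sub_self h1, pl_coeff_inj hN hi hu]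
  · obtain ⟨u, hu, rfl⟩ := hsup j hj
    exact ⟨u, hu, by rw [cast_exp hN hi hu]; ring⟩
  · have hp : (α : ℂ) ^ (pl a F).natDegree ≠ 0 := pow_ne_zero _ α.ne_zero
    have h3 : evc a α (toQ F : LP k) = 0 := (mul_eq_zero.mp (hev α ▸ h1)).resolve_left hp
    have h4 := der hN hi α
    rw [h2, h3, mul_zero, mul_zero, zero_add] at h4
    exact hS α hα h3 ((mul_eq_zero.mp h4.symm).resolve_left hp)

open Linkx in
theorem p_StarIrr : S_StarIrr := by
  intro f hf hL hT
  obtain ⟨p, j, hp, h0⟩ := exists_poly hf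
  obtain ⟨q, s, hs, e, hq⟩ := split p fun e => h0 (by rw [e, Polynomial.coeff_zero])
  have hass : Associated f
      (toLaurent q * (s.map fun m => toLaurent (cyclotomic m ℚ)).prod) := by
    have h1 : toLaurent q * (s.map fun m => toLaurent (cyclotomic m ℚ)).prod = f * T j := by
      rw [← hp, e, map_mul, map_multiset_prod, Multiset.map_map]
      rfl
    rw [h1]
    exact (associated_mul_unit_right f _ (isUnit_T j))
  have hdvd : toLaurent q ∣ f := (dvd_mul_right _ _).trans hass.symm.dvd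
  have hq0 : toLaurent q ≠ 0 := fun e => hf (zero_dvd_iff.mp (e ▸ hdvd))
  have hLq : HasL (toLaurent q) := by
    obtain ⟨α, hα, h1⟩ := hL
    refine ⟨α, hα, ?_⟩
    have h2 := congrArg (evL α) hp
    rw [map_mul, h1, zero_mul, e, map_mul, map_mul] at h2
    refine (mul_eq_zero.mp h2).resolve_right fun h3 => hα ?_
    rw [evL_toLaurent, map_multiset_prod, Multiset.prod_eq_zero_iff, Multiset.map_map] at h3
    obtain ⟨m, hm, h4⟩ := Multiset.mem_map.mp h3
    obtain ⟨r, hr⟩ := cyclotomic.dvd_X_pow_sub_one m ℚ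
    have h5 := congrArg (aeval (α : ℂ)) hr
    simp only [Function.comp_apply] at h4
    rw [map_mul, h4, zero_mul, map_sub, map_pow, aeval_X, map_one] at h5
    exact ⟨m, hs m hm, sub_eq_zero.mp h5⟩
  refine ⟨toLaurent q, ⟨⟨s, hs, hass⟩, fun m hm hd => ?_⟩, ⟨fun hu => ?_, fun A B hAB => ?_⟩, hdvd,
    hLq⟩
  · have hζ := Complex.isPrimitiveRoot_exp m hm.ne'
    obtain ⟨r, hr⟩ := hd
    have h1 := congrArg (evL (Units.mk0 _ (hζ.ne_zero hm.ne'))) hr
    rw [map_mul, evL_toLaurent, evL_toLaurent, Units.val_mk0,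
      cyclotomic_eq_minpoly_rat hζ hm, minpoly.aeval, zero_mul] at h1
    exact hq _ h1 ⟨m, hm, hζ.pow_eq_one⟩
  · obtain ⟨α, -, h1⟩ := hLq
    exact (hu.map (evL α)).ne_zero h1
  · by_contra hn
    push Not at hn
    rw [hAB] at hq0
    obtain ⟨α, hα⟩ := exists_root (left_ne_zero_of_mul hq0) hn.1
    obtain ⟨β, hβ⟩ := exists_root (right_ne_zero_of_mul hq0) hn.2
    obtain ⟨r, hr⟩ := hdvd
    refine hT ⟨A, B * r, by rw [hr, hAB, mul_assoc], ⟨α, hq α ?_, hα⟩, ⟨β, hq β ?_, ?_⟩⟩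
    · rw [← evL_toLaurent, hAB, map_mul, hα, zero_mul]
    · rw [← evL_toLaurent, hAB, map_mul, hβ, mul_zero]
    · rw [map_mul, hβ, zero_mul]

end Pool.Agent.P.MP_aef18a_nt.OW
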