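import Pool.Agent.P.MP_aef18a_nt.OW.Iface

namespace Pool.Agent.P.MP_aef18a_nt.OW

open Polynomial Matrix LaurentPolynomial

namespace Lowx

open Finset

lemma aeval_sum (S : ℤ[X]) (α : ℂ) :
    aeval α S = ∑ i ∈ range (S.natDegree + 1), (S.coeff i : ℂ) * α ^ i := by
  simp only [aeval_eq_sum_range, zsmul_eq_mul]

lemma der_sum (S : ℤ[X]) (α : ℂ) : aeval α (derivative S) =
    ∑ i ∈ range (S.natDegree + 1), (S.coeff i : ℂ) * (i * α ^ (i - 1)) := by
  conv_lhs => rw [S.as_sum_range]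
  simp only [derivative_monomial, map_sum, aeval_monomial, eq_intCast,
    Int.cast_mul, Int.cast_natCast, mul_assoc]

lemma len_le {L s : ℕ} {S : ℤ[X]} (h : Lac L s S) :
    ∑ i ∈ range (S.natDegree + 1), ‖(S.coeff i : ℂ)‖ ≤ L := by
  rw [← sum_subset supp_subset_range_natDegree_succ fun i _ hi => by
    rw [notMem_support_iff.1 hi, Int.cast_zero, norm_zero]]
  have : ((∑ i ∈ S.support, (S.coeff i).natAbs : ℕ) : ℝ) ≤ L := Nat.cast_le.2 h.2.1
  simpa only [Nat.cast_sum, Nat.cast_natAbs, Int.cast_abs, Complex.norm_intCast] using this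

lemma der_le {L s : ℕ} {S : ℤ[X]} (h : Lac L s S) {β : ℂ} {A : ℝ}
    (hA : ∀ i ≤ S.natDegree, ‖β‖ ^ i ≤ A) :
    ‖β * aeval β (derivative S)‖ ≤ S.natDegree * (L * A) := by
  have A0 : 0 ≤ A := (pow_nonneg (norm_nonneg β) 0).trans (hA 0 (Nat.zero_le _))
  rw [der_sum, mul_sum]
  refine (norm_sum_le _ _).trans ((sum_le_sum
    (g := fun i => ‖(S.coeff i : ℂ)‖ * (S.natDegree * A)) fun i hi => ?_).trans ?_)
  · have hi' := Nat.lt_succ_iff.1 (mem_range.1 hi)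
    have e : β * ((S.coeff i : ℂ) * (i * β ^ (i - 1))) = (S.coeff i : ℂ) * (i * β ^ i) := by
      cases i with
      | zero => simp
      | succ i => rw [Nat.add_sub_cancel, pow_succ]; ring
    rw [e, norm_mul, norm_mul, norm_pow, Complex.norm_natCast]
    exact mul_le_mul_of_nonneg_left (mul_le_mul (Nat.cast_le.2 hi') (hA i hi') (by positivity)
      (Nat.cast_nonneg _)) (norm_nonneg _)
  · rw [← sum_mul, mul_left_comm]
    exact mul_le_mul_of_nonneg_left (mul_le_mul_of_nonneg_right (len_le h) A0) (Nat.cast_nonneg _)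

/-- the tangent line bound for a high power -/
lemma tang {a b D : ℝ} (ha : 0 ≤ a) (hb : 0 ≤ b) (hD : 0 < D) (h : b ≤ D) (i : ℕ) :
    4 ^ (i + 1) * D * (i + 1 : ℕ) * (a * b) + 4 ^ (i + 1) * D ^ 2 * (1 - 2 * (i + 1 : ℕ)) ≤
      (a ^ (i + 1) * b) ^ 2 := by
  obtain ⟨y, hy⟩ : ∃ y, y * D = a * b := ⟨a * b / D, div_mul_cancel₀ _ hD.ne'⟩
  have y0 : 0 ≤ y := nonneg_of_mul_nonneg_left (hy ▸ mul_nonneg ha hb) hD
  have y1 : y ≤ a := le_of_mul_le_mul_right (hy ▸ mul_le_mul_of_nonneg_left h ha) hD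
  have h1 := one_add_mul_le_pow (a := y / 2 - 1) (by linarith) (2 * (i + 1))
  have h2 : (4 : ℝ) ^ (i + 1) * (1 + (y / 2 - 1)) ^ (2 * (i + 1)) = (y ^ i * y) ^ 2 := by
    rw [pow_mul, ← mul_pow, ← pow_succ, ← pow_mul y, mul_comm (i + 1), pow_mul]
    congr 1
    ring
  have h3 := mul_le_mul_of_nonneg_left h1 (show (0 : ℝ) ≤ 4 ^ (i + 1) * D ^ 2 by positivity)
  have h4 : (y ^ i * (a * b)) ^ 2 ≤ (a ^ i * (a * b)) ^ 2 := by gcongr
  rw [mul_right_comm _ (D ^ 2) (_ ^ _), h2] at h3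
  rw [pow_succ a, mul_assoc (a ^ i), ← hy] at *
  push_cast at h3 ⊢
  linarith

/-- the roots outside the unit disc carry a large weight -/
lemma outer {S : ℤ[X]} {Z : Finset ℂ} {D : ℝ} (hD : 0 < D) (k₀ i : ℕ)
    (h1 : ∀ β ∈ S.aroots ℂ, ‖β * aeval β (derivative S)‖ ≤ D)
    (h2 : ∀ β ∈ S.aroots ℂ, 1 < ‖β‖ → β ∈ Z) (h3 : 2 * D * S.natDegree ≤ ‖Qs S k₀‖) :
    4 ^ (i + 1) * D ^ 2 * S.natDegree ≤ ∑ β ∈ Z.filter (fun β => 1 < ‖β‖),
      ‖β ^ ((i + 1) * k₀) * (β * aeval β (derivative S))‖ ^ 2 := by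
  classical
  let g : ℂ → ℝ := fun β =>
    if 1 < ‖β‖ then ‖β ^ ((i + 1) * k₀) * (β * aeval β (derivative S))‖ ^ 2 else 0
  have g0 : ∀ β, 0 ≤ g β := fun β => by
    simp only [g]
    split_ifs <;> positivity
  have a1 : ((S.aroots ℂ).map fun β => 4 ^ (i + 1) * D * (i + 1 : ℕ) *
      ‖β ^ k₀ * (β * aeval β (derivative S))‖ +
        4 ^ (i + 1) * D ^ 2 * (1 - 2 * (i + 1 : ℕ))).sum ≤ ((S.aroots ℂ).map g).sum := by
    refine Multiset.sum_map_le_sum_map _ _ fun β hβ => ?_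
    simp only [g]
    split_ifs with h
    · rw [norm_mul (β ^ _), norm_mul (β ^ _), mul_comm (i + 1), pow_mul, norm_pow _ (i + 1)]
      exact tang (norm_nonneg _) (norm_nonneg _) hD (h1 β hβ) i
    · have e : ‖β ^ k₀ * (β * aeval β (derivative S))‖ ≤ D := by
        rw [norm_mul, norm_pow]
        exact (mul_le_of_le_one_left (norm_nonneg _)
          (pow_le_one₀ (norm_nonneg _) (not_lt.1 h))).trans (h1 β hβ)
      have e1 := mul_le_mul_of_nonneg_left e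
        (show (0 : ℝ) ≤ 4 ^ (i + 1) * D * (i + 1 : ℕ) by positivity)
      have e2 : (0 : ℝ) ≤ 4 ^ (i + 1) * D ^ 2 * i := by positivity
      push_cast at e1 ⊢
      linarith
  rw [Multiset.sum_map_add, Multiset.sum_map_mul_left, Multiset.map_const', Multiset.sum_replicate,
    card_aroots, nsmul_eq_mul] at a1
  have a2 : ‖Qs S k₀‖ ≤
      ((S.aroots ℂ).map fun β => ‖β ^ k₀ * (β * aeval β (derivative S))‖).sum := by
    have := norm_multiset_sum_le ((S.aroots ℂ).map fun β => β ^ k₀ * (β * aeval β (derivative S)))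
    rwa [Multiset.map_map] at this
  have a3 := mul_le_mul_of_nonneg_left (h3.trans a2)
    (show (0 : ℝ) ≤ 4 ^ (i + 1) * D * (i + 1 : ℕ) by positivity)
  have a4 : ((S.aroots ℂ).map g).sum ≤ ∑ β ∈ Z, g β := by
    rw [sum_multiset_map_count]
    refine (sum_le_sum (g := g) fun β hβ => ?_).trans ?_
    · rcases le_or_gt ((S.aroots ℂ).count β) 1 with h | h
      · rw [nsmul_eq_mul]
        exact mul_le_of_le_one_left (g0 β) (Nat.cast_le_one.2 h)
      · rw [aroots_def, count_roots, one_lt_rootMultiplicity_iff_isRoot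
          (mem_aroots'.1 (Multiset.mem_toFinset.1 hβ)).1, derivative_map] at h
        have e : aeval β (derivative S) = 0 := by rw [← eval_map_algebraMap]; exact h.2
        simp [g, e]
    · rw [← sum_filter_ne_zero]
      refine sum_le_sum_of_subset_of_nonneg (fun β hβ => ?_) fun β _ _ => g0 β
      refine h2 β (Multiset.mem_toFinset.1 (mem_filter.1 hβ).1) (by_contra fun a => ?_)
      exact (mem_filter.1 hβ).2 (if_neg a)
  rw [sum_filter]
  refine le_trans ?_ (a1.trans a4)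
  linarith

/-- the divided difference -/
noncomputable def dd2 (S : ℤ[X]) (α β : ℂ) : ℂ :=
  ∑ i ∈ range (S.natDegree + 1), (S.coeff i : ℂ) * ∑ l ∈ range i, α ^ l * β ^ (i - 1 - l)

lemma dd2_self (S : ℤ[X]) (α : ℂ) : dd2 S α α = aeval α (derivative S) := by
  simp only [dd2, der_sum, geom_sum₂_self]

lemma dd2_ne {S : ℤ[X]} {α β : ℂ} (h : α ≠ β) (hα : aeval α S = 0) (hβ : aeval β S = 0) :
    dd2 S α β = 0 := by
  refine (mul_eq_zero_iff_right (sub_ne_zero.2 h)).1 ?_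
  rw [aeval_sum] at hα hβ
  rw [dd2, sum_mul]
  simp only [mul_assoc, geom_sum₂_mul]
  simp only [mul_sub, sum_sub_distrib, hα, hβ, sub_zero]

/-- the test vector -/
noncomputable def tv (S : ℤ[X]) (n : ℕ → ℂ) (k l : ℕ) : ℂ :=
  ∑ i ∈ range (S.natDegree + 1), if l < i then (S.coeff i : ℂ) * n (k + 1 + (i - 1 - l)) else 0

lemma sum_ite_lt {M : Type} [AddCommMonoid M] {i N : ℕ} (h : i ∈ range (N + 1)) (f : ℕ → M) :
    (∑ l ∈ range N, if l < i then f l else 0) = ∑ l ∈ range i, f l := by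
  rw [← sum_filter]
  refine sum_congr (Finset.ext fun l => ?_) fun _ _ => rfl
  simp only [mem_filter, mem_range] at h ⊢
  omega

lemma tv_eval {S : ℤ[X]} {Z : Finset ℂ} (hZ : ∀ β ∈ Z, aeval β S = 0) (w : ℂ → ℂ) (k : ℕ) {α : ℂ}
    (hα : α ∈ Z) : ∑ l ∈ range S.natDegree, tv S (fun i => ∑ β ∈ Z, w β * β ^ i) k l * α ^ l =
      w α * (α ^ k * (α * aeval α (derivative S))) := by
  have e : ∑ l ∈ range S.natDegree, tv S (fun i => ∑ β ∈ Z, w β * β ^ i) k l * α ^ l =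
      ∑ β ∈ Z, w β * (β ^ k * (β * dd2 S α β)) := by
    simp only [tv, dd2, sum_mul, ite_mul, zero_mul, mul_sum]
    rw [sum_comm, sum_comm (s := Z)]
    refine sum_congr rfl fun i hi => ?_
    rw [sum_ite_lt hi, sum_comm]
    refine sum_congr rfl fun β _ => sum_congr rfl fun l _ => ?_
    ring
  rw [e, sum_eq_single_of_mem α hα fun β hβ h => by
    rw [dd2_ne h.symm (hZ α hα) (hZ β hβ), mul_zero, mul_zero, mul_zero], dd2_self]

lemma tv_norm {L s : ℕ} {S : ℤ[X]} (h : Lac L s S) (n : ℕ → ℂ) (k : ℕ) :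
    ∑ l ∈ range S.natDegree, ‖tv S n k l‖ ^ 2 ≤
      L ^ 2 * ∑ i ∈ Icc 1 (k + S.natDegree), ‖n i‖ ^ 2 := by
  have a1 : ∀ l, ‖tv S n k l‖ ^ 2 ≤ L * ∑ i ∈ range (S.natDegree + 1),
      if l < i then ‖(S.coeff i : ℂ)‖ * ‖n (k + 1 + (i - 1 - l))‖ ^ 2 else 0 := fun l => by
    refine (pow_le_pow_left₀ (norm_nonneg _) (norm_sum_le _ _) 2).trans
      ((sum_sq_le_sum_mul_sum_of_sq_le_mul _ (f := fun i => ‖(S.coeff i : ℂ)‖)
        (fun _ _ => norm_nonneg _) (fun i _ => ?_) fun i _ => ?_).trans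
        (mul_le_mul_of_nonneg_right (len_le h) (sum_nonneg fun i _ => ?_)))
    · split_ifs <;> positivity
    · split_ifs
      · rw [norm_mul]
        exact le_of_eq (by ring)
      · simp
    · split_ifs <;> positivity
  refine (sum_le_sum fun l _ => a1 l).trans ?_
  rw [← mul_sum, sum_comm, pow_two (L : ℝ), mul_assoc]
  refine mul_le_mul_of_nonneg_left ((sum_le_sum (g := fun i => ‖(S.coeff i : ℂ)‖ *
    ∑ i ∈ Icc 1 (k + S.natDegree), ‖n i‖ ^ 2) fun i hi => ?_).trans ?_) (Nat.cast_nonneg _)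
  · rw [sum_ite_lt hi, ← mul_sum]
    refine mul_le_mul_of_nonneg_left ?_ (norm_nonneg _)
    rw [← sum_image (s := range i) (g := fun l => k + 1 + (i - 1 - l)) (f := fun m => ‖n m‖ ^ 2)
      fun l hl l' hl' e => by
        simp only [coe_range, Set.mem_Iio] at hl hl' e
        omega]
    refine sum_le_sum_of_subset_of_nonneg (fun m hm => ?_) fun _ _ _ => by positivity
    obtain ⟨l, hl, rfl⟩ := mem_image.1 hm
    simp only [mem_range, mem_Icc] at hi hl ⊢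
    omega
  · rw [← sum_mul]
    exact mul_le_mul_of_nonneg_right (len_le h) (sum_nonneg fun _ _ => by positivity)

end Lowx

theorem p_Low (hL : S_Lac) (hS : S_LS) : S_Low := by
  intro L J
  obtain ⟨C, hC, hS⟩ := hS L J
  refine ⟨2 * (L * L ^ J), (C * L ^ 2 + 1)⁻¹, by positivity, ?_⟩
  intro s S Z w ω k₀ j h hN hJ hZ hout hω hw hj hQ
  obtain ⟨i, rfl⟩ := Nat.exists_eq_add_of_le' hj
  obtain ⟨L1, -, -, -, -, hβ⟩ := hL L s S h
  have L1' : (1 : ℝ) ≤ L := Nat.one_le_cast.2 L1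
  have N0 : (0 : ℝ) < S.natDegree := Nat.cast_pos.2 hN
  have A1 : (1 : ℝ) ≤ L * L ^ J := one_le_mul_of_one_le_of_one_le L1' (one_le_pow₀ L1')
  have h1 := Lowx.outer (D := S.natDegree * (L * L ^ J)) (by positivity) k₀ i
    (fun β a => Lowx.der_le h fun e he => (hβ β (mem_aroots'.1 a).2).2.1 J e (he.trans hJ)) hout
    (le_trans (le_of_eq (by ring)) hQ)
  have h2 := hS s S h hJ (Z.filter fun β => 1 < ‖β‖)
    (fun β a => ⟨hZ β (Finset.mem_filter.1 a).1, (Finset.mem_filter.1 a).2.le⟩)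
    (Lowx.tv S (fun i => ∑ β ∈ Z, w β * β ^ i) ((i + 1) * k₀))
  have h3 := mul_le_mul_of_nonneg_left
    (Lowx.tv_norm h (fun i => ∑ β ∈ Z, w β * β ^ i) ((i + 1) * k₀)) (mul_pos hC N0).le
  have h4 := mul_le_mul_of_nonneg_left h1 (sq_nonneg ω)
  rw [Finset.mul_sum] at h4
  have h5 := (h4.trans (Finset.sum_le_sum fun β a => ?_)).trans (h2.trans h3)
  · generalize hE : ∑ m ∈ Finset.Icc 1 ((i + 1) * k₀ + S.natDegree),
      ‖∑ β ∈ Z, w β * β ^ m‖ ^ 2 = E at h5 ⊢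
    have E0 : 0 ≤ E := hE ▸ Finset.sum_nonneg fun _ _ => sq_nonneg _
    rw [mul_assoc, mul_assoc, inv_mul_le_iff₀ (by positivity)]
    refine le_of_mul_le_mul_left ?_ N0
    have h6 : ω ^ 2 * (4 ^ (i + 1) * ((S.natDegree : ℝ) * 1) ^ 2 * S.natDegree) ≤
        ω ^ 2 * (4 ^ (i + 1) * ((S.natDegree : ℝ) * (L * L ^ J)) ^ 2 * S.natDegree) := by gcongr
    have h7 := mul_nonneg N0.le E0
    linarith
  · rw [Lowx.tv_eval hZ w _ (Finset.mem_filter.1 a).1, norm_mul (w β), mul_pow]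
    exact mul_le_mul_of_nonneg_right
      (pow_le_pow_left₀ hω (hw β (Finset.mem_filter.1 a).1) 2) (sq_nonneg _)

end Pool.Agent.P.MP_aef18a_nt.OW
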