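import Pool.Agent.P.MP_aef18a_nt.OW.Iface

namespace Pool.Agent.P.MP_aef18a_nt.OW

open Polynomial Matrix LaurentPolynomial

namespace Mannx

/-- a power sum with at most `L` terms that vanishes at `1, ..., L` vanishes at `0` -/
lemma van (I : Finset ℕ) (A w : ℕ → ℂ) (L : ℕ) (hI : I.card ≤ L) (hw : ∀ e, w e ≠ 0)
    (h : ∀ i, 1 ≤ i → i ≤ L → ∑ e ∈ I, A e * w e ^ i = 0) : ∑ e ∈ I, A e = 0 := by
  set P : ℂ[X] := ∏ e ∈ I, (X - Polynomial.C (w e)) with hP
  have hd : P.natDegree < L + 1 := by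
    rw [hP, natDegree_finsetProd_X_sub_C_eq_card]
    omega
  have h0 : P.coeff 0 ≠ 0 := by
    rw [coeff_zero_eq_eval_zero, hP, eval_prod]
    exact Finset.prod_ne_zero_iff.mpr fun e _ => by simpa using hw e
  have h1 : ∑ e ∈ I, A e * P.eval (w e) = 0 := Finset.sum_eq_zero fun e he => by
    rw [hP, eval_prod, Finset.prod_eq_zero he (by simp), mul_zero]
  have h2 : ∑ e ∈ I, A e * P.eval (w e) =
      ∑ i ∈ Finset.range (L + 1), P.coeff i * ∑ e ∈ I, A e * w e ^ i := by
    simp only [eval_eq_sum_range' hd, Finset.mul_sum]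
    rw [Finset.sum_comm]
    exact Finset.sum_congr rfl fun i _ => Finset.sum_congr rfl fun e _ => by ring
  rw [h2, Finset.sum_range_succ', Finset.sum_eq_zero fun i hi => by
    rw [h (i + 1) (by omega) (Finset.mem_range.mp hi), mul_zero]] at h1
  simpa [h0] using h1

lemma aeval_sum (S : ℤ[X]) (z : ℂ) : aeval z S = ∑ e ∈ S.support, (S.coeff e : ℂ) * z ^ e := by
  rw [aeval_def, eval₂_eq_sum, Polynomial.sum_def]
  simp

lemma claim {S : ℤ[X]} {L l : ℕ} (hL : S.support.card ≤ L) (hl : 0 < l)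
    (hd : cyclotomic l ℤ ∣ S) {ζ : ℂ} (hζ : IsPrimitiveRoot ζ l) (Q : Finset ℕ) :
    (∀ p ∈ Q, p.Prime ∧ L < p) → ∀ j, (∀ q, q.Prime → q ∣ l → q ∣ j → q ∈ Q) →
      aeval (ζ ^ j) S = 0 := by
  induction Q using Finset.induction_on with
  | empty =>
    intro _ j hj
    have h1 := (hζ.pow_of_coprime j
      (Nat.coprime_of_dvd fun q hq h1 h2 => by simpa using hj q hq h2 h1)).isRoot_cyclotomic hl
    obtain ⟨g, rfl⟩ := hd
    rw [map_mul, aeval_def, eval₂_eq_eval_map, map_cyclotomic, h1.eq_zero, zero_mul]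
  | insert p Q _ ih =>
    intro hQ j hj
    have ih := ih fun q hq => hQ q (Finset.mem_insert_of_mem hq)
    obtain ⟨hp, hLp⟩ := hQ p (Finset.mem_insert_self p Q)
    by_cases hpj : p ∣ j
    · obtain ⟨e, l', h1, h2⟩ := Nat.exists_eq_pow_mul_and_not_dvd hl.ne' p hp.ne_one
      rw [aeval_sum]
      refine van _ _ (fun e => (ζ ^ l') ^ e) L hL
        (fun e => pow_ne_zero _ (pow_ne_zero _ (hζ.ne_zero hl.ne'))) fun i i1 i2 => ?_
      have := ih (j + i * l') fun q hq q1 q2 => by
        have hne : q ≠ p := by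
          rintro rfl
          rcases (Nat.Prime.dvd_mul hq).mp ((Nat.dvd_add_right hpj).mp q2) with a | a
          · have := Nat.le_of_dvd i1 a
            omega
          · exact h1 a
        have q3 : q ∣ l' := ((Nat.Prime.dvd_mul hq).mp (h2 ▸ q1)).resolve_left fun a =>
          hne ((Nat.prime_dvd_prime_iff_eq hq hp).mp (hq.dvd_of_dvd_pow a))
        exact (Finset.mem_insert.mp
          (hj q hq q1 ((Nat.dvd_add_left (q3.mul_left i)).mp q2))).resolve_left hne
      rw [aeval_sum] at this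
      rw [← this]
      exact Finset.sum_congr rfl fun e _ => by ring
    · exact ih j fun q hq q1 q2 =>
        (Finset.mem_insert.mp (hj q hq q1 q2)).resolve_left fun a => hpj (a ▸ q2)

lemma tsum_eval (p : ℂ[X]) (z : ℂ) : ∑' m, p.coeff m * z ^ m = p.eval z := by
  rw [eval_eq_sum_range, tsum_eq_sum (s := Finset.range (p.natDegree + 1)) fun m hm => by
    rw [coeff_eq_zero_of_natDegree_lt (by simpa using hm), zero_mul]]

end Mannx

open Mannx

theorem p_Mann : S_Mann := by
  intro S L l hL hl hd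
  have hζ := Complex.isPrimitiveRoot_exp l hl.ne'
  set ζ := Complex.exp (2 * Real.pi * Complex.I / l)
  have h0 := hζ.ne_zero hl.ne'
  have hf := L.factorial_pos
  refine ⟨(Finset.range ((l - 1) / L.factorial + 1)).image
    fun i => Units.mk0 ζ h0 ^ (1 + L.factorial * i), ?_, fun z hz => ?_⟩
  · rw [Finset.card_image_of_injOn, Finset.card_range]
    · have := Nat.lt_mul_div_succ (l - 1) hf
      omega
    · have key : ∀ i ∈ Finset.range ((l - 1) / L.factorial + 1), L.factorial * i < l := fun i hi => by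
        have := (Nat.le_div_iff_mul_le hf).mp (Nat.lt_succ_iff.mp (Finset.mem_range.mp hi))
        rw [mul_comm]
        omega
      intro i hi i' hi' e
      have e1 : ζ ^ (1 + L.factorial * i) = ζ ^ (1 + L.factorial * i') := by
        simpa using congrArg Units.val e
      rw [pow_add, pow_add] at e1
      exact Nat.eq_of_mul_eq_mul_left hf
        (hζ.pow_inj (key i hi) (key i' hi') (mul_left_cancel₀ (pow_ne_zero 1 h0) e1))
  · obtain ⟨i, -, rfl⟩ := Finset.mem_image.mp hz
    rw [Units.val_pow_eq_pow_val, Units.val_mk0]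
    refine ⟨by rw [← pow_mul, mul_comm, pow_mul, hζ.pow_eq_one, one_pow],
      claim hL hl hd hζ (l.primeFactors.filter (L < ·))
        (fun p hp => ⟨Nat.prime_of_mem_primeFactors (Finset.mem_filter.mp hp).1,
          (Finset.mem_filter.mp hp).2⟩) _ fun q hq q1 q2 => ?_⟩
    refine Finset.mem_filter.mpr ⟨Nat.mem_primeFactors.mpr ⟨hq, q1, hl.ne'⟩, not_le.mp fun a => ?_⟩
    exact hq.one_lt.ne' (Nat.dvd_one.mp
      ((Nat.dvd_add_left ((Nat.dvd_factorial hq.pos a).mul_right i)).mp q2))

theorem p_Pole : S_Pole := by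
  intro f B ψ z C n h1 h2 hz hψ
  have s1 : Summable fun m => ‖f.coeff m * z ^ m‖ :=
    summable_of_ne_finset_zero (s := f.support) fun m hm => by
      rw [notMem_support_iff.mp hm, zero_mul, norm_zero]
  have s2 : Summable fun m => ‖PowerSeries.coeff m ψ * z ^ m‖ := by
    have hr : 0 < (1 + ‖z‖) / 2 := by positivity
    have hC : 0 ≤ C := by simpa using (norm_nonneg _).trans (hψ 0)
    have s3 := ((summable_nat_add_iff 1).mpr (summable_pow_mul_geometric_of_norm_lt_one n
      (r := (1 + ‖z‖) / 2) (by rw [Real.norm_of_nonneg hr.le]; linarith))).mul_left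
        (C / ((1 + ‖z‖) / 2))
    refine Summable.of_nonneg_of_le (fun m => norm_nonneg _) (fun m => ?_) s3
    rw [norm_mul, norm_pow]
    calc _ ≤ C * ((m : ℝ) + 1) ^ n * ((1 + ‖z‖) / 2) ^ m :=
          mul_le_mul (hψ m) (pow_le_pow_left₀ (norm_nonneg _) (by linarith) m) (by positivity)
            (by positivity)
      _ = _ := by
          push_cast
          field_simp
          ring
  have h3 := tsum_mul_tsum_eq_tsum_sum_antidiagonal_of_summable_norm s1 s2
  rw [tsum_eval, h2, zero_mul] at h3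
  rw [← tsum_eval, h3]
  refine tsum_congr fun m => ?_
  rw [← Polynomial.coeff_coe, ← h1, PowerSeries.coeff_mul, Finset.sum_mul]
  refine Finset.sum_congr rfl fun x hx => ?_
  rw [← Finset.HasAntidiagonal.mem_antidiagonal.mp hx, Polynomial.coeff_coe]
  ring

end Pool.Agent.P.MP_aef18a_nt.OW
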