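import Pool.Agent.P.MP_aef18a_nt.OW.Iface

namespace Pool.Agent.P.MP_aef18a_nt.OW

open Polynomial Matrix LaurentPolynomial

namespace Mtx

variable {n : ℕ}

lemma mem_lev {ω : (Fin n → ℤ) → ℝ} {m : ℝ} {A : LP n} {u : Fin n → ℤ} :
    u ∈ (lev ω m A).coeff.support ↔ u ∈ A.coeff.support ∧ ω u = m := by
  rw [Finsupp.mem_support_iff, Finsupp.mem_support_iff, lev_coeff]
  split_ifs with h <;> simp [h]

lemma top (ω : (Fin n → ℤ) →+ ℝ) {P Q : LP n} {v₀ : Fin n → ℤ} (hv : v₀ ∈ (P * Q).coeff.support)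
    (h : ∀ v ∈ (P * Q).coeff.support, v ≠ v₀ → ω v < ω v₀) :
    ∃ u₀ ∈ P.coeff.support, ∃ w₀ ∈ Q.coeff.support, u₀ + w₀ = v₀ ∧
      (∀ u ∈ P.coeff.support, u ≠ u₀ → ω u < ω u₀) ∧ Bd ω (ω w₀) Q := by
  have h0 : P * Q ≠ 0 := fun e => by simp [e] at hv
  obtain ⟨m₁, a1, a2⟩ := exists_top ω (left_ne_zero_of_mul h0)
  obtain ⟨m₂, b1, b2⟩ := exists_top ω (right_ne_zero_of_mul h0)
  have e := lev_mul ω a1 b1
  have key : ∀ z ∈ (lev ω m₁ P * lev ω m₂ Q).coeff.support, z = v₀ := fun z hz => by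
    rw [← e, mem_lev] at hz
    by_contra hne
    have := h z hz.1 hne
    have := bd_mul ω a1 b1 v₀ hv
    linarith [hz.2]
  obtain ⟨z, hz⟩ := support_nonempty (mul_ne_zero a2 b2)
  obtain ⟨u₀, hu, w₀, hw, hs⟩ := mem_mul hz
  refine ⟨u₀, (mem_lev.mp hu).1, w₀, (mem_lev.mp hw).1, hs.trans (key z hz), fun u hu' hne => ?_,
    (mem_lev.mp hw).2.symm ▸ b1⟩
  rw [(mem_lev.mp hu).2]
  refine lt_of_le_of_ne (a1 u hu') fun e' => hne (funext fun i => ?_)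
  have := const_of_dvd (crd i) (mul_ne_zero a2 b2) (dvd_mul_right _ _)
    (fun x hx y hy => by rw [key x hx, key y hy]) u (mem_lev.mpr ⟨hu', e'⟩) u₀ hu
  simp only [crd_apply] at this
  exact_mod_cast this

lemma dot_lt {b x y : Fin n → ℤ} : dotR b x < dotR b y ↔ 0 < (y - x) ⬝ᵥ b := by
  rw [dotR_apply, dotR_apply, sub_dotProduct, sub_pos, Int.cast_lt]

end Mtx

open Mtx in
theorem p_Mt : S_Mt := by
  rintro n _ P hG ⟨Q, rfl⟩
  obtain ⟨D, -, hD⟩ := exists_bx (P * Q)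
  have hP := hD.wb.of_dvd hG (dvd_mul_right P Q)
  set E : ℤ := n * (2 * D : ℕ) * (2 * D : ℕ)
  have E0 : 0 ≤ E := by positivity
  have C0 : (0 : ℝ) < (E + 1 : ℤ) := by exact_mod_cast (by omega : 0 < E + 1)
  refine ⟨(E + 1 : ℤ), C0, fun κ b hκ hi ⟨v₀, hv₀, hm⟩ => ?_⟩
  have st : ∀ v ∈ (P * Q).coeff.support, v ≠ v₀ → dotR b v < dotR b v₀ := fun v hv hne => by
    have := hm v hv hne v hv v hv
    rw [sub_self, zero_dotProduct, Int.cast_zero, mul_zero, Int.cast_nonneg_iff] at this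
    refine dot_lt.mpr (lt_of_le_of_ne this fun e => hne (hi hv hv₀ ?_))
    rw [sub_dotProduct] at e
    exact (sub_eq_zero.mp e.symm).symm
  obtain ⟨u₀, hu₀, w₀, -, hs, t1, t2⟩ := top (dotR b) hv₀ st
  refine ⟨u₀, hu₀, fun u hu hne x hx y hy => ?_⟩
  have g0 := dot_lt.mp (t1 u hu hne)
  obtain ⟨v, hv, hvn, hle⟩ : ∃ v ∈ (P * Q).coeff.support, v ≠ v₀ ∧
      (v₀ - v) ⬝ᵥ b ≤ (E + 1) * ((u₀ - u) ⬝ᵥ b) := by
    by_contra hc
    push Not at hc
    have N0 : 0 < (u₀ - u) ⬝ᵥ (u₀ - u) :=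
      lt_of_le_of_ne (Finset.sum_nonneg fun i _ => mul_self_nonneg _)
        fun e => hne (sub_eq_zero.mp (dotProduct_self_eq_zero.mp e.symm)).symm
    obtain ⟨u₁, hu₁, w₁, hw₁, hs', t3, -⟩ :=
      top (dotR (((u₀ - u) ⬝ᵥ (u₀ - u)) • b - ((u₀ - u) ⬝ᵥ b) • (u₀ - u))) hv₀ fun v hv hn => by
        have h1 := hc v hv hn
        have h2 : (v₀ - v) ⬝ᵥ (u₀ - u) ≤ E :=
          (abs_le.mp (abs_dot_le (hD.wb.abs hv₀ hv) (hP.abs hu₀ hu))).2
        rw [dot_lt, dotProduct_sub, dotProduct_smul, dotProduct_smul, smul_eq_mul, smul_eq_mul]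
        have h3 := mul_le_mul_of_nonneg_left h2 g0.le
        have h4 := mul_nonneg E0 g0.le
        have h5 := le_mul_of_one_le_left (by linarith : 0 ≤ (v₀ - v) ⬝ᵥ b) (Int.add_one_le_of_lt N0)
        linarith
    obtain rfl : u₁ = u₀ := by
      by_contra hn
      have h1 := t1 u₁ hu₁ hn
      have h2 := t2 w₁ hw₁
      have h3 := congrArg (dotR b) (hs.trans hs'.symm)
      rw [map_add, map_add] at h3
      linarith
    have := dot_lt.mp (t3 u hu hne)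
    rw [dotProduct_sub, dotProduct_smul, dotProduct_smul, smul_eq_mul, smul_eq_mul, mul_comm,
      sub_self] at this
    exact lt_irrefl _ this
  have hw : Wd (dotR b) ((((v₀ - v) ⬝ᵥ b : ℤ) : ℝ) / κ) (P * Q) := fun z hz z' hz' => by
    rw [le_div_iff₀' hκ, ← map_sub]
    exact hm v hv hvn z hz z' hz'
  have h1 := hw.of_dvd (dotR b) hG (dvd_mul_right P Q) x hx y hy
  rw [le_div_iff₀' hκ, ← map_sub, dotR_apply] at h1
  rw [div_mul_eq_mul_div, div_le_iff₀' C0]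
  exact h1.trans (by exact_mod_cast hle)

theorem p_DegM (hD : S_Deg) : S_DegM := by
  classical
  intro k F η h0 hη
  obtain ⟨c, hc, H⟩ := hD F.coeff.support.card (F.coeff.support.image fun u => (F.coeff u : ℚ)) η hη
  refine ⟨c, hc, fun a α s hs hα he => ?_⟩
  rw [evc_toQ, evc_eq_sum] at he
  obtain ⟨P, hP, hsum⟩ := BlocksA.part _ (fun u : Fin k → ℤ => if u = 0 then 1 else 0 : _ → ℕ) _ he
  have m0 := Finsupp.mem_support_iff.mpr h0
  obtain ⟨J, hJ, hJ0⟩ : ∃ J ∈ P, (0 : Fin k → ℤ) ∈ J := by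
    by_contra hn
    push Not at hn
    rw [Finset.sum_eq_zero fun J hJ => by simp [hn J hJ]] at hsum
    simp [h0] at hsum
  obtain ⟨-, h2, h3, h4⟩ := hP J hJ
  obtain ⟨u, hu, hne⟩ : ∃ u ∈ J, u ≠ 0 := by
    by_contra hn
    push Not at hn
    rw [Finset.eq_singleton_iff_unique_mem.mpr ⟨hJ0, hn⟩] at h3
    simp [h0] at h3
  have := H α hα _ J (fun u => (F.coeff u : ℚ)) (· ⬝ᵥ a) (Finset.card_le_card h2)
    (fun i hi => Finset.mem_image_of_mem _ (h2 hi))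
    ⟨by simpa using h3, fun J' a1 a2 a3 => by simpa using h4 J' a1 a2 a3⟩ 0 hJ0 u hu
  refine le_trans (mul_le_mul_of_nonneg_left (le_trans ?_ (le_abs_self _)) hc.le) this
  have := hs u (h2 hu) hne
  rw [zero_dotProduct]
  exact_mod_cast (by omega)

end Pool.Agent.P.MP_aef18a_nt.OW
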