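import Pool.Agent.P.MP_aef18a_nt.OW.Iface

namespace Pool.Agent.P.MP_aef18a_nt.OW

open Polynomial Matrix LaurentPolynomial

namespace NSx

lemma ns_mul {u v : PowerSeries ℂ} {x y : ℕ → ℂ} (hu : IsNS u x) (hv : IsNS v y) :
    IsNS (u * v) (x + y) := by
  unfold IsNS at *
  have e : (PowerSeries.mk fun j => if j = 0 then 0 else (x + y) j) =
      (PowerSeries.mk fun j => if j = 0 then 0 else x j) +
        PowerSeries.mk fun j => if j = 0 then 0 else y j := by
    ext j
    simp only [map_add, PowerSeries.coeff_mk, Pi.add_apply]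
    split_ifs <;> simp
  rw [e, Derivation.leibniz, smul_eq_mul, smul_eq_mul]
  linear_combination v * hu + u * hv

lemma ns_one : IsNS 1 fun _ => 0 := by
  unfold IsNS
  ext j
  simp [PowerSeries.coeff_mk]

lemma ns_lin (β : ℂ) : IsNS (1 - PowerSeries.C β * PowerSeries.X) fun j => β ^ j := by
  unfold IsNS
  have e : PowerSeries.derivative ℂ (1 - PowerSeries.C β * PowerSeries.X : PowerSeries ℂ) =
      -PowerSeries.C β := by
    rw [map_sub, Derivation.leibniz]
    simp
  rw [e, sub_mul, one_mul, mul_assoc, mul_neg, neg_neg]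
  ext j
  rcases j with _ | _ | j <;>
    simp [PowerSeries.coeff_succ_X_mul, PowerSeries.coeff_mk, PowerSeries.coeff_X, pow_succ']

lemma ns_prod (R : Multiset ℂ) :
    PowerSeries.constantCoeff (R.map fun β => 1 - PowerSeries.C β * PowerSeries.X).prod = 1 ∧
    IsNS (R.map fun β => 1 - PowerSeries.C β * PowerSeries.X).prod
      fun j => (R.map (· ^ j)).sum := by
  induction R using Multiset.induction_on with
  | empty => exact ⟨by simp, by simpa using ns_one⟩
  | cons β R ih =>
    simp only [Multiset.map_cons, Multiset.prod_cons, Multiset.sum_cons]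
    exact ⟨by rw [map_mul, ih.1]; simp, ns_mul (ns_lin β) ih.2⟩

lemma rev_prod (R : Multiset ℂ) :
    (((R.map fun β => X - Polynomial.C β).prod.reverse : ℂ[X]) : PowerSeries ℂ) =
      (R.map fun β => 1 - PowerSeries.C β * PowerSeries.X).prod := by
  induction R using Multiset.induction_on with
  | empty => simp [reverse]
  | cons β R ih =>
    have e : (X - Polynomial.C β : ℂ[X]).reverse = 1 - Polynomial.C β * X := by
      rw [sub_eq_add_neg, ← C_neg, reverse_add_C, natDegree_X, ← one_mul (X : ℂ[X]),
        reverse_mul_X, ← C_1, reverse_C]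
      simp [sub_eq_add_neg]
    rw [Multiset.map_cons, Multiset.prod_cons, Multiset.map_cons, Multiset.prod_cons,
      reverse_mul_of_domain, Polynomial.coe_mul, ih, e]
    simp

lemma rv_eq {g : ℤ[X]} (hg : g ≠ 0) :
    rv g = ((g.aroots ℂ).map fun β => 1 - PowerSeries.C β * PowerSeries.X).prod := by
  have e : g.reverse.map (Int.castRingHom ℂ) = (g.map (Int.castRingHom ℂ)).reverse := by
    rw [reverse, reverse, reflect_map,
      natDegree_map_eq_of_injective (Int.castRingHom ℂ).injective_int]
  have h : (g.leadingCoeff : ℂ) ≠ 0 := by exact_mod_cast leadingCoeff_ne_zero.2 hg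
  rw [rv, e, map_eq_prod, reverse_mul_of_domain, reverse_C, Polynomial.coe_mul, rev_prod,
    Polynomial.coe_C, ← mul_assoc, ← map_mul, inv_mul_cancel₀ h, map_one, one_mul]

lemma ns_coeff {u : PowerSeries ℂ} {x : ℕ → ℂ} (h0 : PowerSeries.coeff 0 u = 1) (h : IsNS u x)
    (j : ℕ) : x (j + 1) + ∑ i ∈ Finset.range j, PowerSeries.coeff (i + 1) u * x (j - i) =
      -(PowerSeries.coeff (j + 1) u * (j + 1)) := by
  have e := congrArg (PowerSeries.coeff (j + 1)) h
  rw [map_neg, PowerSeries.coeff_succ_X_mul, PowerSeries.coeff_derivative, PowerSeries.coeff_mul,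
    Finset.Nat.sum_antidiagonal_eq_sum_range_succ_mk, Finset.sum_range_succ',
    Finset.sum_range_succ] at e
  simp only [PowerSeries.coeff_mk, Nat.sub_self, if_true, mul_zero, add_zero, h0, one_mul,
    Nat.sub_zero, Nat.succ_ne_zero, if_false, Nat.add_sub_add_right] at e
  rw [← e, add_comm]
  congr 1
  refine Finset.sum_congr rfl fun i hi => ?_
  rw [if_neg (Nat.sub_ne_zero_of_lt (Finset.mem_range.1 hi))]

lemma ps_X_pow {l : ℕ} (hl : 0 < l) (j : ℕ) :
    ps (X ^ l - 1 : ℤ[X]) j = if l ∣ j then (l : ℂ) else 0 := by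
  have hζ := Complex.isPrimitiveRoot_exp l hl.ne'
  set ζ := Complex.exp (2 * Real.pi * Complex.I / l)
  have e : (X ^ l - 1 : ℤ[X]).aroots ℂ = nthRoots l (1 : ℂ) := by
    simp [aroots_def, nthRoots]
  have e2 : ps (X ^ l - 1 : ℤ[X]) j = ∑ i ∈ Finset.range l, (ζ ^ j) ^ i := by
    rw [ps, e, hζ.nthRoots_eq (one_pow l), Multiset.map_map]
    refine congrArg _ (Multiset.map_congr rfl fun i _ => ?_)
    simp only [Function.comp, mul_one]
    rw [← pow_mul, ← pow_mul, mul_comm]
  rw [e2]
  split_ifs with h
  · simp [(hζ.pow_eq_one_iff_dvd j).2 h]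
  · rw [geom_sum_eq (fun a => h ((hζ.pow_eq_one_iff_dvd j).1 a)), ← pow_mul, mul_comm, pow_mul,
      hζ.pow_eq_one, one_pow, sub_self, zero_div]

lemma mu_prod (c : Multiset ℕ) (d : ℕ) :
    mu (ps (c.map fun l => cyclotomic l ℤ).prod) d =
      (c.map fun l => mu (ps (cyclotomic l ℤ)) d).sum := by
  induction c using Multiset.induction_on with
  | empty => simp [mu, ps]
  | cons l c ih =>
    have h : cyclotomic l ℤ * (c.map fun l => cyclotomic l ℤ).prod ≠ 0 := by
      refine mul_ne_zero (cyclotomic_ne_zero l ℤ) (Multiset.prod_ne_zero fun h => ?_)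
      obtain ⟨k, -, hk⟩ := Multiset.mem_map.1 h
      exact cyclotomic_ne_zero k ℤ hk
    rw [Multiset.map_cons, Multiset.prod_cons, Multiset.map_cons, Multiset.sum_cons, ← ih,
      ← mu_add]
    exact congrArg (mu · d) (funext fun j => ps_mul h j)

lemma mu_cyc {d : ℕ} (l : ℕ) : 0 < l → l < d → mu (ps (cyclotomic l ℤ)) d = 0 := by
  induction l using Nat.strong_induction_on with
  | _ l ih =>
    intro hl hd
    have e : ∑ k ∈ l.divisors, mu (ps (cyclotomic k ℤ)) d = mu (ps (X ^ l - 1 : ℤ[X])) d := by
      rw [← prod_cyclotomic_eq_X_pow_sub_one hl ℤ]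
      exact (mu_prod l.divisors.val d).symm
    have e2 : mu (ps (X ^ l - 1 : ℤ[X])) d = 0 := by
      rw [mu_congr (y := fun j => ∑ e ∈ j.divisors, if e = l then (l : ℂ) else 0) fun e he _ _ => by
        rw [ps_X_pow hl, Finset.sum_ite_eq']
        simp only [Nat.mem_divisors, ne_eq, Nat.one_le_iff_ne_zero.1 he, not_false_eq_true,
          and_true], mu_sum _ (by omega), if_neg hd.ne']
    rw [e2, ← Nat.cons_self_properDivisors hl.ne', Finset.sum_cons,
      Finset.sum_eq_zero, add_zero] at e
    · exact e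
    · intro k hk
      have h := Nat.mem_properDivisors.1 hk
      exact ih k h.2 (Nat.pos_of_mem_properDivisors hk) (h.2.trans hd)

end NSx

open NSx in
theorem p_NS : S_NS := by
  refine ⟨fun g hg => ?_, fun u v x y => ns_mul, fun u x m h => ?_,
    fun u v x y K hu hv hx hy => ⟨fun h j => ?_, fun h j => ?_⟩⟩
  · rw [rv_eq hg, PowerSeries.coeff_zero_eq_constantCoeff_apply]
    exact ns_prod _
  · induction m with
    | zero => simpa using ns_one
    | succ m ih =>
      have e : (fun j => ((m + 1 : ℕ) : ℂ) * x j) = (fun j => (m : ℂ) * x j) + x := by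
        funext j
        simp [add_mul]
      rw [pow_succ, e]
      exact ns_mul ih h
  · induction j using Nat.strong_induction_on with
    | _ j ih =>
      intro hj
      rcases j with _ | j
      · rw [hu, hv]
      have a := ns_coeff hu hx j
      rw [h _ (by omega) hj, Finset.sum_congr rfl fun i hi => by
        have := Finset.mem_range.1 hi
        rw [ih (i + 1) (by omega) (by omega), h (j - i) (by omega) (by omega)],
        ns_coeff hv hy j, neg_inj] at a
      exact (mul_right_cancel₀ (Nat.cast_add_one_ne_zero j) a).symm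
  · induction j using Nat.strong_induction_on with
    | _ j ih =>
      intro h1 hj
      rcases j with _ | j
      · omega
      have a := ns_coeff hu hx j
      rw [h _ hj, ← ns_coeff hv hy j, Finset.sum_congr rfl fun i hi => by
        have := Finset.mem_range.1 hi
        rw [h (i + 1) (by omega), ih (j - i) (by omega) (by omega) (by omega)]] at a
      exact add_right_cancel a

open NSx in
theorem p_CycMu : S_CycMu := by
  intro c d h
  rw [mu_prod]
  refine Multiset.sum_eq_zero fun z hz => ?_
  obtain ⟨l, hl, rfl⟩ := Multiset.mem_map.1 hz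
  exact mu_cyc l (h l hl).1 (h l hl).2

end Pool.Agent.P.MP_aef18a_nt.OW
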