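import Pool.Agent.P.MP_aef18a_nt.OW.Iface

namespace Pool.Agent.P.MP_aef18a_nt.OW

open Polynomial Matrix LaurentPolynomial

namespace Neckx

open PowerSeries

theorem congr {u : ℂ⟦X⟧} {x y : ℕ → ℂ} (h : IsNS u x) (e : ∀ j, 1 ≤ j → x j = y j) :
    IsNS u y := by
  have : (fun j => if j = 0 then 0 else y j) = fun j => if j = 0 then 0 else x j := by
    funext j
    split_ifs with c
    · rfl
    · exact (e j (by omega)).symm
  unfold IsNS
  rw [this]
  exact h

theorem ns_one : IsNS 1 fun _ => 0 := by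
  unfold IsNS
  ext n
  simp

/-- the geometric series in `X ^ d` -/
noncomputable def B (R : Type) [CommRing R] (d : ℕ) : R⟦X⟧ := mk fun n => if d ∣ n then 1 else 0

theorem B_eq (R : Type) [CommRing R] {d : ℕ} (hd : 1 ≤ d) :
    B R d = 1 + PowerSeries.X ^ d * B R d := by
  ext n
  simp only [B, map_add, PowerSeries.coeff_one, PowerSeries.coeff_X_pow_mul', coeff_mk]
  by_cases c : d ≤ n
  · rw [if_pos c, if_neg (by omega : ¬ n = 0), zero_add]
    exact if_congr (Nat.dvd_sub_iff_left c dvd_rfl).symm rfl rfl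
  · rw [if_neg c, add_zero]
    exact if_congr ⟨fun e => Nat.eq_zero_of_dvd_of_lt e (by omega), fun e => e ▸ dvd_zero d⟩ rfl rfl

theorem mk_eq (d : ℕ) (z : ℂ) : (mk fun j => if j = 0 then 0 else if d ∣ j then z else 0) =
    PowerSeries.C z * (B ℂ d - 1) := by
  ext n
  simp only [B, coeff_mk, PowerSeries.coeff_C_mul, map_sub, PowerSeries.coeff_one]
  split_ifs with a b <;> simp_all

theorem der (d : ℕ) : PowerSeries.X * PowerSeries.derivative ℂ (PowerSeries.X ^ d : ℂ⟦X⟧) =
    PowerSeries.C (d : ℂ) * PowerSeries.X ^ d := by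
  rcases d with _ | d
  · simp
  · rw [Derivation.leibniz_pow, PowerSeries.derivative_X, map_natCast]
    simp only [Nat.add_sub_cancel, smul_eq_mul, nsmul_eq_mul, mul_one]
    ring

/-- an integral form of `(1 - X ^ d) ^ z` -/
def PP (d : ℕ) (z : ℤ) : Prop := ∃ W R : ℤ⟦X⟧,
  W = 1 - (z : ℤ⟦X⟧) * PowerSeries.X ^ d + PowerSeries.X ^ (d + 1) * R ∧
    IsNS (PowerSeries.map (Int.castRingHom ℂ) W) fun j => if d ∣ j then z * d else 0

theorem P_all (h : S_NS) {d : ℕ} (hd : 1 ≤ d) (z : ℤ) : PP d z := by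
  obtain ⟨c, rfl⟩ : ∃ c, d = c + 1 := ⟨d - 1, by omega⟩
  have add : ∀ a b, PP (c + 1) a → PP (c + 1) b → PP (c + 1) (a + b) := by
    rintro a b ⟨W, R, e, n⟩ ⟨W', R', e', n'⟩
    refine ⟨W * W', R * W' + (1 - (a : ℤ⟦X⟧) * PowerSeries.X ^ (c + 1)) * R' +
      (a : ℤ⟦X⟧) * (b : ℤ⟦X⟧) * PowerSeries.X ^ c, ?_, ?_⟩
    · rw [e, e']
      push_cast
      ring
    · rw [map_mul]
      refine congr (h.2.1 _ _ _ _ n n') fun j _ => ?_
      rw [Pi.add_apply]
      split_ifs
      · push_cast
        ring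
      · ring
  have b := B_eq ℂ hd
  have e := der (c + 1)
  have p1 : PP (c + 1) 1 := by
    refine ⟨_, 0, rfl, ?_⟩
    unfold IsNS
    rw [mk_eq]
    simp only [Int.cast_one, one_mul, mul_zero, add_zero, map_sub, map_one, map_pow,
      PowerSeries.map_X, Derivation.map_one_eq_zero]
    linear_combination PowerSeries.C ((c + 1 : ℕ) : ℂ) * b - e
  have p2 : PP (c + 1) (-1) := by
    refine ⟨B ℤ (c + 1), PowerSeries.X ^ c * B ℤ (c + 1), ?_, ?_⟩
    · have := B_eq ℤ hd
      push_cast
      linear_combination (1 + PowerSeries.X ^ (c + 1)) * this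
    · have e1 : PowerSeries.map (Int.castRingHom ℂ) (B ℤ (c + 1)) = B ℂ (c + 1) := by
        ext n
        simp [B]
      have e2 := congrArg (PowerSeries.derivative ℂ) b
      rw [map_add, Derivation.map_one_eq_zero, Derivation.leibniz, smul_eq_mul, smul_eq_mul] at e2
      unfold IsNS
      rw [mk_eq, e1]
      simp only [Int.cast_neg, Int.cast_one, neg_mul, one_mul, map_neg]
      linear_combination PowerSeries.X * B ℂ (c + 1) * e2 + B ℂ (c + 1) ^ 2 * e -
        (PowerSeries.X * PowerSeries.derivative ℂ (B ℂ (c + 1)) +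
          PowerSeries.C ((c + 1 : ℕ) : ℂ) * B ℂ (c + 1)) * b
  induction z using Int.induction_on with
  | zero => exact add_neg_cancel (1 : ℤ) ▸ add 1 (-1) p1 p2
  | succ i ih => exact add _ 1 ih p1
  | pred i ih => exact (sub_eq_add_neg (-(i : ℤ)) 1).symm ▸ add _ (-1) ih p2

theorem coeff_rv (g : ℤ[X]) (i : ℕ) :
    PowerSeries.coeff i (rv g) = (g.leadingCoeff : ℂ)⁻¹ * g.reverse.coeff i := by
  simp [rv]

theorem c0 {u : ℂ⟦X⟧} {U : ℤ⟦X⟧} (h0 : PowerSeries.coeff 0 u = 1) (h1 : PowerSeries.coeff 0 U = 1) :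
    PowerSeries.coeff 0 (u * PowerSeries.map (Int.castRingHom ℂ) U) = 1 := by
  have : PowerSeries.coeff 0 (PowerSeries.map (Int.castRingHom ℂ) U) = 1 := by
    rw [PowerSeries.coeff_map, h1, map_one]
  rw [PowerSeries.coeff_zero_eq_constantCoeff_apply] at h0 this ⊢
  rw [map_mul, h0, this, one_mul]

end Neckx

open Neckx

theorem p_Neck (h : S_NS) : S_Neck := by
  intro u x s h0 hx hz
  induction s with
  | zero => exact ⟨0, 1, by simp, fun i _ b => by omega, by simpa using hx⟩
  | succ s ih =>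
    rcases Nat.eq_zero_or_pos s with rfl | hs
    · exact ⟨0, 1, by simp, fun i _ b => by omega, by simpa using hx⟩
    obtain ⟨e, U, a1, a2, a3⟩ := ih fun i hi => hz i (by omega)
    obtain ⟨z, hz'⟩ : PowerSeries.coeff s (u * PowerSeries.map (Int.castRingHom ℂ) U) ∈
        (Int.castRingHom ℂ).range := by
      rw [PowerSeries.coeff_mul]
      refine Subring.sum_mem _ fun p hp => Subring.mul_mem _ ?_ ⟨_, (PowerSeries.coeff_map ..).symm⟩
      obtain ⟨w, hw⟩ := hz p.1 (by have := Finset.HasAntidiagonal.mem_antidiagonal.1 hp; omega)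
      exact ⟨w, hw.symm⟩
    obtain ⟨W, R, b1, b2⟩ := P_all h hs z
    have a0 : PowerSeries.coeff 0 (u * PowerSeries.map (Int.castRingHom ℂ) U) = 1 := by
      exact c0 h0 a1
    refine ⟨Function.update e s (-z), U * W, ?_, fun i c1 c2 => ?_, ?_⟩
    · rw [PowerSeries.coeff_zero_eq_constantCoeff_apply] at a1 ⊢
      simp [a1, b1, hs.ne']
    · have e1 : u * PowerSeries.map (Int.castRingHom ℂ) (U * W) =
          u * PowerSeries.map (Int.castRingHom ℂ) U - PowerSeries.C (z : ℂ) *
            (PowerSeries.X ^ s * (u * PowerSeries.map (Int.castRingHom ℂ) U)) +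
          PowerSeries.X ^ (s + 1) * (u * PowerSeries.map (Int.castRingHom ℂ) (U * R)) := by
        simp only [b1, map_mul, map_add, map_sub, map_one, map_pow, PowerSeries.map_X, map_intCast]
        ring
      rw [e1, map_add, map_sub, PowerSeries.coeff_C_mul, PowerSeries.coeff_X_pow_mul',
        PowerSeries.coeff_X_pow_mul', if_neg (by omega : ¬ s + 1 ≤ i), add_zero]
      split_ifs with c
      · obtain rfl : s = i := by omega
        rw [Nat.sub_self, a0, ← hz', mul_one]
        exact sub_self _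
      · rw [a2 i c1 (by omega), mul_zero, sub_zero]
    · rw [map_mul, ← mul_assoc]
      refine congr (h.2.1 _ _ _ _ a3 b2) fun j hj => ?_
      have e1 : ∀ d : ℕ, (if d < s + 1 then (d : ℂ) * (Function.update e s (-z) d : ℤ) else 0) =
          (if d < s then (d : ℂ) * e d else 0) - if d = s then (z : ℂ) * s else 0 := by
        intro d
        rcases lt_trichotomy d s with c | rfl | c
        · simp [c, c.ne, c.le]
        · simp [mul_comm]
        · simp [c.ne', c, c.not_gt]
      have j0 : ¬ j = 0 := by omega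
      simp only [Pi.add_apply, Finset.sum_filter, e1, Finset.sum_sub_distrib, Finset.sum_ite_eq',
        Nat.mem_divisors, ne_eq, j0, not_false_eq_true, and_true]
      ring

theorem p_Dold (h : S_NS) (hN : S_Neck) : S_Dold := by
  intro g hg d hd
  obtain ⟨h0, h1⟩ := h.1 g (leadingCoeff_ne_zero.1 hg.ne_zero)
  obtain ⟨e, U, a1, a2, a3⟩ := hN _ _ (d + 1) h0 h1 fun i _ =>
    ⟨g.leadingCoeff * g.reverse.coeff i, by
      rw [coeff_rv]
      rcases Int.isUnit_iff.1 hg with c | c <;> simp [c]⟩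
  have a0 : PowerSeries.coeff 0 (rv g * PowerSeries.map (Int.castRingHom ℂ) U) = 1 := by
    exact c0 h0 a1
  have a4 := (h.2.2.2 _ 1 _ _ d a0 (by simp) a3 ns_one).2 fun j hj => by
    rcases Nat.eq_zero_or_pos j with rfl | c
    · simp [a0]
    · rw [a2 j c (by omega), PowerSeries.coeff_one, if_neg c.ne']
  refine ⟨e d, (mu_congr fun j c1 c2 _ => ?_).trans (mu_sum (fun d => (d : ℂ) * e d) hd)⟩
  have := a4 j c1 c2
  rwa [sub_eq_zero, Finset.filter_true_of_mem fun a ha =>
    Nat.lt_succ_of_le ((Nat.divisor_le ha).trans c2)] at this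

theorem p_Mono (hL : S_Lac) (h : S_NS) : S_Mono := by
  intro L s T S hS
  obtain ⟨h0, h1⟩ := h.1 S fun e => hS.1 (by simp [e])
  obtain ⟨G, hG⟩ : ∃ G, G = (S.support.erase S.natDegree).image (S.natDegree - ·) := ⟨_, rfl⟩
  have g1 : G.card ≤ L := hG ▸ Finset.card_image_le.trans
    (Finset.card_erase_le.trans (hL L s S hS).2.2.1)
  have g2 : ∀ a ∈ G, s ≤ a := by
    intro a ha
    obtain ⟨i, hi, rfl⟩ := Finset.mem_image.1 (hG ▸ ha)
    have := (hS.2.2.2 i (Finset.mem_erase.1 hi).2).resolve_left (Finset.mem_erase.1 hi).1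
    omega
  have g3 : ∀ i, 1 ≤ i → PowerSeries.coeff i (rv S) ≠ 0 → i ∈ AddSubmonoid.closure (G : Set ℕ) := by
    intro i hi c
    rw [coeff_rv, coeff_reverse] at c
    have c1 : S.coeff (revAt S.natDegree i) ≠ 0 := fun e => c (by simp [e])
    have c2 : i ≤ S.natDegree := by
      by_contra b
      rw [revAt_eq_self_of_lt (by omega)] at c1
      exact b (le_natDegree_of_ne_zero c1)
    rw [revAt_le c2] at c1
    exact AddSubmonoid.subset_closure (hG ▸ Finset.mem_image.2 ⟨S.natDegree - i,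
      Finset.mem_erase.2 ⟨by omega, mem_support_iff.2 c1⟩, by omega⟩)
  have g4 : ∀ j, 1 ≤ j → ps S j ≠ 0 → j ∈ AddSubmonoid.closure (G : Set ℕ) := by
    intro j
    induction j using Nat.strong_induction_on with
    | _ j ih =>
      intro hj c
      by_contra b
      obtain ⟨i, rfl⟩ : ∃ i, j = i + 1 := ⟨j - 1, by omega⟩
      have e := congrArg (PowerSeries.coeff (i + 1)) h1
      rw [map_neg, PowerSeries.coeff_succ_X_mul, PowerSeries.coeff_derivative,
        not_not.1 (mt (g3 _ hj) b), zero_mul, neg_zero, PowerSeries.coeff_mul,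
        Finset.sum_eq_single_of_mem (0, i + 1) (by simp), h0, one_mul, PowerSeries.coeff_mk,
        if_neg (by simp)] at e
      · exact c e
      rintro ⟨a, a'⟩ ha hn
      have := Finset.HasAntidiagonal.mem_antidiagonal.1 ha
      have a1 : 1 ≤ a := Nat.pos_of_ne_zero fun r => hn (Prod.ext r (by simp at this ⊢; omega))
      rw [PowerSeries.coeff_mk]
      split_ifs with r
      · exact mul_zero _
      by_contra q
      exact b (this ▸ add_mem (g3 a a1 (left_ne_zero_of_mul q))
        (ih a' (by simp at this; omega) (Nat.pos_of_ne_zero r) (right_ne_zero_of_mul q)))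
  refine ⟨(Fintype.piFinset fun _ : G => Finset.range (T + 1)).image fun n => ∑ a : G, n a * a,
    Finset.card_image_le.trans ?_, fun d hd hT c => ?_⟩
  · rw [Fintype.card_piFinset]
    simp only [Finset.card_range, Finset.prod_const, Finset.card_univ, Fintype.card_coe]
    exact Nat.pow_le_pow_right T.succ_pos g1
  obtain ⟨a, ha, c1⟩ := Finset.exists_ne_zero_of_sum_ne_zero c
  obtain ⟨q, rfl⟩ := Nat.dvd_of_mem_divisors ha
  have c2 := nsmul_mem (g4 a (Nat.pos_of_mem_divisors ha) (right_ne_zero_of_mul c1)) q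
  rw [smul_eq_mul, mul_comm] at c2
  obtain ⟨f, -, hf⟩ := AddSubmonoid.mem_closure_finset.1 c2
  refine Finset.mem_image.2 ⟨fun b => f b, Fintype.mem_piFinset.2 fun b => ?_,
    (Finset.sum_coe_sort G fun b => f b * b).trans hf⟩
  have c3 : f b • b.1 ≤ a * q :=
    hf ▸ Finset.single_le_sum (f := fun b => f b • b) (fun _ _ => Nat.zero_le _) b.2
  exact Finset.mem_range.2 (Nat.lt_succ_of_le (Nat.le_of_mul_le_mul_right
    ((Nat.mul_le_mul_left _ (g2 b b.2)).trans (c3.trans hT)) hS.2.2.1))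

end Pool.Agent.P.MP_aef18a_nt.OW
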