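import Pool.Agent.P.MP_aef18a_nt.OW.Iface

namespace Pool.Agent.P.MP_aef18a_nt.OW

open Polynomial Matrix LaurentPolynomial

namespace NoTwox

lemma num1 {H r p : ℕ} {ν w w' e : ℤ} (hH : 10 ≤ H) (hr : 4 * r ≤ H) (hp : p ≤ H ^ 5) (hν : 0 < ν)
    (he0 : 0 ≤ e) (he : H ^ 5 * e ≤ ν) (hw : ν ≤ H * w) (h : w - r * H ^ 2 * e ≤ 2 * w') :
    8 * (r : ℤ) ^ 3 * (p * H ^ 2) ^ 2 * (H ^ 2 * ν) < w' * H ^ 20 := by
  have h0 : (10 : ℤ) ≤ H := by exact_mod_cast hH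
  have h1 : 4 * (r : ℤ) ≤ H := by exact_mod_cast hr
  have h2 : (p : ℤ) ≤ H ^ 5 := by exact_mod_cast hp
  have r0 : (0 : ℤ) ≤ r := by positivity
  generalize (H : ℤ) = x at *
  generalize (r : ℤ) = y at *
  have x0 : 0 < x := by linarith
  have a1 : 2 * y * (x ^ 3 * e) ≤ x ^ 2 * (x ^ 3 * e) :=
    mul_le_mul_of_nonneg_right (by nlinarith) (by positivity)
  have a2 : ν ≤ 4 * x * w' := by nlinarith [mul_le_mul_of_nonneg_left h x0.le]
  have a3 : (4 * y) ^ 3 ≤ x ^ 3 := pow_le_pow_left₀ (by positivity) h1 3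
  have a4 : 32 * y ^ 3 < x ^ 3 := by nlinarith [pow_pos x0 3, pow_nonneg r0 3]
  have a5 : ((p : ℤ) * x ^ 2) ^ 2 ≤ (x ^ 5 * x ^ 2) ^ 2 := by gcongr
  refine lt_of_mul_lt_mul_left (a := 4 * x) ?_ (by positivity)
  calc 4 * x * (8 * y ^ 3 * (p * x ^ 2) ^ 2 * (x ^ 2 * ν))
      ≤ 4 * x * (8 * y ^ 3 * (x ^ 5 * x ^ 2) ^ 2 * (x ^ 2 * ν)) := by gcongr
    _ = 32 * y ^ 3 * (x ^ 17 * ν) := by ring
    _ < x ^ 3 * (x ^ 17 * ν) := mul_lt_mul_of_pos_right a4 (by positivity)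
    _ = ν * x ^ 20 := by ring
    _ ≤ 4 * x * w' * x ^ 20 := by gcongr
    _ = _ := by ring

lemma trf (hC : S_NtrC) (hN : S_NtrN) {r H ν e : ℕ} {G : LQ ℤ r} {b b' : Fin r → ℤ}
    (hG : G ≠ 0) (hW : Wb (H ^ 2) G) (hl : l1 G ≤ H) (hb : NoRel (H ^ 20) b)
    (hb' : NoRel (H ^ 20) b') (h1 : ∀ j, |b j| ≤ H ^ 2 * ν) (h2 : ∀ j, |2 * b' j - b j| ≤ e)
    (hH : 10 ≤ H) (hr : 4 * r ≤ H) (hν : 0 < ν) (he : H ^ 5 * e ≤ ν)
    (hd : ∀ α : ℂˣ, NonTors α → evc b α (toQ G : LP r) = 0 →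
      ν ≤ H * (minpoly ℚ (α : ℂ)).natDegree)
    {G₀ : LP r} (h0 : G₀ ∣ toQ G) (hL : HasL (spec b G₀)) : HasL (spec b' G₀) := by
  obtain ⟨α, hα, hα0⟩ := (hasL_spec _ _).1 hL
  have G0 := toQ_ne_zero hG
  obtain ⟨Q, hQ, hQd, hQ0⟩ := exists_prime_root (ne_zero_of_dvd_ne_zero G0 h0) hα0
  suffices h : HasL (spec b' Q) by
    obtain ⟨β, hβ, hβ0⟩ := (hasL_spec _ _).1 h
    exact (hasL_spec _ _).2 ⟨β, hβ, zero_dvd_iff.1 (hβ0 ▸ map_dvd (evc b' β) hQd)⟩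
  have WQ : Wb (H ^ 2) Q := (hW.subset (support_toQ G).le).of_dvd G0 (hQd.trans h0)
  have p2 : H ^ 2 ≤ H ^ 20 := Nat.pow_le_pow_right (by omega) (by norm_num)
  by_cases hn : NonCol Q
  swap
  · exact hC r _ Q b b' hQ.ne_zero hn WQ (hb.mono p2) (hb'.mono p2) ((hasL_spec _ _).2 ⟨α, hα, hQ0⟩)
  obtain ⟨p, hp, p0, p1⟩ := Nat.exists_prime_lt_and_le_two_mul (4 * H ^ 4 + H) (by omega)
  have q1 : H ≤ H ^ 4 := Nat.le_self_pow (by norm_num) H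
  have p5 : p ≤ H ^ 5 := by
    have : 10 * H ^ 4 ≤ H * H ^ 4 := Nat.mul_le_mul_right _ hH
    rw [pow_succ' H 4]
    omega
  obtain ⟨u, hu, hmax⟩ := Finset.exists_max_image _ (· ⬝ᵥ b) (support_nonempty hQ.ne_zero)
  obtain ⟨u', hu', hmin⟩ := Finset.exists_min_image _ (· ⬝ᵥ b) (support_nonempty hQ.ne_zero)
  have d1 := degUp α r b Q (((u - u') ⬝ᵥ b : ℤ) : ℝ) hQ.ne_zero ((hb.mono p2).injOn WQ) hQ0
    fun v hv v' hv' => by
      rw [sub_dotProduct]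
      beta_reduce
      exact_mod_cast sub_le_sub (hmax v hv) (hmin v' hv')
  have d2 := hd α hα (zero_dvd_iff.1 (hQ0 ▸ map_dvd (evc b α) (hQd.trans h0)))
  have d3 : (ν : ℤ) ≤ H * ((u - u') ⬝ᵥ b) := by
    have a : (((minpoly ℚ (α : ℂ)).natDegree : ℕ) : ℤ) ≤ (u - u') ⬝ᵥ b := by exact_mod_cast d1
    exact le_trans (by exact_mod_cast d2) (mul_le_mul_of_nonneg_left a (Int.natCast_nonneg H))
  have d4 := abs_dot_le (u := u - u') (a := (2 : ℤ) • b' - b) (fun i => WQ.abs hu hu' i) h2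
  rw [dotProduct_sub, dotProduct_smul, smul_eq_mul, abs_le] at d4
  have e1 : e ≤ H ^ 2 * ν := by
    have := Nat.le_mul_of_pos_left e (pow_pos (show 0 < H by omega) 5)
    have := Nat.le_mul_of_pos_left ν (pow_pos (show 0 < H by omega) 2)
    omega
  refine hN r (H ^ 2) (H ^ 20) (H ^ 2 * ν) p Q G b' hQ.irreducible hn hG (hQd.trans h0) hW hp
    (by rw [← pow_mul]; exact lt_of_le_of_lt (Nat.le_add_right _ _) p0) (by omega) ?_ (by positivity) (fun j => ?_) hb' u hu u' hu' ?_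
  · calc 2 * r * (p * H ^ 2) ≤ H * (H ^ 5 * H ^ 2) :=
          Nat.mul_le_mul (by omega) (Nat.mul_le_mul_right _ p5)
      _ = H ^ 8 := by ring
      _ ≤ _ := Nat.pow_le_pow_right (by omega) (by norm_num)
  · have a := abs_le.1 (h1 j)
    have b := abs_le.1 (h2 j)
    have c : (e : ℤ) ≤ H ^ 2 * ν := by exact_mod_cast e1
    push_cast
    rw [abs_le]
    constructor <;> linarith
  · push_cast at d4 ⊢
    exact num1 hH hr p5 (by exact_mod_cast hν) (Int.natCast_nonneg e) (by exact_mod_cast he) d3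
      (by linarith [d4.1])

lemma num2 {n r H B m : ℕ} (hH : 3 ≤ H) (hr : r ≤ n + 1) (hn : n + 2 ≤ H) (hm : 2 * m ≤ H)
    (hB : B < (n * (r * H ^ 2 + 1)) ^ n) :
    2 * m * ((2 * H ^ 20 + 1) ^ r + (2 * B + 1) ^ n + 1) ≤
      H ^ (21 * (n + 1) + (4 * n + 1) * n + 2) := by
  have H0 : 0 < H := by omega
  have a1 : n * (r * H ^ 2 + 1) ≤ H ^ 4 := by
    have : r * H ^ 2 + 1 ≤ H * H ^ 2 := by
      have := Nat.mul_le_mul_right (H ^ 2) (show r + 1 ≤ H by omega)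
      have := pow_pos H0 2
      rw [add_mul] at *
      omega
    calc _ ≤ H * (H * H ^ 2) := Nat.mul_le_mul (by omega) this
      _ = _ := by ring
  have a2 : 2 * B + 1 ≤ H ^ (4 * n + 1) := by
    have := hB.trans_le (Nat.pow_le_pow_left a1 n)
    have := Nat.mul_le_mul_right ((H ^ 4) ^ n) hH
    rw [pow_succ', pow_mul]
    omega
  have a3 : 2 * H ^ 20 + 1 ≤ H ^ 21 := by
    have := Nat.mul_le_mul_right (H ^ 20) hH
    have := pow_pos H0 20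
    rw [pow_succ' H 20]
    omega
  have b1 : (2 * H ^ 20 + 1) ^ r ≤ H ^ (21 * (n + 1) + (4 * n + 1) * n) :=
    (Nat.pow_le_pow_left a3 r).trans (by rw [← pow_mul]; exact Nat.pow_le_pow_right H0 (by omega))
  have b2 : (2 * B + 1) ^ n ≤ H ^ (21 * (n + 1) + (4 * n + 1) * n) :=
    (Nat.pow_le_pow_left a2 n).trans (by rw [← pow_mul]; exact Nat.pow_le_pow_right H0 (by omega))
  have b3 := pow_pos H0 (21 * (n + 1) + (4 * n + 1) * n)
  rw [pow_add H (21 * (n + 1) + (4 * n + 1) * n) 2]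
  generalize H ^ (21 * (n + 1) + (4 * n + 1) * n) = y at *
  have := Nat.mul_le_mul_right y hH
  calc _ ≤ H * (H * y) := Nat.mul_le_mul hm (by omega)
    _ = _ := by ring

end NoTwox

open NoTwox in
theorem p_NoTwo (hK : S_K) (hAM : S_AbsMod) (hI : S_Inj) (hKer : S_Ker) (hH : S_Half)
    (hG : S_Gap2) (hC : S_NtrC) (hN : S_NtrN) : S_NoTwo := by
  intro n F κ hF hκ
  obtain ⟨Δ, -, hΔ⟩ := exists_bx F
  obtain ⟨m, m0, hm⟩ := hK n (toQ F) hF.irr (hF.nc.of_support (support_toQ F).ge)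
  obtain ⟨A, hA⟩ : ∃ A, A = 21 * (n + 1) + (4 * n + 1) * n + 2 := ⟨_, rfl⟩
  refine ⟨2 * A + 10, 2 * m + 4 * (n + 1) + 2 * (n * Δ) + l1 F + ⌈κ⌉₊ + 10, ?_⟩
  rintro B H r a M b hH0 hν ⟨v1, v2, v3⟩ ih ⟨r1, rfl, hM, hb, hr⟩ hd hs G₁ G₂ eG L₁ L₂
  by_cases hinj : ∀ u : Fin n → ℤ, u ᵥ* M = 0 → u = 0
  · rcases hI n r M b _ hF.irr.ne_zero hinj v3 G₁ G₂ eG with h | h
    · obtain ⟨α, -, h0⟩ := (hasL_spec _ _).1 L₁
      exact evc_ne_zero_of_isUnit b α h h0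
    · obtain ⟨α, -, h0⟩ := (hasL_spec _ _).1 L₂
      exact evc_ne_zero_of_isUnit b α h h0
  obtain ⟨c, c0, c1, c2⟩ := hKer n r H M hM (by
    by_contra h
    exact hinj fun u hu => not_not.1 fun a => h ⟨u, a, hu⟩)
  have hB : B < (n * (r * H ^ 2 + 1)) ^ n := not_le.1 fun a =>
    v1 c c0 (fun i => (c2 i).trans (by exact_mod_cast a)) (by
      rw [dotProduct_mulVec, c1, zero_dotProduct])
  obtain ⟨b', n1, n2, n3, n4⟩ := hH n r m (H ^ 20) B M b m0 v1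
  have e1 := num2 (m := m) (by omega) r1 (by omega) (by omega) hB
  rw [← hA] at e1
  generalize 2 * m * ((2 * H ^ 20 + 1) ^ r + (2 * B + 1) ^ n + 1) = e at n4 e1
  have H0 : 0 < H := by omega
  have y0 := pow_pos H0 A
  rw [pow_add, pow_mul'] at hν
  generalize H ^ A = y at e1 hν y0
  have g1 : ∀ i, |2 * (M *ᵥ b') i - (M *ᵥ b) i| ≤ (r * H * e : ℕ) := fun i => by
    have := abs_dot_le (u := M i) (a := (2 : ℤ) • b' - b) (hM i) n4
    rw [dotProduct_sub, dotProduct_smul] at this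
    exact_mod_cast this
  have q1 : (H ^ 3 * y) ^ 2 ≤ nu (M *ᵥ b) := le_trans (by
    rw [mul_pow, ← pow_mul, mul_comm]
    exact Nat.mul_le_mul_left _ (Nat.pow_le_pow_right H0 (by norm_num))) hν
  have q2 : H ^ 5 * e ≤ nu (M *ᵥ b) := le_trans (by
    rw [mul_comm]
    exact Nat.mul_le_mul (e1.trans (Nat.le_self_pow (by norm_num) y))
      (Nat.pow_le_pow_right H0 (by norm_num))) hν
  have q3 : 16 ≤ nu (M *ᵥ b) := by
    have a : 4 ≤ H ^ 3 * y :=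
      le_trans (le_trans (by omega) (Nat.le_self_pow (by norm_num) H)) (Nat.le_mul_of_pos_right _ y0)
    exact (Nat.pow_le_pow_left a 2).trans q1
  obtain ⟨g2, g3⟩ := hG n Δ (r * H * e) κ F (M *ᵥ b) (M *ᵥ b') hκ hΔ q3 (by
    refine Real.le_sqrt_of_sq_le (le_trans ?_ (Nat.cast_le.2 q1))
    rw [Nat.cast_pow]
    refine pow_le_pow_left₀ (by positivity) ?_ 2
    have a1 : ((⌈κ⌉₊ + n * Δ + 1 : ℕ) : ℝ) ≤ H := Nat.cast_le.2 (by omega)
    have a2 : ((r * H * e : ℕ) : ℝ) ≤ (H * H * y : ℕ) :=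
      Nat.cast_le.2 (Nat.mul_le_mul (Nat.mul_le_mul_right _ (by omega)) e1)
    have a3 := Nat.le_ceil κ
    push_cast at a1
    refine (mul_le_mul (by linarith : κ + n * Δ + 1 ≤ H) a2 (by positivity) (by positivity)).trans_eq ?_
    push_cast
    ring) g1 v2
  have G0 : pb M F ≠ 0 := fun a => hs (by
    rw [← spec_pb, pb_toQ, a, map_zero, spec_eq_spk, map_zero])
  have W : Wb (H ^ 2) (pb M F) := (hΔ.pb hM).wb.mono (by
    rw [← mul_assoc, sq]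
    exact Nat.mul_le_mul_right _ (by omega))
  have T := fun G₀ => trf hC hN (G₀ := G₀) G0 W ((l1_pb_le M F).trans (by omega)) hr n1 hb n4
    (by omega) (by omega) (by omega) q2 fun α hα h0 => hd α hα (by rwa [← pb_toQ, evc_pb] at h0)
  rw [← pb_toQ, eG] at T
  refine ih (M *ᵥ b') g3 ⟨n2, g2, hAM n m _ _ _ hm (fun i => ?_) v3⟩
    ⟨_, _, by rw [← spec_pb, eG, spec_mul], T _ (dvd_mul_right _ _) L₁, T _ (dvd_mul_left _ _) L₂⟩
  rw [← Pi.sub_apply, ← mulVec_sub]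
  exact Finset.dvd_sum (s := Finset.univ) fun j _ => (n3 j).mul_left (M i j)

end Pool.Agent.P.MP_aef18a_nt.OW
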