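import Pool.Agent.P.MP_aef18a_nt.OW.Iface

namespace Pool.Agent.P.MP_aef18a_nt.OW

open Polynomial Matrix LaurentPolynomial

namespace NormPx

open AddMonoidAlgebra

variable {r n : ℕ}

lemma exists_int (A : LP r) : ∃ N : ℤ, N ≠ 0 ∧ ∃ F : LQ ℤ r, ∀ u, (F.coeff u : ℚ) = N * A.coeff u := by
  induction A using AddMonoidAlgebra.induction_linear with
  | zero => exact ⟨1, one_ne_zero, 0, fun u => by simp⟩
  | add x y hx hy =>
    obtain ⟨N, hN, F, hF⟩ := hx
    obtain ⟨N', hN', F', hF'⟩ := hy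
    refine ⟨N * N', mul_ne_zero hN hN', N' • F + N • F', fun u => ?_⟩
    simp only [AddMonoidAlgebra.coeff_add, AddMonoidAlgebra.coeff_smul, Finsupp.add_apply,
      Finsupp.smul_apply, smul_eq_mul, Int.cast_add, Int.cast_mul, hF, hF']
    ring
  | single w c =>
    refine ⟨c.den, by exact_mod_cast c.den_ne_zero, single w c.num, fun u => ?_⟩
    rw [coeff_single, coeff_single]
    by_cases h : w = u
    · subst h
      simp [Rat.den_mul_eq_num]
    · simp [h]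

lemma exists_prim_aux (w : Fin r → ℤ) : ∀ (m : ℕ) (F : LQ ℤ r), (F.coeff w).natAbs = m →
    F.coeff w ≠ 0 → ∃ (la : ℚ) (F' : LQ ℤ r), la ≠ 0 ∧ (∀ u, (F'.coeff u : ℚ) = la * F.coeff u) ∧
      ∀ p : ℕ, p.Prime → ∃ u, ¬ (p : ℤ) ∣ F'.coeff u := by
  intro m
  induction m using Nat.strong_induction_on with
  | _ m ih =>
    intro F hm hw
    by_cases h : ∀ p : ℕ, p.Prime → ∃ u, ¬ (p : ℤ) ∣ F.coeff u
    · exact ⟨1, F, one_ne_zero, fun u => by simp, h⟩
    · push Not at h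
      obtain ⟨p, hp, hd⟩ := h
      let F₁ : LQ ℤ r := .ofCoeff (F.coeff.mapRange (· / (p : ℤ)) (by simp))
      have e : ∀ u, F.coeff u = p * F₁.coeff u := fun u => by
        show F.coeff u = p * (F.coeff u / p)
        rw [Int.mul_ediv_cancel' (hd u)]
      have h1 : F₁.coeff w ≠ 0 := fun e' => hw (by rw [e w, e', mul_zero])
      have h2 : (F₁.coeff w).natAbs < m := by
        rw [← hm, e w, Int.natAbs_mul, Int.natAbs_natCast]
        have := hp.two_le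
        have := Int.natAbs_pos.mpr h1
        nlinarith
      obtain ⟨la, F', hla, hF', hp'⟩ := ih _ h2 F₁ rfl h1
      have hp0 : (p : ℚ) ≠ 0 := by exact_mod_cast hp.ne_zero
      refine ⟨la / p, F', div_ne_zero hla hp0, fun u => ?_, hp'⟩
      rw [hF', e u]
      push_cast
      field_simp

lemma exists_prim {A : LP r} (hA : A ≠ 0) : ∃ (la : ℚ) (F : LQ ℤ r), la ≠ 0 ∧
    A = single 0 la * toQ F ∧ (∀ u, u ∈ F.coeff.support ↔ u ∈ A.coeff.support) ∧
      ∀ p : ℕ, p.Prime → ∃ u, ¬ (p : ℤ) ∣ F.coeff u := by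
  obtain ⟨N, hN, F, hF⟩ := exists_int A
  obtain ⟨w, hw⟩ := support_nonempty hA
  have hN' : (N : ℚ) ≠ 0 := by exact_mod_cast hN
  have h1 : F.coeff w ≠ 0 := by
    intro e
    have := hF w
    rw [e, Int.cast_zero] at this
    exact mul_ne_zero hN' (Finsupp.mem_support_iff.mp hw) this.symm
  obtain ⟨la, F', hla, hF', hp⟩ := exists_prim_aux w _ F rfl h1
  have e : ∀ u, (F'.coeff u : ℚ) = (la * N) * A.coeff u := fun u => by rw [hF', hF, mul_assoc]
  have h0 : la * N ≠ 0 := mul_ne_zero hla hN'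
  refine ⟨(la * N)⁻¹, F', inv_ne_zero h0, ?_, fun u => ?_, hp⟩
  · ext u
    simp only [coeff_single_zero_mul, toQ_coeff, e]
    field_simp
  · rw [Finsupp.mem_support_iff, Finsupp.mem_support_iff, ← Int.cast_ne_zero (α := ℚ), e]
    simp [h0]

lemma hasL_unit {c f : ℚ[T;T⁻¹]} (hc : IsUnit c) : HasL (c * f) ↔ HasL f := by
  unfold HasL
  simp only [map_mul, mul_eq_zero]
  exact exists_congr fun α => and_congr_right fun _ => or_iff_right (hc.map (evL α)).ne_zero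

lemma twoL_unit {c f : ℚ[T;T⁻¹]} (hc : IsUnit c) (h : TwoL (c * f)) : TwoL f := by
  obtain ⟨f₁, f₂, e, h1, h2⟩ := h
  obtain ⟨c, rfl⟩ := hc
  refine ⟨(c⁻¹ : (ℚ[T;T⁻¹])ˣ) * f₁, f₂, ?_, (hasL_unit (Units.isUnit _)).mpr h1, h2⟩
  rw [mul_assoc, ← e, Units.inv_mul_cancel_left]

lemma gen_bound (S : Set (Fin n → ℤ)) : ∀ x ∈ AddSubgroup.closure S, ∃ C : ℕ,
    ∀ (a : Fin n → ℤ) (X : ℝ), 0 ≤ X → (∀ d ∈ S, |((d ⬝ᵥ a : ℤ) : ℝ)| ≤ X) →
      |((x ⬝ᵥ a : ℤ) : ℝ)| ≤ C * X := by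
  intro x hx
  induction hx using AddSubgroup.closure_induction with
  | mem x hx => exact ⟨1, fun a X _ h => by simpa using h x hx⟩
  | zero => exact ⟨0, fun a X _ _ => by simp⟩
  | add x y _ _ hx hy =>
    obtain ⟨C, hC⟩ := hx
    obtain ⟨C', hC'⟩ := hy
    refine ⟨C + C', fun a X h0 h => ?_⟩
    rw [add_dotProduct, Int.cast_add, Nat.cast_add, add_mul]
    exact (abs_add_le _ _).trans (add_le_add (hC a X h0 h) (hC' a X h0 h))
  | neg x _ hx =>
    obtain ⟨C, hC⟩ := hx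
    exact ⟨C, fun a X h0 h => by rw [neg_dotProduct, Int.cast_neg, abs_neg]; exact hC a X h0 h⟩

lemma dil_map (ι : (Fin r → ℤ) →+ (Fin n → ℤ)) (m : ℕ) (A : LP r) :
    dil m (mapDomain ι A : LP n) = mapDomain ι (dil m A) := by
  induction A using AddMonoidAlgebra.induction_linear with
  | zero => simp
  | add x y hx hy => rw [mapDomain_add, map_add, map_add, mapDomain_add, hx, hy]
  | single u c => rw [mapDomain_single, dil_single, dil_single, mapDomain_single, map_zsmul]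

lemma spk_map (ι : (Fin r → ℤ) →+ (Fin n → ℤ)) (b : Fin n → ℤ) (A : LP r) :
    spk b (mapDomain ι A : LP n) = spk (fun i => ι (Pi.single i 1) ⬝ᵥ b) A := by
  induction A using AddMonoidAlgebra.induction_linear with
  | zero => simp
  | add x y hx hy => rw [mapDomain_add, map_add, map_add, hx, hy]
  | single u c => rw [mapDomain_single, spk_single, spk_single, NormA.dot_eq]

lemma ind (h : S_Step) {F : LQ ℤ r} {κ : ℝ} (hF : Dat F) (hκ : 0 < κ) : ∃ B : ℕ,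
    ∀ a, Valid F κ B a → HasL (spec a (toQ F)) ∧ ¬ TwoL (spec a (toQ F)) := by
  obtain ⟨B, hB⟩ := h r F κ hF hκ
  refine ⟨B, fun a => ?_⟩
  induction hm : nu a using Nat.strong_induction_on generalizing a with
  | _ m ih =>
    intro ha
    exact hB a ha fun a' h1 h2 => (ih _ (hm ▸ h1) a' rfl h2).2

lemma vertex (h : S_Step) {P : LP n} {κ : ℝ} (hP : Irreducible P) (hc : NonCol P) (hκ : 0 < κ)
    {u₀ : Fin n → ℤ} (hu₀ : u₀ ∈ P.coeff.support) : ∃ Γ : Finset (Fin n → ℤ), 0 ∉ Γ ∧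
    ∀ b : Fin n → ℤ, (∀ c ∈ Γ, c ⬝ᵥ b ≠ 0) →
      (∀ u ∈ P.coeff.support, u ≠ u₀ → ∀ v ∈ P.coeff.support, ∀ w ∈ P.coeff.support,
        κ * (((v - w) ⬝ᵥ b : ℤ) : ℝ) ≤ (((u₀ - u) ⬝ᵥ b : ℤ) : ℝ)) →
      Abs P b → HasL (spec b P) ∧ ¬ TwoL (spec b P) := by
  classical
  obtain ⟨r, ι, hι, hr⟩ := NormA.exists_iota {d | ∃ u ∈ P.coeff.support, d = u - u₀}
  have hs : ∀ z ∈ P.coeff.support, ∃ w, u₀ + ι w = z := fun z hz => by
    obtain ⟨w, hw⟩ := (hr (z - u₀)).1 (AddSubgroup.subset_closure ⟨z, hz, rfl⟩)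
    exact ⟨w, by rw [hw, add_sub_cancel]⟩
  have e0 := NormA.eq_sh ι hι u₀ P hs
  have n0 : NormA.sh ι hι u₀ P ≠ 0 := fun e => hP.ne_zero (by rw [e0, e, mapDomain_zero, mul_zero])
  obtain ⟨la, F, hla, e1, hm, hp⟩ := exists_prim n0
  have mem : ∀ w, w ∈ F.coeff.support ↔ u₀ + ι w ∈ P.coeff.support := fun w => by
    rw [hm, NormA.mem_sh]
  obtain ⟨U, hU, eP⟩ : ∃ U : LP n, IsUnit U ∧ P = U * mapDomain ι (toQ F : LP r) := by
    refine ⟨single u₀ 1 * mapDomain ι (single 0 la : LP r), ?_, ?_⟩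
    · rw [mapDomain_single]
      exact (isUnit_single _ isUnit_one).mul (isUnit_single _ hla.isUnit)
    · rw [mul_assoc, ← mapDomain_mul, ← e1]
      exact e0
  have hD : Dat F := by
    refine ⟨?_, ?_, ?_, hp⟩
    · have h1 : Irreducible (mapDomain ι (toQ F : LP r) : LP n) :=
        (irreducible_isUnit_mul hU).mp (eP ▸ hP)
      refine ⟨fun hu => h1.not_isUnit (hu.map (mapDomainRingHom ℚ ι)), fun A B e => ?_⟩
      rw [e, mapDomain_mul] at h1
      exact (h1.isUnit_or_isUnit rfl).imp (NormA.isUnit_of_map ι hι) (NormA.isUnit_of_map ι hι)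
    · refine NonCol.of_mapDomain (φ := ι) ?_
      obtain ⟨u, hu, v, hv, w, hw, i, j, e⟩ := hc
      obtain ⟨u', rfl⟩ := hs u hu
      obtain ⟨v', rfl⟩ := hs v hv
      obtain ⟨w', rfl⟩ := hs w hw
      refine ⟨ι u', mem_mapDomain_injOn hι.injOn ((mem _).2 hu), ι v',
        mem_mapDomain_injOn hι.injOn ((mem _).2 hv), ι w',
        mem_mapDomain_injOn hι.injOn ((mem _).2 hw), i, j, ?_⟩
      simpa only [Pi.add_apply, add_sub_add_left_eq_sub] using e
    · exact Finsupp.mem_support_iff.mp ((mem 0).2 (by simpa using hu₀))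
  choose C hC using fun i : Fin r =>
    gen_bound _ (ι (Pi.single i 1)) ((hr _).2 ⟨_, rfl⟩)
  have hC0 : (0 : ℝ) ≤ ((∑ i, C i : ℕ) : ℝ) := Nat.cast_nonneg _
  obtain ⟨B, hB⟩ := ind h hD (κ := κ / (((∑ i, C i : ℕ) : ℝ) + 1)) (by positivity)
  refine ⟨((Fintype.piFinset fun _ : Fin r => Finset.Icc (-(B : ℤ)) B).erase 0).image ι,
    fun e => ?_, fun b hb hmar habs => ?_⟩
  · obtain ⟨c, hc', e⟩ := Finset.mem_image.1 e
    rw [← map_zero ι] at e
    exact (Finset.mem_erase.1 hc').1 (hι e)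
  have key := hB (fun i => ι (Pi.single i 1) ⬝ᵥ b) ⟨fun c hc0 hcB => ?_, fun w hw hw0 => ?_,
    fun m hm0 P₁ P₂ e hd => ?_⟩
  · have e : spec b P = spk b U * spec (fun i => ι (Pi.single i 1) ⬝ᵥ b) (toQ F) := by
      rw [spec_eq_spk, spec_eq_spk, ← spk_map, ← map_mul, ← eP]
    have hU' : IsUnit (spk b U) := hU.map _
    rw [e]
    exact ⟨(hasL_unit hU').mpr key.1, fun h2 => key.2 (twoL_unit hU' h2)⟩
  · rw [NormA.dot_eq]
    refine hb _ (Finset.mem_image_of_mem _ (Finset.mem_erase.2 ⟨hc0, ?_⟩))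
    exact Fintype.mem_piFinset.2 fun i => Finset.mem_Icc.2 (abs_le.1 (hcB i))
  · have hne : u₀ + ι w ≠ u₀ := fun e => hw0 (hι (by simpa using e))
    have h1 := hmar _ ((mem w).1 hw) hne
    rw [show u₀ - (u₀ + ι w) = -ι w by abel, neg_dotProduct] at h1
    rw [NormA.dot_eq]
    generalize ((-(ι w ⬝ᵥ b) : ℤ) : ℝ) = g at h1 ⊢
    have g0 : 0 ≤ g := by simpa using h1 u₀ hu₀ u₀ hu₀
    have h2 : ∀ i, |((ι (Pi.single i 1) ⬝ᵥ b : ℤ) : ℝ)| ≤ ((∑ i, C i : ℕ) : ℝ) * (g / κ) := by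
      intro i
      refine (hC i b (g / κ) (by positivity) ?_).trans
        (mul_le_mul_of_nonneg_right ?_ (by positivity))
      · rintro _ ⟨u, hu, rfl⟩
        have a1 := h1 u hu u₀ hu₀
        have a2 := h1 u₀ hu₀ u hu
        rw [← neg_sub u u₀, neg_dotProduct, Int.cast_neg] at a2
        rw [abs_le, le_div_iff₀ hκ, neg_le, le_div_iff₀ hκ]
        constructor <;> linarith
      · exact_mod_cast Finset.single_le_sum (f := C) (fun _ _ => Nat.zero_le _) (Finset.mem_univ i)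
    have h3 : ((nu fun i => ι (Pi.single i 1) ⬝ᵥ b : ℕ) : ℝ) ≤ ((∑ i, C i : ℕ) : ℝ) * (g / κ) := by
      rcases Nat.eq_zero_or_pos (nu fun i => ι (Pi.single i 1) ⬝ᵥ b) with e | e
      · rw [e, Nat.cast_zero]; positivity
      · obtain ⟨i, hi⟩ := exists_nu e
        have := h2 i
        rw [← Int.cast_abs, hi, Int.cast_natCast] at this
        exact this
    generalize ((nu fun i => ι (Pi.single i 1) ⬝ᵥ b : ℕ) : ℝ) = x at h3 ⊢
    generalize ((∑ i, C i : ℕ) : ℝ) = c at h3 hC0 ⊢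
    have h4 : κ / (c + 1) * x ≤ g := by
      rw [div_mul_eq_mul_div, div_le_iff₀ (by positivity)]
      have := mul_le_mul_of_nonneg_left h3 hκ.le
      rw [show κ * (c * (g / κ)) = c * g by field_simp] at this
      nlinarith
    have := Real.sqrt_nonneg x
    linarith
  · have e' : dil m P = mapDomain ι P₁ * (dil m U * mapDomain ι P₂) := by
      rw [eP, map_mul, dil_map, e, mapDomain_mul]
      ring
    refine (habs m hm0 _ _ e' fun z hz z' hz' => ?_).imp (NormA.isUnit_of_map ι hι)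
      fun hu => NormA.isUnit_of_map ι hι (isUnit_of_mul_isUnit_right hu)
    obtain ⟨u, hu, rfl⟩ := mem_mapDomain hz
    obtain ⟨u', hu', rfl⟩ := mem_mapDomain hz'
    rw [← map_sub, ← NormA.dot_eq]
    exact hd u hu u' hu'

end NormPx

theorem p_Norm (h : S_Step) : S_Norm := by
  classical
  intro n P κ hP hc hκ
  choose Γ h0 hΓ using fun u₀ : P.coeff.support => NormPx.vertex h hP hc hκ u₀.2
  refine ⟨Finset.univ.biUnion Γ, fun e => ?_, fun b hb hm ha => ?_⟩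
  · obtain ⟨u, -, hu⟩ := Finset.mem_biUnion.1 e
    exact h0 u hu
  · obtain ⟨u₀, hu₀, hm⟩ := hm
    have key := hΓ ⟨u₀, hu₀⟩ b
      (fun c hc' => hb c (Finset.mem_biUnion.2 ⟨_, Finset.mem_univ _, hc'⟩)) hm ha
    refine ⟨fun e => key.2 ⟨_, _, ?_, key.1, key.1⟩, key⟩
    rw [e, mul_zero]

end Pool.Agent.P.MP_aef18a_nt.OW
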