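import Pool.Agent.P.MP_aef18a_nt.OW.Iface

namespace Pool.Agent.P.MP_aef18a_nt.OW

open Polynomial Matrix LaurentPolynomial

theorem p_Nrm : S_Nrm := by
  intro h T hm
  refine ⟨resultant h T h.natDegree T.natDegree, ?_⟩
  have e := resultant_eq_prod_eval (h.map (algebraMap ℤ ℂ)) (T.map (algebraMap ℤ ℂ)) T.natDegree
    natDegree_map_le (IsAlgClosed.splits _)
  rw [hm.natDegree_map, resultant_map_map, (hm.map _).leadingCoeff, one_pow, one_mul] at e
  rw [← eq_intCast (algebraMap ℤ ℂ), e, aroots_def]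
  exact congrArg Multiset.prod (Multiset.map_congr rfl fun β _ => (eval_map_algebraMap T β).symm)

namespace Nrmx

lemma frob (g : ℤ[X]) {p : ℕ} (hp : p.Prime) :
    ∃ r : ℤ[X], expand ℤ p g = g ^ p + Polynomial.C (p : ℤ) * r := by
  have : Fact p.Prime := ⟨hp⟩
  have h : (expand ℤ p g - g ^ p).map (Int.castRingHom (ZMod p)) = 0 := by
    rw [Polynomial.map_sub, map_expand, Polynomial.map_pow, ZMod.expand_card, sub_self]
  obtain ⟨r, hr⟩ : Polynomial.C (p : ℤ) ∣ expand ℤ p g - g ^ p := by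
    rw [C_dvd_iff_dvd_coeff]
    intro i
    have := congrArg (fun f => Polynomial.coeff f i) h
    simp only [coeff_map, Polynomial.coeff_zero, eq_intCast] at this
    exact (ZMod.intCast_zmod_eq_zero_iff_dvd _ _).1 this
  exact ⟨r, by rw [← hr]; ring⟩

lemma conj {α β : ℂ} (hα : IsIntegral ℤ α) (h : aeval β (minpoly ℤ α) = 0) :
    IsIntegral ℤ β ∧ minpoly ℤ β = minpoly ℤ α := by
  have hβ : IsIntegral ℤ β := ⟨_, minpoly.monic hα, h⟩
  exact ⟨hβ, eq_of_monic_of_associated (minpoly.monic hβ) (minpoly.monic hα)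
    ((minpoly.irreducible hβ).associated_of_dvd (minpoly.irreducible hα)
      (minpoly.isIntegrallyClosed_dvd hβ h))⟩

lemma move {α β : ℂ} (hα : IsIntegral ℤ α) (h : aeval β (minpoly ℤ α) = 0) {P : ℤ[X]}
    (hP : aeval α P = 0) : aeval β P = 0 :=
  aeval_eq_zero_of_dvd_aeval_eq_zero (minpoly.isIntegrallyClosed_dvd hα hP) h

lemma key (hN : S_Nrm) {α : ℂ} (hα : IsIntegral ℤ α) {S : ℤ[X]} {p : ℕ} (hp : p.Prime)
    (h0 : aeval α S = 0) (h1 : aeval (α ^ p) S ≠ 0) :
    ∃ R : Finset ℂ, (∀ β, β ∈ R ↔ aeval β (minpoly ℤ α) = 0) ∧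
      (p : ℝ) ^ R.card ≤ ∏ β ∈ R, ‖aeval (β ^ p) S‖ := by
  have hm := minpoly.monic hα
  have hnd : ((minpoly ℤ α).aroots ℂ).Nodup := by
    rw [← aroots_map_int, ← algebraMap_int_eq, ← minpoly.isIntegrallyClosed_eq_field_fractions' ℚ hα]
    exact nodup_roots (minpoly.irreducible hα.tower_top).separable.map
  set R : Finset ℂ := ⟨_, hnd⟩
  have hR : ∀ β, β ∈ R ↔ aeval β (minpoly ℤ α) = 0 := fun β =>
    (mem_aroots' (T := ℤ)).trans ⟨fun a => a.2, fun a => ⟨(hm.map _).ne_zero, a⟩⟩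
  obtain ⟨T, hT⟩ := frob S hp
  obtain ⟨z, hz⟩ := hN _ T hm
  have hz' : ∏ β ∈ R, aeval β T = z := hz
  have e : ∀ β ∈ R, aeval (β ^ p) S = p * aeval β T := fun β hβ => by
    rw [← expand_aeval, hT, map_add, map_pow, move hα ((hR β).1 hβ) h0, zero_pow hp.ne_zero,
      zero_add, map_mul, aeval_C, eq_intCast, Int.cast_natCast]
  have z0 : z ≠ 0 := by
    rintro rfl
    obtain ⟨β, hβ, a⟩ := Finset.prod_eq_zero_iff.1 (hz'.trans Int.cast_zero)
    obtain ⟨b1, b2⟩ := conj hα ((hR β).1 hβ)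
    refine h1 ?_
    rw [← expand_aeval]
    refine move b1 (b2 ▸ minpoly.aeval ℤ α) ?_
    rw [expand_aeval, e β hβ, a, mul_zero]
  refine ⟨R, hR, ?_⟩
  rw [← norm_prod, Finset.prod_congr rfl e, Finset.prod_mul_distrib, Finset.prod_const, hz',
    norm_mul, norm_pow, Complex.norm_natCast, Complex.norm_intCast]
  exact le_mul_of_one_le_right (by positivity) (by exact_mod_cast Int.one_le_abs z0)

lemma norm_le {ι : Type} (s : Finset ι) (c : ι → ℤ) (x : ι → ℂ) {B : ℝ}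
    (h : ∀ i ∈ s, ‖x i‖ ≤ B) :
    ‖∑ i ∈ s, (c i : ℂ) * x i‖ ≤ ((∑ i ∈ s, (c i).natAbs : ℕ) : ℝ) * B := by
  rw [Nat.cast_sum, Finset.sum_mul]
  refine (norm_sum_le _ _).trans (Finset.sum_le_sum fun i hi => ?_)
  rw [norm_mul, Complex.norm_intCast, Nat.cast_natAbs, Int.cast_abs]
  exact mul_le_mul_of_nonneg_left (h i hi) (abs_nonneg _)

end Nrmx

open Nrmx

theorem p_CycP (h : S_Nrm) : S_CycP := by
  intro r p G b α hp hl hT h0
  obtain ⟨m, hm, hα⟩ := not_not.1 hT
  set S : ℤ[X] := ∑ u ∈ G.coeff.support, monomial ((u ⬝ᵥ b) % m).toNat (G.coeff u) with hS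
  have e0 : ∀ w : ℂ, aeval w S =
      ∑ u ∈ G.coeff.support, (G.coeff u : ℂ) * w ^ ((u ⬝ᵥ b) % m).toNat := fun w => by
    simp only [hS, map_sum, aeval_monomial, eq_intCast]
  have e1 : ∀ γ : ℂˣ, (γ : ℂ) ^ m = 1 → evc b γ (toQ G) = aeval (γ : ℂ) S := fun γ hγ => by
    rw [evc_toQ, evc_eq_sum, e0]
    refine Finset.sum_congr rfl fun u _ => ?_
    rw [eq_intCast, ← zpow_natCast, Int.toNat_of_nonneg (Int.emod_nonneg _ (by omega)),
      ← Units.val_zpow_eq_zpow_val, ← Units.val_zpow_eq_zpow_val,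
      ← zpow_eq_zpow_emod' _ (Units.val_eq_one.1 (by simpa using hγ))]
  have hi : IsIntegral ℤ (α : ℂ) := IsIntegral.of_pow hm (hα ▸ isIntegral_one)
  rw [e1 _ hα] at h0
  rw [e1 _ (by rw [Units.val_pow_eq_pow_val, ← pow_mul, mul_comm, pow_mul, hα, one_pow]),
    Units.val_pow_eq_pow_val]
  by_contra h1
  obtain ⟨R, hR, hle⟩ := key h hi hp h0 h1
  have hb : ∀ β ∈ R, ‖aeval (β ^ p) S‖ ≤ l1 G := fun β hβ => by
    have a : aeval β (X ^ m - 1 : ℤ[X]) = 0 := move hi ((hR β).1 hβ) (by simp [hα])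
    have a1 : ‖β‖ = 1 := Complex.norm_eq_one_of_pow_eq_one (by simpa [sub_eq_zero] using a) hm.ne'
    rw [e0]
    simpa [l1] using norm_le G.coeff.support G.coeff
      (fun u => (β ^ p) ^ ((u ⬝ᵥ b) % m).toNat) (B := 1) fun u _ => by simp [a1]
  have h2 := hle.trans (Finset.prod_le_prod (fun _ _ => norm_nonneg _) hb)
  rw [Finset.prod_const] at h2
  have h3 : R.card ≠ 0 := Finset.card_ne_zero.2 ⟨_, (hR _).2 (minpoly.aeval ℤ _)⟩
  exact absurd h2 (not_le.2 (pow_lt_pow_left₀ (by exact_mod_cast hl) (by positivity) h3))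

theorem p_Bdm (hL : S_Lac) (h : S_Nrm) : S_Bdm := by
  classical
  intro L s J p S hS hN hu hp hLp Z hZ
  obtain ⟨L1, -, -, -, -, hr⟩ := hL L s S hS
  have hi : ∀ β : ℂ, aeval β S = 0 → IsIntegral ℤ β := fun β hβ => by
    have a := (hr β hβ).2.2 1 1 (by simpa using hS.2.2.1)
    rcases Int.isUnit_iff.1 hu with e | e
    · simpa [e] using a
    · simpa [e] using a.neg
  have S0 : S ≠ 0 := fun a => hS.1 (by simp [a])
  set O : Finset ℂ := (S.aroots ℂ).toFinset.filter fun β => 1 < ‖β‖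
  have hO : ∀ β, β ∈ O ↔ aeval β S = 0 ∧ 1 < ‖β‖ := fun β => by
    simp only [O, Finset.mem_filter, Multiset.mem_toFinset, mem_aroots, ne_eq, S0,
      not_false_eq_true, true_and]
  set Y : Finset ℂ := Z.image Units.val
  have hY : ∀ β ∈ Y, aeval β S = 0 ∧ aeval (β ^ p) S ≠ 0 := fun β hβ => by
    obtain ⟨γ, hγ, rfl⟩ := Finset.mem_image.1 hβ
    exact hZ γ hγ
  have cls : ∀ α ∈ Y, (Y.filter fun β => minpoly ℤ β = minpoly ℤ α).card ≤
      L * p * J * (O.filter fun β => minpoly ℤ β = minpoly ℤ α).card := fun α hα => by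
    obtain ⟨a0, a1⟩ := hY α hα
    obtain ⟨R, hR, hle⟩ := key h (hi α a0) hp a0 a1
    have c1 : (Y.filter fun β => minpoly ℤ β = minpoly ℤ α).card ≤ R.card :=
      Finset.card_le_card fun β hβ => (hR β).2 ((Finset.mem_filter.1 hβ).2 ▸ minpoly.aeval ℤ β)
    have c2 : (R.filter fun β => 1 < ‖β‖).card ≤
        (O.filter fun β => minpoly ℤ β = minpoly ℤ α).card :=
      Finset.card_le_card fun β hβ => by
        obtain ⟨b1, b2⟩ := Finset.mem_filter.1 hβ
        exact Finset.mem_filter.2 ⟨(hO β).2 ⟨move (hi α a0) ((hR β).1 b1) a0, b2⟩,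
          (conj (hi α a0) ((hR β).1 b1)).2⟩
    have hb : ∀ β ∈ R, ‖aeval (β ^ p) S‖ ≤ L * if 1 < ‖β‖ then (L : ℝ) ^ (p * J) else 1 :=
      fun β hβ => by
        rw [aeval_def, eval₂_eq_sum, Polynomial.sum]
        refine (norm_le S.support S.coeff (fun i => (β ^ p) ^ i) fun i hi' => ?_).trans
          (mul_le_mul_of_nonneg_right (by exact_mod_cast hS.2.1) (by split_ifs <;> positivity))
        rw [norm_pow, norm_pow, ← pow_mul]
        split_ifs with a
        · refine (hr β (move (hi α a0) ((hR β).1 hβ) a0)).2.1 _ _ ?_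
          rw [mul_assoc]
          exact Nat.mul_le_mul_left p ((le_natDegree_of_mem_supp i hi').trans hN)
        · exact pow_le_one₀ (norm_nonneg _) (not_lt.1 a)
    have h2 := hle.trans (Finset.prod_le_prod (fun _ _ => norm_nonneg _) hb)
    rw [Finset.prod_mul_distrib, Finset.prod_const, Finset.prod_ite, Finset.prod_const,
      Finset.prod_const_one, mul_one, ← pow_mul] at h2
    have h3 : p ^ R.card ≤ L ^ R.card * L ^ (p * J * (R.filter fun β => 1 < ‖β‖).card) := by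
      exact_mod_cast h2
    have h4 := (Nat.pow_le_pow_left hLp R.card).trans h3
    rw [mul_pow, mul_comm] at h4
    have h5 := (Nat.le_of_mul_le_mul_left h4 (by positivity)).trans
      (Nat.pow_le_pow_left (Nat.lt_two_pow_self (n := L)).le _)
    rw [← pow_mul, Nat.pow_le_pow_iff_right one_lt_two] at h5
    refine (c1.trans h5).trans ?_
    rw [← mul_assoc, ← mul_assoc]
    exact Nat.mul_le_mul_left _ c2
  refine ⟨O.preimage Units.val Units.val_injective.injOn,
    fun β hβ => (hO β).1 (Finset.mem_preimage.1 hβ), ?_⟩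
  rw [Finset.card_preimage, Finset.filter_true_of_mem fun β hβ =>
    ⟨Units.mk0 β (hr β ((hO β).1 hβ).1).1, rfl⟩,
    ← Finset.card_image_of_injective Z Units.val_injective,
    Finset.card_eq_sum_card_image (fun β : ℂ => minpoly ℤ β)]
  refine (Finset.sum_le_sum (g := fun c => L * p * J * (O.filter fun β => minpoly ℤ β = c).card)
    fun c hc => ?_).trans ?_
  · obtain ⟨α, hα, rfl⟩ := Finset.mem_image.1 hc
    exact cls α hα
  · rw [← Finset.mul_sum, Finset.sum_card_fiberwise_eq_card_filter]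
    exact Nat.mul_le_mul_left _ (Finset.card_filter_le _ _)

end Pool.Agent.P.MP_aef18a_nt.OW
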