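import Pool.Agent.P.MP_aef18a_nt.OW.Iface

namespace Pool.Agent.P.MP_aef18a_nt.OW

open Polynomial Matrix LaurentPolynomial

namespace Nux

lemma coeff_rv (g : ℤ[X]) (i : ℕ) :
    PowerSeries.coeff i (rv g) = (g.leadingCoeff : ℂ)⁻¹ * (g.reverse.coeff i : ℤ) := by
  rw [rv, PowerSeries.coeff_C_mul, Polynomial.coeff_coe, coeff_map]
  rfl

lemma esymm_int (M : Multiset ℂ) (hM : ∀ β ∈ M, IsIntegral ℤ β) (i : ℕ) :
    IsIntegral ℤ (M.esymm i) := by
  refine (integralClosure ℤ ℂ).multiset_sum_mem fun x hx => ?_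
  obtain ⟨T, hT, rfl⟩ := Multiset.mem_map.1 hx
  exact (integralClosure ℤ ℂ).multiset_prod_mem fun β hβ =>
    hM β (Multiset.mem_of_le (Multiset.mem_powersetCard.1 hT).1 hβ)

lemma rv_int {g : ℤ[X]} (hg : g ≠ 0) {γ : ℂ} (h : ∀ β ∈ g.aroots ℂ, IsIntegral ℤ (γ * β))
    (i : ℕ) : IsIntegral ℤ (γ ^ i * PowerSeries.coeff i (rv g)) := by
  rw [coeff_rv, coeff_reverse]
  rcases le_or_gt i g.natDegree with hi | hi
  · have hl : (g.leadingCoeff : ℂ) ≠ 0 := by exact_mod_cast leadingCoeff_ne_zero.2 hg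
    have e := congrArg (fun p : ℂ[X] => p.coeff (g.natDegree - i)) (map_eq_prod g)
    simp only [coeff_map, coeff_C_mul, eq_intCast] at e
    rw [Multiset.prod_X_sub_C_coeff _ (by rw [card_aroots]; omega), card_aroots,
      Nat.sub_sub_self hi] at e
    rw [revAt_le hi, e, inv_mul_cancel_left₀ hl, mul_left_comm, ← smul_eq_mul (γ ^ i),
      Multiset.pow_smul_esymm]
    refine (isIntegral_one.neg.pow i).mul (esymm_int _ (fun x hx => ?_) i)
    obtain ⟨β, hβ, rfl⟩ := Multiset.mem_map.1 hx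
    exact h β hβ
  · rw [revAt_eq_self_of_lt hi, coeff_eq_zero_of_natDegree_lt hi]
    simpa using isIntegral_zero

lemma den_one {q : ℚ} {c : ℤ} {i s : ℕ} (hc : c ≠ 0) (hlt : c.natAbs ^ i < 2 ^ s)
    (h : IsIntegral ℤ ((c : ℚ) ^ i * q ^ s)) : q.den = 1 := by
  obtain ⟨z, hz⟩ := IsIntegrallyClosed.isIntegral_iff.1 h
  have e : z * (q.den : ℤ) ^ s = c ^ i * q.num ^ s := by
    have e1 : (z : ℚ) * (q.den : ℚ) ^ s = (c : ℚ) ^ i * (q.num : ℚ) ^ s := by
      rw [← Rat.mul_den_eq_num, mul_pow, ← mul_assoc, ← hz]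
      rfl
    exact_mod_cast e1
  have e2 := congrArg Int.natAbs e
  simp only [Int.natAbs_mul, Int.natAbs_pow, Int.natAbs_natCast] at e2
  have hd : q.den ^ s ∣ c.natAbs ^ i :=
    (Nat.Coprime.pow s s q.reduced.symm).dvd_of_dvd_mul_right ⟨z.natAbs, by rw [← e2, mul_comm]⟩
  have h1 := Nat.le_of_dvd (pow_pos (Int.natAbs_pos.2 hc) i) hd
  by_contra hn
  have h2 : 2 ≤ q.den := by have := q.den_pos; omega
  have := Nat.pow_le_pow_left h2 s
  omega

lemma coeff_X_der (F : PowerSeries ℂ) {j : ℕ} (hj : 1 ≤ j) :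
    PowerSeries.coeff j (PowerSeries.X * PowerSeries.derivative ℂ F) =
      j * PowerSeries.coeff j F := by
  obtain ⟨k, rfl⟩ : ∃ k, j = k + 1 := ⟨j - 1, by omega⟩
  rw [PowerSeries.coeff_succ_X_mul, PowerSeries.coeff_derivative]
  push_cast
  ring

end Nux

open Nux

theorem p_Nu1 (hL : S_Lac) : S_Nu1 := by
  intro L s S g h hS e
  obtain ⟨hL1, hc, -, -, -, hr⟩ := hL L s S hS
  have hS0 : S ≠ 0 := fun e0 => hS.1 (by rw [e0, Polynomial.coeff_zero])
  have hg : g ≠ 0 := fun e0 => hS0 (by rw [e, e0, zero_mul])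
  have hl : (g.leadingCoeff : ℂ) ≠ 0 := by exact_mod_cast leadingCoeff_ne_zero.2 hg
  have hs : 1 ≤ s := hS.2.2.1
  refine ⟨fun i hi => ?_, fun i => ⟨h.leadingCoeff * g.reverse.coeff i, ?_⟩⟩
  · obtain ⟨γ, hγ⟩ := IsAlgClosed.exists_pow_nat_eq (S.leadingCoeff : ℂ) hs
    have h1 := rv_int hg (γ := γ) (fun β hβ => IsIntegral.of_pow hs (by
      have h0 : aeval β S = 0 := by rw [e, map_mul, (mem_aroots.1 hβ).2, zero_mul]
      have := (hr β h0).2.2 1 s (by omega)
      rwa [pow_one, ← hγ, ← mul_pow] at this)) i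
    set q : ℚ := (g.leadingCoeff : ℚ)⁻¹ * (g.reverse.coeff i : ℤ) with hq
    have hqc : PowerSeries.coeff i (rv g) = (q : ℂ) := by
      rw [coeff_rv, hq]
      push_cast
      rfl
    have h2 : IsIntegral ℤ ((S.leadingCoeff : ℚ) ^ i * q ^ s) := by
      rw [← isIntegral_algebraMap_iff (algebraMap ℚ ℂ).injective]
      have := h1.pow s
      rw [hqc, mul_pow, ← pow_mul, mul_comm i s, pow_mul, hγ] at this
      simpa using this
    have h3 : S.leadingCoeff.natAbs ^ i < 2 ^ s := by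
      rcases Nat.eq_zero_or_pos i with rfl | hi0
      · simpa using (by omega : s ≠ 0)
      · calc _ ≤ L ^ i := Nat.pow_le_pow_left hc i
          _ < (2 ^ L) ^ i := Nat.pow_lt_pow_left Nat.lt_two_pow_self hi0.ne'
          _ ≤ 2 ^ s := by
            rw [← pow_mul, mul_comm]
            exact Nat.pow_le_pow_right two_pos hi
    have h4 := den_one (leadingCoeff_ne_zero.2 hS0) h3 h2
    refine ⟨q.num, ?_⟩
    rw [hqc, ← Rat.coe_int_num_of_den_eq_one h4]
    simp
  · rw [coeff_rv, e, leadingCoeff_mul]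
    push_cast
    field_simp

theorem p_Nu2 : S_Nu2 := by
  intro V y c s J j hs h0 hz hc hNS hj hjJ
  choose z hzc using hc
  set U : PowerSeries ℂ := 1 - V with hU
  set P : PowerSeries ℂ := PowerSeries.mk (fun j => if j = 0 then 0 else y j) with hP
  have hUs : PowerSeries.X ^ s ∣ U := PowerSeries.X_pow_dvd_iff.2 fun m hm => by
    rw [hU, map_sub, PowerSeries.coeff_one]
    split_ifs with e
    · rw [e, h0, sub_self]
    · rw [hz m (by omega) hm, sub_self]
  have hPX : PowerSeries.X ∣ P := PowerSeries.X_dvd_iff.2 (by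
    rw [← PowerSeries.coeff_zero_eq_constantCoeff_apply, hP, PowerSeries.coeff_mk, if_pos rfl])
  have hlast : PowerSeries.coeff j (U ^ J * P) = 0 := by
    have : PowerSeries.X ^ (s * J + 1) ∣ U ^ J * P := by
      rw [pow_succ, pow_mul]
      exact mul_dvd_mul (pow_dvd_pow_of_dvd hUs J) hPX
    exact PowerSeries.X_pow_dvd_iff.1 this j (by rw [mul_comm]; omega)
  have hVP : (1 - U) * P = PowerSeries.X * PowerSeries.derivative ℂ U := by
    rw [hU, sub_sub_cancel, map_sub, Derivation.map_one_eq_zero, zero_sub, mul_neg]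
    exact hNS
  have hdec : P = ∑ i ∈ Finset.range J, PowerSeries.X * (U ^ i * PowerSeries.derivative ℂ U) +
      U ^ J * P := by
    rw [← Finset.mul_sum, ← Finset.sum_mul, mul_left_comm, ← hVP, ← mul_assoc, mul_comm _ (1 - U),
      mul_neg_geom_sum]
    ring
  have hy : y j = ∑ i ∈ Finset.range J,
      PowerSeries.coeff j (PowerSeries.X * (U ^ i * PowerSeries.derivative ℂ U)) := by
    have := congrArg (PowerSeries.coeff j) hdec
    rwa [map_add, hlast, add_zero, map_sum, hP, PowerSeries.coeff_mk, if_neg (by omega)] at this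
  have hcU : PowerSeries.C (c : ℂ) * U =
      PowerSeries.map (Int.castRingHom ℂ) (PowerSeries.C c - PowerSeries.mk z) := by
    ext n
    rw [hU, mul_sub, mul_one, map_sub, PowerSeries.coeff_C_mul, hzc, PowerSeries.coeff_map, map_sub,
      PowerSeries.coeff_mk, PowerSeries.coeff_C, PowerSeries.coeff_C]
    split_ifs <;> simp
  generalize PowerSeries.C c - PowerSeries.mk z = U0 at hcU
  rw [hy]
  refine Finset.sum_induction _ (fun a => ∃ z : ℤ, (c : ℂ) ^ J * J.factorial * a = j * z) ?_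
    ⟨0, by simp⟩ fun i hi => ?_
  · rintro a b ⟨z1, h1⟩ ⟨z2, h2⟩
    exact ⟨z1 + z2, by rw [mul_add, h1, h2]; push_cast; ring⟩
  · have hiJ := Finset.mem_range.1 hi
    obtain ⟨m, hm⟩ := Nat.dvd_factorial (Nat.succ_pos i) hiJ
    obtain ⟨k, rfl⟩ : ∃ k, J = k + (i + 1) := ⟨J - (i + 1), by omega⟩
    have h1 := coeff_X_der (U ^ (i + 1)) hj
    rw [Derivation.leibniz_pow, Nat.add_sub_cancel, smul_eq_mul, mul_smul_comm, map_nsmul,
      nsmul_eq_mul] at h1
    have h2 := congrArg (fun F => PowerSeries.coeff j (F ^ (i + 1))) hcU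
    simp only [mul_pow, ← map_pow, PowerSeries.coeff_C_mul, PowerSeries.coeff_map] at h2
    rw [eq_intCast] at h2
    refine ⟨c ^ k * m * PowerSeries.coeff j (U0 ^ (i + 1)), ?_⟩
    rw [hm]
    push_cast at h1 ⊢
    rw [← h2]
    linear_combination (c : ℂ) ^ (k + (i + 1)) * m * h1

end Pool.Agent.P.MP_aef18a_nt.OW
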