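import Pool.Agent.P.MP_aef18a_nt.OW.Iface

namespace Pool.Agent.P.MP_aef18a_nt.OW

open Polynomial Matrix LaurentPolynomial

namespace Outx

variable {k : ℕ}

lemma consts (F : LQ ℤ k) :
    ∃ D p : ℕ, Wb D F ∧ p.Prime ∧ 4 * D ^ 2 < p ∧ 2 * l1 F < p := by
  obtain ⟨De, -, h⟩ := exists_bx F
  obtain ⟨p, h1, h2⟩ := Nat.exists_infinite_primes (4 * (2 * De) ^ 2 + 2 * l1 F + 1)
  exact ⟨2 * De, p, h.wb, h2, by omega, by omega⟩

lemma coord_le {F : LQ ℤ k} {a : Fin k → ℤ} {J s : ℕ} (h : Gp F a J s) (i : Fin k) :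
    |a i| ≤ (J * s : ℕ) := (le_nu a i).trans (by exact_mod_cast h.2.2.1)

lemma gap_le {F : LQ ℤ k} {a u : Fin k → ℤ} {J s : ℕ} (h : Gp F a J s)
    (hu : u ∈ F.coeff.support) (h0 : u ≠ 0) : (s : ℤ) ≤ (0 - u) ⬝ᵥ a := by
  have := h.2.1 u hu h0
  rw [zero_sub, neg_dotProduct]
  omega

lemma root_iff {S : ℤ[X]} {f : ℂˣ → ℂ} {N : ℕ}
    (h : ∀ α : ℂˣ, aeval (α : ℂ) S = (α : ℂ) ^ N * f α) (α : ℂˣ) :
    aeval (α : ℂ) S = 0 ↔ f α = 0 := by
  rw [h, mul_eq_zero, or_iff_right (pow_ne_zero _ α.ne_zero)]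

lemma card_le {h : ℂ[X]} (h0 : h ≠ 0) {O : Finset ℂˣ} (hO : ∀ α ∈ O, aeval (α : ℂ) h = 0) :
    O.card ≤ h.natDegree := by
  rw [← Finset.card_map ⟨Units.val, Units.val_injective⟩]
  refine card_le_degree_of_subset_roots fun z hz => ?_
  obtain ⟨α, hα, rfl⟩ := Finset.mem_map.1 hz
  exact (mem_roots h0).2 (hO α hα)

lemma half {s B W z₀ z₁ z : ℕ} (hB : 0 < B) (h4 : 4 * W ≤ B) (e : z₁ + z = z₀)
    (h1 : s * B ≤ z₀ * B + W * s) (h2 : z₁ * B ≤ W * s) : s ≤ 2 * z := by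
  subst e
  refine Nat.le_of_mul_le_mul_right ?_ hB
  have := Nat.mul_le_mul_right s h4
  linarith

lemma contra {s B W M z o : ℕ} (hs : 1 ≤ s) (hB : 4 * W * M < B) (h1 : s ≤ 2 * z)
    (h2 : z ≤ M * o) (h3 : o * B ≤ W * s) : False := by
  have a1 := Nat.mul_le_mul_right B (h1.trans (Nat.mul_le_mul_left 2 h2))
  have a2 := Nat.mul_le_mul_left (2 * M) h3
  have a3 := Nat.mul_lt_mul_of_pos_right hB hs
  have a4 := Nat.zero_le (W * M * s)
  linarith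

end Outx

open Outx in
theorem p_Out (hK : S_Link) (hA : S_CntA) (hB : S_CntB) (hC : S_Cop) (hE : S_Ebz) (hM : S_Bdm) :
    S_Out := by
  classical
  intro k F J hF h1
  obtain ⟨D, p, hD, hp, p1, p2⟩ := consts F
  obtain ⟨u, hu, u0⟩ := hF.nc.exists_mem 0
  obtain ⟨W, hW⟩ : ∃ W, W = 4 * k ^ 3 * (p * D) ^ 2 * J := ⟨_, rfl⟩
  obtain ⟨B, hB'⟩ : ∃ B, B = 2 * k * (p * D) + D + 1 + 4 * W + 4 * W * (l1 F * p * J) :=
    ⟨_, rfl⟩
  refine ⟨B, fun a s hR hG θ hθ => ?_⟩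
  have B0 : 0 < B := by omega
  have d1 : D ≤ p * D := Nat.le_mul_of_pos_left D hp.pos
  have b1 : 2 * k * (p * D) ≤ B := by omega
  have b2 : 2 * k * D ≤ B := (Nat.mul_le_mul_left _ d1).trans b1
  have w1 : 4 * k ^ 3 * (p * D) ^ 2 * (J * s) = W * s := by rw [hW]; ring
  have w2 : 4 * k ^ 3 * D ^ 2 * (J * s) ≤ W * s := by rw [← w1]; gcongr
  have hDQ : Wb D (toQ F : LP k) := hD.subset (support_toQ F).subset
  have hnc : NonCol (toQ F : LP k) := hF.nc.of_support (support_toQ F).superset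
  obtain ⟨l1', l2, l3, -, -, -, l4, -⟩ :=
    hK k F a J s hF.c0 hG ((hR.mono (by omega)).injOn hD)
  have hr := root_iff l4
  obtain ⟨Z₀, z1, z2⟩ := hB k D B (J * s) (toQ F) a hF.irr hDQ b2 B0 (coord_le hG) hR 0
    (by rw [support_toQ]; exact Finsupp.mem_support_iff.2 hF.c0) u (by rwa [support_toQ])
  have z3 : s * B ≤ Z₀.card * B + W * s := by
    have e1 := mul_le_mul_of_nonneg_right (gap_le hG hu u0) (Int.natCast_nonneg B)
    have e2 : s * B ≤ Z₀.card * B + 4 * k ^ 3 * D ^ 2 * (J * s) := by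
      exact_mod_cast e1.trans z2
    omega
  have z4 := hA k D B (J * s) p (toQ F) (toQ F) a hF.irr hnc hF.irr.ne_zero dvd_rfl hDQ hp p1 b1
    B0 (coord_le hG) hR (Z₀.filter fun α => evc a (α ^ p) (toQ F) = 0) fun α hα =>
      ⟨z1 α (Finset.mem_filter.1 hα).1, (Finset.mem_filter.1 hα).2⟩
  rw [w1] at z4
  have z5 := half B0 (by omega) (Finset.card_filter_add_card_filter_not
    (s := Z₀) fun α => evc a (α ^ p) (toQ F) = 0) z3 z4
  obtain ⟨O, o1, o2⟩ := hM (l1 F) s J p (SS F a) l1' l2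
    (l3 ▸ IsUnit.of_pow_eq_one h1 two_ne_zero) hp p2.le
    (Z₀.filter fun α => ¬ evc a (α ^ p) (toQ F) = 0) fun α hα =>
      ⟨(hr α).2 (z1 α (Finset.mem_filter.1 hα).1), fun e => (Finset.mem_filter.1 hα).2
        ((hr (α ^ p)).1 (by rwa [Units.val_pow_eq_pow_val]))⟩
  have o3 : ∀ α ∈ O, evc a α (toC F) = 0 := fun α hα => by
    rw [← toC_toQ, evc_toC]
    exact (hr α).1 (o1 α hα).1
  by_contra hn
  simp only [not_exists, not_and, not_not] at hn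
  obtain ⟨c1, c2⟩ := hC k (toQ F) θ hF.irr (by rw [toQ_coeff]; exact_mod_cast hF.c0)
    (by rwa [support_toQ])
  rw [toC_toQ] at c1 c2
  have hDC : Wb D (toC F) := hD.subset (support_toC F).subset
  obtain ⟨h, h0, h2, h3⟩ := hE ℂ k D B (J * s) (toC F) _ a (toC_ne_zero hF.nc.ne_zero) c1 c2 hDC
    (hDC.subset (support_dv _ _)) b2 B0 (coord_le hG) hR
  have o4 := card_le h0 fun α hα =>
    aeval_eq_zero_of_mem h3 (o3 α hα) (hn α (o1 α hα).2 (o3 α hα))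
  exact contra hG.1 (by omega) z5 o2 ((Nat.mul_le_mul_right B o4).trans (h2.trans w2))

open Outx in
theorem p_Levels (hK : S_Link) (hL : S_Lac) (hM : S_Mann) (hC : S_CycP) (hA : S_CntA)
    (hN : S_NtrN) : S_Levels := by
  intro k F J hF
  obtain ⟨D, p, hD, hp, p1, p2⟩ := consts F
  obtain ⟨u, hu, u0⟩ := hF.nc.exists_mem 0
  obtain ⟨W, hW⟩ : ∃ W, W = 4 * k ^ 3 * (p * D) ^ 2 * J := ⟨_, rfl⟩
  obtain ⟨B, hB'⟩ : ∃ B, B = 2 * k * (p * D) + D + 1 + 2 * W + l1 F * (l1 F).factorial * W :=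
    ⟨_, rfl⟩
  refine ⟨B, fun a s hR hG => ?_⟩
  have B0 : 0 < B := by omega
  have b1 : 2 * k * (p * D) ≤ B := by omega
  have w1 : 4 * k ^ 3 * (p * D) ^ 2 * (J * s) = W * s := by rw [hW]; ring
  have hDQ : Wb D (toQ F : LP k) := hD.subset (support_toQ F).subset
  have hnc : NonCol (toQ F : LP k) := hF.nc.of_support (support_toQ F).superset
  have hi := (hR.mono (by omega : D ≤ B)).injOn hD
  obtain ⟨l1', -, -, -, l3, -, l4, -⟩ := hK k F a J s hF.c0 hG hi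
  have hg := gap_le hG hu u0
  have hs := hG.1
  refine ⟨hi, ?_, fun l hl hd => ?_, ?_⟩
  · have := (l3 u hu).1
    rw [zero_sub, neg_dotProduct] at hg
    omega
  · obtain ⟨Z, z1, z2⟩ := hM (SS F a) (l1 F) l (hL _ _ _ l1').2.2.1 hl hd
    have z3 := hA k D B (J * s) p (toQ F) (toQ F) a hF.irr hnc hF.irr.ne_zero dvd_rfl hDQ hp p1 b1
      B0 (coord_le hG) hR Z fun α hα => by
        have e := (root_iff l4 α).1 (z2 α hα).2
        exact ⟨e, hC k p F a α hp (by omega) (fun h => h ⟨l, hl, (z2 α hα).1⟩) e⟩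
    rw [w1] at z3
    refine Nat.le_of_mul_le_mul_right ?_ B0
    calc l * l1 F * B ≤ (l1 F).factorial * Z.card * l1 F * B := by gcongr
      _ = l1 F * (l1 F).factorial * (Z.card * B) := by ring
      _ ≤ l1 F * (l1 F).factorial * (W * s) := by gcongr
      _ = s * (l1 F * (l1 F).factorial * W) := by ring
      _ ≤ s * B := Nat.mul_le_mul_left s (by omega)
  · refine hN k D B (J * s) p (toQ F) F a hF.irr hnc hF.nc.ne_zero dvd_rfl hD hp p1 (by omega) b1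
      B0 (coord_le hG) hR 0 (by rw [support_toQ]; exact Finsupp.mem_support_iff.2 hF.c0) u
      (by rwa [support_toQ]) ?_
    refine lt_of_lt_of_le ?_ (mul_le_mul_of_nonneg_right hg (Int.natCast_nonneg B))
    have e : 8 * k ^ 3 * (p * D) ^ 2 * (J * s) < s * B := by
      have := Nat.mul_lt_mul_of_pos_left (show 2 * W < B by omega) hs
      linarith
    exact_mod_cast e

end Pool.Agent.P.MP_aef18a_nt.OW
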