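import Pool.Agent.P.MP_aef18a_nt.OW.Iface

namespace Pool.Agent.P.MP_aef18a_nt.OW

open Polynomial Matrix LaurentPolynomial

namespace Psix

variable {k : ℕ}

lemma bd_pow {𝕜 : Type} [CommRing 𝕜] (ω : (Fin k → ℤ) →+ ℝ) {m : ℝ} {A : LQ 𝕜 k}
    (h : Bd ω m A) (j : ℕ) : Bd ω (j * m) (A ^ j) := by
  induction j with
  | zero =>
    intro z hz
    rw [pow_zero, AddMonoidAlgebra.one_def] at hz
    simp [mem_single hz]
  | succ j ih =>
    rw [pow_succ, Nat.cast_succ, add_one_mul]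
    exact bd_mul ω ih h

/-- the nonconstant part -/
noncomputable def Z (F : LQ ℤ k) : LQ ℤ k :=
  -(F.coeff 0 • (F - AddMonoidAlgebra.single 0 (F.coeff 0)))

lemma mem_Z {F : LQ ℤ k} {u : Fin k → ℤ} (h : u ∈ (Z F).coeff.support) :
    u ∈ F.coeff.support ∧ u ≠ 0 := by
  rw [Finsupp.mem_support_iff] at h ⊢
  by_cases e : u = 0
  · simp [Z, e, -zsmul_eq_mul] at h
  · refine ⟨fun e' => h ?_, e⟩
    simp [Z, e', e, -zsmul_eq_mul]

lemma mul_tinv {F : LQ ℤ k} (h : F.coeff 0 ^ 2 = 1) (J : ℕ) :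
    F * tinv F J + Z F ^ (J + 1) = 1 := by
  have e : F.coeff 0 • F = 1 - Z F := by
    rw [Z, smul_sub, AddMonoidAlgebra.smul_single, smul_eq_mul, ← sq, h,
      ← AddMonoidAlgebra.one_def]
    ring
  rw [tinv, mul_smul_comm, ← smul_mul_assoc, e]
  exact eq_sub_iff_add_eq.1 (mul_neg_geom_sum (Z F) (J + 1))

section

variable (ω : (Fin k → ℤ) →+ ℝ) {m : ℝ} {F : LQ ℤ k}

lemma bd_dv (h : ∀ u ∈ F.coeff.support, u ≠ 0 → ω u ≤ m) (θ : Fin k → ℂ) :
    Bd ω m (dv θ (toC F)) := fun u hu =>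
  h u (support_toC F ▸ support_dv θ _ hu) fun e => Finsupp.mem_support_iff.1 hu (by
    simp [dv_coeff, e])

lemma bd_Z (h : ∀ u ∈ F.coeff.support, u ≠ 0 → ω u ≤ m) (j : ℕ) : Bd ω (j * m) (Z F ^ j) :=
  bd_pow ω (fun u hu => h u (mem_Z hu).1 (mem_Z hu).2) j

lemma bd_tinv (h : ∀ u ∈ F.coeff.support, u ≠ 0 → ω u ≤ m) (hm : 0 ≤ m) (J : ℕ) :
    Bd ω (J * m) (toC (tinv F J)) := by
  intro u hu
  rw [support_toC, tinv, AddMonoidAlgebra.coeff_smul] at hu
  refine Finset.sum_induction (fun j => Z F ^ j) (Bd ω (J * m)) (fun _ _ => bd_add)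
    (fun u hu => by simp at hu) (fun j hj u hu => (bd_Z ω h j u hu).trans ?_) u
    (Finsupp.support_smul hu)
  exact mul_le_mul_of_nonneg_right (Nat.cast_le.2 (Finset.mem_range_succ_iff.1 hj)) hm

lemma bd_psi (h : ∀ u ∈ F.coeff.support, u ≠ 0 → ω u ≤ m) (hm : 0 ≤ m) (θ : Fin k → ℝ) (J : ℕ) :
    Bd ω ((J + 2) * m) (Psi F θ J) := fun u hu =>
  (bd_mul ω (bd_pow ω (bd_dv ω h _) 2) (bd_tinv ω h hm J) u hu).trans_eq (by push_cast; ring)

end

lemma ng {𝕜 : Type} [CommRing 𝕜] {a : Fin k → ℤ} {A : LQ 𝕜 k} {c : ℝ}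
    (h : Bd (dotR a) (c * 0) A) : Ng a A := fun u hu => by
  have := h u hu
  rw [mul_zero, dotR_apply] at this
  exact_mod_cast this

end Psix

open Psix in
theorem p_Psi : S_Psi := by
  intro k F J h0
  refine ⟨fun θ a s ψ _ hs hψ m hm => ?_, fun θ ω h => by simpa using bd_psi ω h le_rfl θ J,
    fun θ Δ h u hu i => ?_, fun w => ?_, fun θ t w => ?_⟩
  · have g0 : ∀ u ∈ F.coeff.support, u ≠ 0 → dotR a u ≤ 0 := fun u hu e => by
      have : u ⬝ᵥ a ≤ 0 := by have := hs u hu e; omega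
      rw [dotR_apply]
      exact_mod_cast this
    have g1 : ∀ u ∈ F.coeff.support, u ≠ 0 → dotR a u ≤ -s := fun u hu e => by
      have : u ⬝ᵥ a ≤ -s := by have := hs u hu e; omega
      rw [dotR_apply]
      exact_mod_cast this
    have nF : Ng a (toC F) := (ng_of_gap hs).subset (support_toC F).subset
    have nD : Ng a (dv (fun i => (θ i : ℂ)) (toC F)) := nF.subset (support_dv _ _)
    have nT : Ng a (toC (tinv F J)) := ng (bd_tinv _ g0 le_rfl J)
    have nZ : Ng a (toC (Z F ^ (J + 1))) := (ng (bd_Z _ g0 _)).subset (support_toC _).subset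
    have e1 := congrArg (fun A => pl a (toC A)) (mul_tinv h0 J)
    simp only [map_add, map_mul, map_one] at e1
    rw [pl_add (nF.mul nT) nZ, pl_mul nF nT, pl_one] at e1
    have e2 : (X : ℂ[X]) ^ ((J + 1) * s) ∣ pl a (toC (Z F ^ (J + 1))) := by
      refine X_pow_dvd_iff.2 fun n hn => ?_
      rw [pl_coeff_ng nZ]
      refine Finset.sum_eq_zero fun u hu => ?_
      obtain ⟨b1, b2⟩ := Finset.mem_filter.1 hu
      have b3 := bd_Z _ g1 (J + 1) u (support_toC (Z F ^ (J + 1)) ▸ b1)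
      rw [dotR_apply] at b3
      have b4 : u ⬝ᵥ a ≤ ((J + 1 : ℕ) : ℤ) * -s := by exact_mod_cast b3
      have b5 : (n : ℤ) < ((J + 1 : ℕ) : ℤ) * s := by exact_mod_cast hn
      linarith
    obtain ⟨P, e2⟩ := e2
    have e3 : ψ - (pl a (Psi F θ J) : PowerSeries ℂ) =
        PowerSeries.X ^ ((J + 1) * s) * ((P : PowerSeries ℂ) * ψ) := by
      have := congrArg (fun p : ℂ[X] => (p : PowerSeries ℂ)) e1
      simp only [e2, Polynomial.coe_add, Polynomial.coe_mul, Polynomial.coe_pow, coe_X,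
        Polynomial.coe_one] at this
      rw [Psi, pl_mul (nD.pow 2) nT, pl_pow nD, Polynomial.coe_mul, Polynomial.coe_pow, ← hψ]
      linear_combination -ψ * this
    have e4 := PowerSeries.X_pow_dvd_iff.1 ⟨_, e3⟩ m hm
    rw [map_sub, sub_eq_zero, coeff_coe] at e4
    rw [e4, pl_coeff_ng (ng (bd_psi _ g0 le_rfl θ J))]
  · have b1 := bd_psi (crd i) (m := Δ) (fun u hu _ => by
      rw [crd_apply]; exact_mod_cast (abs_le.1 (h u hu i)).2) Δ.cast_nonneg θ J u hu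
    have b2 := bd_psi (-crd i) (m := Δ) (fun u hu _ => by
      rw [AddMonoidHom.neg_apply, crd_apply, neg_le]
      exact_mod_cast (abs_le.1 (h u hu i)).1) Δ.cast_nonneg θ J u hu
    rw [AddMonoidHom.neg_apply, neg_le] at b2
    rw [crd_apply] at b1 b2
    exact abs_le.2 ⟨by exact_mod_cast b2, by exact_mod_cast b1⟩
  · simp only [Psi, dv, sq, Finset.sum_mul, Finset.mul_sum, smul_mul_assoc, mul_smul_comm,
      AddMonoidAlgebra.coeff_sum, Finsupp.coe_finsetSum, Finset.sum_apply,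
      AddMonoidAlgebra.coeff_smul, Finsupp.smul_apply, smul_eq_mul]
    fun_prop
  · have : dv (fun i => ((t • θ) i : ℂ)) (toC F) = (t : ℂ) • dv (fun i => (θ i : ℂ)) (toC F) := by
      simp only [dv, Finset.smul_sum, smul_smul, Pi.smul_apply, smul_eq_mul, Complex.ofReal_mul]
    rw [Psi, Psi, this, _root_.smul_pow, smul_mul_assoc, AddMonoidAlgebra.coeff_smul, Finsupp.smul_apply,
      smul_eq_mul]

end Pool.Agent.P.MP_aef18a_nt.OW
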