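import Pool.Agent.P.MP_aef18a_nt.OW.Iface

namespace Pool.Agent.P.MP_aef18a_nt.OW

open Polynomial Matrix LaurentPolynomial

namespace Q0x

theorem no_const (f : PowerSeries ℤ) (p : ℕ) (hp : p.Prime)
    (h0 : (p : ℤ) ∣ PowerSeries.constantCoeff f) (hi : ∃ i, ¬ (p : ℤ) ∣ PowerSeries.coeff i f) :
    ∀ (N : ℕ) (n : ℤ) (Z : PowerSeries ℤ), n.natAbs = N → n ≠ 0 → f * Z ≠ PowerSeries.C n := by
  haveI := Fact.mk hp
  intro N
  induction N using Nat.strong_induction_on with
  | _ N ih =>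
    intro n Z hN hn e
    have h1 : (p : ℤ) ∣ n := by
      have := congrArg PowerSeries.constantCoeff e
      rw [map_mul, PowerSeries.constantCoeff_C] at this
      exact this ▸ h0.mul_right _
    have h2 := congrArg (PowerSeries.map (Int.castRingHom (ZMod p))) e
    rw [map_mul, PowerSeries.map_C, eq_intCast, (ZMod.intCast_zmod_eq_zero_iff_dvd n p).2 h1,
      map_zero, mul_eq_zero] at h2
    have h3 : ∀ (W : PowerSeries ℤ), PowerSeries.map (Int.castRingHom (ZMod p)) W = 0 →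
        ∀ i, (p : ℤ) ∣ PowerSeries.coeff i W := fun W hW i => by
      have := congrArg (PowerSeries.coeff i) hW
      rw [PowerSeries.coeff_map, eq_intCast, map_zero] at this
      exact (ZMod.intCast_zmod_eq_zero_iff_dvd _ p).1 this
    rcases h2 with h2 | h2
    · obtain ⟨i, hi⟩ := hi
      exact hi (h3 f h2 i)
    · choose g hg using h3 Z h2
      obtain ⟨n', rfl⟩ := h1
      have hZ : Z = PowerSeries.C (p : ℤ) * PowerSeries.mk g := by
        ext i
        rw [PowerSeries.coeff_C_mul, PowerSeries.coeff_mk, hg]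
      have hp0 : (PowerSeries.C (p : ℤ) : PowerSeries ℤ) ≠ 0 := fun h => by
        have := congrArg PowerSeries.constantCoeff h
        rw [PowerSeries.constantCoeff_C, map_zero] at this
        exact hp.ne_zero (by exact_mod_cast this)
      have hn' : n' ≠ 0 := right_ne_zero_of_mul hn
      refine ih n'.natAbs ?_ n' (PowerSeries.mk g) rfl hn' (mul_left_cancel₀ hp0 ?_)
      · rw [← hN, Int.natAbs_mul, Int.natAbs_natCast]
        exact lt_mul_left (Int.natAbs_pos.2 hn') hp.one_lt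
      · rw [← map_mul, ← e, hZ]
        ring

theorem cxd (P : ℤ[X]) (i : ℕ) : (X * derivative P).coeff i = i * P.coeff i := by
  cases i with
  | zero => simp
  | succ i => rw [coeff_X_mul, coeff_derivative]; push_cast; ring

theorem der_rev (S : ℤ[X]) : X * derivative S.reverse =
    Polynomial.C (S.natDegree : ℤ) * S.reverse - reflect S.natDegree (X * derivative S) := by
  ext i
  rw [cxd, coeff_sub, coeff_C_mul, coeff_reflect, cxd, coeff_reverse]
  by_cases h : i ≤ S.natDegree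
  · rw [revAt_le h, Nat.cast_sub h]
    ring
  · rw [revAt_eq_self_of_lt (not_le.1 h), coeff_eq_zero_of_natDegree_lt (not_le.1 h)]
    ring

theorem tors {S : ℤ[X]} (h0 : S ≠ 0) (hs : Simple S) {z : ℂ} (h1 : aeval z S.reverse = 0)
    (h2 : aeval z (derivative S.reverse) = 0) : ∃ m, 0 < m ∧ z ^ m = 1 := by
  have hz : z ≠ 0 := by
    rintro rfl
    rw [aeval_def, eval₂_at_zero, coeff_zero_reverse, eq_intCast, Int.cast_eq_zero,
      leadingCoeff_eq_zero] at h1
    exact h0 h1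
  by_contra hn
  letI : Invertible (z⁻¹) := invertibleOfNonzero (inv_ne_zero hz)
  have e : ⅟(z⁻¹) = z := by rw [invOf_eq_inv, inv_inv]
  have a1 := eval₂_reflect_mul_pow (algebraMap ℤ ℂ) z⁻¹ S.natDegree S le_rfl
  have hd : (X * derivative S).natDegree ≤ S.natDegree :=
    natDegree_le_iff_coeff_eq_zero.2 fun i hi => by
      rw [cxd, coeff_eq_zero_of_natDegree_lt hi, mul_zero]
  have a2 := eval₂_reflect_mul_pow (algebraMap ℤ ℂ) z⁻¹ S.natDegree _ hd
  have a3 := congrArg (aeval z) (der_rev S)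
  rw [map_mul, map_sub, map_mul, h1, h2, mul_zero, mul_zero, zero_sub, eq_comm, neg_eq_zero,
    aeval_def] at a3
  rw [e, a3, zero_mul, ← aeval_def, map_mul, aeval_X, eq_comm, mul_eq_zero] at a2
  rw [aeval_def, reverse] at h1
  rw [e, h1, zero_mul, ← aeval_def, eq_comm] at a1
  refine hs (Units.mk0 z⁻¹ (inv_ne_zero hz)) ?_ a1 (a2.resolve_left (inv_ne_zero hz))
  rintro ⟨m, hm, hm1⟩
  refine hn ⟨m, hm, ?_⟩
  rwa [Units.val_mk0, inv_pow, inv_eq_one] at hm1

theorem common (s : Multiset ℂ) (h : ∀ z ∈ s, ∃ m, 0 < m ∧ z ^ m = 1) :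
    ∃ m, 0 < m ∧ ∀ z ∈ s, z ^ m = 1 := by
  induction s using Multiset.induction_on with
  | empty => exact ⟨1, one_pos, fun z hz => absurd hz (Multiset.notMem_zero z)⟩
  | cons a s ih =>
    obtain ⟨m, hm, h1⟩ := ih fun z hz => h z (Multiset.mem_cons_of_mem hz)
    obtain ⟨n, hn, h2⟩ := h a (Multiset.mem_cons_self a s)
    refine ⟨m * n, Nat.mul_pos hm hn, fun z hz => ?_⟩
    rcases Multiset.mem_cons.1 hz with rfl | hz
    · rw [mul_comm, pow_mul, h2, one_pow]
    · rw [pow_mul, h1 z hz, one_pow]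

theorem dvd_cyc (G : ℚ[X]) (hG : G ≠ 0) (h : ∀ z : ℂ, aeval z G = 0 → ∃ m, 0 < m ∧ z ^ m = 1) :
    ∃ m j : ℕ, 0 < m ∧ G ∣ (1 - X ^ m) ^ j := by
  have hG' : G.map (algebraMap ℚ ℂ) ≠ 0 := Polynomial.map_ne_zero hG
  obtain ⟨m, hm, h1⟩ := common (G.map (algebraMap ℚ ℂ)).roots fun z hz => h z (by
    have := (mem_roots hG').1 hz
    rwa [IsRoot.def, eval_map_algebraMap] at this)
  refine ⟨m, (G.map (algebraMap ℚ ℂ)).roots.card, hm, (map_dvd_map' (algebraMap ℚ ℂ)).1 ?_⟩
  have e := (IsAlgClosed.splits (G.map (algebraMap ℚ ℂ))).eq_prod_roots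
  have hu : IsUnit (Polynomial.C (G.map (algebraMap ℚ ℂ)).leadingCoeff) :=
    isUnit_C.2 (leadingCoeff_ne_zero.2 hG').isUnit
  have d := Multiset.prod_dvd_prod_of_dvd (S := (G.map (algebraMap ℚ ℂ)).roots)
    (fun z => X - Polynomial.C z) (fun _ => (1 - X ^ m : ℂ[X])) fun z hz => by
      rw [dvd_iff_isRoot, IsRoot.def, eval_sub, eval_one, eval_pow, eval_X, h1 z hz, sub_self]
  rw [Multiset.map_const', Multiset.prod_replicate] at d
  rw [Polynomial.map_pow, Polynomial.map_sub, Polynomial.map_one, Polynomial.map_pow, map_X]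
  exact (dvd_of_eq e).trans (hu.mul_left_dvd.2 d)

theorem Rt_mono {f : ℤ[X]} {r s₀ K K' : ℕ} {Y : PowerSeries ℤ} (h : K ≤ K')
    (hr : Rt f r s₀ K' Y) : Rt f r s₀ K Y :=
  ⟨hr.1, (pow_dvd_pow _ (Nat.succ_le_succ h)).trans hr.2⟩

end Q0x

open Q0x

theorem p_Q0a : S_Q0a := by
  intro f A B ρ p m j r s₀ Y hp hc hpc hi hρ hm hAB hr hrs e
  obtain ⟨b, rfl⟩ := Nat.exists_eq_succ_of_ne_zero hr.ne'
  obtain ⟨t, rfl⟩ := Nat.exists_eq_add_of_lt hrs
  rw [show b.succ + t + 1 - b.succ = t + 1 by omega] at e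
  have hC : ∀ n : ℤ, n ≠ 0 → (PowerSeries.C n : PowerSeries ℤ) ≠ 0 := fun n hn h => by
    have := congrArg PowerSeries.constantCoeff h
    rw [PowerSeries.constantCoeff_C, map_zero] at this
    exact hn this
  have hf : (f : PowerSeries ℤ) ≠ 0 := by
    rw [Ne, Polynomial.coe_eq_zero_iff]
    rintro rfl
    exact hc rfl
  have hY : Y ^ (b.succ + t + 1) ≠ 0 := by
    rw [e]
    exact mul_ne_zero (hC _ (pow_ne_zero _ hc)) (pow_ne_zero _ hf)
  have d := congrArg (PowerSeries.derivative ℤ) e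
  rw [PowerSeries.derivative_pow, Derivation.leibniz, PowerSeries.derivative_C,
    PowerSeries.derivative_pow, PowerSeries.derivative_coe, smul_zero, add_zero, smul_eq_mul,
    Nat.add_sub_cancel, Nat.succ_sub_one] at d
  have k1 : ((b.succ + t + 1 : ℕ) : PowerSeries ℤ) * f * PowerSeries.derivative ℤ Y =
      (b.succ : ℕ) * (derivative f : ℤ[X]) * Y := by
    refine mul_left_cancel₀ hY ?_
    calc Y ^ (b.succ + t + 1) * (((b.succ + t + 1 : ℕ) : PowerSeries ℤ) * f *
          PowerSeries.derivative ℤ Y)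
        = (f * Y) * (((b.succ + t + 1 : ℕ) : PowerSeries ℤ) * Y ^ (b.succ + t) *
          PowerSeries.derivative ℤ Y) := by ring
      _ = _ := by rw [d, e, pow_succ (f : PowerSeries ℤ) b]; ring
  have k2 := congrArg (fun P : ℤ[X] => (P : PowerSeries ℤ)) hAB
  simp only [Polynomial.coe_add, Polynomial.coe_mul, Polynomial.coe_C, Polynomial.coe_pow,
    Polynomial.coe_sub, Polynomial.coe_one, Polynomial.coe_X] at k2
  have hu : IsUnit ((1 - PowerSeries.X ^ m) ^ j : PowerSeries ℤ) := by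
    rw [PowerSeries.isUnit_iff_constantCoeff]
    simp [hm.ne']
  obtain ⟨V, hV⟩ := hu.exists_right_inv
  set Z : PowerSeries ℤ := V * ((b.succ : ℕ) * A * Y +
    ((b.succ + t + 1 : ℕ) : PowerSeries ℤ) * B * PowerSeries.derivative ℤ Y) with hZ
  have k3 : PowerSeries.C (((b.succ : ℕ) : ℤ) * ρ) * Y = f * Z := by
    rw [map_mul, map_natCast, hZ]
    linear_combination (-(V * B)) * k1 - (V * (b.succ : ℕ) * Y) * k2 -
      ((b.succ : ℕ) * PowerSeries.C ρ * Y) * hV
  refine no_const f p hp hpc (by simpa only [Polynomial.coeff_coe] using hi) _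
    ((((b.succ : ℕ) : ℤ) * ρ) ^ (b.succ + t + 1) * f.coeff 0 ^ (t + 1))
    (f ^ t * Z ^ (b.succ + t + 1)) rfl
    (mul_ne_zero (pow_ne_zero _ (mul_ne_zero (by exact_mod_cast hr.ne') hρ)) (pow_ne_zero _ hc))
    (mul_left_cancel₀ (pow_ne_zero b.succ hf) ?_)
  have k4 := congrArg (· ^ (b.succ + t + 1)) k3
  simp only [mul_pow] at k4
  rw [e] at k4
  rw [map_mul, map_pow]
  linear_combination -k4

theorem p_Q0b : S_Q0b := by
  classical
  intro S hS hs
  have h0 : S ≠ 0 := by
    rintro rfl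
    exact hS rfl
  set f := S.reverse.map (algebraMap ℤ ℚ) with hf
  have inj : Function.Injective (algebraMap ℤ ℚ) := FaithfulSMul.algebraMap_injective ℤ ℚ
  have hf0 : f ≠ 0 := (Polynomial.map_ne_zero_iff inj).2 (by rwa [Ne, reverse_eq_zero])
  have hG : EuclideanDomain.gcd f (derivative f) ≠ 0 := fun h =>
    hf0 (EuclideanDomain.gcd_eq_zero_iff.1 h).1
  obtain ⟨m, j, hm, e, he⟩ := dvd_cyc _ hG fun z hz => by
    have a1 := aeval_eq_zero_of_dvd_aeval_eq_zero (EuclideanDomain.gcd_dvd_left f _) hz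
    have a2 := aeval_eq_zero_of_dvd_aeval_eq_zero (EuclideanDomain.gcd_dvd_right f _) hz
    rw [hf, derivative_map] at a2
    rw [hf] at a1
    rw [aeval_map_algebraMap] at a1 a2
    exact tors h0 hs a1 a2
  rw [EuclideanDomain.gcd_eq_gcd_ab] at he
  obtain ⟨u, hu, eu⟩ := IsLocalization.integerNormalization_spec (nonZeroDivisors ℤ)
    (EuclideanDomain.gcdA f (derivative f) * e)
  obtain ⟨v, hv, ev⟩ := IsLocalization.integerNormalization_spec (nonZeroDivisors ℤ)
    (EuclideanDomain.gcdB f (derivative f) * e)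
  generalize IsLocalization.integerNormalization (nonZeroDivisors ℤ)
    (EuclideanDomain.gcdA f (derivative f) * e) = A at eu
  generalize IsLocalization.integerNormalization (nonZeroDivisors ℤ)
    (EuclideanDomain.gcdB f (derivative f) * e) = B at ev
  refine ⟨Polynomial.C v * A, Polynomial.C u * B, u * v, m, j,
    mul_ne_zero (nonZeroDivisors.ne_zero hu) (nonZeroDivisors.ne_zero hv), hm,
    Polynomial.map_injective _ inj ?_⟩
  simp only [Polynomial.map_add, Polynomial.map_mul, Polynomial.map_pow, Polynomial.map_sub,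
    Polynomial.map_one, map_X, eu, ev, ← derivative_map, ← hf, he, eq_intCast, zsmul_eq_mul,
    Polynomial.map_intCast, Int.cast_mul]
  ring

theorem p_Q0 (ha : S_Q0a) (hb : S_Q0b) (h : S_Tr1) : S_Q0 := by
  intro S p R hp hS hl hi hs
  obtain ⟨A, B, ρ, m, j, hρ, hm, hAB⟩ := hb S hS hs
  have h0 : S ≠ 0 := by
    rintro rfl
    exact hS rfl
  have hc : S.reverse.coeff 0 ≠ 0 := by rwa [coeff_zero_reverse, leadingCoeff_ne_zero]
  have key : ∀ r s₀ : ℕ, ∃ T, 0 < r → r < s₀ → ∀ Y, ¬ Rt S.reverse r s₀ T Y := by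
    intro r s₀
    by_contra hn
    push Not at hn
    obtain ⟨hr, hrs, -⟩ := hn 0
    choose Y hY using fun T => (hn T).2.2
    have agree : ∀ T T', T ≤ T' →
        PowerSeries.coeff T (Y T) = PowerSeries.coeff T (Y T') := fun T T' hT => by
      have b1 := hY T
      have b2 := Rt_mono hT (hY T')
      have b3 := map_dvd (PowerSeries.map (Int.castRingHom ℚ)) (dvd_sub b1.2 b2.2)
      rw [sub_sub_sub_cancel_right, map_pow, PowerSeries.map_X, map_sub, map_pow, map_pow] at b3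
      have b4 := h.2 _ _ s₀ (T + 1) (hr.trans hrs)
        (by rw [PowerSeries.coeff_map, PowerSeries.coeff_map, b1.1, b2.1])
        (by rw [PowerSeries.coeff_map, b1.1, eq_intCast]; exact_mod_cast hc) b3
      have b5 := PowerSeries.X_pow_dvd_iff.1 b4 T (Nat.lt_succ_self T)
      rw [map_sub, PowerSeries.coeff_map, PowerSeries.coeff_map, eq_intCast, eq_intCast,
        sub_eq_zero] at b5
      exact_mod_cast b5
    refine ha S.reverse A B ρ p m j r s₀ (PowerSeries.mk fun n => PowerSeries.coeff n (Y n)) hp hc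
      (by rwa [coeff_zero_reverse]) ?_ hρ hm hAB hr hrs (sub_eq_zero.1 ?_)
    · obtain ⟨i, hi⟩ := hi
      exact ⟨revAt S.natDegree i, by rwa [coeff_reverse, revAt_invol]⟩
    · ext T
      have c1 : (PowerSeries.X : PowerSeries ℤ) ^ (T + 1) ∣
          (PowerSeries.mk fun n => PowerSeries.coeff n (Y n)) - Y T :=
        PowerSeries.X_pow_dvd_iff.2 fun n hn => by
          rw [map_sub, PowerSeries.coeff_mk, agree n T (Nat.lt_succ_iff.1 hn), sub_self]
      have c2 := dvd_add (c1.trans (sub_dvd_pow_sub_pow _ _ s₀)) (hY T).2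
      rw [sub_add_sub_cancel] at c2
      rw [PowerSeries.X_pow_dvd_iff.1 c2 T (Nat.lt_succ_self T), map_zero]
  choose T hT using key
  refine ⟨(Finset.range (R + 1) ×ˢ Finset.range (R + 1)).sup (fun x => T x.1 x.2) + 1,
    Nat.le_add_left _ _, fun r s₀ Y hr hrs hR hY => hT r s₀ hr hrs Y (Rt_mono ?_ hY)⟩
  refine Nat.le_succ_of_le (Finset.le_sup (f := fun x : ℕ × ℕ => T x.1 x.2) (b := (r, s₀)) ?_)
  simp only [Finset.mem_product, Finset.mem_range]
  omega

end Pool.Agent.P.MP_aef18a_nt.OW
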