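import Pool.Agent.P.MP_aef18a_nt.OW.Iface

/-! Removal of small integer relations. -/

namespace Pool.Agent.P.MP_aef18a_nt.OW

open Polynomial Matrix LaurentPolynomial

namespace Rmovex

/-- Bezout coefficients with bounds -/
theorem bez (Z c0 c1 : ℤ) (hZ : 1 ≤ Z) (h0 : |c0| ≤ Z) (h1 : |c1| ≤ Z) :
    ∃ g p q x y : ℤ, c0 = g * p ∧ c1 = g * q ∧ x * p + y * q = 1 ∧ |g| ≤ Z ∧ |p| ≤ Z ∧ |q| ≤ Z ∧
      |x| ≤ Z ∧ |y| ≤ Z := by
  by_cases hc : c0 = 0 ∧ c1 = 0
  · exact ⟨0, 0, 1, 0, 1, by simp [hc.1], by simp [hc.2], by simp, by simp; omega, by simp; omega,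
      by simpa using hZ, by simp; omega, by simpa using hZ⟩
  have hg : 0 < Int.gcd c0 c1 := Int.gcd_pos_iff.2 (not_and_or.1 hc)
  obtain ⟨p, q, hpq, e0, e1⟩ := Int.exists_gcd_one hg
  generalize Int.gcd c0 c1 = g at hg e0 e1
  have hg1 : (1 : ℤ) ≤ g := by exact_mod_cast hg
  have a0 : |c0| = |p| * g := by rw [e0, abs_mul, abs_of_nonneg (by omega : (0 : ℤ) ≤ g)]
  have a1 : |c1| = |q| * g := by rw [e1, abs_mul, abs_of_nonneg (by omega : (0 : ℤ) ≤ g)]
  have hp : |p| ≤ Z := by nlinarith [abs_nonneg p]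
  have hq : |q| ≤ Z := by nlinarith [abs_nonneg q]
  have hgZ : |(g : ℤ)| ≤ Z := by
    rw [abs_of_nonneg (by omega : (0 : ℤ) ≤ g)]
    rcases not_and_or.1 hc with h | h
    · have : 1 ≤ |p| := Int.one_le_abs fun e => h (by rw [e0, e, zero_mul])
      nlinarith
    · have : 1 ≤ |q| := Int.one_le_abs fun e => h (by rw [e1, e, zero_mul])
      nlinarith
  obtain ⟨a, b, hab⟩ := Int.isCoprime_iff_gcd_eq_one.2 hpq
  by_cases hq0 : q = 0
  · refine ⟨g, p, q, p, 0, by rw [e0]; ring, by rw [e1]; ring, ?_, hgZ, hp, hq, hp,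
      by simp; omega⟩
    rw [hq0, mul_zero, add_zero] at hab
    rcases Int.eq_one_or_neg_one_of_mul_eq_one' hab with h | h <;> simp [h.2]
  have hx0 : 0 ≤ a % q := Int.emod_nonneg a hq0
  have hx1 : a % q < |q| := Int.emod_lt_abs a hq0
  have e : a % q * p + (b + a / q * p) * q = 1 := by
    have := Int.emod_add_mul_ediv a q
    linear_combination hab + p * this
  refine ⟨g, p, q, a % q, b + a / q * p, by rw [e0]; ring, by rw [e1]; ring, e, hgZ, hp, hq,
    by rw [abs_of_nonneg hx0]; omega, ?_⟩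
  have h2 : |b + a / q * p| * |q| ≤ Z * |q| := by
    rw [← abs_mul, show (b + a / q * p) * q = 1 - a % q * p by linear_combination e]
    refine (abs_sub _ _).trans ?_
    rw [abs_one, abs_mul, abs_of_nonneg hx0]
    nlinarith [abs_nonneg p]
  exact le_of_mul_le_mul_right h2 (abs_pos.2 hq0)

theorem comb {Z Y x y s t : ℤ} (hx : |x| ≤ Z) (hy : |y| ≤ Z) (hs : |s| ≤ Y) (ht : |t| ≤ Y) :
    |x * s + y * t| ≤ 2 * Z * Y := by
  refine (abs_add_le _ _).trans ?_
  rw [abs_mul, abs_mul]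
  have h1 := mul_le_mul hx hs (abs_nonneg _) ((abs_nonneg _).trans hx)
  have h2 := mul_le_mul hy ht (abs_nonneg _) ((abs_nonneg _).trans hy)
  linarith

end Rmovex

open Rmovex in
theorem p_Rmove : S_Rmove := by
  intro r Z
  induction r with
  | zero =>
    intro Y c b _ hc _ _ hcb
    refine ⟨0, 0, funext fun i => ?_, fun _ j => j.elim0, fun j => j.elim0⟩
    have h0 : c 0 ≠ 0 := fun e => hc (funext fun j => by rw [Fin.fin_one_eq_zero j]; exact e)
    rw [Fin.fin_one_eq_zero i]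
    simpa [dotProduct, h0] using hcb
  | succ r ih =>
    intro Y c b hZ hc hcZ hbY hcb
    have hZ1 : (1 : ℤ) ≤ Z := by exact_mod_cast hZ
    have hY0 : (0 : ℤ) ≤ Y := Int.natCast_nonneg Y
    obtain ⟨g, p, q, x, y, e0, e1, hb, hg, hp, hq, hx, hy⟩ := bez Z (c 0) (c 1) hZ1 (hcZ 0) (hcZ 1)
    obtain ⟨M, b', hM, hMZ, hb'⟩ := ih (2 * Z * Y) (Fin.cons g fun i => c i.succ.succ)
      (Fin.cons (p * b 0 + q * b 1) fun i => b i.succ.succ) hZ
      (fun e => hc (funext fun i => by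
        have hg0 : g = 0 := congrFun e 0
        refine Fin.cases ?_ (fun i => Fin.cases ?_ (fun i => ?_) i) i
        · rw [e0, hg0, zero_mul]; rfl
        · rw [Fin.succ_zero_eq_one, e1, hg0, zero_mul]; rfl
        · exact congrFun e i.succ))
      (fun i => Fin.cases hg (fun i => hcZ _) i)
      (fun i => by
        push_cast
        refine Fin.cases (comb hp hq (hbY 0) (hbY 1)) (fun i => (hbY _).trans ?_) i
        nlinarith)
      (by
        simp only [dotProduct, Fin.sum_univ_succ, Fin.cons_zero, Fin.cons_succ,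
          Fin.succ_zero_eq_one] at hcb ⊢
        rw [e0, e1] at hcb
        linear_combination hcb)
    have hM0 : p * b 0 + q * b 1 = ∑ j, M 0 j * b' j := congrFun hM 0
    have hZr : (1 : ℤ) ≤ (Z : ℤ) ^ r := one_le_pow₀ hZ1
    have hle : (Z : ℤ) ≤ (Z : ℤ) ^ (r + 1) := by rw [pow_succ]; nlinarith
    have hmul : ∀ s : ℤ, |s| ≤ Z → ∀ j, |s * M 0 j| ≤ (Z : ℤ) ^ (r + 1) := fun s hs j => by
      rw [abs_mul, pow_succ']
      exact mul_le_mul hs (hMZ 0 j) (abs_nonneg _) (by omega)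
    refine ⟨Matrix.of (Fin.cons (Fin.cons q fun j => x * M 0 j)
      (Fin.cons (Fin.cons (-p) fun j => y * M 0 j) fun i => Fin.cons 0 (M i.succ))),
      Fin.cons (y * b 0 + -x * b 1) b', funext fun i => ?_, fun i j => ?_, fun j => ?_⟩
    · refine Fin.cases ?_ (fun i => Fin.cases ?_ (fun i => ?_) i) i
      · simp only [mulVec, dotProduct, Fin.sum_univ_succ, of_apply, Fin.cons_zero, Fin.cons_succ,
          mul_assoc, ← Finset.mul_sum, ← hM0]
        linear_combination -(b 0) * hb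
      · simp only [mulVec, dotProduct, Fin.sum_univ_succ, of_apply, Fin.cons_zero, Fin.cons_succ,
          mul_assoc, ← Finset.mul_sum, ← hM0]
        rw [Fin.succ_zero_eq_one]
        linear_combination -(b 1) * hb
      · have := congrFun hM i.succ
        simpa [mulVec, dotProduct, Fin.sum_univ_succ] using this
    · refine Fin.cases ?_ (fun i => Fin.cases ?_ (fun i => ?_) i) i
      · exact Fin.cases (hq.trans hle) (fun j => hmul x hx j) j
      · exact Fin.cases ((abs_neg p).trans_le (hp.trans hle)) (fun j => hmul y hy j) j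
      · refine Fin.cases ?_ (fun j => (hMZ i.succ j).trans ?_) j
        · exact (abs_zero.trans_le (by positivity) : |(0 : ℤ)| ≤ (Z : ℤ) ^ (r + 1))
        · rw [pow_succ]; nlinarith
    · refine Fin.cases ?_ (fun j => ?_) j
      · refine (comb hy ((abs_neg x).trans_le hx) (hbY 0) (hbY 1)).trans ?_
        have h2 : (1 : ℤ) ≤ (2 * Z : ℤ) ^ r := one_le_pow₀ (by omega)
        have h3 : (0 : ℤ) ≤ 2 * Z * Y := by positivity
        rw [pow_succ]
        nlinarith
      · refine (hb' j).trans (le_of_eq ?_)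
        push_cast
        ring

theorem p_Proc (h : S_Rmove) : S_Proc := by
  have triv : ∀ (n K K' X Y : ℕ) (y : Fin n → ℤ), 2 ≤ X → (∀ i, |y i| ≤ Y) → NoRel (X ^ K) y →
      ∃ (r : ℕ) (M : Matrix (Fin n) (Fin r) ℤ) (b : Fin r → ℤ) (H : ℕ), r ≤ n ∧ y = M *ᵥ b ∧
        X ≤ H ∧ H ≤ X ^ (K' + 1) ∧ (∀ i j, |M i j| ≤ H) ∧ (∀ j, |b j| ≤ H * Y) ∧
        NoRel (H ^ K) b := by
    intro n K K' X Y y hX hy hn
    have hX1 : (2 : ℤ) ≤ X := by exact_mod_cast hX
    refine ⟨n, 1, y, X, le_rfl, (one_mulVec y).symm, le_rfl, Nat.le_self_pow (by omega) X,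
      fun i j => ?_, fun j => (hy j).trans ?_, hn⟩
    · rw [one_apply]; split_ifs <;> simp <;> omega
    · nlinarith [Int.natCast_nonneg Y]
  intro n
  induction n with
  | zero =>
    exact fun K => ⟨0 + 1, fun X Y y hX hy => triv 0 K 0 X Y y hX hy
      fun c hc => absurd (Subsingleton.elim c 0) hc⟩
  | succ n ih =>
    intro K
    obtain ⟨K2, hK2⟩ := ih ((n + 2) * K)
    refine ⟨((K + 1) * n + 1) * K2 * (n + 2) + 1, fun X Y y hX hy => ?_⟩
    by_cases hn : NoRel (X ^ K) y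
    · exact triv _ K _ X Y y hX hy hn
    unfold NoRel at hn
    push Not at hn
    obtain ⟨c, hc0, hc, hcy⟩ := hn
    obtain ⟨M', b', e', hM', hb'⟩ := h n (X ^ K) Y c y (Nat.one_le_pow _ _ (by omega)) hc0 hc hy hcy
    set X' := X ^ ((K + 1) * n + 1) with hX'
    have hXX : X ≤ X' := Nat.le_self_pow (by omega) X
    have h1 : (2 * X ^ K) ^ n ≤ X' := by
      calc (2 * X ^ K) ^ n ≤ (X ^ (K + 1)) ^ n :=
            Nat.pow_le_pow_left (by rw [pow_succ']; exact Nat.mul_le_mul_right _ hX) n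
        _ ≤ X' := by rw [← pow_mul]; exact Nat.pow_le_pow_right (by omega) (by omega)
    have h1' : (2 * ((X ^ K : ℕ) : ℤ)) ^ n ≤ X' := by exact_mod_cast h1
    have h2 : ((X ^ K : ℕ) : ℤ) ^ n ≤ X' :=
      (pow_le_pow_left₀ (by positivity) (by omega) n).trans h1'
    obtain ⟨r, M, b, H, hr, e, hH1, hH2, hM, hb, hnr⟩ := hK2 X' (X' * Y) b' (hX.trans hXX)
      fun j => (hb' j).trans (by
        push_cast at h1' ⊢
        exact mul_le_mul_of_nonneg_right h1' (Int.natCast_nonneg Y))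
    have hH : 2 ≤ H := hX.trans (hXX.trans hH1)
    have h3 : n ≤ H ^ n := (Nat.lt_pow_self hH).le
    have h4 : n * (X' * H) ≤ H ^ (n + 2) := by
      rw [pow_add, sq]
      exact Nat.mul_le_mul h3 (Nat.mul_le_mul_right _ hH1)
    have h5 : H * X' ≤ H ^ (n + 2) := by
      calc H * X' ≤ H ^ 2 := by rw [sq]; exact Nat.mul_le_mul_left _ hH1
        _ ≤ _ := Nat.pow_le_pow_right (by omega) (by omega)
    refine ⟨r, M' * M, b, H ^ (n + 2), by omega, by rw [← mulVec_mulVec, ← e, ← e'],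
      (hXX.trans hH1).trans (Nat.le_self_pow (by omega) H), ?_, fun i j => ?_,
      fun j => (hb j).trans ?_, by rwa [← pow_mul]⟩
    · calc H ^ (n + 2) ≤ (X' ^ K2) ^ (n + 2) := Nat.pow_le_pow_left hH2 _
        _ ≤ _ := by
          rw [hX', ← pow_mul, ← pow_mul, ← mul_assoc]
          exact Nat.pow_le_pow_right (by omega) (by omega)
    · rw [mul_apply]
      refine (Finset.abs_sum_le_sum_abs _ _).trans ?_
      refine (Finset.sum_le_card_nsmul _ _ ((X' : ℤ) * H) fun l _ => ?_).trans ?_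
      · rw [abs_mul]
        exact mul_le_mul ((hM' i l).trans h2) (hM l j) (abs_nonneg _) (Int.natCast_nonneg _)
      · rw [Finset.card_univ, Fintype.card_fin, nsmul_eq_mul]
        exact_mod_cast h4
    · have : H * (X' * Y) ≤ H ^ (n + 2) * Y := by
        rw [← mul_assoc]; exact Nat.mul_le_mul_right _ h5
      exact_mod_cast this

end Pool.Agent.P.MP_aef18a_nt.OW
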