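import Pool.Agent.P.MP_aef18a_nt.OW.Iface

namespace Pool.Agent.P.MP_aef18a_nt.OW

open Polynomial Matrix LaurentPolynomial

namespace SetupPx

lemma split (n : ℕ) : ∀ S : ℤ[X], S.natDegree = n → S ≠ 0 → ∃ (St : ℤ[X]) (c : Multiset ℕ),
    S = St * (c.map fun l => cyclotomic l ℤ).prod ∧ (∀ l ∈ c, 0 < l) ∧
      ∀ β : ℂ, aeval β St = 0 → ¬ ∃ m, 0 < m ∧ β ^ m = 1 := by
  induction n using Nat.strong_induction_on with
  | _ n ih =>
    intro S hn hS
    by_cases h : ∀ β : ℂ, aeval β S = 0 → ¬ ∃ m, 0 < m ∧ β ^ m = 1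
    · exact ⟨S, 0, by simp, by simp, h⟩
    push Not at h
    obtain ⟨β, hβ, m, hm, e⟩ := h
    have hl : 0 < orderOf β := (isOfFinOrder_iff_pow_eq_one.2 ⟨m, hm, e⟩).orderOf_pos
    have hp := IsPrimitiveRoot.orderOf β
    have hd : cyclotomic (orderOf β) ℤ ∣ S := by
      rw [cyclotomic_eq_minpoly hp hl]
      exact minpoly.isIntegrallyClosed_dvd (hp.isIntegral hl) hβ
    obtain ⟨S', rfl⟩ := hd
    have h1 : S' ≠ 0 := right_ne_zero_of_mul hS
    have h2 : S'.natDegree < n := by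
      rw [← hn, natDegree_mul (left_ne_zero_of_mul hS) h1, natDegree_cyclotomic]
      have := Nat.totient_pos.2 hl
      omega
    obtain ⟨St, c, e1, e2, e3⟩ := ih _ h2 S' rfl h1
    refine ⟨St, orderOf β ::ₘ c, ?_, ?_, e3⟩
    · rw [Multiset.map_cons, Multiset.prod_cons, e1]; ring
    · intro l h
      rcases Multiset.mem_cons.1 h with rfl | h
      · exact hl
      · exact e2 l h

lemma root_St {St : ℤ[X]} {c : Multiset ℕ} (hc : ∀ l ∈ c, 0 < l) {β : ℂ}
    (h : aeval β (St * (c.map fun l => cyclotomic l ℤ).prod) = 0)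
    (hβ : ¬ ∃ m, 0 < m ∧ β ^ m = 1) : aeval β St = 0 := by
  rw [map_mul, mul_eq_zero] at h
  refine h.resolve_right fun e => hβ ?_
  rw [map_multiset_prod, Multiset.prod_eq_zero_iff, Multiset.map_map] at e
  obtain ⟨l, hl, e⟩ := Multiset.mem_map.1 e
  refine ⟨l, hc l hl, isRoot_of_unity_of_root_cyclotomic (Nat.mem_divisors_self l (hc l hl).ne') ?_⟩
  rw [IsRoot.def, ← map_cyclotomic l (algebraMap ℤ ℂ), eval_map_algebraMap]
  exact e

lemma sum_tau (j : ℕ) (p : ℚ[X]) : p ≠ 0 → ((p.aroots ℂ).map fun β => tau β j).sum = ps p j := by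
  induction p using UniqueFactorizationMonoid.induction_on_prime with
  | h₁ => exact fun h => absurd rfl h
  | h₂ x hx =>
    intro _
    have : x.aroots ℂ = 0 := by
      rw [← Multiset.card_eq_zero, card_aroots]
      exact natDegree_eq_zero_of_isUnit hx
    simp [ps, this]
  | h₃ a p ha hp ih =>
    intro h
    rw [ps_mul h, aroots_mul h, Multiset.map_add, Multiset.sum_add, ih ha]
    congr 1
    have hl : p.leadingCoeff⁻¹ ≠ 0 := inv_ne_zero (leadingCoeff_ne_zero.2 hp.ne_zero)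
    have hn : (p.natDegree : ℂ) ≠ 0 := by exact_mod_cast hp.irreducible.natDegree_pos.ne'
    rw [Multiset.map_congr rfl (g := fun _ => ps p j / p.natDegree), Multiset.map_const',
      Multiset.sum_replicate, card_aroots, nsmul_eq_mul, mul_div_cancel₀ _ hn]
    intro β hβ
    rw [tau, ← minpoly.eq_of_irreducible hp.irreducible (mem_aroots.1 hβ).2, mul_comm p,
      natDegree_C_mul hl, ps, aroots_C_mul _ hl, ps]

lemma gauss (p : ℚ[X]) (hp : p ≠ 0) : ∃ g : ℤ[X], g.IsPrimitive ∧ ∃ t : ℚ, t ≠ 0 ∧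
    g.map (Int.castRingHom ℚ) = Polynomial.C t * p := by
  obtain ⟨b, hb, e⟩ := IsLocalization.integerNormalization_spec (nonZeroDivisors ℤ) p
  generalize IsLocalization.integerNormalization (nonZeroDivisors ℤ) p = N at e
  have b0 : (b : ℚ) ≠ 0 := by exact_mod_cast nonZeroDivisors.ne_zero hb
  have e' : N.map (Int.castRingHom ℚ) = Polynomial.C (b : ℚ) * p := by
    rw [← Polynomial.smul_eq_C_mul, Int.cast_smul_eq_zsmul]
    exact e
  have N0 : N ≠ 0 := by
    rintro rfl
    rw [Polynomial.map_zero] at e'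
    exact mul_ne_zero (C_ne_zero.2 b0) hp e'.symm
  have c0 : (N.content : ℚ) ≠ 0 := by exact_mod_cast mt content_eq_zero_iff.1 N0
  have k : N.map (Int.castRingHom ℚ) =
      Polynomial.C (N.content : ℚ) * N.primPart.map (Int.castRingHom ℚ) := by
    conv_lhs => rw [N.eq_C_content_mul_primPart]
    rw [Polynomial.map_mul, map_C]
    rfl
  refine ⟨N.primPart, N.isPrimitive_primPart, (N.content : ℚ)⁻¹ * b,
    mul_ne_zero (inv_ne_zero c0) b0, ?_⟩
  rw [map_mul, mul_assoc, ← e', k, ← mul_assoc, ← map_mul, inv_mul_cancel₀ c0, map_one, one_mul]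

end SetupPx

open SetupPx

theorem p_Setup : S_Setup := by
  intro S y K η h0 hsim ⟨α, α', nα, nα', rα, rα', hne⟩ hdeg hflat
  have hS : S ≠ 0 := by
    rintro rfl
    exact h0 (Polynomial.coeff_zero 0)
  obtain ⟨St, c, e, hc, hSt⟩ := split _ S rfl hS
  have St0 : St ≠ 0 := left_ne_zero_of_mul (e ▸ hS)
  have dS : St ∣ S := ⟨_, e⟩
  have inj : Function.Injective (Int.castRingHom ℚ) := RingHom.injective_int _
  have StQ : St.map (Int.castRingHom ℚ) ≠ 0 := (Polynomial.map_ne_zero_iff inj).2 St0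
  have rt : ∀ β : ℂ, aeval β S = 0 → (¬ ∃ m, 0 < m ∧ β ^ m = 1) → aeval β St = 0 :=
    fun β h => root_St hc (e ▸ h)
  have un : ∀ β : ℂ, aeval β St = 0 → ∃ u : ℂˣ, (u : ℂ) = β ∧ NonTors u ∧ aeval (u : ℂ) S = 0 := by
    intro β h
    have h' : aeval β S = 0 := aeval_eq_zero_of_dvd_aeval_eq_zero dS h
    have b0 : β ≠ 0 := by
      rintro rfl
      rw [← coeff_zero_eq_aeval_zero'] at h'
      exact h0 (by simpa using h')
    exact ⟨Units.mk0 β b0, rfl, hSt β h, h'⟩
  have mp : ∀ β : ℂ, aeval β St = 0 →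
      IsIntegral ℚ β ∧ minpoly ℚ β ∣ St.map (Int.castRingHom ℚ) := fun β h =>
    have h' : aeval β (St.map (Int.castRingHom ℚ)) = 0 := (aeval_map_int St β).trans h
    ⟨IsAlgebraic.isIntegral ⟨_, StQ, h'⟩, minpoly.dvd ℚ β h'⟩
  obtain ⟨i1, d1⟩ := mp α (rt α rα nα)
  obtain ⟨i2, d2⟩ := mp α' (rt α' rα' nα')
  obtain ⟨g, hg, t, t0, eg⟩ := gauss _ (minpoly.ne_zero i1)
  have gd : g ∣ St := (IsPrimitive.Int.dvd_iff_map_cast_dvd_map_cast g St hg).2
    (eg ▸ (isUnit_C.2 t0.isUnit).mul_left_dvd.2 d1)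
  have gn : g.natDegree = (minpoly ℚ (α : ℂ)).natDegree := by
    rw [← natDegree_map_eq_of_injective inj, eg, natDegree_C_mul t0]
  have ga : g.aroots ℂ = (minpoly ℚ (α : ℂ)).aroots ℂ := by
    rw [← aroots_map_int, eg, aroots_C_mul _ t0]
  have injC : Function.Injective (algebraMap ℤ ℂ) := RingHom.injective_int _
  have cop : IsCoprime (minpoly ℚ (α : ℂ)) (minpoly ℚ (α' : ℂ)) :=
    (minpoly.irreducible i1).coprime_iff_not_dvd.2 fun h => hne
      (eq_of_monic_of_associated (minpoly.monic i1) (minpoly.monic i2)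
        ((minpoly.irreducible i1).associated_of_dvd (minpoly.irreducible i2) h))
  have dg : g.natDegree + (minpoly ℚ (α' : ℂ)).natDegree ≤ St.natDegree := by
    rw [gn, ← natDegree_mul (minpoly.ne_zero i1) (minpoly.ne_zero i2),
      ← natDegree_map_eq_of_injective inj St]
    exact natDegree_le_of_dvd (cop.mul_dvd d1 d2) StQ
  obtain ⟨h, eh⟩ := gd.trans dS
  refine ⟨g, h, St, c, eh, e, hc, roots.le_of_dvd ((Polynomial.map_ne_zero_iff injC).2 St0)
    (Polynomial.map_dvd _ gd), ?_, ?_, gn ▸ hdeg α nα rα, ?_, ?_⟩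
  · classical
    refine Multiset.nodup_iff_count_le_one.2 fun β => not_lt.1 fun hlt => ?_
    have S0 : S.map (algebraMap ℤ ℂ) ≠ 0 := (Polynomial.map_ne_zero_iff injC).2 hS
    obtain ⟨u, rfl, n1, n2⟩ := un β (mem_aroots.1 (Multiset.count_pos.1 (by omega))).2
    rw [aroots_def, count_roots] at hlt
    have k := ((one_lt_rootMultiplicity_iff_isRoot S0).1 (hlt.trans_le
      (rootMultiplicity_le_rootMultiplicity_of_dvd S0 (Polynomial.map_dvd _ dS) _))).2
    rw [derivative_map, IsRoot.def, eval_map_algebraMap] at k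
    exact hsim u n1 n2 k
  · intro β hβ h1
    refine mem_aroots.2 ⟨St0, rt β (mem_aroots.1 hβ).2 ?_⟩
    rintro ⟨m, hm, e1⟩
    have := one_lt_pow₀ h1 hm.ne'
    rw [← norm_pow, e1, norm_one] at this
    exact lt_irrefl _ this
  · have h1 := hdeg α' nα' rα'
    have h2 : (g.natDegree : ℝ) + (minpoly ℚ (α' : ℂ)).natDegree ≤ St.natDegree := by
      exact_mod_cast dg
    linarith
  · intro j j1 jK
    have d0 : 0 < g.natDegree := gn ▸ minpoly.natDegree_pos i1
    have n0 : (St.natDegree : ℂ) ≠ 0 := by exact_mod_cast (by omega : St.natDegree ≠ 0)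
    have η0 : 0 ≤ η := (norm_nonneg _).trans (hflat α α nα nα rα rα j j1 jK)
    have e1 : ps g j = g.natDegree * tau α j := by
      rw [tau, ← gn, mul_div_cancel₀ _ (by exact_mod_cast d0.ne'), ps, ps, ga]
    have e2 : (St.natDegree : ℂ) * tau α j - ps St j =
        ((St.aroots ℂ).map fun β => tau α j - tau β j).sum := by
      rw [Multiset.sum_map_sub, ← ps_map_int, ← sum_tau j _ StQ, aroots_map_int,
        Multiset.map_const', Multiset.sum_replicate, card_aroots, nsmul_eq_mul]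
    have e3 : ‖(St.natDegree : ℂ) * tau α j - ps St j‖ ≤ St.natDegree * η := by
      rw [e2]
      refine (norm_multiset_sum_le _).trans ?_
      rw [← card_aroots, Multiset.map_map, ← nsmul_eq_mul,
        ← Multiset.card_map (fun β => ‖tau α j - tau β j‖)]
      refine Multiset.sum_le_card_nsmul _ _ fun x hx => ?_
      obtain ⟨β, hβ, rfl⟩ := Multiset.mem_map.mp hx
      obtain ⟨u, rfl, n1, n2⟩ := un β (mem_aroots.1 hβ).2
      exact hflat α u nα n1 rα n2 j j1 jK
    have e4 : ps g j - (g.natDegree : ℂ) / St.natDegree * ps St j =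
        (g.natDegree : ℂ) / St.natDegree * (St.natDegree * tau α j - ps St j) := by
      rw [e1]; field_simp
    have n1 : (0 : ℝ) < St.natDegree := by exact_mod_cast (by omega : 0 < St.natDegree)
    have e5 : (g.natDegree : ℝ) ≤ S.natDegree := by
      exact_mod_cast natDegree_le_of_dvd ⟨h, eh⟩ hS
    rw [e4, norm_mul, norm_div, Complex.norm_natCast, Complex.norm_natCast]
    calc _ ≤ (g.natDegree : ℝ) / St.natDegree * (St.natDegree * η) :=
          mul_le_mul_of_nonneg_left e3 (by positivity)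
      _ = g.natDegree * η := by field_simp
      _ ≤ _ := mul_le_mul_of_nonneg_right e5 η0

end Pool.Agent.P.MP_aef18a_nt.OW
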