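import Pool.Agent.P.MP_aef18a_nt.OW.Iface

namespace Pool.Agent.P.MP_aef18a_nt.OW

open Polynomial Matrix LaurentPolynomial

namespace StarAllx

lemma root {A N : ℕ} (hA : 0 < A) :
    ∃ Q : ℕ, Q ^ A ≤ N ∧ N ≤ (Q + 1) ^ A ∧ ∀ X : ℕ, X ^ A ≤ N → X ≤ Q := by
  have hle : ∀ X : ℕ, X ^ A ≤ N → X ≤ N := fun X h => (Nat.le_self_pow hA.ne' X).trans h
  have hall : ∀ X : ℕ, X ^ A ≤ N → X ≤ Nat.findGreatest (fun X => X ^ A ≤ N) N :=
    fun X h => Nat.le_findGreatest (hle X h) h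
  refine ⟨Nat.findGreatest (fun X => X ^ A ≤ N) N, ?_, ?_, hall⟩
  · exact Nat.findGreatest_spec (P := fun X => X ^ A ≤ N) (Nat.zero_le N)
      (by simp [hA.ne'])
  · by_contra h
    have := hall _ (not_le.mp h).le
    omega

lemma bx_sum {r D : ℕ} (E : Finset ℕ) (w : ℕ → Fin r → ℤ) (z : ℕ → ℚ)
    (h : ∀ e ∈ E, ∀ i, |w e i| ≤ D) :
    Bx D (∑ e ∈ E, AddMonoidAlgebra.single (w e) (z e) : LP r) := by
  classical
  intro u hu i
  rw [AddMonoidAlgebra.coeff_sum] at hu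
  obtain ⟨e, he, hue⟩ := Finset.mem_biUnion.mp (Finsupp.support_finsetSum hu)
  rw [mem_single hue]
  exact h e he i

lemma evc_sum {r : ℕ} (b : Fin r → ℤ) (α : ℂˣ) (E : Finset ℕ) (w : ℕ → Fin r → ℤ) (z : ℕ → ℚ)
    (h : ∀ e ∈ E, w e ⬝ᵥ b = e) :
    evc b α (∑ e ∈ E, AddMonoidAlgebra.single (w e) (z e) : LP r) =
      ∑ e ∈ E, (z e : ℂ) * (α : ℂ) ^ e := by
  rw [map_sum]
  refine Finset.sum_congr rfl fun e he => ?_
  rw [evc_single, h e he, zpow_natCast]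
  rfl

lemma degH_mono {k : ℕ} {F : LQ ℤ k} {a : Fin k → ℤ} {H H' : ℕ} (h : DegH F a H) (hH : H ≤ H') :
    DegH F a H' := fun α h1 h2 => (h α h1 h2).trans (Nat.mul_le_mul_right _ hH)

end StarAllx

open StarAllx in
theorem p_StarAll (hP : S_Proc) (hD : S_DegM) (hG : S_Geo2) (hN : S_NoTwo) (hS : S_Star1) :
    S_StarAll := by
  intro n F κ hF hκ
  obtain ⟨K', hK'⟩ := hP (n + 1) 20
  obtain ⟨A₁, H₀, hN'⟩ := hN n F κ hF hκ
  obtain ⟨H₁, hS'⟩ := hS n F
  obtain ⟨J, ν₁, hG'⟩ := hG n F κ hκ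
  have hA : 0 < K' * A₁ + 1 := Nat.succ_pos _
  generalize hAe : K' * A₁ + 1 = A at hA
  obtain ⟨c, hc, hD'⟩ := hD n F (1 / (2 * A : ℝ)) hF.c0 (by positivity)
  obtain ⟨N₀, hN₀⟩ := CznA.numer (c := c / (J + 1)) (A := 1) hA (by positivity)
  refine ⟨A, ν₁ + N₀ + (H₀ + H₁ + n + 2) ^ A + 1, hA, fun B a hν hV hI => ?_⟩
  obtain ⟨Q, hQ1, hQ2, hQ3⟩ := root (N := nu a) hA
  have hQm : H₀ + H₁ + n + 2 ≤ Q := hQ3 _ (by omega)
  obtain ⟨s, hs1, hs2, hs3, -⟩ := hG' a (by omega) hV.2.1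
  have hsp : spec a (toQ F) ≠ 0 := spec_ne_zero_of_gap hF.c0 hs1 hs2
  have hdeg : DegH F a Q := by
    intro α h1 h2
    by_contra hlt
    have hlt' : (Q : ℝ) * (minpoly ℚ (α : ℂ)).natDegree ≤ nu a := by
      exact_mod_cast (not_le.mp hlt).le
    have hQ0 : (0 : ℝ) < Q := by exact_mod_cast (by omega : 0 < Q)
    refine hN₀ (nu a) Q (by omega) (by omega) hQ2 (minpoly ℚ (α : ℂ)).natDegree (by positivity)
      (by rw [le_div_iff₀ hQ0]; linarith) (le_trans ?_ (hD' a α s hs2 h1 h2))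
    have h3 : (nu a : ℝ) ≤ (J + 1) * s := by
      exact_mod_cast hs3.trans (Nat.mul_le_mul_right _ (Nat.le_succ J))
    rw [div_mul_eq_mul_div, div_le_iff₀ (by positivity)]
    nlinarith
  have main : ∀ j : ℕ, j ≤ nu a * Q → Sim F a ∧ ∀ X : ℕ, X ≤ Q → St F a X j := by
    intro j hj
    obtain ⟨r, M, b, H, hr, hy, hQH, hHK, hM, hb, hrel⟩ :=
      hK' Q (nu a * Q) (Fin.cons (j : ℤ) a) (by omega) fun i => by
        refine Fin.cases ?_ (fun i => ?_) i
        · simp only [Fin.cons_zero, Nat.abs_cast]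
          exact_mod_cast hj
        · simp only [Fin.cons_succ]
          refine (le_nu a i).trans ?_
          exact_mod_cast Nat.le_mul_of_pos_right _ (by omega)
    have hPr : Pr a H (Matrix.of fun i => M i.succ) b := by
      refine ⟨hr, ?_, fun i l => hM _ _, fun l => (hb l).trans ?_, hrel⟩
      · funext i
        have := congrFun hy i.succ
        rw [Fin.cons_succ] at this
        rw [this]
        rfl
      · have : H * (nu a * Q) ≤ H ^ 2 * nu a := by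
          calc H * (nu a * Q) ≤ H * (nu a * H) := by gcongr
            _ = H ^ 2 * nu a := by ring
        exact_mod_cast this
    have hHA : H ^ A₁ ≤ nu a := by
      calc H ^ A₁ ≤ (Q ^ K') ^ A₁ := Nat.pow_le_pow_left hHK _
        _ = Q ^ (K' * A₁) := (pow_mul _ _ _).symm
        _ ≤ Q ^ A := Nat.pow_le_pow_right (by omega) (by omega)
        _ ≤ nu a := hQ1
    have hdH := degH_mono hdeg hQH
    have hNT := hN' B H r a _ b (by omega) hHA hV hI hPr hdH hsp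
    obtain ⟨hSim, hsep⟩ := hS' H r a _ b (by omega) (by omega) hsp hPr hdH hNT
    refine ⟨hSim, fun X hX α α' h1 h1' h2 h2' E z hE hz => ?_⟩
    choose! v jj hv hjj he using hE
    have hw : ∀ e ∈ E, ((Fin.cons (jj e) (v e) : Fin (n + 1) → ℤ) ᵥ* M) ⬝ᵥ b = e := by
      intro e hE
      rw [← dotProduct_mulVec, ← hy, he e hE]
      simp only [dotProduct, Fin.sum_univ_succ, Fin.cons_zero, Fin.cons_succ]
      ring
    have hbx : ∀ e ∈ E, ∀ i, |((Fin.cons (jj e) (v e) : Fin (n + 1) → ℤ) ᵥ* M) i| ≤ (H ^ 3 : ℕ) := by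
      intro e hE i
      refine (abs_dot_le (D := X) (Y := H) (fun l => ?_) (fun l => hM l i)).trans ?_
      · refine Fin.cases ?_ (fun l => ?_) l
        · simpa using hjj e hE
        · simpa using hv e hE l
      · have : (n + 1) * X * H ≤ H ^ 3 := by
          calc (n + 1) * X * H ≤ H * H * H := by gcongr <;> omega
            _ = H ^ 3 := by ring
        exact_mod_cast this
    have := hsep α α' h1 h1' h2 h2' _ (bx_sum E _ z hbx).wb (by rw [evc_sum b α E _ z hw, hz])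
    rwa [evc_sum b α' E _ z hw] at this
  refine ⟨(main 0 (Nat.zero_le _)).1, fun X j hX hj => ?_⟩
  exact (main j (hj.trans (Nat.mul_le_mul_left _ (hQ3 X hX)))).2 X (hQ3 X hX)

end Pool.Agent.P.MP_aef18a_nt.OW
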