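import Pool.Agent.P.MP_aef18a_nt.OW.Iface

namespace Pool.Agent.P.MP_aef18a_nt.OW

open Polynomial Matrix LaurentPolynomial Filter

namespace Stepx

lemma numer {c σ : ℝ} (J : ℕ) (hc : 0 < c) (hσ : 0 < σ) (hσ1 : σ ≤ 1) :
    ∃ N₁ : ℕ, 1 ≤ N₁ ∧ ∀ N s d : ℕ, N₁ ≤ N → N ≤ J * s → c * s ≤ (d : ℝ) ^ (1 + σ) →
      (N : ℝ) ^ (1 - σ) ≤ d := by
  have ht : Tendsto (fun N : ℕ => (N : ℝ) ^ (σ ^ 2)) atTop atTop :=
    (tendsto_rpow_atTop (by positivity)).comp tendsto_natCast_atTop_atTop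
  obtain ⟨N₀, h⟩ := eventually_atTop.mp (ht.eventually_gt_atTop (J / c))
  refine ⟨N₀ + 1, by omega, fun N s d hN hJ hd => ?_⟩
  by_contra hn
  push Not at hn
  have hN0 : (0 : ℝ) < N := by exact_mod_cast (by omega : 0 < N)
  have h1 : (d : ℝ) ^ (1 + σ) ≤ (N : ℝ) ^ (1 - σ ^ 2) := by
    rw [show 1 - σ ^ 2 = (1 - σ) * (1 + σ) by ring, Real.rpow_mul hN0.le]
    exact Real.rpow_le_rpow (by positivity) hn.le (by positivity)
  have h2 := h N (by omega)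
  rw [div_lt_iff₀ hc] at h2
  have h3 : (N : ℝ) = (N : ℝ) ^ (σ ^ 2) * (N : ℝ) ^ (1 - σ ^ 2) := by
    rw [← Real.rpow_add hN0]; simp
  have h4 : (N : ℝ) ≤ J * s := by exact_mod_cast hJ
  have h5 : 0 < (N : ℝ) ^ (1 - σ ^ 2) := by positivity
  have h6 : c * N ≤ J * (N : ℝ) ^ (1 - σ ^ 2) := by
    calc c * N ≤ c * (J * s) := by gcongr
      _ = J * (c * s) := by ring
      _ ≤ _ := by gcongr; exact hd.trans h1
  have h7 := mul_lt_mul_of_pos_right h2 h5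
  nlinarith

lemma degLB (hLink : S_Link) (hDeg : S_DegM) {k : ℕ} {F : LQ ℤ k} (h0 : F.coeff 0 ≠ 0) (J : ℕ)
    {σ : ℝ} (hσ : 0 < σ) : ∃ N₁ : ℕ, ∀ (a : Fin k → ℤ) (s : ℕ), Gp F a J s →
      Set.InjOn (· ⬝ᵥ a) F.coeff.support → N₁ ≤ (SS F a).natDegree →
      DegLB (SS F a) (((SS F a).natDegree : ℝ) ^ (1 - σ)) := by
  have hm : 0 < min σ 1 := lt_min hσ one_pos
  obtain ⟨c, hc, hd⟩ := hDeg k F _ h0 hm
  obtain ⟨N₁, h1, hN⟩ := numer J hc hm (min_le_right _ _)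
  refine ⟨N₁, fun a s hg hi hN₁ α hα hr => ?_⟩
  obtain ⟨-, hJ, -, -, -, -, hev, -⟩ := hLink k F a J s h0 hg hi
  rw [hev] at hr
  refine le_trans ?_ (hN _ s _ hN₁ hJ
    (hd a α s hg.2.1 hα ((mul_eq_zero.mp hr).resolve_left (pow_ne_zero _ α.ne_zero))))
  exact Real.rpow_le_rpow_of_exponent_le (by exact_mod_cast h1.trans hN₁)
    (by linarith [min_le_left σ 1])

lemma fin (hLink : S_Link) (hDeg : S_DegM) (hSet : S_Setup) (hUnit : S_Unit) (hGrow : S_Grow)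
    (hEx : S_Exact) (hNon : S_NonU) {k : ℕ} {F : LQ ℤ k} (hF : Dat F) (J : ℕ) {c₀ ε : ℝ}
    (hc₀ : 0 < c₀) (hε : 0 < ε) : ∃ B N₀ : ℕ, ∀ (a : Fin k → ℤ) (s : ℕ), NoRel B a → Gp F a J s →
      Set.InjOn (· ⬝ᵥ a) F.coeff.support → N₀ ≤ (SS F a).natDegree → Simple (SS F a) →
      Flat (SS F a) (ε * (SS F a).natDegree * Real.log (SS F a).natDegree)
        (((SS F a).natDegree : ℝ) ^ (-c₀)) → Lev (l1 F) s (SS F a) → ¬ Two (SS F a) := by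
  by_cases hu : F.coeff 0 ^ 2 = 1
  · obtain ⟨Θ, hU⟩ := hUnit (l1 F) J
    obtain ⟨B, T₀, hG⟩ := hGrow k F J Θ hF hu
    obtain ⟨σ, hσ, N₀, hU⟩ := hU T₀ c₀ ε hc₀ hε
    obtain ⟨N₁, hD⟩ := degLB hLink hDeg hF.c0 J hσ
    refine ⟨B, N₀ + N₁, fun a s hr hg hi hN hs hfl hl h2 => ?_⟩
    obtain ⟨hlac, hJ, hlc, -⟩ := hLink k F a J s hF.c0 hg hi
    obtain ⟨g, h, St, c, hst⟩ := hSet _ _ _ _ hlac.1 hs h2 (hD a s hg hi (by omega)) hfl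
    obtain ⟨j, hj, hq⟩ := hG a s hr hg
    refine absurd (hU s _ g h St c (by omega) hlac hJ ?_ hst hl j hj) (not_lt.mpr hq)
    rw [hlc]
    exact IsUnit.of_mul_eq_one _ (by rw [← sq, hu])
  · obtain ⟨R, hE⟩ := hEx (l1 F) J
    obtain ⟨T, B, hT, hN'⟩ := hNon k F J R hF hu
    obtain ⟨N₀, hE⟩ := hE T c₀ hT hc₀
    obtain ⟨N₁, hD⟩ := degLB hLink hDeg hF.c0 J (half_pos hc₀)
    have ht : Tendsto (fun N : ℕ => Real.log N) atTop atTop :=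
      Real.tendsto_log_atTop.comp tendsto_natCast_atTop_atTop
    obtain ⟨N₂, h₂⟩ := eventually_atTop.mp (ht.eventually_ge_atTop (T / ε))
    refine ⟨B, N₀ + N₁ + N₂, fun a s hr hg hi hN hs hfl hl h2 => ?_⟩
    obtain ⟨hlac, hJ, -⟩ := hLink k F a J s hF.c0 hg hi
    have hK : ((T * (SS F a).natDegree : ℕ) : ℝ) ≤
        ε * (SS F a).natDegree * Real.log (SS F a).natDegree := by
      have := h₂ (SS F a).natDegree (by omega)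
      rw [div_le_iff₀ hε] at this
      push_cast
      nlinarith [Nat.cast_nonneg (α := ℝ) (SS F a).natDegree]
    obtain ⟨g, h, St, c, hst⟩ := hSet _ _ (T * (SS F a).natDegree : ℕ) _ hlac.1 hs h2
      (hD a s hg hi (by omega))
      fun α α' h1 h2 h3 h4 j h5 h6 => hfl α α' h1 h2 h3 h4 j h5 (h6.trans hK)
    obtain ⟨r, s₀, Y, r0, r1, r2, hY⟩ := hE s _ g h St c (by omega) hlac hJ hst hl
    exact hN' a s hr hg hs r s₀ Y r0 r1 r2 hY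

end Stepx

theorem p_Step (hGeo : S_Geo2) (hStar : S_StarAll) (hLink : S_Link) (hTwo : S_Two)
    (hDeg : S_DegM) (hFA : S_FlatAll) (hSet : S_Setup) (hLev : S_Levels) (hUnit : S_Unit)
    (hGrow : S_Grow) (hEx : S_Exact) (hNon : S_NonU) (hLac : S_Lac) : S_Step := by
  intro k F κ hF hκ
  obtain ⟨J, ν₁, hG⟩ := hGeo k F κ hκ
  obtain ⟨A, ν₂, hA, hS⟩ := hStar k F κ hF hκ
  obtain ⟨c₀, ε, hc₀, hε, ν₃, hFl⟩ := hFA k F J A hF.c0 hA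
  obtain ⟨B₁, hL⟩ := hLev k F J hF
  obtain ⟨B₂, N₀, hfin⟩ := Stepx.fin hLink hDeg hSet hUnit hGrow hEx hNon hF J hc₀ hε
  obtain ⟨i, j, hij⟩ := hF.nc.exists_ne
  refine ⟨1 + ν₁ + ν₂ + ν₃ + B₁ + B₂ + J * N₀, fun a hv hih => ?_⟩
  have hν := hv.1.lt_nu (by omega) hij
  obtain ⟨s, hg⟩ := hG a (by omega) hv.2.1
  obtain ⟨hi, hN, hl, hh⟩ := hL a s (hv.1.mono (by omega)) hg
  obtain ⟨hsim, hst⟩ := hS _ a (by omega) hv hih
  obtain ⟨hlac, -, -, -, -, -, -, hsi, hto⟩ := hLink k F a J s hF.c0 hg hi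
  have hsN := ((hLac _ _ _ hlac).2.2.2.1 hN).1
  have hN₀ : N₀ ≤ (SS F a).natDegree := by
    have h1 := hg.2.2.1
    have h2 : J * N₀ < J * s := by omega
    exact (lt_of_mul_lt_mul_left h2 (Nat.zero_le _)).le.trans hsN
  refine ⟨hh, fun h2 => hfin a s (hv.1.mono (by omega)) hg hi hN₀ (hsi hsim)
    (hFl a s (by omega) hg hi hN hst) hl (hTwo _ _ _ ?_ hto (hsi hsim) h2)⟩
  intro e
  exact hlac.1 (by rw [e, coeff_zero])

end Pool.Agent.P.MP_aef18a_nt.OW
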