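import Pool.Agent.P.MP_aef18a_nt.OW.Iface

namespace Pool.Agent.P.MP_aef18a_nt.OW

open Polynomial Matrix LaurentPolynomial

namespace Transx

lemma dvd_coe {n : ℕ} {p : ℚ[X]} :
    (PowerSeries.X : PowerSeries ℚ) ^ n ∣ (p : PowerSeries ℚ) ↔ X ^ n ∣ p := by
  simp only [PowerSeries.X_pow_dvd_iff, Polynomial.X_pow_dvd_iff, Polynomial.coeff_coe]

lemma dvd_map {n : ℕ} {p : PowerSeries ℤ} :
    (PowerSeries.X : PowerSeries ℚ) ^ n ∣ PowerSeries.map (Int.castRingHom ℚ) p ↔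
      PowerSeries.X ^ n ∣ p := by
  simp [PowerSeries.X_pow_dvd_iff]

lemma bin_pow (x : ℚ) (n : ℕ) :
    PowerSeries.binomialSeries ℚ x ^ n = PowerSeries.binomialSeries ℚ (n * x) := by
  induction n with
  | zero => simp
  | succ n ih =>
    rw [pow_succ, ih, ← PowerSeries.binomialSeries_add]
    congr 1
    push_cast
    ring

variable {k : ℕ}

/-- the normalized tail of `F` -/
noncomputable def WW (F : LQ ℤ k) : LP k := (F.coeff 0 : ℚ)⁻¹ • toQ F + (-1 : ℚ) • 1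

/-- the truncated root -/
noncomputable def AA (F : LQ ℤ k) (B : ℚ[X]) (K : ℕ) : LP k :=
  ∑ i ∈ Finset.range (K + 1), B.coeff i • WW F ^ i

lemma mem_WW {F : LQ ℤ k} (h0 : F.coeff 0 ≠ 0) {u : Fin k → ℤ} (hu : u ∈ (WW F).coeff.support) :
    u ∈ F.coeff.support ∧ u ≠ 0 := by
  have hc : (F.coeff 0 : ℚ) ≠ 0 := by exact_mod_cast h0
  rw [Finsupp.mem_support_iff] at hu ⊢
  simp only [WW, AddMonoidAlgebra.coeff_add, AddMonoidAlgebra.coeff_smul, Finsupp.add_apply,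
    Finsupp.smul_apply, toQ_coeff, AddMonoidAlgebra.one_def, AddMonoidAlgebra.coeff_single,
    smul_eq_mul] at hu
  have hne : u ≠ 0 := by
    rintro rfl
    apply hu
    rw [inv_mul_cancel₀ hc, Finsupp.single_eq_same]
    ring
  refine ⟨fun e => hu ?_, hne⟩
  rw [e, Finsupp.single_eq_of_ne hne]
  simp

lemma mem_AA {F : LQ ℤ k} {B : ℚ[X]} {K : ℕ} {u : Fin k → ℤ}
    (hu : u ∈ (AA F B K).coeff.support) : ∃ i ≤ K, u ∈ (WW F ^ i).coeff.support := by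
  by_contra hn
  push Not at hn
  refine Finsupp.mem_support_iff.mp hu ?_
  rw [AA, AddMonoidAlgebra.coeff_sum, Finsupp.coe_finsetSum, Finset.sum_apply]
  refine Finset.sum_eq_zero fun i hi => ?_
  rw [AddMonoidAlgebra.coeff_smul, Finsupp.smul_apply,
    Finsupp.notMem_support_iff.mp (hn i (Nat.lt_succ_iff.mp (Finset.mem_range.mp hi))), smul_zero]

lemma mem_pow {W : LP k} {Δ N : ℕ} {a a₀ : Fin k → ℤ}
    (h : ∀ u ∈ W.coeff.support, (∀ j, |u j| ≤ Δ) ∧ -(u ⬝ᵥ a) ≤ N * -(u ⬝ᵥ a₀)) (i : ℕ) :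
    ∀ u ∈ (W ^ i).coeff.support, (∀ j, |u j| ≤ i * Δ) ∧ -(u ⬝ᵥ a) ≤ N * -(u ⬝ᵥ a₀) := by
  induction i with
  | zero =>
    intro u hu
    rw [pow_zero, AddMonoidAlgebra.one_def] at hu
    simp [mem_single hu]
  | succ i ih =>
    intro z hz
    rw [pow_succ] at hz
    obtain ⟨u, hu, w, hw, rfl⟩ := mem_mul hz
    refine ⟨fun j => ?_, ?_⟩
    · have := (ih u hu).1 j
      have := (h w hw).1 j
      have := abs_add_le (u j) (w j)
      rw [Pi.add_apply]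
      push_cast
      linarith
    · have := (ih u hu).2
      have := (h w hw).2
      rw [add_dotProduct, add_dotProduct]
      linarith

lemma root {F : LQ ℤ k} (h0 : F.coeff 0 ≠ 0) {B : ℚ[X]} {K r s₀ : ℕ} (hd : B.natDegree ≤ K)
    (hB0 : B.coeff 0 = 1) (hB : X ^ (K + 1) ∣ B ^ s₀ - (1 + X) ^ r) (hr : r ≤ s₀)
    {a : Fin k → ℤ} {s : ℕ} (hs : 1 ≤ s) (hg : ∀ u ∈ F.coeff.support, u ≠ 0 → u ⬝ᵥ a + s ≤ 0) :
    Ng a (AA F B K) ∧ (pl a (AA F B K)).coeff 0 = 1 ∧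
      (PowerSeries.X : PowerSeries ℚ) ^ (s * (K + 1)) ∣
        ((Polynomial.C (F.coeff 0 : ℚ) * pl a (AA F B K) : ℚ[X]) : PowerSeries ℚ) ^ s₀ -
          PowerSeries.map (Int.castRingHom ℚ)
            (PowerSeries.C (F.coeff 0 ^ (s₀ - r)) * (pl a F : PowerSeries ℤ) ^ r) := by
  have hc : (F.coeff 0 : ℚ) ≠ 0 := by exact_mod_cast h0
  have hF : Ng a (toQ F : LP k) := (ng_of_gap hg).subset (support_toQ F).subset
  have hW : Ng a (WW F) := (hF.smul _).add ((Ng.one a).smul _)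
  have hi : ∀ i ∈ Finset.range (K + 1), Ng a (B.coeff i • WW F ^ i) := fun i _ => (hW.pow i).smul _
  have e1 : 1 + pl a (WW F) =
      Polynomial.C (F.coeff 0 : ℚ)⁻¹ * (pl a F).map (Int.castRingHom ℚ) := by
    rw [WW, pl_add (hF.smul _) ((Ng.one a).smul _), pl_smul, pl_smul, pl_one, pl_toQ,
      Polynomial.smul_eq_C_mul]
    simp
  have e2 : pl a (AA F B K) = aeval (pl a (WW F)) B := by
    rw [AA, pl_sum hi, aeval_eq_sum_range' (Nat.lt_succ_of_le hd)]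
    exact Finset.sum_congr rfl fun i _ => by rw [pl_smul, pl_pow hW]
  have e3 : X ^ s ∣ pl a (WW F) := by
    rw [Polynomial.X_pow_dvd_iff]
    intro m hm
    rw [pl_coeff_ng hW]
    refine Finset.sum_eq_zero fun u hu => ?_
    obtain ⟨h1, h2⟩ := Finset.mem_filter.mp hu
    have := hg u (mem_WW h0 h1).1 (mem_WW h0 h1).2
    omega
  refine ⟨Ng.sum hi, ?_, ?_⟩
  · rw [e2, ← comp_eq_aeval, coeff_zero_eq_eval_zero, eval_comp, ← coeff_zero_eq_eval_zero,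
      Polynomial.X_pow_dvd_iff.mp e3 0 hs, ← coeff_zero_eq_eval_zero, hB0]
  · have e4 := map_dvd (aeval (pl a (WW F))) hB
    simp only [map_pow, map_sub, map_add, map_one, aeval_X] at e4
    rw [← e2, e1] at e4
    have e5 := ((pow_dvd_pow_of_dvd e3 (K + 1)).trans e4).mul_left
      (Polynomial.C (F.coeff 0 : ℚ) ^ s₀)
    have e6 : (F.coeff 0 : ℚ) ^ s₀ * (F.coeff 0 : ℚ)⁻¹ ^ r = (F.coeff 0 : ℚ) ^ (s₀ - r) := by
      rw [inv_pow, pow_sub₀ _ hc hr]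
    rw [← pow_mul, mul_sub, ← mul_pow, mul_pow (Polynomial.C _⁻¹), ← mul_assoc, ← map_pow,
      ← map_pow, ← map_mul, e6, ← dvd_coe] at e5
    rwa [Polynomial.coe_sub, Polynomial.coe_pow, Polynomial.coe_mul (Polynomial.C (_ ^ _)),
      Polynomial.coe_pow, Polynomial.coe_C, Polynomial.polynomial_map_coe, ← Int.cast_pow,
      ← eq_intCast (Int.castRingHom ℚ) (_ ^ _), ← PowerSeries.map_C,
      ← map_pow (PowerSeries.map _), ← map_mul] at e5

end Transx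

open Transx

theorem p_Tr1 : S_Tr1 := by
  refine ⟨fun r s₀ J hs => ?_, fun u v s₀ K hs h1 h2 h3 => ?_⟩
  · refine ⟨PowerSeries.trunc (J + 1) (PowerSeries.binomialSeries ℚ (r / s₀ : ℚ)),
      Nat.lt_succ_iff.mp (PowerSeries.natDegree_trunc_lt _ _), by simp [PowerSeries.coeff_trunc], ?_⟩
    have h1 : (PowerSeries.X : PowerSeries ℚ) ^ (J + 1) ∣
        (PowerSeries.trunc (J + 1) (PowerSeries.binomialSeries ℚ (r / s₀ : ℚ)) : ℚ[X]) -
          PowerSeries.binomialSeries ℚ (r / s₀ : ℚ) := by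
      rw [PowerSeries.X_pow_dvd_iff]
      intro m hm
      rw [map_sub, Polynomial.coeff_coe, PowerSeries.coeff_trunc, if_pos hm, sub_self]
    have h2 := h1.trans (sub_dvd_pow_sub_pow _ _ s₀)
    rw [bin_pow, mul_div_cancel₀ _ (by exact_mod_cast hs.ne'),
      PowerSeries.binomialSeries_nat] at h2
    rw [← dvd_coe]
    simpa using h2
  · rw [← (Commute.all u v).geom_sum₂_mul s₀] at h3
    refine (IsUnit.dvd_mul_left ?_).mp h3
    rw [PowerSeries.isUnit_iff_constantCoeff, isUnit_iff_ne_zero, map_sum]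
    simp only [PowerSeries.coeff_zero_eq_constantCoeff] at h1 h2
    rw [Finset.sum_congr rfl (g := fun _ => PowerSeries.constantCoeff u ^ (s₀ - 1)) fun i hi => by
      have := Finset.mem_range.mp hi
      rw [map_mul, map_pow, map_pow, ← h1, ← pow_add]
      congr 1
      omega]
    simp [h2, hs.ne']

theorem p_Trans (h : S_Tr1) : S_Trans := by
  intro k F a a₀ Δ J s N T r s₀ Y h0 hb hs hJ hg hN hR hg0 hr hs0 hY
  have hc : (F.coeff 0 : ℚ) ≠ 0 := by exact_mod_cast h0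
  obtain ⟨B, hd, hB0, hB⟩ := h.1 r s₀ (T * J) hs0
  have hg1 : ∀ u ∈ F.coeff.support, u ≠ 0 → u ⬝ᵥ a + s ≤ 0 := fun u hu e => (hg u hu e).1
  have hg2 : ∀ u ∈ F.coeff.support, u ≠ 0 → u ⬝ᵥ a₀ + (1 : ℕ) ≤ 0 := fun u hu e => by
    simpa using hg0 u hu e
  obtain ⟨n1, c1, d1⟩ := root h0 hd hB0 hB hr hs hg1
  obtain ⟨n2, c2, d2⟩ := root h0 hd hB0 hB hr le_rfl hg2
  obtain ⟨y0, y1⟩ := hY
  rw [pl_coeff_zero hs hg1] at y0 y1
  rw [← dvd_map, map_sub, map_pow] at y1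
  have l1 : T * N + 1 ≤ s * (T * J + 1) := by nlinarith [Nat.mul_le_mul_left T hN]
  have d3 := y1.sub ((pow_dvd_pow _ l1).trans d1)
  rw [sub_sub_sub_cancel_right] at d3
  have d4 := PowerSeries.X_pow_dvd_iff.mp (h.2 _ _ s₀ _ hs0 (by simp [y0, c1]) (by simp [y0, h0]) d3)
  have hA : ∀ u ∈ (AA F B (T * J)).coeff.support,
      (∀ j, |u j| ≤ (T * J * Δ : ℕ)) ∧ -(u ⬝ᵥ a) ≤ N * -(u ⬝ᵥ a₀) := by
    intro u hu
    obtain ⟨i, hi, hu⟩ := mem_AA hu
    obtain ⟨p1, p2⟩ := mem_pow (Δ := Δ) (N := N) (a := a) (a₀ := a₀) (fun w hw => by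
      obtain ⟨q1, q2⟩ := mem_WW h0 hw
      have := hg0 w q1 q2
      have := (hg w q1 q2).2
      exact ⟨hb w q1, by nlinarith [Int.natCast_nonneg N]⟩) i u hu
    exact ⟨fun j => (p1 j).trans (by exact_mod_cast Nat.mul_le_mul_right Δ hi), p2⟩
  have inj := NoRel.injOn (hR.mono (E' := 2 * (T * J * Δ)) (le_of_eq (by ring)))
    (Bx.wb fun u hu => (hA u hu).1)
  have hz : ∀ m : ℕ, ∃ z : ℤ, m ≤ T →
      (z : ℚ) = F.coeff 0 * (pl a₀ (AA F B (T * J))).coeff m := by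
    intro m
    refine ⟨∑ u ∈ (AA F B (T * J)).coeff.support.filter (fun u => -(u ⬝ᵥ a₀) = m),
      PowerSeries.coeff (-(u ⬝ᵥ a)).toNat Y, fun hm => ?_⟩
    rw [pl_coeff_ng n2, Finset.mul_sum, Int.cast_sum]
    refine Finset.sum_congr rfl fun u hu => ?_
    obtain ⟨q1, q2⟩ := Finset.mem_filter.mp hu
    have q3 := (hA u q1).2
    have q4 : (N : ℤ) * m ≤ (T * N : ℕ) := by exact_mod_cast (by nlinarith : N * m ≤ T * N)
    have := d4 (-(u ⬝ᵥ a)).toNat (by rw [q2] at q3; omega)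
    rw [map_sub, Polynomial.coeff_coe, coeff_C_mul, pl_coeff_inj n1 inj q1, sub_eq_zero] at this
    simpa using this
  choose z hz using hz
  refine ⟨PowerSeries.mk z, ?_, ?_⟩
  · have := hz 0 (Nat.zero_le _)
    rw [c2, mul_one] at this
    rw [PowerSeries.coeff_mk, pl_coeff_zero le_rfl hg2]
    exact_mod_cast this
  · rw [pl_coeff_zero le_rfl hg2, ← dvd_map, map_sub, map_pow]
    have d5 : (PowerSeries.X : PowerSeries ℚ) ^ (T + 1) ∣
        PowerSeries.map (Int.castRingHom ℚ) (PowerSeries.mk z) -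
          ((Polynomial.C (F.coeff 0 : ℚ) * pl a₀ (AA F B (T * J)) : ℚ[X]) : PowerSeries ℚ) := by
      rw [PowerSeries.X_pow_dvd_iff]
      intro m hm
      rw [map_sub, Polynomial.coeff_coe, coeff_C_mul, ← hz m (Nat.lt_succ_iff.mp hm)]
      simp
    have l2 : T + 1 ≤ 1 * (T * J + 1) := by nlinarith
    have := (d5.trans (sub_dvd_pow_sub_pow _ _ s₀)).add ((pow_dvd_pow _ l2).trans d2)
    rwa [sub_add_sub_cancel] at this

end Pool.Agent.P.MP_aef18a_nt.OW
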