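import Pool.Agent.P.MP_aef18a_nt.OW.Iface

namespace Pool.Agent.P.MP_aef18a_nt.OW

open Polynomial Matrix LaurentPolynomial

theorem p_UA (hL : S_Lac) (hE : S_Energy) (hU : S_Up) (hD : S_Dold) (hM : S_Mono) (hC : S_CycMu) :
    S_UA := by
  intro L J
  obtain ⟨C', hC'⟩ := hE (max 1 ((L : ℝ) ^ J)) (le_max_left _ _)
  refine ⟨8 * C', fun s K T t S g h St c y η hl hN hJ hu hS hv hK hT ht hη => ?_⟩
  obtain ⟨L1, -, -, L2, -, L3⟩ := hL L s S hl
  have hS0 : S ≠ 0 := fun e => by simp [e] at hN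
  have unit : ∀ f : ℤ[X], f ∣ S → IsUnit f.leadingCoeff := by
    rintro f ⟨r, e⟩
    rw [e, leadingCoeff_mul] at hu
    exact isUnit_of_mul_isUnit_left hu
  have en : ∀ f : ℤ[X], f ∣ S → (f.aroots ℂ).Nodup → ∑ j ∈ Finset.Icc 1 S.natDegree,
      ‖ps f j‖ ^ 2 / j ≤ C' * S.natDegree * (1 + Real.log S.natDegree) := fun f hf hn => by
    refine hC' f _ hN (unit f hf) (natDegree_le_of_dvd hf hS0) hn fun β hβ => ?_
    obtain ⟨r, e⟩ := hf
    have : aeval β S = 0 := by rw [e, map_mul, (mem_aroots.1 hβ).2, zero_mul]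
    exact ((L3 β this).2.1 J _ hJ).trans (le_max_right _ _)
  have hg : g ∣ S := ⟨h, hS.gh⟩
  have e1 := en g hg (Multiset.nodup_of_le hS.sub hS.nodup)
  have e2 := en St ⟨_, hS.cyc⟩ hS.nodup
  obtain ⟨de, hde⟩ : ∃ de : ℂ, de = (g.natDegree : ℂ) / St.natDegree := ⟨_, rfl⟩
  have hf := hS.flat
  rw [← hde] at hf ⊢
  have hde1 : ‖de‖ ≤ 1 := by
    rw [hde, norm_div, Complex.norm_natCast, Complex.norm_natCast]
    refine div_le_one_of_le₀ ?_ (Nat.cast_nonneg _)
    rw [← card_aroots, ← card_aroots]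
    exact_mod_cast Multiset.card_le_card hS.sub
  have hN0 : (0 : ℝ) < S.natDegree := by exact_mod_cast hN
  have hη0 : 0 ≤ S.natDegree * η :=
    (norm_nonneg _).trans (hf 1 le_rfl (by exact_mod_cast hN.trans_le hK))
  obtain ⟨Ex, x1, x2⟩ := hM L s T S hl
  have key := hU (fun j => ps g j - de * ps St j) S.natDegree K t
    (4 * (C' * S.natDegree * (1 + Real.log S.natDegree))) Ex hN hK ht (fun d d1 d2 => ?_) ?_
  · refine key.trans (add_le_add (le_of_eq (by ring)) ?_)
    have : (Ex.card : ℝ) ^ 3 ≤ ((T : ℝ) + 1) ^ (3 * L) := by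
      rw [mul_comm, pow_mul]
      exact pow_le_pow_left₀ (Nat.cast_nonneg _) (by exact_mod_cast x1) 3
    gcongr
  · have d0 : 1 ≤ d := by omega
    have b : ‖mu (fun j => ps g j - de * ps St j) d‖ ≤ S.natDegree := by
      refine (norm_mu_le_card fun e a b => hf e a (by exact_mod_cast b.trans d2)).trans ?_
      have : (d.divisors.card : ℝ) ≤ t := by exact_mod_cast ht d d0 d2
      nlinarith [mul_le_mul_of_nonneg_right this hη0, mul_le_mul_of_nonneg_left hη hN0.le]
    refine ⟨b, fun hne => by_contra fun hd => hne ?_⟩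
    have a1 : mu (ps S) d = 0 := by_contra fun a => hd (x2 d d0 (d2.trans hT) a)
    have a2 : ps S = fun j => ps St j + ps (c.map fun l => cyclotomic l ℤ).prod j :=
      funext fun j => by rw [← ps_mul (hS.cyc ▸ hS0), ← hS.cyc]
    rw [a2, mu_add, hC c d fun l hl => ⟨hS.pos l hl, ?_⟩, add_zero] at a1
    · obtain ⟨z, hz⟩ := hD g (unit g hg) d d0
      rw [mu_sub, mu_mul, a1, mul_zero, sub_zero, hz] at b ⊢
      rw [norm_mul, Complex.norm_natCast, Complex.norm_intCast] at b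
      have a3 : z = 0 := by
        by_contra a
        have a4 : (1 : ℝ) ≤ |(z : ℝ)| := by exact_mod_cast Int.one_le_abs a
        have a5 : (S.natDegree : ℝ) < d := by exact_mod_cast d1
        nlinarith
      simp [a3]
    · have a3 := hv l (hS.pos l hl) (hS.cyc ▸ Dvd.dvd.mul_left
        (Multiset.dvd_prod (Multiset.mem_map_of_mem _ hl)) St)
      have a4 := (L2 hN).1
      nlinarith
  · refine le_trans (Finset.sum_le_sum (g := fun j =>
      2 * (‖ps g j‖ ^ 2 / j) + 2 * (‖ps St j‖ ^ 2 / j)) fun j _ => ?_) ?_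
    · have a1 : ‖ps g j - de * ps St j‖ ≤ ‖ps g j‖ + ‖ps St j‖ := by
        refine (norm_sub_le _ _).trans (add_le_add le_rfl ?_)
        rw [norm_mul]
        exact mul_le_of_le_one_left (norm_nonneg _) hde1
      rw [← mul_div_assoc, ← mul_div_assoc, ← add_div]
      refine div_le_div_of_nonneg_right ?_ (Nat.cast_nonneg _)
      nlinarith [pow_le_pow_left₀ (norm_nonneg _) a1 2, sq_nonneg (‖ps g j‖ - ‖ps St j‖)]
    · rw [Finset.sum_add_distrib, ← Finset.mul_sum, ← Finset.mul_sum]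
      linarith

end Pool.Agent.P.MP_aef18a_nt.OW
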