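import Pool.Agent.P.MP_aef18a_nt.OW.Iface

namespace Pool.Agent.P.MP_aef18a_nt.OW

open Polynomial Matrix LaurentPolynomial

namespace Unitx

open Filter

lemma evt (C c β : ℝ) (m : ℕ) (hc : 0 < c) (hβ : 0 < β) :
    ∀ᶠ N : ℕ in atTop, C * (1 + Real.log N) ^ m < c * (N : ℝ) ^ β := by
  have h := (((isLittleO_pow_exp_pos_mul_atTop m hβ).comp_tendsto
    (tendsto_atTop_add_const_left _ 1 (Real.tendsto_log_atTop.comp
      tendsto_natCast_atTop_atTop))).const_mul_left C).def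
    (show 0 < c / 2 / Real.exp β by positivity)
  filter_upwards [h, eventually_gt_atTop 0] with N h1 h2
  have h3 : (0 : ℝ) < N := by exact_mod_cast h2
  simp only [Function.comp, Real.norm_eq_abs, Real.abs_exp] at h1
  rw [mul_add, mul_one, Real.exp_add, mul_comm β, ← Real.rpow_def_of_pos h3, ← mul_assoc,
    div_mul_cancel₀ _ (Real.exp_ne_zero _)] at h1
  have := mul_pos hc (Real.rpow_pos_of_pos h3 β)
  linarith [le_abs_self (C * (1 + Real.log N) ^ m)]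

lemma sum_nodup {M : Multiset ℂ} (h : M.Nodup) (f : ℂ → ℂ) :
    ∑ β ∈ M.toFinset, f β = (M.map f).sum := by
  rw [Finset.sum_eq_multiset_sum, Multiset.toFinset_val, h.dedup]

lemma sum_w {g St : ℤ[X]} (h1 : g.aroots ℂ ≤ St.aroots ℂ) (h2 : (St.aroots ℂ).Nodup) (e : ℂ)
    (i : ℕ) : ∑ β ∈ (St.aroots ℂ).toFinset, ((if β ∈ g.aroots ℂ then 1 else 0) - e) * β ^ i =
      ps g i - e * ps St i := by
  simp only [sub_mul, Finset.sum_sub_distrib, ← Finset.mul_sum, ite_mul, one_mul, zero_mul]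
  rw [← Finset.sum_filter, sum_nodup h2, ps, ps, ← sum_nodup (Multiset.nodup_of_le h1 h2)]
  congr 2
  ext β
  simp only [Finset.mem_filter, Multiset.mem_toFinset]
  exact ⟨fun h => h.2, fun h => ⟨Multiset.mem_of_le h1 h, h⟩⟩

lemma last {C c ε x l t K T J A B G o F : ℝ} {L : ℕ}
    (h : c * o ^ 2 * F * x ^ 2 ≤ C * t ^ 2 * K * x * l ^ 2 + 2 * (T + 1) ^ (3 * L) * K * x)
    (e : (|C| * ε + 2 * (ε * J + 1) ^ (3 * L) * ε) * l ^ (3 * L + 3) < c / 4 * B) (hc : 0 < c)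
    (hε : 0 < ε) (x0 : 0 < x) (l1 : 1 ≤ l) (K0 : 0 ≤ K) (T0 : 0 ≤ T) (J0 : 0 ≤ J) (A0 : 0 < A)
    (_ : 0 ≤ t) (f1 : G ≤ 4 * F) (f2 : t ^ 2 ≤ A) (f3 : 1 ≤ A) (f4 : o ^ 2 * G = A * B)
    (f5 : K ≤ ε * x * l) (f6 : T + 1 ≤ (ε * J + 1) * l) : False := by
  have g1 : C * t ^ 2 * K * x * l ^ 2 ≤ A * x ^ 2 * (|C| * ε * l ^ (3 * L + 3)) :=
    calc _ ≤ |C| * A * (ε * x * l) * x * l ^ 2 := by gcongr; exact le_abs_self C
      _ = A * x ^ 2 * (|C| * ε * l ^ 3) := by ring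
      _ ≤ _ := by gcongr; omega
  have g2 : 2 * (T + 1) ^ (3 * L) * K * x ≤
      A * x ^ 2 * (2 * (ε * J + 1) ^ (3 * L) * ε * l ^ (3 * L + 3)) :=
    calc _ ≤ 2 * ((ε * J + 1) * l) ^ (3 * L) * (ε * x * l) * x := by gcongr
      _ = 1 * x ^ 2 * (2 * (ε * J + 1) ^ (3 * L) * ε * l ^ (3 * L + 1)) := by rw [mul_pow]; ring
      _ ≤ _ := by gcongr; omega
  have g3 : A * x ^ 2 * (c / 4 * B) ≤ c * o ^ 2 * F * x ^ 2 :=
    calc _ = c / 4 * x ^ 2 * (o ^ 2 * G) := by rw [f4]; ring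
      _ ≤ c / 4 * x ^ 2 * (o ^ 2 * (4 * F)) := by gcongr
      _ = _ := by ring
  have g4 := mul_lt_mul_of_pos_left e (show 0 < A * x ^ 2 by positivity)
  rw [add_mul, mul_add] at g4
  linarith

end Unitx

open Unitx Filter in
theorem p_Unit (_hL : S_Lac) (hA : S_UA) (hW : S_Low) (hD : S_Div) : S_Unit := by
  intro L J
  obtain ⟨Θ, c₁, hc, hW⟩ := hW L J
  obtain ⟨C, hA⟩ := hA L J
  refine ⟨Θ, fun T₀ c₀ ε hc₀ hε => ?_⟩
  obtain ⟨γ, hγe⟩ : ∃ γ : ℝ, γ = ε / (T₀ + 1) := ⟨_, rfl⟩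
  have hγ : 0 < γ := by rw [hγe]; positivity
  obtain ⟨δ, hδ, d1, d2⟩ : ∃ δ : ℝ, 0 < δ ∧ δ ≤ c₀ ∧ δ ≤ γ / 8 :=
    ⟨min c₀ (γ / 8), by positivity, min_le_left .., min_le_right ..⟩
  obtain ⟨Cd, hCd, hD⟩ := hD (δ / 4) (by positivity)
  have E1 : ∀ᶠ N : ℕ in atTop, 1 ≤ γ * Real.log N :=
    ((Real.tendsto_log_atTop.comp tendsto_natCast_atTop_atTop).const_mul_atTop
      hγ).eventually_ge_atTop 1
  obtain ⟨N₀, hN⟩ := eventually_atTop.1 (E1.and ((evt ε 1 1 1 one_pos one_pos).and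
    ((evt Cd 1 (δ / 2) 0 one_pos (by positivity)).and
    ((evt (|C| * ε + 2 * (ε * J + 1) ^ (3 * L) * ε) (c₁ / 4) (γ / 2) (3 * L + 3) (by positivity)
      (by positivity)).and (eventually_gt_atTop 0)))))
  refine ⟨γ / 8, by positivity, N₀, fun s S g h St c h0 hl hJ hu hS hv k hk => ?_⟩
  obtain ⟨e1, e2, e3, e4, e5⟩ := hN _ h0
  by_contra hQ
  have hW := fun Z w ω j => hW s S Z w ω k j hl e5 hJ
  have hA := fun K T t y η => hA s K T t S g h St c y η hl e5 hJ hu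
  have S0 : S ≠ 0 := by rintro rfl; simp at e5
  have nN : St.natDegree ≤ S.natDegree := natDegree_le_of_dvd ⟨_, hS.cyc⟩ S0
  generalize S.natDegree = N at *
  have x1 : (1 : ℝ) ≤ N := by exact_mod_cast e5
  have x0 : (0 : ℝ) < N := by linarith
  have l0 := Real.log_nonneg x1
  obtain ⟨j, j1, j2, j3⟩ : ∃ j : ℕ, 1 ≤ j ∧ (j : ℝ) ≤ γ * Real.log N ∧ γ * Real.log N < j + 1 :=
    ⟨_, Nat.le_floor (by simpa using e1), Nat.floor_le (by linarith), Nat.lt_floor_add_one _⟩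
  have k1 : ((j * (T₀ + 1) : ℕ) : ℝ) ≤ ε * Real.log N := by
    rw [hγe, div_mul_eq_mul_div, le_div_iff₀ (by positivity)] at j2
    exact_mod_cast j2
  have k2 : j * k + N ≤ j * (T₀ + 1) * N := by nlinarith [Nat.mul_le_mul_left j hk]
  have k3 : j * (T₀ + 1) * N ≤ j * (T₀ + 1) * J * s := by
    rw [mul_assoc _ J]
    exact Nat.mul_le_mul_left _ hJ
  generalize j * (T₀ + 1) = R at *
  have k4 : ((R * N : ℕ) : ℝ) ≤ ε * N * Real.log N := by push_cast; nlinarith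
  have up := hA (R * N) (R * J) ⌊(N : ℝ) ^ δ⌋₊ _ _
    { hS with flat := fun i i1 i2 => hS.flat i i1 (i2.trans k4) } hv (by omega) k3
    (fun m m1 m2 => Nat.le_floor ((hD m (by omega)).trans (by
      have m3 : (m : ℝ) ≤ (N : ℝ) ^ (2 : ℝ) := by
        have : (m : ℝ) ≤ (R * N : ℕ) := by exact_mod_cast m2
        rw [Real.rpow_one] at e2
        rw [Real.rpow_two]
        nlinarith
      have m4 := Real.rpow_le_rpow (by positivity) m3 (show 0 ≤ δ / 4 by positivity)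
      rw [← Real.rpow_mul x0.le, show 2 * (δ / 4) = δ / 2 by ring] at m4
      rw [← add_halves δ, Real.rpow_add x0, add_halves]
      exact mul_le_mul (by linarith) m4 (by positivity) (by positivity))))
    (by
      refine (mul_le_mul_of_nonneg_right (Nat.floor_le (by positivity)) (by positivity)).trans ?_
      rw [← Real.rpow_add x0]
      exact Real.rpow_le_one_of_one_le_of_nonpos x1 (by linarith))
  have y0 : (0 : ℝ) < (N : ℝ) ^ (1 - γ / 8) := by positivity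
  have n0 : (0 : ℝ) < St.natDegree := by linarith [hS.lo, hS.hi]
  have om : ∀ a : ℝ, (N : ℝ) ^ (1 - γ / 8) ≤ a → (N : ℝ) ^ (-(γ / 8)) ≤ |a / St.natDegree| := by
    intro a ha
    refine le_trans ?_ (le_abs_self _)
    rw [le_div_iff₀ n0]
    refine (mul_le_mul_of_nonneg_left (Nat.cast_le.2 nN) (by positivity)).trans (le_trans ?_ ha)
    rw [← Real.rpow_add_one x0.ne', neg_add_eq_sub]
  have lo := hW (St.aroots ℂ).toFinset
    (fun β => (if β ∈ g.aroots ℂ then 1 else 0) - (g.natDegree : ℂ) / St.natDegree)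
    ((N : ℝ) ^ (-(γ / 8))) j
    (fun β hβ => by rw [hS.cyc, map_mul, (mem_aroots.1 (Multiset.mem_toFinset.1 hβ)).2, zero_mul])
    (fun β b1 b2 => Multiset.mem_toFinset.2 (hS.out β b1 b2)) (by positivity) (fun β _ => by
      split_ifs
      · refine (om (St.natDegree - g.natDegree) (by linarith [hS.hi])).trans_eq ?_
        rw [sub_div, div_self n0.ne', ← Real.norm_eq_abs, ← Complex.norm_real]
        simp
      · refine (om _ hS.lo).trans_eq ?_
        simp [abs_div]) j1 (not_lt.1 hQ)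
  simp only [sum_w hS.sub hS.nodup] at lo
  have ch := (lo.trans (Finset.sum_le_sum_of_subset_of_nonneg (Finset.Icc_subset_Icc_right k2)
    fun _ _ _ => by positivity)).trans up
  have f1 : (N : ℝ) ^ γ ≤ 4 * 4 ^ j := by
    rw [Real.rpow_def_of_pos x0, ← pow_succ', mul_comm]
    refine (Real.exp_le_exp.2 j3.le).trans ?_
    rw [← Nat.cast_succ, ← Real.exp_one_pow]
    exact pow_le_pow_left₀ (Real.exp_pos _).le (by linarith [Real.exp_one_lt_d9]) _
  have f2 : (⌊(N : ℝ) ^ δ⌋₊ : ℝ) ^ 2 ≤ (N : ℝ) ^ (γ / 4) := by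
    refine (pow_le_pow_left₀ (by positivity) (Nat.floor_le (by positivity)) 2).trans ?_
    rw [← Real.rpow_two, ← Real.rpow_mul x0.le]
    exact Real.rpow_le_rpow_of_exponent_le x1 (by linarith)
  have f3 : 1 ≤ (N : ℝ) ^ (γ / 4) := Real.one_le_rpow x1 (by positivity)
  have f4 : ((N : ℝ) ^ (-(γ / 8))) ^ 2 * (N : ℝ) ^ γ = (N : ℝ) ^ (γ / 4) * (N : ℝ) ^ (γ / 2) := by
    rw [← Real.rpow_two, ← Real.rpow_mul x0.le, ← Real.rpow_add x0, ← Real.rpow_add x0]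
    congr 1
    ring
  have f5 : ((R * N : ℕ) : ℝ) ≤ ε * N * (1 + Real.log N) := k4.trans (by gcongr; linarith)
  have f6 : ((R * J : ℕ) : ℝ) + 1 ≤ (ε * J + 1) * (1 + Real.log N) := by
    have := mul_le_mul_of_nonneg_right k1 (Nat.cast_nonneg (α := ℝ) J)
    have : 0 ≤ ε * J := by positivity
    push_cast
    nlinarith
  exact last ch e4 hc hε x0 (by linarith) (by positivity) (by positivity) (by positivity)
    (by positivity) (by positivity) f1 f2 f3 f4 f5 f6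

end Pool.Agent.P.MP_aef18a_nt.OW
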