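import Pool.Agent.P.MP_aef18a_nt.OW.Iface

namespace Pool.Agent.P.MP_aef18a_nt.OW

open Polynomial Matrix LaurentPolynomial

namespace Upx

open Finset

lemma cnt (K d : ℕ) : (((Icc 1 K).filter (d ∣ ·)).card : ℝ) ≤ K / d := by
  rw [show Icc 1 K = Ioc 0 K from rfl, Nat.Ioc_filter_dvd_card_eq_div]
  exact Nat.cast_div_le

lemma harm {N e : ℕ} (he : 0 < e) :
    ∑ d ∈ (Icc 1 N).filter (e ∣ ·), (d : ℝ)⁻¹ ≤ (e : ℝ)⁻¹ * (1 + Real.log N) := by
  have h := harmonic_le_one_add_log N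
  rw [harmonic_eq_sum_Icc] at h
  push_cast at h
  refine le_trans ?_ (mul_le_mul_of_nonneg_left h (by positivity))
  calc _ ≤ ∑ d ∈ (Icc 1 N).image (e * ·), (d : ℝ)⁻¹ := by
        refine sum_le_sum_of_subset_of_nonneg (fun d hd => ?_) fun _ _ _ => by positivity
        obtain ⟨h1, m, rfl⟩ := mem_filter.1 hd
        have h2 := mem_Icc.1 h1
        exact mem_image_of_mem _ (mem_Icc.2 ⟨Nat.pos_of_mul_pos_left h2.1,
          (Nat.le_mul_of_pos_left m he).trans h2.2⟩)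
    _ = _ := by
        rw [sum_image fun _ _ _ _ h => Nat.eq_of_mul_eq_mul_left he h, mul_sum]
        simp only [Nat.cast_mul, mul_inv]

lemma sq_le {s : Finset ℕ} {f : ℕ → ℝ} {y : ℝ} {t : ℕ} (h0 : 0 ≤ y) (h1 : y ≤ ∑ i ∈ s, f i)
    (h2 : s.card ≤ t) : y ^ 2 ≤ t * ∑ i ∈ s, f i ^ 2 :=
  (pow_le_pow_left₀ h0 h1 2).trans (sq_sum_le_card_mul_sum_sq.trans
    (mul_le_mul_of_nonneg_right (by exact_mod_cast h2) (by positivity)))

variable {x : ℕ → ℂ} {N K t : ℕ}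

lemma partA (h1 : N ≤ K) (ht : ∀ m, 1 ≤ m → m ≤ K → m.divisors.card ≤ t) :
    ∑ j ∈ Icc 1 K, ‖∑ d ∈ j.divisors.filter (· ≤ N), mu x d‖ ^ 2 ≤
      (t : ℝ) ^ 2 * K * (1 + Real.log N) * ∑ j ∈ Icc 1 N, ‖x j‖ ^ 2 / j :=
  calc _ ≤ ∑ j ∈ Icc 1 K, t * ∑ d ∈ j.divisors.filter (· ≤ N), ‖mu x d‖ ^ 2 :=
        sum_le_sum fun j hj => sq_le (norm_nonneg _) (norm_sum_le _ _)
          ((card_filter_le _ _).trans (ht j (mem_Icc.1 hj).1 (mem_Icc.1 hj).2))
    _ = t * ∑ d ∈ Icc 1 N, ∑ _j ∈ (Icc 1 K).filter (d ∣ ·), ‖mu x d‖ ^ 2 := by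
        rw [← mul_sum]
        congr 1
        refine sum_comm' fun j d => ?_
        simp only [mem_Icc, mem_filter, Nat.mem_divisors]
        exact ⟨fun h => ⟨⟨h.1, h.2.1.1⟩, Nat.pos_of_dvd_of_pos h.2.1.1 h.1.1, h.2.2⟩,
          fun h => ⟨h.1.1, ⟨h.1.2, by omega⟩, h.2.2⟩⟩
    _ ≤ t * ∑ d ∈ Icc 1 N, ∑ e ∈ d.divisors, t * K * (‖x e‖ ^ 2 * (d : ℝ)⁻¹) := by
        refine mul_le_mul_of_nonneg_left (sum_le_sum fun d hd => ?_) t.cast_nonneg
        rw [sum_const, nsmul_eq_mul, ← mul_sum, ← sum_mul]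
        refine (mul_le_mul (cnt K d) (sq_le (norm_nonneg _) (norm_mu_le x d)
          (ht d (mem_Icc.1 hd).1 ((mem_Icc.1 hd).2.trans h1))) (by positivity)
          (by positivity)).trans (le_of_eq (by ring))
    _ = t * ∑ e ∈ Icc 1 N, ∑ d ∈ (Icc 1 N).filter (e ∣ ·), t * K * (‖x e‖ ^ 2 * (d : ℝ)⁻¹) := by
        congr 1
        refine sum_comm' fun d e => ?_
        simp only [mem_Icc, mem_filter, Nat.mem_divisors]
        exact ⟨fun h => ⟨⟨h.1, h.2.1⟩, Nat.pos_of_dvd_of_pos h.2.1 h.1.1,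
          (Nat.le_of_dvd h.1.1 h.2.1).trans h.1.2⟩, fun h => ⟨h.1.1, h.1.2, by omega⟩⟩
    _ ≤ t * ∑ e ∈ Icc 1 N, t * K * (‖x e‖ ^ 2 * ((e : ℝ)⁻¹ * (1 + Real.log N))) := by
        refine mul_le_mul_of_nonneg_left (sum_le_sum fun e he => ?_) t.cast_nonneg
        rw [← mul_sum, ← mul_sum]
        have := harm (N := N) (mem_Icc.1 he).1
        gcongr
    _ = _ := by
        rw [mul_sum, mul_sum]
        exact sum_congr rfl fun e _ => by ring

lemma partB {Ex : Finset ℕ} (hN : 1 ≤ N)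
    (h : ∀ d, N < d → d ≤ K → ‖mu x d‖ ≤ N ∧ (mu x d ≠ 0 → d ∈ Ex)) :
    ∑ j ∈ Icc 1 K, ‖∑ d ∈ j.divisors.filter (¬ · ≤ N), mu x d‖ ^ 2 ≤
      (Ex.card : ℝ) ^ 3 * K * N :=
  have hN' : (0 : ℝ) < N := by exact_mod_cast hN
  calc _ ≤ ∑ j ∈ Icc 1 K, Ex.card * ∑ _d ∈ (Ex.filter (N < ·)).filter (· ∣ j), (N : ℝ) ^ 2 := by
        refine sum_le_sum fun j hj => sq_le (f := fun _ => N) (norm_nonneg _) ?_
          ((card_filter_le _ _).trans (card_filter_le _ _))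
        have k : ∀ d ∈ (j.divisors.filter (¬ · ≤ N)).filter (mu x · ≠ 0),
            ‖mu x d‖ ≤ N ∧ d ∈ (Ex.filter (N < ·)).filter (· ∣ j) := fun d hd => by
          simp only [mem_filter, Nat.mem_divisors, not_le] at hd ⊢
          have := h d hd.1.2 ((Nat.le_of_dvd (mem_Icc.1 hj).1 hd.1.1.1).trans (mem_Icc.1 hj).2)
          exact ⟨this.1, ⟨this.2 hd.2, hd.1.2⟩, hd.1.1.1⟩
        rw [← sum_filter_ne_zero]
        exact (norm_sum_le_of_le _ fun d hd => (k d hd).1).trans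
          (sum_le_sum_of_subset_of_nonneg (fun d hd => (k d hd).2) fun _ _ _ => hN'.le)
    _ = Ex.card * ∑ d ∈ Ex.filter (N < ·), ∑ _j ∈ (Icc 1 K).filter (d ∣ ·), (N : ℝ) ^ 2 := by
        rw [← mul_sum]
        congr 1
        refine sum_comm' fun j d => ?_
        simp only [mem_filter]
        tauto
    _ ≤ Ex.card * ∑ _d ∈ Ex.filter (N < ·), (K : ℝ) * N := by
        refine mul_le_mul_of_nonneg_left (sum_le_sum fun d hd => ?_) (by positivity)
        have : (N : ℝ) ≤ d := by exact_mod_cast (mem_filter.1 hd).2.le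
        rw [sum_const, nsmul_eq_mul]
        calc _ ≤ K / N * (N : ℝ) ^ 2 := mul_le_mul_of_nonneg_right ((cnt K d).trans
              (div_le_div_of_nonneg_left K.cast_nonneg hN' this)) (by positivity)
          _ = _ := by field_simp
    _ ≤ _ := by
        rw [sum_const, nsmul_eq_mul, ← mul_assoc, mul_assoc _ (K : ℝ)]
        refine mul_le_mul_of_nonneg_right ?_ (by positivity)
        have : Ex.card * (Ex.filter (N < ·)).card ≤ Ex.card ^ 3 :=
          (Nat.mul_le_mul_left _ (card_filter_le _ _)).trans (by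
            rw [← sq]
            rcases Ex.card.eq_zero_or_pos with e | e
            · simp [e]
            · exact Nat.pow_le_pow_right e (by omega))
        exact_mod_cast this

end Upx

theorem p_Up : S_Up := by
  intro x N K t W Ex hN h1 ht h hW
  have a := Upx.partA (x := x) h1 ht
  have b := Upx.partB hN h
  have c : (t : ℝ) ^ 2 * K * (1 + Real.log N) * ∑ j ∈ Finset.Icc 1 N, ‖x j‖ ^ 2 / j ≤
      (t : ℝ) ^ 2 * K * (1 + Real.log N) * W :=
    mul_le_mul_of_nonneg_left hW (by have := Real.log_natCast_nonneg N; positivity)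
  refine (Finset.sum_le_sum (g := fun j =>
    2 * ‖∑ d ∈ j.divisors.filter (· ≤ N), mu x d‖ ^ 2 +
      2 * ‖∑ d ∈ j.divisors.filter (¬ · ≤ N), mu x d‖ ^ 2) fun j hj => ?_).trans ?_
  · rw [← sum_mu x (Finset.mem_Icc.1 hj).1, ← Finset.sum_filter_add_sum_filter_not _ (· ≤ N)]
    refine (pow_le_pow_left₀ (norm_nonneg _) (norm_add_le _ _) 2).trans ?_
    exact add_sq_le.trans (le_of_eq (by ring))
  · rw [Finset.sum_add_distrib, ← Finset.mul_sum, ← Finset.mul_sum]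
    linarith

end Pool.Agent.P.MP_aef18a_nt.OW
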