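import Pool.Agent.P.MP_aef18a_nt.Ad.All
import Pool.Agent.P.MP_aef18a_nt.OW.Cnt
import Pool.Agent.P.MP_aef18a_nt.OW.Core
import Pool.Agent.P.MP_aef18a_nt.OW.Core2
import Pool.Agent.P.MP_aef18a_nt.OW.Div
import Pool.Agent.P.MP_aef18a_nt.OW.Ebz
import Pool.Agent.P.MP_aef18a_nt.OW.Ebz1
import Pool.Agent.P.MP_aef18a_nt.OW.Energy
import Pool.Agent.P.MP_aef18a_nt.OW.Ex1
import Pool.Agent.P.MP_aef18a_nt.OW.Exact
import Pool.Agent.P.MP_aef18a_nt.OW.Fc1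
import Pool.Agent.P.MP_aef18a_nt.OW.Fc2
import Pool.Agent.P.MP_aef18a_nt.OW.Fin2
import Pool.Agent.P.MP_aef18a_nt.OW.Flat
import Pool.Agent.P.MP_aef18a_nt.OW.FlatAll
import Pool.Agent.P.MP_aef18a_nt.OW.Gap2
import Pool.Agent.P.MP_aef18a_nt.OW.Grow
import Pool.Agent.P.MP_aef18a_nt.OW.GrowT
import Pool.Agent.P.MP_aef18a_nt.OW.Inj
import Pool.Agent.P.MP_aef18a_nt.OW.K0
import Pool.Agent.P.MP_aef18a_nt.OW.K1
import Pool.Agent.P.MP_aef18a_nt.OW.Ker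
import Pool.Agent.P.MP_aef18a_nt.OW.Kk
import Pool.Agent.P.MP_aef18a_nt.OW.Lac
import Pool.Agent.P.MP_aef18a_nt.OW.Lat
import Pool.Agent.P.MP_aef18a_nt.OW.Link
import Pool.Agent.P.MP_aef18a_nt.OW.Low
import Pool.Agent.P.MP_aef18a_nt.OW.LS
import Pool.Agent.P.MP_aef18a_nt.OW.LS1
import Pool.Agent.P.MP_aef18a_nt.OW.Mann
import Pool.Agent.P.MP_aef18a_nt.OW.Mt
import Pool.Agent.P.MP_aef18a_nt.OW.Neck
import Pool.Agent.P.MP_aef18a_nt.OW.NonU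
import Pool.Agent.P.MP_aef18a_nt.OW.NormP
import Pool.Agent.P.MP_aef18a_nt.OW.NoTwo
import Pool.Agent.P.MP_aef18a_nt.OW.Nrm
import Pool.Agent.P.MP_aef18a_nt.OW.NS
import Pool.Agent.P.MP_aef18a_nt.OW.Nu
import Pool.Agent.P.MP_aef18a_nt.OW.Out
import Pool.Agent.P.MP_aef18a_nt.OW.Psi
import Pool.Agent.P.MP_aef18a_nt.OW.Q0
import Pool.Agent.P.MP_aef18a_nt.OW.Rmove
import Pool.Agent.P.MP_aef18a_nt.OW.SetupP
import Pool.Agent.P.MP_aef18a_nt.OW.Star1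
import Pool.Agent.P.MP_aef18a_nt.OW.StarAll
import Pool.Agent.P.MP_aef18a_nt.OW.Step
import Pool.Agent.P.MP_aef18a_nt.OW.Trans
import Pool.Agent.P.MP_aef18a_nt.OW.UA
import Pool.Agent.P.MP_aef18a_nt.OW.Unit
import Pool.Agent.P.MP_aef18a_nt.OW.Up

namespace Pool.Agent.P.MP_aef18a_nt.OW

theorem t_Ebz : S_Ebz := p_Ebz p_Ebz1
theorem t_Cpx : S_Cpx := p_Cpx p_Ebz1
theorem t_K1 : S_K1 := p_K1 t_Cpx
theorem t_K : S_K := p_K p_K0 t_K1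
theorem t_CycP : S_CycP := p_CycP p_Nrm
theorem t_CntA : S_CntA := p_CntA t_Ebz (p_Nd p_K0 t_K1)
theorem t_NtrN : S_NtrN := p_NtrN t_CntA (p_CntB t_Ebz) t_CycP
theorem t_DegM : S_DegM := p_DegM (deg gap dobT)

theorem t_StarAll : S_StarAll :=
  p_StarAll (p_Proc p_Rmove) t_DegM p_Geo2
    (p_NoTwo t_K p_AbsMod p_Inj p_Ker p_Half p_Gap2 p_NtrC t_NtrN) (p_Star1 t_Ebz)

theorem t_FlatAll : S_FlatAll :=
  p_FlatAll p_Link p_Lac (p_Flat p_Lac (p_Core2 (p_Core p_Fc1 p_Fc2 p_Avg)) p_Red)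

theorem t_Unit : S_Unit :=
  p_Unit p_Lac
    (p_UA p_Lac (p_Energy p_Nrm) p_Up (p_Dold p_NS (p_Neck p_NS)) (p_Mono p_Lac p_NS) p_CycMu)
    (p_Low p_Lac (p_LS p_Lac (p_LS1 p_Lac p_NS))) p_Div

theorem t_Grow : S_Grow :=
  p_Grow p_Link p_Lac
    (p_Out p_Link t_CntA (p_CntB t_Ebz) (p_Cop t_Cpx) t_Ebz (p_Bdm p_Lac p_Nrm)) p_Psi
    (p_GrowT p_Psi p_Pole) (p_Qcoef p_Lac p_NS)

theorem t_Exact : S_Exact :=
  p_Exact p_Lac p_NS p_Nu2 (p_Ex1 p_Lac p_NS (p_Neck p_NS) (p_Nu1 p_Lac) p_CycMu) p_Ex2 p_Div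

theorem t_Step : S_Step :=
  p_Step p_Geo2 t_StarAll p_Link p_Two t_DegM t_FlatAll p_Setup
    (p_Levels p_Link p_Lac p_Mann t_CycP t_CntA t_NtrN) t_Unit t_Grow t_Exact
    (p_NonU p_Link (p_Trans p_Tr1) (p_Q0 p_Q0a p_Q0b p_Tr1)) p_Lac

theorem t_Fin2 : S_Fin2 :=
  p_Fin2 czT t_K p_Lat (p_AbsF t_K1) p_Mt (p_Norm t_Step) p_StarIrr

end Pool.Agent.P.MP_aef18a_nt.OW
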