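import Pool.Agent.P.MP_aef18a_nt.OW.Defs

namespace Pool.Agent.P.MP_aef18a_nt.OW

open Polynomial Matrix LaurentPolynomial AddMonoidAlgebra

section Maps

variable {𝕜 : Type} [CommRing 𝕜] {k r : ℕ}

lemma vm_apply (M : Matrix (Fin k) (Fin r) ℤ) (u : Fin k → ℤ) : vm M u = u ᵥ* M := rfl

lemma pb_apply (M : Matrix (Fin k) (Fin r) ℤ) (A : LQ 𝕜 k) :
    pb M A = mapDomain (fun u => u ᵥ* M) A := rfl

lemma dil_apply (m : ℕ) (A : LQ 𝕜 k) : dil m A = mapDomain (fun u => (m : ℤ) • u) A := rfl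

lemma spk_apply (a : Fin k → ℤ) (A : LQ 𝕜 k) : spk a A = mapDomain (fun u => u ⬝ᵥ a) A := rfl

lemma spec_eq_spk (a : Fin k → ℤ) (A : LP k) : spec a A = spk a A := rfl

lemma subst_eq_pb (M : Matrix (Fin k) (Fin k) ℤ) (A : LP k) : subst M A = pb M A := rfl

@[simp] lemma pb_single (M : Matrix (Fin k) (Fin r) ℤ) (u : Fin k → ℤ) (c : 𝕜) :
    pb M (single u c) = single (u ᵥ* M) c := by rw [pb_apply, mapDomain_single]

@[simp] lemma dil_single (m : ℕ) (u : Fin k → ℤ) (c : 𝕜) :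
    dil m (single u c : LQ 𝕜 k) = single ((m : ℤ) • u) c := by rw [dil_apply, mapDomain_single]

@[simp] lemma spk_single (a u : Fin k → ℤ) (c : 𝕜) :
    spk a (single u c : LQ 𝕜 k) = LaurentPolynomial.C c * T (u ⬝ᵥ a) := by
  rw [spk_apply, mapDomain_single, single_eq_C_mul_T]

lemma spec_mul (a : Fin k → ℤ) (A B : LP k) : spec a (A * B) = spec a A * spec a B :=
  map_mul (spk a) A B

lemma spk_pb (M : Matrix (Fin k) (Fin r) ℤ) (b : Fin r → ℤ) (A : LQ 𝕜 k) :
    spk b (pb M A) = spk (M *ᵥ b) A := by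
  induction A using AddMonoidAlgebra.induction_linear with
  | zero => simp
  | add x y hx hy => simp only [map_add, hx, hy]
  | single u c => simp [dotProduct_mulVec]

lemma spec_pb (M : Matrix (Fin k) (Fin r) ℤ) (b : Fin r → ℤ) (A : LP k) :
    spec b (pb M A) = spec (M *ᵥ b) A := spk_pb M b A

lemma pb_pb {q : ℕ} (M : Matrix (Fin k) (Fin r) ℤ) (E : Matrix (Fin r) (Fin q) ℤ) (A : LQ 𝕜 k) :
    pb E (pb M A) = pb (M * E) A := by
  induction A using AddMonoidAlgebra.induction_linear with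
  | zero => simp
  | add x y hx hy => simp only [map_add, hx, hy]
  | single u c => simp

lemma dil_eq_pb (m : ℕ) (A : LQ 𝕜 k) :
    dil m A = pb ((m : ℤ) • (1 : Matrix (Fin k) (Fin k) ℤ)) A := by
  induction A using AddMonoidAlgebra.induction_linear with
  | zero => simp
  | add x y hx hy => simp only [map_add, hx, hy]
  | single u c => rw [dil_single, pb_single, vecMul_smul, vecMul_one]

lemma pb_dil (M : Matrix (Fin k) (Fin r) ℤ) (m : ℕ) (A : LQ 𝕜 k) :
    pb M (dil m A) = dil m (pb M A) := by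
  induction A using AddMonoidAlgebra.induction_linear with
  | zero => simp
  | add x y hx hy => simp only [map_add, hx, hy]
  | single u c => rw [dil_single, pb_single, pb_single, dil_single, smul_vecMul]

lemma dil_dil (m m' : ℕ) (A : LQ 𝕜 k) : dil m (dil m' A) = dil (m * m') A := by
  induction A using AddMonoidAlgebra.induction_linear with
  | zero => simp
  | add x y hx hy => simp only [map_add, hx, hy]
  | single u c => rw [dil_single, dil_single, dil_single, smul_smul, Nat.cast_mul]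

lemma dil_one (A : LQ 𝕜 k) : dil 1 A = A := by
  induction A using AddMonoidAlgebra.induction_linear with
  | zero => simp
  | add x y hx hy => simp only [map_add, hx, hy]
  | single u c => simp

lemma smul_inj {m : ℕ} (hm : 0 < m) : Function.Injective fun u : Fin k → ℤ => (m : ℤ) • u :=
  smul_right_injective _ (by exact_mod_cast hm.ne')

/-- every exponent of an image is the image of an exponent -/
lemma mem_mapDomain {G H : Type*} {φ : G → H} {A : AddMonoidAlgebra 𝕜 G} {z : H}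
    (hz : z ∈ (mapDomain φ A).coeff.support) : ∃ u ∈ A.coeff.support, φ u = z := by
  classical
  rw [coeff_mapDomain] at hz
  simpa using Finsupp.mapDomain_support hz

lemma coeff_mapDomain_injOn {G H : Type*} {φ : G → H} {A : AddMonoidAlgebra 𝕜 G}
    (h : Set.InjOn φ A.coeff.support) {u : G} (hu : u ∈ A.coeff.support) :
    (mapDomain φ A).coeff (φ u) = A.coeff u := by
  rw [coeff_mapDomain]
  exact Finsupp.mapDomain_apply' _ _ subset_rfl h hu

lemma mem_mapDomain_injOn {G H : Type*} {φ : G → H} {A : AddMonoidAlgebra 𝕜 G}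
    (h : Set.InjOn φ A.coeff.support) {u : G} (hu : u ∈ A.coeff.support) :
    φ u ∈ (mapDomain φ A).coeff.support := by
  rw [Finsupp.mem_support_iff, coeff_mapDomain_injOn h hu]
  exact Finsupp.mem_support_iff.mp hu

lemma mem_dil {m : ℕ} {A : LQ 𝕜 k} {z : Fin k → ℤ} (hz : z ∈ (dil m A).coeff.support) :
    ∃ u ∈ A.coeff.support, (m : ℤ) • u = z := mem_mapDomain hz

lemma mem_pb {M : Matrix (Fin k) (Fin r) ℤ} {A : LQ 𝕜 k} {z : Fin r → ℤ}
    (hz : z ∈ (pb M A).coeff.support) : ∃ u ∈ A.coeff.support, u ᵥ* M = z := mem_mapDomain hz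

lemma dil_ne_zero {m : ℕ} (hm : 0 < m) {A : LQ 𝕜 k} (hA : A ≠ 0) : dil m A ≠ 0 :=
  mapDomain_ne_zero (smul_inj hm).injOn hA

lemma mem_mul {A B : LQ 𝕜 k} {z : Fin k → ℤ} (hz : z ∈ (A * B).coeff.support) :
    ∃ u ∈ A.coeff.support, ∃ w ∈ B.coeff.support, u + w = z := by
  classical
  exact Finset.mem_add.mp (support_coeff_mul_subset A B hz)

lemma mem_single {u z : Fin k → ℤ} {c : 𝕜} (hz : z ∈ (single u c : LQ 𝕜 k).coeff.support) :
    z = u := by
  rw [coeff_single] at hz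
  exact Finset.mem_singleton.mp (Finsupp.support_single_subset hz)

lemma eq_sum_single (A : LQ 𝕜 k) : A = ∑ u ∈ A.coeff.support, single u (A.coeff u) := by
  have := mapDomain_eq_sum id A
  rwa [show mapDomain id A = A by ext1; rw [coeff_mapDomain, Finsupp.mapDomain_id]] at this

lemma support_nonempty {A : LQ 𝕜 k} (hA : A ≠ 0) : A.coeff.support.Nonempty := by
  rw [Finsupp.support_nonempty_iff]
  simpa using hA

end Maps

section Der

variable {𝕜 : Type} [CommRing 𝕜] {k r : ℕ}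

lemma dv_coeff (θ : Fin k → 𝕜) (A : LQ 𝕜 k) (u : Fin k → ℤ) :
    (dv θ A).coeff u = (∑ i, (u i : 𝕜) * θ i) * A.coeff u := by
  simp only [dv, AddMonoidAlgebra.coeff_sum, Finsupp.coe_finsetSum, Finset.sum_apply,
    AddMonoidAlgebra.coeff_smul,
    Finsupp.smul_apply, dd_coeff, smul_eq_mul, Finset.sum_mul]
  exact Finset.sum_congr rfl fun i _ => by ring

lemma dv_cv_coeff (a : Fin k → ℤ) (A : LQ 𝕜 k) (u : Fin k → ℤ) :
    (dv (cv 𝕜 a) A).coeff u = ((u ⬝ᵥ a : ℤ) : 𝕜) * A.coeff u := by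
  rw [dv_coeff]
  simp [cv, dotProduct]

lemma dv_real_coeff (θ : Fin k → ℝ) (A : LQ ℂ k) (u : Fin k → ℤ) :
    (dv (fun i => (θ i : ℂ)) A).coeff u = (lin θ u : ℝ) * A.coeff u := by
  rw [dv_coeff]
  simp [lin]

lemma support_dv (θ : Fin k → 𝕜) (A : LQ 𝕜 k) : (dv θ A).coeff.support ⊆ A.coeff.support := by
  intro u hu
  rw [Finsupp.mem_support_iff, dv_coeff] at hu
  exact Finsupp.mem_support_iff.mpr (right_ne_zero_of_mul hu)

@[simp] lemma dv_zero (θ : Fin k → 𝕜) : dv θ (0 : LQ 𝕜 k) = 0 := by simp [dv, dd_zero]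

lemma dv_add (θ : Fin k → 𝕜) (A B : LQ 𝕜 k) : dv θ (A + B) = dv θ A + dv θ B := by
  simp [dv, dd_add, Finset.sum_add_distrib]

lemma dv_mul (θ : Fin k → 𝕜) (A B : LQ 𝕜 k) : dv θ (A * B) = dv θ A * B + A * dv θ B := by
  simp [dv, dd_mul, Finset.sum_add_distrib, Finset.sum_mul, Finset.mul_sum]

lemma dv_single (θ : Fin k → 𝕜) (u : Fin k → ℤ) (c : 𝕜) :
    dv θ (single u c : LQ 𝕜 k) = single u ((∑ i, (u i : 𝕜) * θ i) * c) := by
  ext w
  rw [dv_coeff, coeff_single, coeff_single]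
  by_cases h : u = w
  · subst h; simp
  · simp [h]

lemma dv_cv_single (a u : Fin k → ℤ) (c : 𝕜) :
    dv (cv 𝕜 a) (single u c : LQ 𝕜 k) = single u (((u ⬝ᵥ a : ℤ) : 𝕜) * c) := by
  rw [dv_single]
  simp [cv, dotProduct]

lemma dv_pb (M : Matrix (Fin k) (Fin r) ℤ) (b : Fin r → ℤ) (A : LQ 𝕜 k) :
    dv (cv 𝕜 b) (pb M A) = pb M (dv (cv 𝕜 (M *ᵥ b)) A) := by
  induction A using AddMonoidAlgebra.induction_linear with
  | zero => simp
  | add x y hx hy => simp only [map_add, dv_add, hx, hy]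
  | single u c => rw [pb_single, dv_cv_single, dv_cv_single, pb_single, dotProduct_mulVec]

lemma dv_dil (θ : Fin k → 𝕜) (m : ℕ) (A : LQ 𝕜 k) :
    dv θ (dil m A) = (m : 𝕜) • dil m (dv θ A) := by
  induction A using AddMonoidAlgebra.induction_linear with
  | zero => simp
  | add x y hx hy => simp only [map_add, dv_add, hx, hy, smul_add]
  | single u c =>
    rw [dil_single, dv_single, dv_single, dil_single, AddMonoidAlgebra.smul_single]
    congr 1
    simp [Finset.mul_sum, Finset.sum_mul, mul_assoc]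

/-- if `⟨·, θ⟩` is constant on the support the derivation acts as a scalar -/
lemma dv_eq_smul {θ : Fin k → 𝕜} {A : LQ 𝕜 k} {t : 𝕜}
    (h : ∀ u ∈ A.coeff.support, ∑ i, (u i : 𝕜) * θ i = t) : dv θ A = t • A := by
  ext u
  rw [dv_coeff, AddMonoidAlgebra.coeff_smul, Finsupp.smul_apply, smul_eq_mul]
  by_cases hu : u ∈ A.coeff.support
  · rw [h u hu]
  · simp [Finsupp.notMem_support_iff.mp hu]

end Der

section Ev

variable {𝕜 : Type} [CommRing 𝕜] [Algebra 𝕜 ℂ] {k r : ℕ}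

@[simp] lemma evL_toLaurent (α : ℂˣ) (p : 𝕜[X]) : evL α (toLaurent p) = aeval (α : ℂ) p := by
  rw [evL, eval₂_toLaurent, aeval_def]

@[simp] lemma evL_T (α : ℂˣ) (j : ℤ) : evL (𝕜 := 𝕜) α (T j) = (α : ℂ) ^ j := by
  rw [evL, LaurentPolynomial.eval₂_T, Units.val_zpow_eq_zpow_val]

@[simp] lemma evL_C (α : ℂˣ) (c : 𝕜) : evL α (LaurentPolynomial.C c) = algebraMap 𝕜 ℂ c := by
  rw [evL, LaurentPolynomial.eval₂_C]

lemma evL_spk (a : Fin k → ℤ) (α : ℂˣ) (A : LQ 𝕜 k) : evL α (spk a A) = evc a α A := by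
  induction A using AddMonoidAlgebra.induction_linear with
  | zero => simp
  | add x y hx hy => simp only [map_add, hx, hy]
  | single u c => simp [evc_single]

lemma evL_spec (a : Fin k → ℤ) (α : ℂˣ) (A : LP k) : evL α (spec a A) = evc a α A :=
  evL_spk a α A

lemma hasL_spec (a : Fin k → ℤ) (A : LP k) :
    HasL (spec a A) ↔ ∃ α : ℂˣ, NonTors α ∧ evc a α A = 0 := by
  simp only [HasL, evL_spec]

lemma evc_pb (M : Matrix (Fin k) (Fin r) ℤ) (b : Fin r → ℤ) (α : ℂˣ) (A : LQ 𝕜 k) :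
    evc b α (pb M A) = evc (M *ᵥ b) α A := by
  rw [← evL_spk, ← evL_spk, spk_pb]

lemma evc_dil (m : ℕ) (b : Fin k → ℤ) (α : ℂˣ) (A : LQ 𝕜 k) :
    evc b α (dil m A) = evc b (α ^ m) A := by
  induction A using AddMonoidAlgebra.induction_linear with
  | zero => simp
  | add x y hx hy => simp only [map_add, hx, hy]
  | single u c =>
    rw [dil_single, evc_single, evc_single, smul_dotProduct, smul_eq_mul, _root_.zpow_mul,
      zpow_natCast, Units.val_pow_eq_pow_val]

lemma evc_ne_zero_of_isUnit (b : Fin k → ℤ) (α : ℂˣ) {A : LQ 𝕜 k} (h : IsUnit A) :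
    evc b α A ≠ 0 := (h.map (evc b α)).ne_zero

/-- a common root of `A(t^b)` and `B(t^b)` is a root of every member of their ideal -/
lemma aeval_eq_zero_of_mem {b : Fin k → ℤ} {α : ℂˣ} {A B : LQ 𝕜 k} {h : 𝕜[X]}
    (hh : toLaurent h ∈ Ideal.span {spk b A, spk b B}) (hA : evc b α A = 0) (hB : evc b α B = 0) :
    aeval (α : ℂ) h = 0 := by
  obtain ⟨U, V, e⟩ := Ideal.mem_span_pair.mp hh
  rw [← evL_toLaurent, ← e, map_add, map_mul, map_mul, evL_spk, evL_spk, hA, hB]
  simp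

lemma toC_coeff (A : LQ 𝕜 k) (u : Fin k → ℤ) : (toC A).coeff u = algebraMap 𝕜 ℂ (A.coeff u) := by
  rw [toC, coeff_mapRingHom]

@[simp] lemma toC_single (u : Fin k → ℤ) (c : 𝕜) :
    toC (single u c : LQ 𝕜 k) = single u (algebraMap 𝕜 ℂ c) := by
  rw [toC, mapRingHom_single]

lemma support_toC [FaithfulSMul 𝕜 ℂ] (A : LQ 𝕜 k) :
    (toC A).coeff.support = A.coeff.support := by
  ext u
  simp [toC_coeff]

lemma toC_ne_zero [FaithfulSMul 𝕜 ℂ] {A : LQ 𝕜 k} (hA : A ≠ 0) : toC A ≠ 0 := by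
  intro h
  have := support_nonempty hA
  rw [← support_toC, h] at this
  simp at this

lemma toC_toQ (F : LQ ℤ k) : toC (toQ F : LP k) = toC F := by
  induction F using AddMonoidAlgebra.induction_linear with
  | zero => simp
  | add x y hx hy => simp only [map_add, hx, hy]
  | single u c => simp [toQ, mapRingHom_single]

lemma evc_toC (b : Fin k → ℤ) (α : ℂˣ) (A : LQ 𝕜 k) : evc b α (toC A) = evc b α A := by
  induction A using AddMonoidAlgebra.induction_linear with
  | zero => simp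
  | add x y hx hy => simp only [map_add, hx, hy]
  | single u c => simp [evc_single]

lemma evc_toQ (b : Fin k → ℤ) (α : ℂˣ) (F : LQ ℤ k) : evc b α (toQ F : LP k) = evc b α F := by
  rw [← evc_toC, toC_toQ, evc_toC]

lemma toC_dil (m : ℕ) (A : LQ 𝕜 k) : toC (dil m A) = dil m (toC A) := by
  induction A using AddMonoidAlgebra.induction_linear with
  | zero => simp
  | add x y hx hy => simp only [map_add, hx, hy]
  | single u c => simp

lemma toC_dv (θ : Fin k → 𝕜) (A : LQ 𝕜 k) :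
    toC (dv θ A) = dv (fun i => algebraMap 𝕜 ℂ (θ i)) (toC A) := by
  ext u
  simp [toC_coeff, dv_coeff]

lemma toQ_coeff (F : LQ ℤ k) (u : Fin k → ℤ) : (toQ F : LP k).coeff u = F.coeff u := by
  rw [toQ, coeff_mapRingHom]; rfl

lemma toQ_single (u : Fin k → ℤ) (c : ℤ) : (toQ (single u c) : LP k) = single u (c : ℚ) := by
  rw [toQ, mapRingHom_single]; rfl

lemma toQ_ne_zero {F : LQ ℤ k} (hF : F ≠ 0) : (toQ F : LP k) ≠ 0 := by
  intro h
  have := support_nonempty hF
  rw [← support_toQ, h] at this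
  simp at this

lemma pb_toQ (M : Matrix (Fin k) (Fin r) ℤ) (F : LQ ℤ k) : pb M (toQ F : LP k) = toQ (pb M F) := by
  induction F using AddMonoidAlgebra.induction_linear with
  | zero => simp
  | add x y hx hy => simp only [map_add, hx, hy]
  | single u c => rw [toQ_single, pb_single, pb_single, toQ_single]

end Ev

section Width

variable {𝕜 : Type} [CommRing 𝕜] {k r : ℕ}

/-- a coordinate as a real additive map -/
noncomputable def crd (i : Fin k) : (Fin k → ℤ) →+ ℝ :=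
  AddMonoidHom.mk' (fun u => (u i : ℝ)) fun u v => by simp

@[simp] lemma crd_apply (i : Fin k) (u : Fin k → ℤ) : crd i u = (u i : ℝ) := rfl

/-- `lin θ` as an additive map -/
noncomputable def linH (θ : Fin k → ℝ) : (Fin k → ℤ) →+ ℝ :=
  AddMonoidHom.mk' (lin θ) fun u v => by simp [lin, add_mul, Finset.sum_add_distrib]

@[simp] lemma linH_apply (θ : Fin k → ℝ) (u : Fin k → ℤ) : linH θ u = lin θ u := rfl

lemma wb_iff {D : ℕ} {A : LQ 𝕜 k} : Wb D A ↔ ∀ i, Wd (crd i) D A := by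
  constructor
  · intro h i u hu u' hu'
    simp only [crd_apply]
    exact_mod_cast h u hu u' hu' i
  · intro h u hu u' hu' i
    have := h i u hu u' hu'
    simp only [crd_apply] at this
    exact_mod_cast this

lemma Wb.abs {D : ℕ} {A : LQ 𝕜 k} (h : Wb D A) {u u' : Fin k → ℤ} (hu : u ∈ A.coeff.support)
    (hu' : u' ∈ A.coeff.support) (i : Fin k) : |u i - u' i| ≤ D := by
  have := h u hu u' hu' i
  have := h u' hu' u hu i
  rw [abs_le]
  omega

lemma Wb.mono {D D' : ℕ} {A : LQ 𝕜 k} (h : Wb D A) (hD : D ≤ D') : Wb D' A :=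
  fun u hu u' hu' i => (h u hu u' hu' i).trans (by exact_mod_cast hD)

lemma Wb.subset {𝕜' : Type} [CommRing 𝕜'] {D : ℕ} {A : LQ 𝕜 k} {B : LQ 𝕜' k} (h : Wb D A)
    (hs : B.coeff.support ⊆ A.coeff.support) : Wb D B :=
  fun u hu u' hu' i => h u (hs hu) u' (hs hu') i

lemma Wb.of_dvd [IsDomain 𝕜] {D : ℕ} {G A : LQ 𝕜 k} (h : Wb D A) (hA : A ≠ 0) (hd : G ∣ A) :
    Wb D G := wb_iff.mpr fun i => (wb_iff.mp h i).of_dvd _ hA hd

lemma Wb.dil {D : ℕ} {A : LQ 𝕜 k} (h : Wb D A) (m : ℕ) : Wb (m * D) (dil m A) := by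
  intro z hz z' hz' i
  obtain ⟨u, hu, rfl⟩ := mem_dil hz
  obtain ⟨u', hu', rfl⟩ := mem_dil hz'
  have := mul_le_mul_of_nonneg_left (h u hu u' hu' i) (Int.natCast_nonneg m)
  simp only [Pi.smul_apply, smul_eq_mul, Nat.cast_mul]
  linarith

lemma Bx.wb {D : ℕ} {A : LQ 𝕜 k} (h : Bx D A) : Wb (2 * D) A := by
  intro u hu u' hu' i
  have := abs_le.mp (h u hu i)
  have := abs_le.mp (h u' hu' i)
  push_cast
  omega

lemma Bx.mono {D D' : ℕ} {A : LQ 𝕜 k} (h : Bx D A) (hD : D ≤ D') : Bx D' A :=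
  fun u hu i => (h u hu i).trans (by exact_mod_cast hD)

lemma le_nu (a : Fin k → ℤ) (i : Fin k) : |a i| ≤ nu a := by
  rw [Int.abs_eq_natAbs]
  exact_mod_cast Finset.le_sup (f := fun i => (a i).natAbs) (Finset.mem_univ i)

lemma nu_le {a : Fin k → ℤ} {Y : ℕ} (h : ∀ i, |a i| ≤ Y) : nu a ≤ Y :=
  Finset.sup_le fun i _ => by
    have := h i
    rw [Int.abs_eq_natAbs] at this
    exact_mod_cast this

lemma exists_nu {a : Fin k → ℤ} (h : 0 < nu a) : ∃ i, |a i| = nu a := by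
  rcases isEmpty_or_nonempty (Fin k) with hk | hk
  · simp [nu] at h
  · obtain ⟨i, -, hi⟩ := Finset.exists_mem_eq_sup Finset.univ Finset.univ_nonempty
      fun i => (a i).natAbs
    exact ⟨i, by rw [nu, hi, Int.abs_eq_natAbs]⟩

lemma exists_bx (A : LQ 𝕜 k) : ∃ D, 1 ≤ D ∧ Bx D A := by
  refine ⟨A.coeff.support.sup nu + 1, by omega, fun u hu i => (le_nu u i).trans ?_⟩
  have : nu u ≤ A.coeff.support.sup nu := Finset.le_sup hu
  omega

lemma abs_dot_le {u a : Fin k → ℤ} {D Y : ℕ} (hu : ∀ i, |u i| ≤ D) (ha : ∀ i, |a i| ≤ Y) :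
    |u ⬝ᵥ a| ≤ k * D * Y := by
  calc |u ⬝ᵥ a| ≤ ∑ i, |u i * a i| := Finset.abs_sum_le_sum_abs _ _
    _ ≤ ∑ _i : Fin k, (D : ℤ) * Y := Finset.sum_le_sum fun i _ => by
        rw [abs_mul]
        exact mul_le_mul (hu i) (ha i) (abs_nonneg _) (Int.natCast_nonneg _)
    _ = k * D * Y := by simp [mul_assoc]

lemma Bx.pb {D H : ℕ} {A : LQ 𝕜 k} (h : Bx D A) {M : Matrix (Fin k) (Fin r) ℤ}
    (hM : ∀ i j, |M i j| ≤ H) : Bx (k * D * H) (pb M A) := by
  intro z hz j
  obtain ⟨u, hu, rfl⟩ := mem_mapDomain hz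
  exact_mod_cast abs_dot_le (a := fun i => M i j) (h u hu) fun i => hM i j

lemma NoRel.mono {E E' : ℕ} {b : Fin k → ℤ} (h : NoRel E b) (hE : E' ≤ E) : NoRel E' b :=
  fun c hc hb => h c hc fun i => (hb i).trans (by exact_mod_cast hE)

lemma NoRel.injOn {D : ℕ} {b : Fin k → ℤ} (h : NoRel D b) {A : LQ 𝕜 k} (hA : Wb D A) :
    Set.InjOn (· ⬝ᵥ b) A.coeff.support := by
  intro u hu u' hu' e
  by_contra hne
  exact h (u - u') (sub_ne_zero.mpr hne) (fun i => hA.abs hu hu' i)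
    (by rw [sub_dotProduct]; exact sub_eq_zero.mpr e)

/-- in at least two variables a vector without relations up to `B` is longer than `B` -/
lemma NoRel.lt_nu {B : ℕ} {a : Fin k → ℤ} (h : NoRel B a) (hB : 1 ≤ B) {i j : Fin k}
    (hij : i ≠ j) : B < nu a := by
  by_contra hn
  push Not at hn
  have hi : a i ≠ 0 := by
    have := h (Pi.single i 1) (by simp) fun l => by
      by_cases e : l = i
      · subst e; simpa using hB
      · simp [e]
    simpa using this
  refine h (Pi.single i (a j) - Pi.single j (a i)) (fun e => hi ?_) (fun l => ?_) ?_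
  · simpa [hij.symm] using congrFun e j
  · have h1 := le_nu a i
    have h2 := le_nu a j
    by_cases e : l = i
    · subst e; simp [hij]; omega
    · by_cases e' : l = j
      · subst e'; simp [e]; omega
      · simp [e, e']
  · simp [sub_dotProduct, mul_comm]

lemma spk_ne_zero {a : Fin k → ℤ} {A : LQ 𝕜 k} (h : Set.InjOn (· ⬝ᵥ a) A.coeff.support)
    (hA : A ≠ 0) : spk a A ≠ 0 := mapDomain_ne_zero h hA

lemma NonCol.ne_zero {A : LQ 𝕜 k} (h : NonCol A) : A ≠ 0 := by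
  rintro rfl
  obtain ⟨u, hu, -⟩ := h
  simp at hu

lemma NonCol.exists_ne {A : LQ 𝕜 k} (h : NonCol A) : ∃ i j : Fin k, i ≠ j := by
  obtain ⟨u, -, v, -, w, -, i, j, e⟩ := h
  exact ⟨i, j, fun h => e (by rw [h])⟩

lemma NonCol.exists_mem {A : LQ 𝕜 k} (h : NonCol A) (z : Fin k → ℤ) :
    ∃ u ∈ A.coeff.support, u ≠ z := by
  by_contra hn
  push Not at hn
  obtain ⟨u, hu, v, hv, w, -, i, j, e⟩ := h
  exact e (by simp [hn u hu, hn v hv])

lemma NonCol.of_support {𝕜' : Type} [CommRing 𝕜'] {A : LQ 𝕜 k} {B : LQ 𝕜' k} (h : NonCol A)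
    (hs : A.coeff.support ⊆ B.coeff.support) : NonCol B := by
  obtain ⟨u, hu, v, hv, w, hw, e⟩ := h
  exact ⟨u, hs hu, v, hs hv, w, hs hw, e⟩

/-- an additive map that is constant on the support of a multiple is constant on the support -/
lemma const_of_dvd [IsDomain 𝕜] (ω : (Fin k → ℤ) →+ ℝ) {G A : LQ 𝕜 k} (hA : A ≠ 0) (hd : G ∣ A)
    (h : ∀ u ∈ A.coeff.support, ∀ u' ∈ A.coeff.support, ω u = ω u') :
    ∀ u ∈ G.coeff.support, ∀ u' ∈ G.coeff.support, ω u = ω u' := by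
  have hw : Wd ω 0 A := fun u hu u' hu' => by rw [h u hu u' hu', sub_self]
  intro u hu u' hu'
  have h1 := hw.of_dvd ω hA hd u hu u' hu'
  have h2 := hw.of_dvd ω hA hd u' hu' u hu
  linarith

/-- if all differences of the support are parallel to `δ ≠ 0` the support is collinear -/
lemma not_nonCol_of_parallel {A : LQ 𝕜 k} {δ : Fin k → ℤ} (hδ : δ ≠ 0)
    (h : ∀ u ∈ A.coeff.support, ∀ v ∈ A.coeff.support, ∀ i j,
      (v i - u i) * δ j = (v j - u j) * δ i) : ¬ NonCol A := by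
  rintro ⟨u, hu, v, hv, w, hw, i, j, e⟩
  obtain ⟨l, hl⟩ := Function.ne_iff.mp hδ
  have h1 := h u hu v hv i l
  have h2 := h u hu v hv j l
  have h3 := h u hu w hw i l
  have h4 := h u hu w hw j l
  refine e (mul_right_cancel₀ (mul_ne_zero hl hl) ?_)
  calc (v i - u i) * (w j - u j) * (δ l * δ l) = ((v i - u i) * δ l) * ((w j - u j) * δ l) := by
        ring
    _ = ((v j - u j) * δ l) * ((w i - u i) * δ l) := by rw [h1, h2, h3, h4]; ring
    _ = _ := by ring

lemma NonCol.of_dvd [IsDomain 𝕜] {G A : LQ 𝕜 k} (h : NonCol G) (hA : A ≠ 0) (hd : G ∣ A) :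
    NonCol A := by
  by_contra hn
  obtain ⟨u₀, hu₀⟩ := support_nonempty hA
  by_cases h1 : ∃ u₁ ∈ A.coeff.support, u₁ ≠ u₀
  · obtain ⟨u₁, hu₁, hne⟩ := h1
    refine not_nonCol_of_parallel (sub_ne_zero.mpr hne) (fun u hu v hv i j => ?_) h
    have key : ∀ z ∈ A.coeff.support, (z i - u₀ i) * (u₁ j - u₀ j) = (z j - u₀ j) * (u₁ i - u₀ i) :=
      fun z hz => by
        by_contra e
        exact hn ⟨u₀, hu₀, z, hz, u₁, hu₁, i, j, e⟩
    have := const_of_dvd (((u₁ j - u₀ j : ℤ) : ℝ) • crd i - ((u₁ i - u₀ i : ℤ) : ℝ) • crd j) hA hd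
      (fun z hz z' hz' => by
        have e1 := key z hz
        have e2 := key z' hz'
        simp only [AddMonoidHom.sub_apply, AddMonoidHom.smul_apply, crd_apply, smul_eq_mul]
        exact_mod_cast (by linarith)) u hu v hv
    simp only [AddMonoidHom.sub_apply, AddMonoidHom.smul_apply, crd_apply, smul_eq_mul] at this
    have : (u₁ j - u₀ j) * u i - (u₁ i - u₀ i) * u j = (u₁ j - u₀ j) * v i - (u₁ i - u₀ i) * v j := by
      exact_mod_cast this
    simp only [Pi.sub_apply]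
    linarith
  · push Not at h1
    obtain ⟨u, hu⟩ := support_nonempty h.ne_zero
    obtain ⟨v, hv, hne⟩ := h.exists_mem u
    refine hne (funext fun i => ?_)
    have := const_of_dvd (crd i) hA hd (fun z hz z' hz' => by rw [h1 z hz, h1 z' hz']) v hv u hu
    simpa using this

lemma NonCol.of_mapDomain {φ : (Fin k → ℤ) →+ (Fin r → ℤ)} {A : LQ 𝕜 k}
    (h : NonCol (mapDomain φ A : LQ 𝕜 r)) : NonCol A := by
  by_contra hn
  obtain ⟨z₀, hz₀⟩ := support_nonempty h.ne_zero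
  obtain ⟨z₁, hz₁, hne⟩ := h.exists_mem z₀
  obtain ⟨u₀, hu₀, rfl⟩ := mem_mapDomain hz₀
  obtain ⟨u₁, hu₁, rfl⟩ := mem_mapDomain hz₁
  obtain ⟨l, hl⟩ : ∃ l, u₁ l - u₀ l ≠ 0 := by
    by_contra e
    push Not at e
    exact hne (by rw [show u₁ = u₀ from funext fun l => sub_eq_zero.mp (e l)])
  have key : ∀ z ∈ A.coeff.support, ∀ i,
      (u₁ l - u₀ l) * (φ z i - φ u₀ i) = (z l - u₀ l) * (φ u₁ i - φ u₀ i) := fun z hz i => by
    have e : (u₁ l - u₀ l) • (z - u₀) = (z l - u₀ l) • (u₁ - u₀) := funext fun j => by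
      by_contra e
      exact hn ⟨u₀, hu₀, u₁, hu₁, z, hz, l, j, fun e' => e (by simpa [mul_comm] using e')⟩
    have := congrFun (congrArg φ e) i
    rw [map_zsmul, map_zsmul, map_sub, map_sub] at this
    exact this
  refine not_nonCol_of_parallel (sub_ne_zero.mpr hne) (fun z hz z' hz' i j => ?_) h
  obtain ⟨u, hu, rfl⟩ := mem_mapDomain hz
  obtain ⟨v, hv, rfl⟩ := mem_mapDomain hz'
  refine mul_left_cancel₀ hl ?_
  simp only [Pi.sub_apply]
  linear_combination (φ u₁ j - φ u₀ j) * (key v hv i - key u hu i) -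
    (φ u₁ i - φ u₀ i) * (key v hv j - key u hu j)

end Width

section Field

variable {K : Type} [Field K] {k : ℕ}

/-- the units are the monomials -/
lemma isUnit_iff {A : LQ K k} :
    IsUnit A ↔ A ≠ 0 ∧ ∀ u ∈ A.coeff.support, ∀ u' ∈ A.coeff.support, u = u' := by
  constructor
  · intro h
    refine ⟨h.ne_zero, fun u hu u' hu' => funext fun i => ?_⟩
    have := const_of_dvd (crd i) one_ne_zero h.dvd (fun z hz z' hz' => by
      rw [one_def] at hz hz'
      rw [mem_single hz, mem_single hz']) u hu u' hu'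
    simpa using this
  · rintro ⟨h0, h⟩
    obtain ⟨u, hu⟩ := support_nonempty h0
    have : A.coeff.support = {u} :=
      Finset.eq_singleton_iff_unique_mem.mpr ⟨hu, fun v hv => h v hv u hu⟩
    rw [eq_sum_single A, this, Finset.sum_singleton]
    exact isUnit_single u (Finsupp.mem_support_iff.mp hu).isUnit

lemma isUnit_toC [Algebra K ℂ] {A : LQ K k} : IsUnit (toC A) ↔ IsUnit A := by
  rw [isUnit_iff, isUnit_iff, support_toC]
  exact and_congr_left' ⟨fun h e => h (by rw [e, map_zero]), toC_ne_zero⟩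

/-- a multiple whose support is inside the support is a scalar multiple -/
lemma eq_smul_of_dvd {A B : LQ K k} (hA : A ≠ 0) (hd : A ∣ B)
    (hs : B.coeff.support ⊆ A.coeff.support) : ∃ t : K, B = t • A := by
  obtain ⟨Z, rfl⟩ := hd
  by_cases hZ : Z = 0
  · exact ⟨0, by simp [hZ]⟩
  have key : ∀ w ∈ Z.coeff.support, w = 0 := fun w hw => funext fun i => by
    obtain ⟨u, -, v, -, z, hz, a1, b1, e⟩ := exists_top_mul (crd i) hA hZ
    obtain ⟨u', -, v', -, z', hz', a2, b2, e'⟩ := exists_top_mul (-crd i) hA hZ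
    have h1 := a1 z (hs hz)
    have h2 := a2 z' (hs hz')
    have h3 := b1 w hw
    have h4 := b2 w hw
    simp only [AddMonoidHom.neg_apply, crd_apply] at *
    have : (w i : ℝ) = 0 := by linarith
    exact_mod_cast this
  obtain ⟨w, hw⟩ := support_nonempty hZ
  have : Z.coeff.support = {0} :=
    Finset.eq_singleton_iff_unique_mem.mpr ⟨key w hw ▸ hw, key⟩
  refine ⟨Z.coeff 0, ?_⟩
  conv_lhs => rw [eq_sum_single Z, this, Finset.sum_singleton]
  ext u
  simp [mul_comm]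

/-- if `A` divides its derivative then `⟨·, θ⟩` is constant on the support -/
lemma const_of_dvd_dv {A : LQ K k} {θ : Fin k → K} (hA : A ≠ 0) (hd : A ∣ dv θ A) :
    ∀ u ∈ A.coeff.support, ∀ u' ∈ A.coeff.support,
      ∑ i, (u i : K) * θ i = ∑ i, (u' i : K) * θ i := by
  obtain ⟨t, ht⟩ := eq_smul_of_dvd hA hd (support_dv θ A)
  have key : ∀ u ∈ A.coeff.support, ∑ i, (u i : K) * θ i = t := fun u hu => by
    have := congrArg (fun B : LQ K k => B.coeff u) ht
    simp only [dv_coeff, AddMonoidAlgebra.coeff_smul, Finsupp.smul_apply, smul_eq_mul] at this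
    exact mul_right_cancel₀ (Finsupp.mem_support_iff.mp hu) this
  exact fun u hu u' hu' => (key u hu).trans (key u' hu').symm

lemma not_dvd_dv {Q : LP k} {b : Fin k → ℤ} (hQ : Irreducible Q)
    (h : Set.InjOn (· ⬝ᵥ b) Q.coeff.support) : ¬ Q ∣ dv (cv ℚ b) Q := fun hd =>
  hQ.not_isUnit (isUnit_iff.mpr ⟨hQ.ne_zero, fun u hu u' hu' => h hu hu' (by
    have := const_of_dvd_dv hQ.ne_zero hd u hu u' hu'
    simp only [cv] at this
    simp only [dotProduct]
    exact_mod_cast this)⟩)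

lemma prime_of_irr {Q : LQ K k} (hQ : Irreducible Q) : Prime Q := by
  have := ufd K k
  exact hQ.prime

lemma relPrime_of_not_dvd {Q A : LQ K k} (hQ : Irreducible Q) (h : ¬ Q ∣ A) :
    A ≠ 0 ∧ IsRelPrime Q A :=
  ⟨fun e => h (e ▸ dvd_zero _), hQ.isRelPrime_iff_not_dvd.mpr h⟩

lemma exists_prime_dvd {A : LQ K k} (hA : A ≠ 0) (h : ¬ IsUnit A) : ∃ Q, Prime Q ∧ Q ∣ A := by
  have := ufd K k
  obtain ⟨Q, hQ, hd⟩ := WfDvdMonoid.exists_irreducible_factor h hA
  exact ⟨Q, hQ.prime, hd⟩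

/-- a prime factor through a given root -/
lemma exists_prime_root [Algebra K ℂ] {A : LQ K k} (hA : A ≠ 0) {b : Fin k → ℤ} {α : ℂˣ}
    (h : evc b α A = 0) : ∃ Q, Prime Q ∧ Q ∣ A ∧ evc b α Q = 0 := by
  have := ufd K k
  exact CznA.primefac (evc b α).toRingHom hA h

end Field

end Pool.Agent.P.MP_aef18a_nt.OW
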