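import Pool.Agent.P.MP_aef18a_nt.OW.Basic

namespace Pool.Agent.P.MP_aef18a_nt.OW

open Polynomial Matrix LaurentPolynomial AddMonoidAlgebra

section Pl

variable {𝕜 : Type} [CommRing 𝕜] {k r : ℕ}

lemma Ng.mul {a : Fin k → ℤ} {A B : LQ 𝕜 k} (hA : Ng a A) (hB : Ng a B) : Ng a (A * B) := by
  intro z hz
  obtain ⟨u, hu, w, hw, rfl⟩ := mem_mul hz
  have := hA u hu
  have := hB w hw
  rw [add_dotProduct]
  omega

lemma Ng.subset {𝕜' : Type} [CommRing 𝕜'] {a : Fin k → ℤ} {A : LQ 𝕜 k} {B : LQ 𝕜' k}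
    (h : Ng a A) (hs : B.coeff.support ⊆ A.coeff.support) : Ng a B := fun u hu => h u (hs hu)

lemma Ng.one (a : Fin k → ℤ) : Ng a (1 : LQ 𝕜 k) := by
  intro z hz
  rw [one_def] at hz
  simp [mem_single hz]

lemma Ng.pow {a : Fin k → ℤ} {A : LQ 𝕜 k} (hA : Ng a A) (j : ℕ) : Ng a (A ^ j) := by
  induction j with
  | zero => simpa using Ng.one a
  | succ j ih => rw [pow_succ]; exact ih.mul hA

lemma Ng.add {a : Fin k → ℤ} {A B : LQ 𝕜 k} (hA : Ng a A) (hB : Ng a B) : Ng a (A + B) := by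
  classical
  intro z hz
  rw [AddMonoidAlgebra.coeff_add] at hz
  exact (Finset.mem_union.mp (Finsupp.support_add hz)).elim (hA z) (hB z)

lemma Ng.smul {a : Fin k → ℤ} {A : LQ 𝕜 k} (hA : Ng a A) (t : 𝕜) : Ng a (t • A) :=
  hA.subset (by rw [AddMonoidAlgebra.coeff_smul]; exact Finsupp.support_smul)

lemma Ng.sum {ι : Type*} {a : Fin k → ℤ} {s : Finset ι} {A : ι → LQ 𝕜 k}
    (h : ∀ i ∈ s, Ng a (A i)) : Ng a (∑ i ∈ s, A i) :=
  Finset.sum_induction A (Ng a) (fun _ _ => Ng.add) (fun z hz => by simp at hz) h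

lemma ng_of_gap {a : Fin k → ℤ} {A : LQ 𝕜 k} {s : ℕ}
    (h : ∀ u ∈ A.coeff.support, u ≠ 0 → u ⬝ᵥ a + s ≤ 0) : Ng a A := by
  intro u hu
  by_cases e : u = 0
  · simp [e]
  · have := h u hu e
    omega

lemma pl_coeff (a : Fin k → ℤ) (A : LQ 𝕜 k) (m : ℕ) :
    (pl a A).coeff m =
      ∑ u ∈ A.coeff.support.filter (fun u => (-(u ⬝ᵥ a)).toNat = m), A.coeff u := by
  simp [pl, coeff_monomial, Finset.sum_filter]

lemma pl_coeff_ng {a : Fin k → ℤ} {A : LQ 𝕜 k} (h : Ng a A) (m : ℕ) :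
    (pl a A).coeff m = ∑ u ∈ A.coeff.support.filter (fun u => -(u ⬝ᵥ a) = m), A.coeff u := by
  rw [pl_coeff]
  refine Finset.sum_congr (Finset.filter_congr fun u hu => ?_) fun _ _ => rfl
  have := h u hu
  omega

lemma pl_coeff_inj {a : Fin k → ℤ} {A : LQ 𝕜 k} (h : Ng a A)
    (hi : Set.InjOn (· ⬝ᵥ a) A.coeff.support) {u : Fin k → ℤ} (hu : u ∈ A.coeff.support) :
    (pl a A).coeff (-(u ⬝ᵥ a)).toNat = A.coeff u := by
  rw [pl_coeff_ng h, Finset.sum_eq_single u]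
  · intro w hw hne
    obtain ⟨hw1, hw2⟩ := Finset.mem_filter.mp hw
    have := h u hu
    exact absurd (hi hw1 hu (by simp only; omega)) hne
  · intro hn
    have := h u hu
    exact absurd (Finset.mem_filter.mpr ⟨hu, by omega⟩) hn

lemma pl_coeff_zero {a : Fin k → ℤ} {A : LQ 𝕜 k} {s : ℕ} (hs : 1 ≤ s)
    (h : ∀ u ∈ A.coeff.support, u ≠ 0 → u ⬝ᵥ a + s ≤ 0) : (pl a A).coeff 0 = A.coeff 0 := by
  rw [pl_coeff_ng (ng_of_gap h), Finset.sum_eq_single 0]
  · intro w hw hne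
    obtain ⟨hw1, hw2⟩ := Finset.mem_filter.mp hw
    have := h w hw1 hne
    omega
  · intro hn
    by_contra e
    exact hn (Finset.mem_filter.mpr ⟨Finsupp.mem_support_iff.mpr e, by simp⟩)

lemma toLaurent_pl {a : Fin k → ℤ} {A : LQ 𝕜 k} (h : Ng a A) :
    toLaurent (pl a A) = spk (-a) A := by
  rw [pl, map_sum]
  conv_rhs => rw [eq_sum_single A, map_sum]
  refine Finset.sum_congr rfl fun u hu => ?_
  have := h u hu
  rw [spk_single, toLaurent_C_mul_T, dotProduct_neg]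
  congr 2
  omega

lemma pl_mul {a : Fin k → ℤ} {A B : LQ 𝕜 k} (hA : Ng a A) (hB : Ng a B) :
    pl a (A * B) = pl a A * pl a B := by
  apply toLaurent_injective
  rw [map_mul, toLaurent_pl hA, toLaurent_pl hB, toLaurent_pl (hA.mul hB), map_mul]

lemma pl_add {a : Fin k → ℤ} {A B : LQ 𝕜 k} (hA : Ng a A) (hB : Ng a B) :
    pl a (A + B) = pl a A + pl a B := by
  apply toLaurent_injective
  rw [map_add, toLaurent_pl hA, toLaurent_pl hB, toLaurent_pl (hA.add hB), map_add]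

@[simp] lemma pl_zero (a : Fin k → ℤ) : pl a (0 : LQ 𝕜 k) = 0 := by simp [pl]

lemma pl_single_zero (a : Fin k → ℤ) (c : 𝕜) :
    pl a (single 0 c : LQ 𝕜 k) = Polynomial.C c := by
  apply toLaurent_injective
  rw [toLaurent_pl fun z hz => by simp [mem_single hz]]
  simp

lemma pl_one (a : Fin k → ℤ) : pl a (1 : LQ 𝕜 k) = 1 := by
  rw [one_def, pl_single_zero, map_one]

lemma pl_pow {a : Fin k → ℤ} {A : LQ 𝕜 k} (hA : Ng a A) (j : ℕ) : pl a (A ^ j) = pl a A ^ j := by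
  induction j with
  | zero => simpa using pl_one a
  | succ j ih => rw [pow_succ, pl_mul (hA.pow j) hA, ih, pow_succ]

lemma pl_smul (a : Fin k → ℤ) (t : 𝕜) (A : LQ 𝕜 k) : pl a (t • A) = t • pl a A := by
  rw [pl, pl, Finset.smul_sum]
  rw [Finset.sum_subset (s₂ := A.coeff.support)
    (by rw [AddMonoidAlgebra.coeff_smul]; exact Finsupp.support_smul)
    fun u _ hu => by rw [Finsupp.notMem_support_iff.mp hu, monomial_zero_right]]
  simp [smul_monomial]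

lemma pl_sum {ι : Type*} {a : Fin k → ℤ} {s : Finset ι} {A : ι → LQ 𝕜 k}
    (h : ∀ i ∈ s, Ng a (A i)) : pl a (∑ i ∈ s, A i) = ∑ i ∈ s, pl a (A i) := by
  apply toLaurent_injective
  rw [toLaurent_pl (Ng.sum h), map_sum, map_sum]
  exact Finset.sum_congr rfl fun i hi => (toLaurent_pl (h i hi)).symm

lemma pl_map {𝕜' : Type} [CommRing 𝕜'] (f : 𝕜 →+* 𝕜') (a : Fin k → ℤ) (A : LQ 𝕜 k) :
    pl a (mapRingHom _ f A) = (pl a A).map f := by
  rw [pl, pl, Polynomial.map_sum]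
  rw [Finset.sum_subset (s₂ := A.coeff.support) (fun u hu => ?_)
    fun u _ hu => by rw [Finsupp.notMem_support_iff.mp hu, monomial_zero_right]]
  · simp [coeff_mapRingHom]
  · rw [Finsupp.mem_support_iff, coeff_mapRingHom] at hu
    exact Finsupp.mem_support_iff.mpr fun e => hu (by rw [e, map_zero])

lemma pl_toC [Algebra 𝕜 ℂ] (a : Fin k → ℤ) (A : LQ 𝕜 k) :
    pl a (toC A) = (pl a A).map (algebraMap 𝕜 ℂ) := pl_map _ a A

lemma pl_toQ (a : Fin k → ℤ) (F : LQ ℤ k) :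
    pl a (toQ F : LP k) = (pl a F).map (Int.castRingHom ℚ) := pl_map _ a F

lemma pl_dv {a : Fin k → ℤ} {A : LQ 𝕜 k} (h : Ng a A) :
    pl a (dv (cv 𝕜 a) A) = -(X * derivative (pl a A)) := by
  rw [pl, pl, Finset.sum_subset (support_dv _ A)
    fun u _ hu => by rw [Finsupp.notMem_support_iff.mp hu, monomial_zero_right]]
  rw [derivative_sum, Finset.mul_sum, ← Finset.sum_neg_distrib]
  refine Finset.sum_congr rfl fun u hu => ?_
  obtain ⟨m, hm⟩ := Int.eq_ofNat_of_zero_le (neg_nonneg.mpr (h u hu))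
  rw [dv_cv_coeff, hm, Int.toNat_natCast, show u ⬝ᵥ a = -m by omega, derivative_monomial]
  cases m with
  | zero => simp
  | succ m =>
    rw [X_mul_monomial, Nat.add_sub_cancel, ← monomial_neg]
    congr 1
    push_cast
    ring

lemma aeval_pl [Algebra 𝕜 ℂ] {a : Fin k → ℤ} {A : LQ 𝕜 k} (h : Ng a A) (α : ℂˣ) :
    aeval ((α⁻¹ : ℂˣ) : ℂ) (pl a A) = evc a α A := by
  rw [← evL_toLaurent, toLaurent_pl h, evL_spk, evc_eq_sum, evc_eq_sum]
  simp

lemma l1_mapDomain_le (φ : (Fin k → ℤ) → (Fin r → ℤ)) (F : LQ ℤ k) :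
    l1 (mapDomain φ F) ≤ l1 F := by
  classical
  have h : ∀ z, ((mapDomain φ F).coeff z).natAbs ≤
      ∑ u ∈ F.coeff.support.filter (fun u => φ u = z), (F.coeff u).natAbs := fun z => by
    rw [mapDomain_eq_sum, AddMonoidAlgebra.coeff_sum, Finsupp.coe_finsetSum, Finset.sum_apply,
      Finset.sum_filter]
    refine (Int.natAbs_sum_le _ _).trans (Finset.sum_le_sum fun u _ => ?_)
    rw [coeff_single, Finsupp.single_apply]
    split_ifs <;> simp
  calc l1 (mapDomain φ F) ≤ _ := Finset.sum_le_sum fun z _ => h z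
    _ ≤ l1 F := by
      rw [Finset.sum_fiberwise_eq_sum_filter]
      exact Finset.sum_le_sum_of_subset (Finset.filter_subset _ _)

lemma l1_pb_le (M : Matrix (Fin k) (Fin r) ℤ) (F : LQ ℤ k) : l1 (pb M F) ≤ l1 F :=
  l1_mapDomain_le _ F

/-- divisibility descends along an injective map of exponents -/
lemma dvd_of_mapDomain {ι : (Fin r → ℤ) →+ (Fin k → ℤ)} (hι : Function.Injective ι)
    {A B : LP r} (h : (mapDomain ι A : LP k) ∣ mapDomain ι B) : A ∣ B := by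
  obtain ⟨Z, hZ⟩ := h
  refine ⟨comapDomain ι hι Z, ?_⟩
  rw [← NormA.comap_mul, ← hZ]
  ext u
  rw [coeff_comapDomain, Finsupp.comapDomain_apply, coeff_mapDomain, Finsupp.mapDomain_apply hι]

/-- with `0` as the unique top exponent the specialization is not zero -/
lemma spec_ne_zero_of_gap {F : LQ ℤ k} {a : Fin k → ℤ} {s : ℕ} (h0 : F.coeff 0 ≠ 0) (hs : 1 ≤ s)
    (h : ∀ u ∈ F.coeff.support, u ≠ 0 → u ⬝ᵥ a + s ≤ 0) : spec a (toQ F) ≠ 0 := by
  intro e
  have h' : ∀ u ∈ (toQ F : LP k).coeff.support, u ≠ 0 → u ⬝ᵥ a + s ≤ 0 := by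
    rwa [support_toQ]
  have h1 : spk (-a) (toQ F : LP k) = invert (spec a (toQ F)) := by
    rw [spec_eq_spk]
    generalize (toQ F : LP k) = A
    induction A using AddMonoidAlgebra.induction_linear with
    | zero => simp
    | add x y hx hy => simp only [map_add, hx, hy]
    | single u c => simp
  rw [e, map_zero, ← toLaurent_pl (ng_of_gap h'), toLaurent_eq_zero] at h1
  have := pl_coeff_zero hs h'
  rw [h1, toQ_coeff, Polynomial.coeff_zero] at this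
  exact h0 (by exact_mod_cast this.symm)

end Pl

section Ps

variable {𝕜 : Type} [CommRing 𝕜] [IsDomain 𝕜] [Algebra 𝕜 ℂ] [FaithfulSMul 𝕜 ℂ]

lemma ps_mul {g h : 𝕜[X]} (hgh : g * h ≠ 0) (j : ℕ) : ps (g * h) j = ps g j + ps h j := by
  rw [ps, aroots_mul hgh, Multiset.map_add, Multiset.sum_add, ps, ps]

omit [IsDomain 𝕜] in
lemma card_aroots (g : 𝕜[X]) : (g.aroots ℂ).card = g.natDegree := by
  rw [aroots_def, ← natDegree_map_eq_of_injective (FaithfulSMul.algebraMap_injective 𝕜 ℂ) g]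
  exact (IsAlgClosed.splits _).natDegree_eq_card_roots.symm

omit [IsDomain 𝕜] in
lemma norm_ps_le {g : 𝕜[X]} {j : ℕ} {C : ℝ} (h : ∀ β ∈ g.aroots ℂ, ‖β‖ ^ j ≤ C) :
    ‖ps g j‖ ≤ g.natDegree * C := by
  refine (norm_multiset_sum_le _).trans ?_
  rw [← card_aroots, Multiset.map_map, ← nsmul_eq_mul, ← Multiset.card_map (fun β => ‖β ^ j‖)]
  refine Multiset.sum_le_card_nsmul _ _ fun x hx => ?_
  obtain ⟨β, hβ, rfl⟩ := Multiset.mem_map.mp hx
  simpa using h β hβ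

lemma aroots_map_int (g : ℤ[X]) : (g.map (Int.castRingHom ℚ)).aroots ℂ = g.aroots ℂ :=
  aroots_map ℂ ℚ g

lemma ps_map_int (g : ℤ[X]) (j : ℕ) : ps (g.map (Int.castRingHom ℚ)) j = ps g j := by
  rw [ps, aroots_map_int, ps]

lemma aeval_map_int (g : ℤ[X]) (β : ℂ) : aeval β (g.map (Int.castRingHom ℚ)) = aeval β g :=
  aeval_map_algebraMap ℚ β g

/-- the factorization of an integral polynomial over `ℂ` -/
lemma map_eq_prod (g : ℤ[X]) : g.map (Int.castRingHom ℂ) =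
    Polynomial.C (g.leadingCoeff : ℂ) * ((g.aroots ℂ).map fun β => X - Polynomial.C β).prod := by
  have h := (IsAlgClosed.splits (g.map (Int.castRingHom ℂ))).eq_prod_roots
  rwa [leadingCoeff_map_of_injective (RingHom.injective_int _)] at h

end Ps

section Mu

lemma mu_add (x y : ℕ → ℂ) (d : ℕ) : mu (fun j => x j + y j) d = mu x d + mu y d := by
  simp [mu, mul_add, Finset.sum_add_distrib]

lemma mu_sub (x y : ℕ → ℂ) (d : ℕ) : mu (fun j => x j - y j) d = mu x d - mu y d := by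
  simp [mu, mul_sub, Finset.sum_sub_distrib]

lemma mu_mul (t : ℂ) (x : ℕ → ℂ) (d : ℕ) : mu (fun j => t * x j) d = t * mu x d := by
  simp [mu, Finset.mul_sum, mul_left_comm]

lemma mu_congr {x y : ℕ → ℂ} {d : ℕ} (h : ∀ e, 1 ≤ e → e ≤ d → e ∣ d → x e = y e) :
    mu x d = mu y d :=
  Finset.sum_congr rfl fun e he => by
    rw [h e (Nat.pos_of_mem_divisors he) (Nat.divisor_le he) (Nat.dvd_of_mem_divisors he)]

lemma mu_eq (x : ℕ → ℂ) (d : ℕ) :
    mu x d = ∑ q ∈ d.divisorsAntidiagonal, (ArithmeticFunction.moebius q.1 : ℂ) * x q.2 :=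
  (Nat.sum_divisorsAntidiagonal' fun i j => (ArithmeticFunction.moebius i : ℂ) * x j).symm

/-- Moebius inversion -/
lemma sum_mu (x : ℕ → ℂ) {j : ℕ} (hj : 1 ≤ j) : ∑ d ∈ j.divisors, mu x d = x j :=
  ArithmeticFunction.sum_eq_iff_sum_mul_moebius_eq.mpr (fun d _ => (mu_eq x d).symm) j hj

lemma mu_sum (y : ℕ → ℂ) {d : ℕ} (hd : 1 ≤ d) : mu (fun j => ∑ e ∈ j.divisors, y e) d = y d := by
  rw [mu_eq]
  exact ArithmeticFunction.sum_eq_iff_sum_mul_moebius_eq.mp (fun _ _ => rfl) d hd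

lemma norm_mu_le (x : ℕ → ℂ) (d : ℕ) : ‖mu x d‖ ≤ ∑ e ∈ d.divisors, ‖x e‖ := by
  refine (norm_sum_le _ _).trans (Finset.sum_le_sum fun e _ => ?_)
  rw [norm_mul, Complex.norm_intCast]
  refine mul_le_of_le_one_left (norm_nonneg _) ?_
  exact_mod_cast ArithmeticFunction.abs_moebius_le_one

lemma norm_mu_le_card {x : ℕ → ℂ} {d : ℕ} {C : ℝ} (h : ∀ e, 1 ≤ e → e ≤ d → ‖x e‖ ≤ C) :
    ‖mu x d‖ ≤ d.divisors.card * C := by
  refine (norm_mu_le x d).trans ?_
  rw [← nsmul_eq_mul]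
  exact Finset.sum_le_card_nsmul _ _ _ fun e he =>
    h e (Nat.pos_of_mem_divisors he) (Nat.divisor_le he)

end Mu

end Pool.Agent.P.MP_aef18a_nt.OW
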