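import Pool.Agent.P.MP_aef18a_nt.Ad.Ufd
import Pool.Agent.P.MP_aef18a_nt.Ad.Norm
import Pool.Agent.P.MP_aef18a_nt.Ad.Czn1
import Pool.Agent.P.MP_aef18a_nt.Ad.Deg
import Pool.Agent.P.MP_aef18a_nt.Ad.Blocks

namespace Pool.Agent.P.MP_aef18a_nt.OW

open Polynomial Matrix LaurentPolynomial

section Gen

variable {𝕜 : Type} [CommRing 𝕜] {k : ℕ}

/-- all coordinate widths of the support are at most `D` -/
def Wb (D : ℕ) (A : LQ 𝕜 k) : Prop :=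
  ∀ u ∈ A.coeff.support, ∀ u' ∈ A.coeff.support, ∀ i, u i - u' i ≤ D

/-- the support lies in the box of radius `D` -/
def Bx (D : ℕ) (A : LQ 𝕜 k) : Prop := ∀ u ∈ A.coeff.support, ∀ i, |u i| ≤ D

/-- three points of the support are not on a line -/
def NonCol (A : LQ 𝕜 k) : Prop :=
  ∃ u ∈ A.coeff.support, ∃ v ∈ A.coeff.support, ∃ w ∈ A.coeff.support, ∃ i j,
    (v i - u i) * (w j - u j) ≠ (v j - u j) * (w i - u i)

/-- `u ↦ u M` -/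
def vm {r : ℕ} (M : Matrix (Fin k) (Fin r) ℤ) : (Fin k → ℤ) →+ (Fin r → ℤ) :=
  AddMonoidHom.mk' (fun u => u ᵥ* M) fun u v => add_vecMul M u v

/-- `x^u ↦ x^(u M)` -/
noncomputable def pb {r : ℕ} (M : Matrix (Fin k) (Fin r) ℤ) : LQ 𝕜 k →+* LQ 𝕜 r :=
  AddMonoidAlgebra.mapDomainRingHom 𝕜 (vm M)

/-- `x^u ↦ x^(m u)` -/
noncomputable def dil (m : ℕ) : LQ 𝕜 k →+* LQ 𝕜 k :=
  AddMonoidAlgebra.mapDomainRingHom 𝕜
    (AddMonoidHom.mk' (fun u : Fin k → ℤ => (m : ℤ) • u) fun u v => smul_add _ u v)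

/-- the derivation `x^u ↦ ⟨u, θ⟩ x^u` -/
noncomputable def dv (θ : Fin k → 𝕜) (A : LQ 𝕜 k) : LQ 𝕜 k := ∑ i, θ i • dd i A

/-- `A(t^a)` over any ring -/
noncomputable def spk (a : Fin k → ℤ) : LQ 𝕜 k →+* 𝕜[T;T⁻¹] :=
  AddMonoidAlgebra.mapDomainRingHom 𝕜
    (AddMonoidHom.mk' (fun u : Fin k → ℤ => u ⬝ᵥ a) fun u v => add_dotProduct u v a)

/-- `⟨u, a⟩ ≤ 0` on the support -/
def Ng (a : Fin k → ℤ) (A : LQ 𝕜 k) : Prop := ∀ u ∈ A.coeff.support, u ⬝ᵥ a ≤ 0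

/-- `A(t^(-a))` as a polynomial, meaningful under `Ng a A` -/
noncomputable def pl (a : Fin k → ℤ) (A : LQ 𝕜 k) : 𝕜[X] :=
  ∑ u ∈ A.coeff.support, monomial (-(u ⬝ᵥ a)).toNat (A.coeff u)

/-- evaluation of a Laurent polynomial at a nonzero complex number -/
noncomputable def evL [Algebra 𝕜 ℂ] (α : ℂˣ) : 𝕜[T;T⁻¹] →+* ℂ :=
  LaurentPolynomial.eval₂ (algebraMap 𝕜 ℂ) α

/-- change of coefficients to `ℂ` -/
noncomputable def toC [Algebra 𝕜 ℂ] : LQ 𝕜 k →+* LQ ℂ k :=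
  AddMonoidAlgebra.mapRingHom _ (algebraMap 𝕜 ℂ)

/-- power sums of the complex roots -/
noncomputable def ps [Algebra 𝕜 ℂ] (g : 𝕜[X]) (j : ℕ) : ℂ := ((g.aroots ℂ).map (· ^ j)).sum

end Gen

/-- no nonzero integer relation of height at most `E` -/
def NoRel {k : ℕ} (E : ℕ) (b : Fin k → ℤ) : Prop :=
  ∀ c : Fin k → ℤ, c ≠ 0 → (∀ i, |c i| ≤ E) → c ⬝ᵥ b ≠ 0

/-- the sup norm -/
def nu {k : ℕ} (a : Fin k → ℤ) : ℕ := Finset.univ.sup fun i => (a i).natAbs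

/-- the sum of the absolute values of the coefficients -/
def l1 {k : ℕ} (F : LQ ℤ k) : ℕ := ∑ u ∈ F.coeff.support, (F.coeff u).natAbs

/-- an integer vector in another ring -/
def cv (𝕜 : Type) [CommRing 𝕜] {k : ℕ} (a : Fin k → ℤ) : Fin k → 𝕜 := fun i => (a i : 𝕜)

/-- `P` does not split on a finer lattice on which `a` stays integral -/
def Abs {k : ℕ} (P : LP k) (a : Fin k → ℤ) : Prop :=
  ∀ m : ℕ, 0 < m → ∀ P₁ P₂ : LP k, dil m P = P₁ * P₂ →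
    (∀ u ∈ P₁.coeff.support, ∀ u' ∈ P₁.coeff.support, (m : ℤ) ∣ (u - u') ⬝ᵥ a) →
    IsUnit P₁ ∨ IsUnit P₂

/-- the factors of the dilates of `P` live on the lattice `1 / m₀` -/
def Kp {k : ℕ} (P : LP k) (m₀ : ℕ) : Prop :=
  ∀ m : ℕ, 0 < m → ∀ R : LP k, R ∣ dil m P →
    ∀ u ∈ R.coeff.support, ∀ u' ∈ R.coeff.support, ∀ i, (m : ℤ) ∣ m₀ * (u i - u' i)

/-- a root which is not a root of unity -/
def HasL (f : ℚ[T;T⁻¹]) : Prop := ∃ α : ℂˣ, NonTors α ∧ evL α f = 0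

/-- two factors with roots which are not roots of unity -/
def TwoL (f : ℚ[T;T⁻¹]) : Prop := ∃ f₁ f₂, f = f₁ * f₂ ∧ HasL f₁ ∧ HasL f₂

/-- a unique top exponent, with a gap of at least `κ` times the width -/
def Margin {k : ℕ} (κ : ℝ) (F : LP k) (a : Fin k → ℤ) : Prop :=
  ∃ u₀ ∈ F.coeff.support, ∀ u ∈ F.coeff.support, u ≠ u₀ →
    ∀ v ∈ F.coeff.support, ∀ w ∈ F.coeff.support,
      κ * (((v - w) ⬝ᵥ a : ℤ) : ℝ) ≤ (((u₀ - u) ⬝ᵥ a : ℤ) : ℝ)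

/-- the standing assumptions on the normalized polynomial -/
structure Dat {k : ℕ} (F : LQ ℤ k) : Prop where
  irr : Irreducible (toQ F)
  nc : NonCol F
  c0 : F.coeff 0 ≠ 0
  prim : ∀ p : ℕ, p.Prime → ∃ u, ¬ (p : ℤ) ∣ F.coeff u

/-- `0` is the top exponent, with a gap that survives halving -/
def Gap {k : ℕ} (κ : ℝ) (F : LQ ℤ k) (a : Fin k → ℤ) : Prop :=
  ∀ u ∈ F.coeff.support, u ≠ 0 → κ * nu a - 10 * √(nu a : ℝ) ≤ ((-(u ⬝ᵥ a) : ℤ) : ℝ)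

def Valid {k : ℕ} (F : LQ ℤ k) (κ : ℝ) (B : ℕ) (a : Fin k → ℤ) : Prop :=
  NoRel B a ∧ Gap κ F a ∧ Abs (toQ F) a

/-- the induction hypothesis -/
def IH {k : ℕ} (F : LQ ℤ k) (κ : ℝ) (B : ℕ) (a : Fin k → ℤ) : Prop :=
  ∀ a' : Fin k → ℤ, nu a' < nu a → Valid F κ B a' → ¬ TwoL (spec a' (toQ F))

/-- `0` is the top exponent with gap `s`, and everything is at most `J s` -/
def Gp {k : ℕ} (F : LQ ℤ k) (a : Fin k → ℤ) (J s : ℕ) : Prop :=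
  1 ≤ s ∧ (∀ u ∈ F.coeff.support, u ≠ 0 → u ⬝ᵥ a + s ≤ 0) ∧ nu a ≤ J * s ∧
    ∀ u ∈ F.coeff.support, -(u ⬝ᵥ a) ≤ J * s

/-- `a = M b` with `M` small and `b` without small relations -/
def Pr {k r : ℕ} (a : Fin k → ℤ) (H : ℕ) (M : Matrix (Fin k) (Fin r) ℤ) (b : Fin r → ℤ) : Prop :=
  r ≤ k + 1 ∧ a = M *ᵥ b ∧ (∀ i j, |M i j| ≤ H) ∧ (∀ j, |b j| ≤ H ^ 2 * nu a) ∧ NoRel (H ^ 20) b

/-- the roots which are not roots of unity have large degree -/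
def DegH {k : ℕ} (F : LQ ℤ k) (a : Fin k → ℤ) (H : ℕ) : Prop :=
  ∀ α : ℂˣ, NonTors α → evc a α (toQ F) = 0 → nu a ≤ H * (minpoly ℚ (α : ℂ)).natDegree

/-- the pull-back has no two essential factors -/
def NoTwo {k r : ℕ} (F : LQ ℤ k) (M : Matrix (Fin k) (Fin r) ℤ) (b : Fin r → ℤ) : Prop :=
  ∀ G₁ G₂ : LP r, pb M (toQ F) = G₁ * G₂ → HasL (spec b G₁) → HasL (spec b G₂) → False

/-- the roots which are not roots of unity are simple -/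
def Sim {k : ℕ} (F : LQ ℤ k) (a : Fin k → ℤ) : Prop :=
  ∀ α : ℂˣ, NonTors α → evc a α (toQ F) = 0 → evc a α (dv (cv ℚ a) (toQ F)) ≠ 0

/-- small lacunary relations do not separate the roots which are not roots of unity -/
def St {k : ℕ} (F : LQ ℤ k) (a : Fin k → ℤ) (X j₀ : ℕ) : Prop :=
  ∀ α α' : ℂˣ, NonTors α → NonTors α' → evc a α (toQ F) = 0 → evc a α' (toQ F) = 0 →
    ∀ (E : Finset ℕ) (z : ℕ → ℚ),
      (∀ e ∈ E, ∃ (v : Fin k → ℤ) (j : ℤ), (∀ i, |v i| ≤ X) ∧ |j| ≤ X ∧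
        (e : ℤ) = v ⬝ᵥ a + j * j₀) →
      ∑ e ∈ E, (z e : ℂ) * (α : ℂ) ^ e = 0 → ∑ e ∈ E, (z e : ℂ) * (α' : ℂ) ^ e = 0

/-- `t^N F(t^a)` -/
noncomputable def SS {k : ℕ} (F : LQ ℤ k) (a : Fin k → ℤ) : ℤ[X] := (pl a F).reverse

/-! ### One variable -/

/-- lacunary at the top with gap `s`, length at most `L` -/
def Lac (L s : ℕ) (S : ℤ[X]) : Prop :=
  S.coeff 0 ≠ 0 ∧ ∑ i ∈ S.support, (S.coeff i).natAbs ≤ L ∧ 1 ≤ s ∧
    ∀ i ∈ S.support, i = S.natDegree ∨ i + s ≤ S.natDegree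

/-- the mean of the `j`-th powers of the conjugates -/
noncomputable def tau (α : ℂ) (j : ℕ) : ℂ := ps (minpoly ℚ α) j / (minpoly ℚ α).natDegree

/-- Moebius transform -/
noncomputable def mu (x : ℕ → ℂ) (d : ℕ) : ℂ :=
  ∑ e ∈ d.divisors, (ArithmeticFunction.moebius (d / e) : ℂ) * x e

/-- `x` is the sequence of Newton sums of `u` -/
def IsNS (u : PowerSeries ℂ) (x : ℕ → ℂ) : Prop :=
  u * PowerSeries.mk (fun j => if j = 0 then 0 else x j) =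
    -(PowerSeries.X * PowerSeries.derivative ℂ u)

/-- the monic reversed polynomial `∏ (1 - β t)` as a power series -/
noncomputable def rv (g : ℤ[X]) : PowerSeries ℂ :=
  PowerSeries.C ((g.leadingCoeff : ℂ)⁻¹) *
    ((g.reverse.map (Int.castRingHom ℂ) : ℂ[X]) : PowerSeries ℂ)

def Simple (S : ℤ[X]) : Prop :=
  ∀ α : ℂˣ, NonTors α → aeval (α : ℂ) S = 0 → aeval (α : ℂ) (derivative S) ≠ 0

def Two (S : ℤ[X]) : Prop :=
  ∃ α α' : ℂˣ, NonTors α ∧ NonTors α' ∧ aeval (α : ℂ) S = 0 ∧ aeval (α' : ℂ) S = 0 ∧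
    minpoly ℚ (α : ℂ) ≠ minpoly ℚ (α' : ℂ)

def DegLB (S : ℤ[X]) (y : ℝ) : Prop :=
  ∀ α : ℂˣ, NonTors α → aeval (α : ℂ) S = 0 → y ≤ (minpoly ℚ (α : ℂ)).natDegree

def Flat (S : ℤ[X]) (K η : ℝ) : Prop :=
  ∀ α α' : ℂˣ, NonTors α → NonTors α' → aeval (α : ℂ) S = 0 → aeval (α' : ℂ) S = 0 →
    ∀ j : ℕ, 1 ≤ j → (j : ℝ) ≤ K → ‖tau α j - tau α' j‖ ≤ η

def Lev (L s : ℕ) (S : ℤ[X]) : Prop := ∀ l : ℕ, 0 < l → cyclotomic l ℤ ∣ S → l * L ≤ s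

/-- the weighted power sum `∑ β^j β S'(β)` -/
noncomputable def Qs (S : ℤ[X]) (j : ℕ) : ℂ :=
  ((S.aroots ℂ).map fun β => β ^ j * (β * aeval β (derivative S))).sum

/-- `Y / c` is an `s₀`-th root of `(f / c)^r` to order `K`, where `c = f(0)` -/
def Rt (f : ℤ[X]) (r s₀ K : ℕ) (Y : PowerSeries ℤ) : Prop :=
  PowerSeries.coeff 0 Y = f.coeff 0 ∧
    (PowerSeries.X : PowerSeries ℤ) ^ (K + 1) ∣
      Y ^ s₀ - PowerSeries.C (f.coeff 0 ^ (s₀ - r)) * (f : PowerSeries ℤ) ^ r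

/-- the dimension of the span of some powers of `α` -/
noncomputable def rk (α : ℂ) (E : Finset ℕ) : ℕ :=
  Module.finrank ℚ (Submodule.span ℚ ((fun e : ℕ => α ^ e) '' (E : Set ℕ)))

/-- the truncated inverse `c ∑_(j ≤ J) (-c W)^j` of `F = c + W`, for `c ^ 2 = 1` -/
noncomputable def tinv {k : ℕ} (F : LQ ℤ k) (J : ℕ) : LQ ℤ k :=
  F.coeff 0 • ∑ j ∈ Finset.range (J + 1),
    (-(F.coeff 0 • (F - AddMonoidAlgebra.single 0 (F.coeff 0)))) ^ j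

/-- the truncation of `(∂_θ F)^2 / F` -/
noncomputable def Psi {k : ℕ} (F : LQ ℤ k) (θ : Fin k → ℝ) (J : ℕ) : LQ ℂ k :=
  dv (fun i => (θ i : ℂ)) (toC F) ^ 2 * toC (tinv F J)

/-- the splitting of `S` used in both end games -/
structure Setup (S g h St : ℤ[X]) (c : Multiset ℕ) (y K η : ℝ) : Prop where
  gh : S = g * h
  cyc : S = St * (c.map fun l => cyclotomic l ℤ).prod
  pos : ∀ l ∈ c, 0 < l
  sub : g.aroots ℂ ≤ St.aroots ℂ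
  nodup : (St.aroots ℂ).Nodup
  out : ∀ β ∈ S.aroots ℂ, 1 < ‖β‖ → β ∈ St.aroots ℂ
  lo : y ≤ g.natDegree
  hi : g.natDegree + y ≤ St.natDegree
  flat : ∀ j : ℕ, 1 ≤ j → (j : ℝ) ≤ K →
    ‖ps g j - (g.natDegree : ℂ) / St.natDegree * ps St j‖ ≤ S.natDegree * η

/-- alternative (ii) of the conjecture for the matrices in `Ω` -/
def Alt {n : ℕ} (F : LP n) (Ω : Finset (Matrix (Fin n) (Fin n) ℤ)) (a : Fin n → ℤ) : Prop :=
  ∃ M ∈ Ω, ∃ b : Fin n → ℤ, a = M *ᵥ b ∧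
    ∀ (s : Finset (LP n)) (e : LP n → ℕ), (∀ P ∈ s, Irreducible P ∧ 0 < e P) →
      (s : Set (LP n)).Pairwise (fun P Q => ¬ Associated P Q) →
      Associated (subst M F) (∏ P ∈ s, P ^ e P) →
      ∃ (g : LaurentPolynomial ℚ) (p : LP n → LaurentPolynomial ℚ), IsStar (spec a F) g ∧
        (∀ P ∈ s, IsStar (spec b P) (p P) ∧ Irreducible (p P)) ∧
        (s : Set (LP n)).Pairwise (fun P Q => ¬ Associated (p P) (p Q)) ∧
        Associated g (∏ P ∈ s, p P ^ e P)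

end Pool.Agent.P.MP_aef18a_nt.OW
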