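import Pool.Agent.P.MP_aef18a_nt.OW.Iface

namespace Pool.Agent.P.MP_aef18a_nt.OW

open Polynomial Matrix LaurentPolynomial

namespace Fc1x

theorem sub {m m' : ℕ} (κ : Fin m → Fin m') (hκ : Function.Injective κ) (g : Fin m' → ℝ) (a : ℝ)
    (ha : 0 ≤ a) (hg : ∀ j, a ≤ g j) : (∏ i, g (κ i)) * a ^ (m' - m) ≤ ∏ j, g j := by
  rw [← Finset.prod_mul_prod_compl (Finset.univ.image κ) g,
    Finset.prod_image fun _ _ _ _ e => hκ e]
  refine mul_le_mul_of_nonneg_left ?_ (Finset.prod_nonneg fun i _ => ha.trans (hg _))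
  have e : (Finset.univ.image κ)ᶜ.card = m' - m := by
    rw [Finset.card_compl, Finset.card_image_of_injective _ hκ]
    simp
  rw [← e, ← Finset.prod_const]
  exact Finset.prod_le_prod (fun _ _ => ha) fun j _ => hg j

theorem le_pow {n : ℕ} (f : Fin n → ℝ) (C : ℝ) (h0 : ∀ i, 0 ≤ f i) (h : ∀ i, f i ≤ C) :
    ∏ i, f i ≤ C ^ n := by
  refine (Finset.prod_le_prod (fun i _ => h0 i) fun i _ => h i).trans_eq ?_
  simp

theorem norm_det {ι : Type} [Fintype ι] [DecidableEq ι] (M : Matrix ι ι ℂ) (B : ℝ)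
    (h : ∀ σ : Equiv.Perm ι, ∏ c, ‖M (σ c) c‖ ≤ B) :
    ‖M.det‖ ≤ (Fintype.card ι).factorial * B := by
  rw [det_apply']
  refine (norm_sum_le_of_le _ (n := fun _ => B) fun σ _ => ?_).trans_eq ?_
  · rw [norm_mul, norm_prod]
    rcases Int.units_eq_one_or (Equiv.Perm.sign σ) with e | e <;> simpa [e] using h σ
  · rw [Finset.sum_const, Finset.card_univ, Fintype.card_perm, nsmul_eq_mul]

end Fc1x

theorem p_Fc1 : S_Fc1 := by
  intro m m' y x e e' h Λ C A hC hA hm h1 h2 h3 hy hx hh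
  have C0 : 0 ≤ C := by linarith
  have key : fromBlocks (of fun i' i => h (y i') * y i' ^ e i) (of fun i' j => y i' ^ e' j) 0
      (of fun j' j => x j' ^ e' j) * fromBlocks 1 0 (of fun j i => -Λ i j) 1 =
      fromBlocks 0 (of fun i' j => y i' ^ e' j) (of fun j' i => -(h (x j') * x j' ^ e i))
        (of fun j' j => x j' ^ e' j) := by
    rw [fromBlocks_multiply]
    congr 1
    · ext i' i
      simp [mul_apply, hy, mul_comm]
    · simp
    · ext j' i
      simp [mul_apply, hx, mul_comm]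
    · simp
  have hd := congrArg (fun M => ‖det M‖) key
  simp only [det_mul, det_fromBlocks_zero₂₁, det_fromBlocks_zero₁₂, det_one, mul_one] at hd
  rw [det_mul_column, norm_mul, norm_mul, norm_prod] at hd
  refine hd.le.trans ((Fc1x.norm_det _ (C ^ (m + m') * Real.exp ((m' - m : ℝ) * A) *
    ∏ j, ‖h (x j)‖) fun σ => ?_).trans_eq (by simp [mul_assoc]))
  rw [Fintype.prod_sum_type]
  by_cases h0 : ∃ i i', σ (.inl i) = .inl i'
  · obtain ⟨i, i', e0⟩ := h0
    rw [Finset.prod_eq_zero (Finset.mem_univ i) (by simp [e0]), zero_mul]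
    positivity
  have h4 : ∀ i, ∃ j, σ (.inl i) = .inr j := fun i => by
    rcases e0 : σ (.inl i) with i' | j
    · exact absurd ⟨i, i', e0⟩ h0
    · exact ⟨j, rfl⟩
  choose κ hκ using h4
  have hi : Function.Injective κ := fun i i' e0 =>
    Sum.inl_injective (σ.injective (by rw [hκ, hκ, e0]))
  have a1 := Fc1x.sub κ hi (fun j => ‖h (x j)‖) _ (Real.exp_pos _).le hh
  have a2 : ∏ i, ‖h (x (κ i))‖ ≤ Real.exp ((m' - m : ℝ) * A) * ∏ j, ‖h (x j)‖ := by
    rw [← Real.exp_nat_mul, Nat.cast_sub hm, mul_neg, Real.exp_neg, ← div_eq_mul_inv,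
      div_le_iff₀ (Real.exp_pos _), mul_comm] at a1
    exact a1
  have a3 := Fc1x.le_pow (fun i => ‖x (κ i) ^ e i‖) C (fun _ => norm_nonneg _) fun i => h1 i _
  simp only [hκ, fromBlocks_apply₂₁, of_apply, norm_neg, norm_mul, Finset.prod_mul_distrib]
  refine (mul_le_mul (mul_le_mul a2 a3 (by positivity) (by positivity))
    (Fc1x.le_pow _ C (fun _ => norm_nonneg _) fun j => ?_) (by positivity)
    (by positivity)).trans_eq (by ring)
  rcases σ (.inr j) with i | j'
  · exact h2 i j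
  · exact h3 j j'

end Pool.Agent.P.MP_aef18a_nt.OW
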