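import Pool.Agent.P.MP_aef18a_nt.OW.Iface

namespace Pool.Agent.P.MP_aef18a_nt.OW

open Polynomial Matrix LaurentPolynomial

namespace Finx

/-- `R` holds off finitely many hyperplanes -/
def Off {n : ℕ} (R : (Fin n → ℤ) → Prop) : Prop :=
  ∃ Γ : Finset (Fin n → ℤ), 0 ∉ Γ ∧ ∀ b, (∀ c ∈ Γ, c ⬝ᵥ b ≠ 0) → R b

lemma Off.mono {n : ℕ} {R R' : (Fin n → ℤ) → Prop} (h : Off R) (hR : ∀ b, R b → R' b) :
    Off R' := by
  obtain ⟨Γ, h0, h⟩ := h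
  exact ⟨Γ, h0, fun b hb => hR b (h b hb)⟩

lemma Off.and {n : ℕ} {R R' : (Fin n → ℤ) → Prop} (h : Off R) (h' : Off R') :
    Off fun b => R b ∧ R' b := by
  classical
  obtain ⟨Γ, h0, h⟩ := h
  obtain ⟨Γ', h0', h'⟩ := h'
  exact ⟨Γ ∪ Γ', by simp [h0, h0'], fun b hb =>
    ⟨h b fun c hc => hb c (Finset.mem_union_left _ hc),
      h' b fun c hc => hb c (Finset.mem_union_right _ hc)⟩⟩

lemma Off.finset {n : ℕ} {ι : Type*} (s : Finset ι) {R : ι → (Fin n → ℤ) → Prop}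
    (h : ∀ i ∈ s, Off (R i)) : Off fun b => ∀ i ∈ s, R i b := by
  classical
  induction s using Finset.induction_on with
  | empty => exact ⟨∅, by simp, by simp⟩
  | insert j s _ ih =>
    refine ((h j (Finset.mem_insert_self _ _)).and
      (ih fun i hi => h i (Finset.mem_insert_of_mem hi))).mono fun b hb i hi => ?_
    rcases Finset.mem_insert.mp hi with rfl | hi
    exacts [hb.1, hb.2 i hi]

lemma off_ne {n : ℕ} (i : Fin n) : Off fun b : Fin n → ℤ => b ≠ 0 :=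
  ⟨{Pi.single i 1}, by
    rw [Finset.mem_singleton]
    intro h
    simpa using congrFun h i, fun b hb e => hb _ (Finset.mem_singleton_self _) (by simp [e])⟩

lemma off_inj {n : ℕ} (S : Finset (Fin n → ℤ)) :
    Off fun b : Fin n → ℤ => Set.InjOn (· ⬝ᵥ b) S := by
  have h : ∀ u ∈ S, Off fun b : Fin n → ℤ => ∀ v ∈ S, u ⬝ᵥ b = v ⬝ᵥ b → u = v := fun u _ =>
    Off.finset S fun v _ => by
      by_cases e : u = v
      · exact ⟨∅, by simp, fun _ _ _ => e⟩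
      · refine ⟨{u - v}, by simpa [eq_comm, sub_eq_zero] using e, fun b hb e' => ?_⟩
        exact absurd (by rw [sub_dotProduct, e', sub_self]) (hb _ (Finset.mem_singleton_self _))
  exact (Off.finset S h).mono fun b hb u hu v hv e => hb u hu v hv e

lemma prime_cyc {m : ℕ} (hm : 0 < m) : Prime (toLaurent (cyclotomic m ℚ)) := by
  have hπ : Prime (cyclotomic m ℚ) := (cyclotomic.irreducible_rat hm).prime
  have h0 : (cyclotomic m ℚ).coeff 0 ≠ 0 := by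
    intro h
    have h1 : (X : ℚ[X]) ∣ X ^ m - 1 :=
      (X_dvd_iff.mpr h).trans (cyclotomic.dvd_X_pow_sub_one m ℚ)
    rw [X_dvd_iff] at h1
    simp [coeff_X_pow, hm.ne] at h1
  refine (IsLocalization.toLocalizationMap (Submonoid.powers (X : ℚ[X])) ℚ[T;T⁻¹]).map_prime hπ
    (toLaurent_ne_zero.mpr hπ.ne_zero) fun hu => hπ.not_dvd_one ?_
  rw [← toLaurent_dvd_iff hπ h0]
  exact IsUnit.dvd hu

lemma star_one : IsStar 1 1 :=
  ⟨⟨0, by simp, by simp⟩, fun _ hm => (prime_cyc hm).not_dvd_one⟩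

lemma star_mul {f g f' g' : ℚ[T;T⁻¹]} (h : IsStar f g) (h' : IsStar f' g') :
    IsStar (f * f') (g * g') := by
  obtain ⟨⟨s, hs, ha⟩, hn⟩ := h
  obtain ⟨⟨s', hs', ha'⟩, hn'⟩ := h'
  refine ⟨⟨s + s', fun m hm => (Multiset.mem_add.mp hm).elim (hs m) (hs' m), ?_⟩,
    fun m hm hd => ((prime_cyc hm).dvd_or_dvd hd).elim (hn m hm) (hn' m hm)⟩
  rw [Multiset.map_add, Multiset.prod_add, mul_mul_mul_comm]
  exact ha.mul_mul ha'

lemma star_pow {f g : ℚ[T;T⁻¹]} (h : IsStar f g) (j : ℕ) : IsStar (f ^ j) (g ^ j) := by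
  induction j with
  | zero => simpa using star_one
  | succ j ih => rw [pow_succ, pow_succ]; exact star_mul ih h

lemma star_prod {ι : Type*} (s : Finset ι) {f g : ι → ℚ[T;T⁻¹]}
    (h : ∀ i ∈ s, IsStar (f i) (g i)) : IsStar (∏ i ∈ s, f i) (∏ i ∈ s, g i) := by
  classical
  induction s using Finset.induction_on with
  | empty => simpa using star_one
  | insert j s hj ih =>
    rw [Finset.prod_insert hj, Finset.prod_insert hj]
    exact star_mul (h j (Finset.mem_insert_self _ _))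
      (ih fun i hi => h i (Finset.mem_insert_of_mem hi))

lemma star_assoc {f f' g : ℚ[T;T⁻¹]} (h : IsStar f g) (ha : Associated f' f) : IsStar f' g := by
  obtain ⟨⟨s, hs, hb⟩, hn⟩ := h
  exact ⟨⟨s, hs, ha.trans hb⟩, hn⟩

lemma evL_dvd {f f' : ℚ[T;T⁻¹]} (hd : f ∣ f') {α : ℂˣ} (h : evL α f = 0) : evL α f' = 0 := by
  obtain ⟨c, rfl⟩ := hd
  rw [map_mul, h, zero_mul]

lemma hasL_dvd {f f' : ℚ[T;T⁻¹]} (hd : f ∣ f') (h : HasL f) : HasL f' := by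
  obtain ⟨α, h1, h2⟩ := h
  exact ⟨α, h1, evL_dvd hd h2⟩

lemma twoL_dvd {f f' : ℚ[T;T⁻¹]} (hd : f ∣ f') (h : TwoL f) : TwoL f' := by
  obtain ⟨c, rfl⟩ := hd
  obtain ⟨f₁, f₂, rfl, h1, h2⟩ := h
  exact ⟨f₁, f₂ * c, mul_assoc _ _ _, h1, hasL_dvd (dvd_mul_right _ _) h2⟩

/-- every irreducible factor keeps exactly one essential factor, and they are distinct -/
def Sep {n : ℕ} (G : LP n) (b : Fin n → ℤ) : Prop :=
  (∀ P, Irreducible P → P ∣ G → spec b P ≠ 0 ∧ HasL (spec b P) ∧ ¬ TwoL (spec b P)) ∧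
  ∀ P Q, Irreducible P → Irreducible Q → P ∣ G → Q ∣ G → ¬ P ∣ Q →
    ∀ α : ℂˣ, NonTors α → evc b α P = 0 → evc b α Q ≠ 0

lemma alt_of_sep (hS : S_StarIrr) {n : ℕ} {F : LP n} {Ω : Finset (Matrix (Fin n) (Fin n) ℤ)}
    {M : Matrix (Fin n) (Fin n) ℤ} (hM : M ∈ Ω) {b : Fin n → ℤ} (h : Sep (pb M F) b) :
    Alt F Ω (M *ᵥ b) := by
  classical
  refine ⟨M, hM, b, rfl, fun s e hs hp hass => ?_⟩
  rw [subst_eq_pb] at hass
  have hd : ∀ P ∈ s, P ∣ pb M F := fun P hP =>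
    ((dvd_pow_self P (hs P hP).2.ne').trans
      (Finset.dvd_prod_of_mem (fun P => P ^ e P) hP)).trans hass.symm.dvd
  have key : ∀ P : LP n, ∃ p : ℚ[T;T⁻¹], P ∈ s →
      IsStar (spec b P) p ∧ Irreducible p ∧ p ∣ spec b P ∧ HasL p := fun P => by
    by_cases hP : P ∈ s
    · obtain ⟨h1, h2, h3⟩ := h.1 P (hs P hP).1 (hd P hP)
      obtain ⟨p, hp⟩ := hS _ h1 h2 h3
      exact ⟨p, fun _ => hp⟩
    · exact ⟨1, fun h => absurd h hP⟩
  choose p hp' using key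
  refine ⟨∏ P ∈ s, p P ^ e P, p, ?_, fun P hP => ⟨(hp' P hP).1, (hp' P hP).2.1⟩,
    fun P hP Q hQ hne ha => ?_, Associated.refl _⟩
  · have h1 := hass.map (spk b)
    rw [map_prod, spk_pb] at h1
    refine star_assoc (star_prod s fun P hP => ?_) h1
    rw [map_pow]
    exact star_pow (hp' P hP).1 _
  · obtain ⟨α, hα, h0⟩ := (hp' P hP).2.2.2
    refine h.2 P Q (hs P hP).1 (hs Q hQ).1 (hd P hP) (hd Q hQ)
      (fun hPQ => hp hP hQ hne ((hs P hP).1.associated_of_dvd (hs Q hQ).1 hPQ)) α hα ?_ ?_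
    · rw [← evL_spec]
      exact evL_dvd (hp' P hP).2.2.1 h0
    · rw [← evL_spec]
      exact evL_dvd (ha.dvd.trans (hp' Q hQ).2.2.1) h0

lemma vecMul_inj {n m₀ : ℕ} (hm : 0 < m₀) {M E : Matrix (Fin n) (Fin n) ℤ}
    (h : M * E = (m₀ : ℤ) • 1) : Function.Injective fun u : Fin n → ℤ => u ᵥ* M := by
  intro u v e
  have := congrArg (· ᵥ* E) e
  simp only [vecMul_vecMul, h, vecMul_smul, vecMul_one] at this
  exact smul_inj hm this

lemma det_ne {n m₀ : ℕ} (hm : 0 < m₀) {M E : Matrix (Fin n) (Fin n) ℤ}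
    (h : M * E = (m₀ : ℤ) • 1) : M.det ≠ 0 ∧ E.det ≠ 0 := by
  have := congrArg Matrix.det h
  rw [det_mul, det_smul, det_one, mul_one] at this
  have h0 : M.det * E.det ≠ 0 := by
    rw [this]
    exact pow_ne_zero _ (by exact_mod_cast hm.ne')
  exact ⟨left_ne_zero_of_mul h0, right_ne_zero_of_mul h0⟩

lemma margin_pb {n : ℕ} {κ : ℝ} {F : LP n} {M : Matrix (Fin n) (Fin n) ℤ} {b : Fin n → ℤ}
    (hM : Function.Injective fun u : Fin n → ℤ => u ᵥ* M) (h : Margin κ F (M *ᵥ b)) :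
    Margin κ (pb M F) b := by
  obtain ⟨u₀, hu₀, h⟩ := h
  refine ⟨u₀ ᵥ* M, mem_mapDomain_injOn hM.injOn hu₀, fun z hz hne z' hz' z'' hz'' => ?_⟩
  obtain ⟨u, hu, rfl⟩ := mem_pb hz
  obtain ⟨v, hv, rfl⟩ := mem_pb hz'
  obtain ⟨w, hw, rfl⟩ := mem_pb hz''
  rw [← sub_vecMul, ← sub_vecMul, ← dotProduct_mulVec, ← dotProduct_mulVec]
  exact h u hu (fun e => hne (by rw [e])) v hv w hw

lemma off_sep (hZ : S_CZ) (hA : S_AbsF) (hM : S_Mt) (hN : S_Norm) {n m₀ : ℕ} {F : LP n} {κ : ℝ}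
    (hF : Irreducible F) (hc : NonCol F) (hκ : 0 < κ) (hm : 0 < m₀) (hK : Kp F m₀)
    {M E : Matrix (Fin n) (Fin n) ℤ} (h : M * E = (m₀ : ℤ) • 1) :
    Off fun b => E *ᵥ (M *ᵥ b) = (m₀ : ℤ) • b →
      (∀ v : Fin n → ℤ, (m₀ : ℤ) ∣ v ⬝ᵥ (M *ᵥ b) → ∃ v', v' ᵥ* E = v) →
      Margin κ F (M *ᵥ b) → Sep (pb M F) b := by
  classical
  have := ufd ℚ n
  have hinj := vecMul_inj hm h
  have hG : pb M F ≠ 0 := mapDomain_ne_zero hinj.injOn hF.ne_zero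
  set G := pb M F with hGd
  let Fs := (UniqueFactorizationMonoid.factors G).toFinset
  have hFs : ∀ P ∈ Fs, Irreducible P ∧ P ∣ G := fun P hP =>
    ⟨UniqueFactorizationMonoid.irreducible_of_factor P (Multiset.mem_toFinset.mp hP),
      UniqueFactorizationMonoid.dvd_of_mem_factors (Multiset.mem_toFinset.mp hP)⟩
  have hex : ∀ P, Irreducible P → P ∣ G → ∃ P₀ ∈ Fs, Associated P P₀ := fun P hP hd => by
    obtain ⟨P₀, h1, h2⟩ := UniqueFactorizationMonoid.exists_mem_factors_of_dvd hG hP hd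
    exact ⟨P₀, Multiset.mem_toFinset.mpr h1, h2⟩
  obtain ⟨i, -, -⟩ := hc.exists_ne
  have h1 : Off fun b => ∀ P ∈ Fs, Set.InjOn (· ⬝ᵥ b) G.coeff.support → Margin κ G b →
      Abs P b → spec b P ≠ 0 ∧ HasL (spec b P) ∧ ¬ TwoL (spec b P) :=
    Off.finset Fs fun P hP => by
      obtain ⟨C, hC, hC'⟩ := hM n G P hG (hFs P hP).2
      obtain ⟨Γ, h0, hΓ⟩ := hN n P (κ / C) (hFs P hP).1
        (hA n m₀ F P M E hm hF hc hK h (hFs P hP).1 (hFs P hP).2).1 (div_pos hκ hC)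
      exact ⟨Γ, h0, fun b hb hi hmg ha => hΓ b hb (hC' κ b hκ hi hmg) ha⟩
  have h2 : Off fun b => ∀ P ∈ Fs, ∀ Q ∈ Fs, ¬ P ∣ Q → b ≠ 0 →
      ∀ α : ℂˣ, NonTors α → evc b α P = 0 → evc b α Q ≠ 0 :=
    Off.finset Fs fun P hP => Off.finset Fs fun Q _ => by
      by_cases hd : P ∣ Q
      · exact ⟨∅, by simp, fun _ _ hn => absurd hd hn⟩
      · obtain ⟨Γ, h0, hΓ⟩ := hZ n P (hFs P hP).1 Q hd
        exact ⟨Γ, h0, fun b hb _ hb0 α hα e1 e2 =>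
          hα (hΓ b hb0 hb α (by rwa [ev_eq_evc]) (by rwa [ev_eq_evc]))⟩
  refine ((h1.and h2).and ((off_ne i).and (off_inj G.coeff.support))).mono ?_
  rintro b ⟨⟨k1, k2⟩, k3, k4⟩ e1 e2 hmg
  refine ⟨fun P hP hd => ?_, fun P Q hP hQ hPd hQd hn α hα f1 f2 => ?_⟩
  · obtain ⟨P₀, hP₀, ha⟩ := hex P hP hd
    obtain ⟨l1, l2, l3⟩ := k1 P₀ hP₀ k4 (margin_pb hinj hmg)
      ((hA n m₀ F P₀ M E hm hF hc hK h (hFs P₀ hP₀).1 (hFs P₀ hP₀).2).2 _ b e1 e2)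
    have hb : Associated (spec b P) (spec b P₀) := ha.map (spk b)
    exact ⟨hb.ne_zero_iff.mpr l1, hasL_dvd hb.symm.dvd l2, fun t => l3 (twoL_dvd hb.dvd t)⟩
  · obtain ⟨P₀, hP₀, ha⟩ := hex P hP hPd
    obtain ⟨Q₀, hQ₀, hb⟩ := hex Q hQ hQd
    refine k2 P₀ hP₀ Q₀ hQ₀ (fun t => hn (ha.dvd.trans (t.trans hb.symm.dvd))) k3 α hα ?_ ?_
    · rw [← evL_spec] at f1 ⊢
      exact evL_dvd (ha.map (spk b)).dvd f1
    · rw [← evL_spec] at f2 ⊢
      exact evL_dvd (hb.map (spk b)).dvd f2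

lemma off_push {n m₀ : ℕ} (hm : 0 < m₀) {M E : Matrix (Fin n) (Fin n) ℤ}
    (h : M * E = (m₀ : ℤ) • 1) {R : (Fin n → ℤ) → Prop} (hR : Off R) :
    Off fun a => ∀ b, E *ᵥ a = (m₀ : ℤ) • b → R b := by
  classical
  obtain ⟨Γ, h0, hΓ⟩ := hR
  refine ⟨Γ.image (· ᵥ* E), fun hz => ?_, fun a ha b e => hΓ b fun c hc e' => ?_⟩
  · obtain ⟨c, hc, e⟩ := Finset.mem_image.mp hz
    exact h0 (eq_zero_of_vecMul_eq_zero (det_ne hm h).2 e ▸ hc)
  · refine ha _ (Finset.mem_image_of_mem _ hc) ?_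
    rw [← dotProduct_mulVec, e, dotProduct_smul, e', smul_zero]

end Finx

open Finx in
theorem p_Fin (hZ : S_CZ) (hK : S_K) (hL : S_Lat) (hA : S_AbsF) (hM : S_Mt) (hN : S_Norm)
    (hS : S_StarIrr) : S_Fin := by
  classical
  intro n F κ hF hc hκ
  obtain ⟨m₀, hm, hk⟩ := hK n F hF hc
  obtain ⟨Ω, hΩ, hΩ'⟩ := hL n m₀ hm
  obtain ⟨Γ, h0, hΓ⟩ := Off.finset Ω fun q hq =>
    off_push hm (hΩ q hq) (off_sep hZ hA hM hN hF hc hκ hm hk (hΩ q hq))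
  refine ⟨Γ, h0, Ω.image Prod.fst, fun M hM' => ?_, fun a ha => ?_⟩
  · obtain ⟨q, hq, rfl⟩ := Finset.mem_image.mp hM'
    exact (det_ne hm (hΩ q hq)).1
  · by_cases hb : ∃ c ∈ Γ, c ⬝ᵥ a = 0
    · exact Or.inl hb
    · push Not at hb
      obtain ⟨q, hq, b, rfl, e1, e2⟩ := hΩ' a
      exact Or.inr (alt_of_sep hS (Finset.mem_image_of_mem _ hq) (hΓ _ hb q hq b e1 e1 e2 ha))

end Pool.Agent.P.MP_aef18a_nt.OW
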