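import Pool.Agent.P.MP_aef18a_nt.OW.Basic2

namespace Pool.Agent.P.MP_aef18a_nt.OW

open Polynomial Matrix LaurentPolynomial

/-! ### Algebra of Laurent polynomials -/

def S_Ebz1 : Prop :=
  ∀ (K : Type) [Field K] (r D E : ℕ) (A B : LQ K r), A ≠ 0 → B ≠ 0 → IsRelPrime A B →
    Wb D A → Wb D B → 2 * D ≤ E → ∀ Z : Finset (Fin r → ℤ), (∀ v ∈ Z, ∀ i, 0 ≤ v i ∧ v i < E) →
      r ^ 2 * D ^ 2 * E ^ r < Z.card * E ^ 2 →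
      ∃ f : LQ K r, f ≠ 0 ∧ f ∈ Ideal.span {A, B} ∧ f.coeff.support ⊆ Z

def S_Ebz : Prop :=
  ∀ (K : Type) [Field K] (r D E Y : ℕ) (A B : LQ K r) (b : Fin r → ℤ), A ≠ 0 → B ≠ 0 →
    IsRelPrime A B → Wb D A → Wb D B → 2 * r * D ≤ E → 0 < E → (∀ i, |b i| ≤ Y) → NoRel E b →
      ∃ h : K[X], h ≠ 0 ∧ h.natDegree * E ≤ 4 * r ^ 3 * D ^ 2 * Y ∧
        toLaurent h ∈ Ideal.span {spk b A, spk b B}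

def S_Cpx : Prop :=
  ∀ (r m : ℕ) (A B : LP r) (R : LQ ℂ r), 0 < m → A ≠ 0 → B ≠ 0 → IsRelPrime A B →
    R ∣ toC (dil m A) → R ∣ toC (dil m B) → IsUnit R

def S_K0 : Prop :=
  ∀ (r D m : ℕ) (R G : LQ ℂ r), 0 < m → Prime R → NonCol R → G ≠ 0 → Wb D G → R ∣ dil m G →
    ∃ ι : ℕ, 1 ≤ ι ∧ ι ≤ 4 * D ^ 2 ∧
      ∀ u ∈ R.coeff.support, ∀ u' ∈ R.coeff.support, ∀ i, (m : ℤ) ∣ ι * (u i - u' i)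

def S_K1 : Prop :=
  ∀ (r m : ℕ) (Q : LP r) (R : LQ ℂ r), 0 < m → Irreducible Q → NonCol Q → ¬ IsUnit R →
    R ∣ toC (dil m Q) → NonCol R

def S_K : Prop := ∀ (r : ℕ) (Q : LP r), Irreducible Q → NonCol Q → ∃ m₀, 0 < m₀ ∧ Kp Q m₀

def S_AbsMod : Prop :=
  ∀ (r m₀ : ℕ) (Q : LP r) (a a' : Fin r → ℤ), Kp Q m₀ → (∀ i, (m₀ : ℤ) ∣ a' i - a i) →
    Abs Q a → Abs Q a'

def S_Nd : Prop :=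
  ∀ (r D p : ℕ) (Q G : LP r), Irreducible Q → NonCol Q → G ≠ 0 → Q ∣ G → Wb D G → p.Prime →
    4 * D ^ 2 < p → ¬ Q ∣ dil p G

def S_Cop : Prop :=
  ∀ (k : ℕ) (P : LP k) (θ : Fin k → ℝ), Irreducible P → P.coeff 0 ≠ 0 →
    (∀ u ∈ P.coeff.support, u ≠ 0 → lin θ u < 0) →
    dv (fun i => (θ i : ℂ)) (toC P) ≠ 0 ∧ IsRelPrime (toC P) (dv (fun i => (θ i : ℂ)) (toC P))

/-! ### Lattices -/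

def S_Rmove : Prop :=
  ∀ (r Z Y : ℕ) (c b : Fin (r + 1) → ℤ), 1 ≤ Z → c ≠ 0 → (∀ i, |c i| ≤ Z) → (∀ i, |b i| ≤ Y) →
    c ⬝ᵥ b = 0 → ∃ (M : Matrix (Fin (r + 1)) (Fin r) ℤ) (b' : Fin r → ℤ), b = M *ᵥ b' ∧
      (∀ i j, |M i j| ≤ (Z : ℤ) ^ r) ∧ ∀ j, |b' j| ≤ (2 * Z : ℤ) ^ r * Y

def S_Proc : Prop :=
  ∀ r₀ K : ℕ, ∃ K' : ℕ, ∀ (X Y : ℕ) (y : Fin r₀ → ℤ), 2 ≤ X → (∀ i, |y i| ≤ Y) →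
    ∃ (r : ℕ) (M : Matrix (Fin r₀) (Fin r) ℤ) (b : Fin r → ℤ) (H : ℕ), r ≤ r₀ ∧ y = M *ᵥ b ∧
      X ≤ H ∧ H ≤ X ^ K' ∧ (∀ i j, |M i j| ≤ H) ∧ (∀ j, |b j| ≤ H * Y) ∧ NoRel (H ^ K) b

def S_Ker : Prop :=
  ∀ (n r H : ℕ) (M : Matrix (Fin n) (Fin r) ℤ), (∀ i j, |M i j| ≤ H) →
    (∃ u : Fin n → ℤ, u ≠ 0 ∧ u ᵥ* M = 0) →
    ∃ c : Fin n → ℤ, c ≠ 0 ∧ c ᵥ* M = 0 ∧ ∀ i, |c i| ≤ ((n * (r * H ^ 2 + 1)) ^ n : ℕ)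

def S_Half : Prop :=
  ∀ (n r m₀ E B : ℕ) (M : Matrix (Fin n) (Fin r) ℤ) (b : Fin r → ℤ), 0 < m₀ →
    NoRel B (M *ᵥ b) → ∃ b' : Fin r → ℤ, NoRel E b' ∧ NoRel B (M *ᵥ b') ∧
      (∀ j, (m₀ : ℤ) ∣ b' j - b j) ∧
      ∀ j, |2 * b' j - b j| ≤ (2 * m₀ * ((2 * E + 1) ^ r + (2 * B + 1) ^ n + 1) : ℕ)

def S_Gap2 : Prop :=
  ∀ (n Δ e : ℕ) (κ : ℝ) (F : LQ ℤ n) (a a' : Fin n → ℤ), 0 < κ → Bx Δ F → 16 ≤ nu a →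
    (κ + n * Δ + 1) * e ≤ √(nu a : ℝ) → (∀ i, |2 * a' i - a i| ≤ e) → Gap κ F a →
    Gap κ F a' ∧ nu a' < nu a

def S_Geo2 : Prop :=
  ∀ (k : ℕ) (F : LQ ℤ k) (κ : ℝ), 0 < κ → ∃ J ν₀ : ℕ, ∀ a : Fin k → ℤ, ν₀ ≤ nu a → Gap κ F a →
    ∃ s, Gp F a J s

def S_Inj : Prop :=
  ∀ (n r : ℕ) (M : Matrix (Fin n) (Fin r) ℤ) (b : Fin r → ℤ) (P : LP n), P ≠ 0 →
    (∀ u : Fin n → ℤ, u ᵥ* M = 0 → u = 0) → Abs P (M *ᵥ b) →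
    ∀ G₁ G₂ : LP r, pb M P = G₁ * G₂ → IsUnit G₁ ∨ IsUnit G₂

def S_Lat : Prop :=
  ∀ n m₀ : ℕ, 0 < m₀ → ∃ Ω : Finset (Matrix (Fin n) (Fin n) ℤ × Matrix (Fin n) (Fin n) ℤ),
    (∀ q ∈ Ω, q.1 * q.2 = (m₀ : ℤ) • 1) ∧ ∀ a : Fin n → ℤ, ∃ q ∈ Ω, ∃ b : Fin n → ℤ,
      a = q.1 *ᵥ b ∧ q.2 *ᵥ a = (m₀ : ℤ) • b ∧
      ∀ v : Fin n → ℤ, (m₀ : ℤ) ∣ v ⬝ᵥ a → ∃ v', v' ᵥ* q.2 = v

def S_AbsF : Prop :=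
  ∀ (n m₀ : ℕ) (F P : LP n) (M E : Matrix (Fin n) (Fin n) ℤ), 0 < m₀ → Irreducible F →
    NonCol F → Kp F m₀ → M * E = (m₀ : ℤ) • 1 → Irreducible P → P ∣ pb M F →
    NonCol P ∧ ∀ a b : Fin n → ℤ, E *ᵥ a = (m₀ : ℤ) • b →
      (∀ v : Fin n → ℤ, (m₀ : ℤ) ∣ v ⬝ᵥ a → ∃ v', v' ᵥ* E = v) → Abs P b

def S_Mt : Prop :=
  ∀ (n : ℕ) (G P : LP n), G ≠ 0 → P ∣ G → ∃ C : ℝ, 0 < C ∧ ∀ (κ : ℝ) (b : Fin n → ℤ), 0 < κ →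
    Set.InjOn (· ⬝ᵥ b) G.coeff.support → Margin κ G b → Margin (κ / C) P b

def S_Col : Prop :=
  ∀ (n : ℕ) (F : LP n), ¬ Collinear ℝ (pt '' (F.coeff.support : Set (Fin n → ℤ))) → NonCol F

/-! ### Roots on one-parameter subgroups -/

def S_DegM : Prop :=
  ∀ (k : ℕ) (F : LQ ℤ k) (η : ℝ), F.coeff 0 ≠ 0 → 0 < η → ∃ c : ℝ, 0 < c ∧
    ∀ (a : Fin k → ℤ) (α : ℂˣ) (s : ℕ), (∀ u ∈ F.coeff.support, u ≠ 0 → u ⬝ᵥ a + s ≤ 0) →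
      NonTors α → evc a α (toQ F) = 0 →
      c * s ≤ ((minpoly ℚ (α : ℂ)).natDegree : ℝ) ^ (1 + η)

def S_Nrm : Prop :=
  ∀ h T : ℤ[X], h.Monic → ∃ z : ℤ, ((h.aroots ℂ).map fun β => aeval β T).prod = z

def S_CycP : Prop :=
  ∀ (r p : ℕ) (G : LQ ℤ r) (b : Fin r → ℤ) (α : ℂˣ), p.Prime → l1 G < p → ¬ NonTors α →
    evc b α (toQ G) = 0 → evc b (α ^ p) (toQ G) = 0

def S_CntA : Prop :=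
  ∀ (r D E Y p : ℕ) (Q G : LP r) (b : Fin r → ℤ), Irreducible Q → NonCol Q → G ≠ 0 → Q ∣ G →
    Wb D G → p.Prime → 4 * D ^ 2 < p → 2 * r * (p * D) ≤ E → 0 < E → (∀ i, |b i| ≤ Y) →
    NoRel E b → ∀ Z : Finset ℂˣ, (∀ α ∈ Z, evc b α Q = 0 ∧ evc b (α ^ p) G = 0) →
      Z.card * E ≤ 4 * r ^ 3 * (p * D) ^ 2 * Y

def S_CntB : Prop :=
  ∀ (r D E Y : ℕ) (Q : LP r) (b : Fin r → ℤ), Irreducible Q → Wb D Q → 2 * r * D ≤ E → 0 < E →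
    (∀ i, |b i| ≤ Y) → NoRel E b → ∀ u ∈ Q.coeff.support, ∀ u' ∈ Q.coeff.support,
      ∃ Z : Finset ℂˣ, (∀ α ∈ Z, evc b α Q = 0) ∧
        (u - u') ⬝ᵥ b * E ≤ Z.card * E + 4 * r ^ 3 * D ^ 2 * Y

def S_NtrC : Prop :=
  ∀ (r D : ℕ) (Q : LP r) (b b' : Fin r → ℤ), Q ≠ 0 → ¬ NonCol Q → Wb D Q → NoRel D b →
    NoRel D b' → HasL (spec b Q) → HasL (spec b' Q)

def S_NtrN : Prop :=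
  ∀ (r D E Y p : ℕ) (Q : LP r) (G : LQ ℤ r) (b : Fin r → ℤ), Irreducible Q → NonCol Q → G ≠ 0 →
    Q ∣ toQ G → Wb D G → p.Prime → 4 * D ^ 2 < p → l1 G < p → 2 * r * (p * D) ≤ E → 0 < E →
    (∀ i, |b i| ≤ Y) → NoRel E b → ∀ u ∈ Q.coeff.support, ∀ u' ∈ Q.coeff.support,
      8 * r ^ 3 * (p * D) ^ 2 * Y < (u - u') ⬝ᵥ b * E → HasL (spec b Q)

def S_NoTwo : Prop :=
  ∀ (n : ℕ) (F : LQ ℤ n) (κ : ℝ), Dat F → 0 < κ → ∃ A H₀ : ℕ,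
    ∀ (B H r : ℕ) (a : Fin n → ℤ) (M : Matrix (Fin n) (Fin r) ℤ) (b : Fin r → ℤ), H₀ ≤ H →
      H ^ A ≤ nu a → Valid F κ B a → IH F κ B a → Pr a H M b → DegH F a H →
      spec a (toQ F) ≠ 0 → NoTwo F M b

def S_Star1 : Prop :=
  ∀ (n : ℕ) (F : LQ ℤ n), ∃ H₀ : ℕ,
    ∀ (H r : ℕ) (a : Fin n → ℤ) (M : Matrix (Fin n) (Fin r) ℤ) (b : Fin r → ℤ), H₀ ≤ H →
      0 < nu a → spec a (toQ F) ≠ 0 → Pr a H M b → DegH F a H → NoTwo F M b →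
      Sim F a ∧ ∀ α α' : ℂˣ, NonTors α → NonTors α' → evc a α (toQ F) = 0 →
        evc a α' (toQ F) = 0 → ∀ f : LP r, Wb (2 * H ^ 3) f → evc b α f = 0 → evc b α' f = 0

def S_StarAll : Prop :=
  ∀ (n : ℕ) (F : LQ ℤ n) (κ : ℝ), Dat F → 0 < κ → ∃ A ν₀ : ℕ, 0 < A ∧
    ∀ (B : ℕ) (a : Fin n → ℤ), ν₀ ≤ nu a → Valid F κ B a → IH F κ B a →
      Sim F a ∧ ∀ X j : ℕ, X ^ A ≤ nu a → j ≤ nu a * X → St F a X j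

def S_Link : Prop :=
  ∀ (k : ℕ) (F : LQ ℤ k) (a : Fin k → ℤ) (J s : ℕ), F.coeff 0 ≠ 0 → Gp F a J s →
    Set.InjOn (· ⬝ᵥ a) F.coeff.support →
    Lac (l1 F) s (SS F a) ∧ (SS F a).natDegree ≤ J * s ∧ (SS F a).leadingCoeff = F.coeff 0 ∧
    (SS F a).reverse = pl a F ∧
    (∀ u ∈ F.coeff.support, -(u ⬝ᵥ a) ≤ (SS F a).natDegree ∧
      ∃ i, (SS F a).coeff i = F.coeff u) ∧
    (∀ j ∈ (SS F a).support, ∃ u ∈ F.coeff.support,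
      ((SS F a).natDegree : ℤ) - j = -(u ⬝ᵥ a)) ∧
    (∀ α : ℂˣ, aeval (α : ℂ) (SS F a) = (α : ℂ) ^ (SS F a).natDegree * evc a α (toQ F)) ∧
    (Sim F a → Simple (SS F a)) ∧
    toLaurent ((SS F a).map (Int.castRingHom ℚ)) = spec a (toQ F) * T (SS F a).natDegree

def S_Two : Prop :=
  ∀ (S : ℤ[X]) (f : ℚ[T;T⁻¹]) (j : ℤ), S ≠ 0 →
    toLaurent (S.map (Int.castRingHom ℚ)) = f * T j → Simple S → TwoL f → Two S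

def S_StarIrr : Prop :=
  ∀ f : ℚ[T;T⁻¹], f ≠ 0 → HasL f → ¬ TwoL f →
    ∃ p, IsStar f p ∧ Irreducible p ∧ p ∣ f ∧ HasL p

/-! ### One variable: basic facts -/

def S_Lac : Prop :=
  ∀ (L s : ℕ) (S : ℤ[X]), Lac L s S → 1 ≤ L ∧ S.leadingCoeff.natAbs ≤ L ∧ S.support.card ≤ L ∧
    (0 < S.natDegree → s ≤ S.natDegree ∧ 2 ≤ L) ∧
    (∀ i, 0 < i → i < s → S.reverse.coeff i = 0) ∧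
    ∀ β : ℂ, aeval β S = 0 → β ≠ 0 ∧ (∀ J e : ℕ, e ≤ J * s → ‖β‖ ^ e ≤ (L : ℝ) ^ J) ∧
      ∀ J e : ℕ, e ≤ J * s → IsIntegral ℤ ((S.leadingCoeff : ℂ) ^ J * β ^ e)

def S_NS : Prop :=
  (∀ g : ℤ[X], g ≠ 0 → PowerSeries.coeff 0 (rv g) = 1 ∧ IsNS (rv g) (ps g)) ∧
  (∀ (u v : PowerSeries ℂ) (x y : ℕ → ℂ), IsNS u x → IsNS v y → IsNS (u * v) (x + y)) ∧
  (∀ (u : PowerSeries ℂ) (x : ℕ → ℂ) (m : ℕ), IsNS u x → IsNS (u ^ m) fun j => m * x j) ∧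
  ∀ (u v : PowerSeries ℂ) (x y : ℕ → ℂ) (K : ℕ), PowerSeries.coeff 0 u = 1 →
    PowerSeries.coeff 0 v = 1 → IsNS u x → IsNS v y →
    ((∀ j, 1 ≤ j → j ≤ K → x j = y j) ↔
      ∀ j ≤ K, PowerSeries.coeff j u = PowerSeries.coeff j v)

def S_Neck : Prop :=
  ∀ (u : PowerSeries ℂ) (x : ℕ → ℂ) (s : ℕ), PowerSeries.coeff 0 u = 1 → IsNS u x →
    (∀ i < s, ∃ z : ℤ, PowerSeries.coeff i u = z) →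
    ∃ (e : ℕ → ℤ) (U : PowerSeries ℤ), PowerSeries.coeff 0 U = 1 ∧
      (∀ i, 0 < i → i < s →
        PowerSeries.coeff i (u * PowerSeries.map (Int.castRingHom ℂ) U) = 0) ∧
      IsNS (u * PowerSeries.map (Int.castRingHom ℂ) U)
        fun j => x j - ∑ d ∈ j.divisors.filter (· < s), (d : ℂ) * e d

def S_Dold : Prop :=
  ∀ g : ℤ[X], IsUnit g.leadingCoeff → ∀ d : ℕ, 1 ≤ d → ∃ z : ℤ, mu (ps g) d = d * z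

def S_Mono : Prop :=
  ∀ (L s T : ℕ) (S : ℤ[X]), Lac L s S → ∃ Ex : Finset ℕ, Ex.card ≤ (T + 1) ^ L ∧
    ∀ d, 1 ≤ d → d ≤ T * s → mu (ps S) d ≠ 0 → d ∈ Ex

def S_CycMu : Prop :=
  ∀ (c : Multiset ℕ) (d : ℕ), (∀ l ∈ c, 0 < l ∧ l < d) →
    mu (ps (c.map fun l => cyclotomic l ℤ).prod) d = 0

def S_Mann : Prop :=
  ∀ (S : ℤ[X]) (L l : ℕ), S.support.card ≤ L → 0 < l → cyclotomic l ℤ ∣ S →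
    ∃ Z : Finset ℂˣ, l ≤ L.factorial * Z.card ∧ ∀ z ∈ Z, (z : ℂ) ^ l = 1 ∧ aeval (z : ℂ) S = 0

def S_Div : Prop :=
  ∀ ε : ℝ, 0 < ε → ∃ C : ℝ, 0 < C ∧ ∀ m : ℕ, m ≠ 0 → (m.divisors.card : ℝ) ≤ C * (m : ℝ) ^ ε

def S_Setup : Prop :=
  ∀ (S : ℤ[X]) (y K η : ℝ), S.coeff 0 ≠ 0 → Simple S → Two S → DegLB S y → Flat S K η →
    ∃ (g h St : ℤ[X]) (c : Multiset ℕ), Setup S g h St c y K η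

/-! ### The determinant method -/

def S_Fc1 : Prop :=
  ∀ (m m' : ℕ) (y : Fin m → ℂ) (x : Fin m' → ℂ) (e : Fin m → ℕ) (e' : Fin m' → ℕ) (h : ℂ → ℂ)
    (Λ : Fin m → Fin m' → ℂ) (C A : ℝ), 1 ≤ C → 0 ≤ A → m ≤ m' →
    (∀ i j, ‖x j ^ e i‖ ≤ C) → (∀ i j, ‖y i ^ e' j‖ ≤ C) → (∀ j j', ‖x j' ^ e' j‖ ≤ C) →
    (∀ i i', h (y i') * y i' ^ e i = ∑ j, Λ i j * y i' ^ e' j) →
    (∀ i j', h (x j') * x j' ^ e i = ∑ j, Λ i j * x j' ^ e' j) →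
    (∀ j, Real.exp (-A) ≤ ‖h (x j)‖) →
    (∏ i, ‖h (y i)‖) * ‖(Matrix.of fun i' i => y i' ^ e i).det‖ *
        ‖(Matrix.of fun j' j => x j' ^ e' j).det‖ ≤
      (m + m').factorial * C ^ (m + m') * Real.exp ((m' - m : ℝ) * A) * ∏ j, ‖h (x j)‖

def S_Fc2 : Prop :=
  ∀ (K : Type) [Field K] [Algebra ℚ K] (g : ℚ[X]) (m : ℕ) (e : Fin m → ℕ), Irreducible g →
    (g.map (algebraMap ℚ K)).Splits →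
    (∀ z : Fin m → ℚ, g ∣ ∑ i, monomial (e i) (z i) → z = 0) →
    ∃ y : Fin m → K, (∀ i, aeval (y i) g = 0) ∧ (Matrix.of fun i' i => y i' ^ e i).det ≠ 0

def S_Avg : Prop :=
  ∀ (K : Type) [Field K] [NumberField K] (y : K),
    (∀ (g : ℚ[X]) (φ : ℂ → ℝ), Irreducible g → aeval y g = 0 →
      (g.natDegree : ℝ) * ∑ σ : K →+* ℂ, φ (σ y) =
        Module.finrank ℚ K * ((g.aroots ℂ).map φ).sum) ∧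
    (y ≠ 0 → IsIntegral ℤ y → 0 ≤ ∑ σ : K →+* ℂ, Real.log ‖σ y‖)

def S_Core : Prop :=
  ∀ (g g' : ℚ[X]) (m m' : ℕ) (e : Fin m → ℕ) (e' : Fin m' → ℕ) (c : ℤ) (C A : ℝ) (h : ℂ → ℂ)
    (Λ : Fin m → Fin m' → ℂ), Irreducible g → Irreducible g' → m ≤ m' → c ≠ 0 → 1 ≤ C → 0 ≤ A →
    (∀ z : Fin m → ℚ, g ∣ ∑ i, monomial (e i) (z i) → z = 0) →
    (∀ z : Fin m' → ℚ, g' ∣ ∑ j, monomial (e' j) (z j) → z = 0) →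
    (∀ β : ℂ, aeval β g = 0 ∨ aeval β g' = 0 →
      (∀ i, IsIntegral ℤ (c * β ^ e i) ∧ ‖β ^ e i‖ ≤ C) ∧
      (∀ j, IsIntegral ℤ (c * β ^ e' j) ∧ ‖β ^ e' j‖ ≤ C) ∧ Real.exp (-A) ≤ ‖h β‖ ∧
      ∀ i, h β * β ^ e i = ∑ j, Λ i j * β ^ e' j) →
    (m : ℝ) / g.natDegree * ((g.aroots ℂ).map fun β => Real.log ‖h β‖).sum ≤
      (m' : ℝ) / g'.natDegree * ((g'.aroots ℂ).map fun β => Real.log ‖h β‖).sum +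
        (m' - m : ℝ) * A + (m + m' : ℝ) * (Real.log (m + m') + Real.log C + Real.log |(c : ℝ)|)

def S_Core2 : Prop :=
  ∀ (α α' : ℂ) (E E' : Finset ℕ) (c : ℤ) (C A : ℝ) (h : ℂ → ℂ) (Λ : ℕ → ℕ → ℂ),
    IsIntegral ℚ α → IsIntegral ℚ α' → E ⊆ E' → c ≠ 0 → 1 ≤ C → 0 ≤ A →
    (∀ z : ℕ → ℚ, ∑ e ∈ E', (z e : ℂ) * α ^ e = 0 ↔ ∑ e ∈ E', (z e : ℂ) * α' ^ e = 0) →
    (∀ β : ℂ, aeval β (minpoly ℚ α) = 0 ∨ aeval β (minpoly ℚ α') = 0 →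
      (∀ e ∈ E', IsIntegral ℤ (c * β ^ e) ∧ ‖β ^ e‖ ≤ C) ∧ Real.exp (-A) ≤ ‖h β‖ ∧
      ∀ e ∈ E, h β * β ^ e = ∑ e' ∈ E', Λ e e' * β ^ e') →
    (rk α E : ℝ) / (minpoly ℚ α).natDegree *
        (((minpoly ℚ α).aroots ℂ).map fun β => Real.log ‖h β‖).sum ≤
      (rk α E' : ℝ) / (minpoly ℚ α').natDegree *
          (((minpoly ℚ α').aroots ℂ).map fun β => Real.log ‖h β‖).sum +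
        (rk α E' - rk α E : ℝ) * A + (rk α E + rk α E' : ℝ) *
          (Real.log (rk α E + rk α E') + Real.log C + Real.log |(c : ℝ)|)

def S_Red : Prop :=
  ∀ (L s T i m : ℕ) (S : ℤ[X]) (B : ℕ → Finset ℤ), Lac L s S → Monotone B →
    (∀ i, ∀ e ∈ B i, ∀ j ∈ S.support, e - (S.natDegree - j) ∈ B (i + 1)) →
    (m : ℤ) ∈ B i → m < S.natDegree + T * s → ∃ lam : ℕ → ℚ, ∀ β : ℂ, aeval β S = 0 →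
      β ^ m = ∑ e ∈ (Finset.range S.natDegree).filter (fun e : ℕ => (e : ℤ) ∈ B (i + T)),
        (lam e : ℂ) * β ^ e

def S_Flat : Prop :=
  ∀ (L s J k x : ℕ) (S : ℤ[X]) (B : ℕ → Finset ℤ), Lac L s S → S.natDegree ≤ J * s → 2 ≤ x →
    k ≤ x * s → (∀ β : ℂ, aeval β S = 0 → ‖β‖ ^ k ≤ x) → 0 ∈ B 0 → Monotone B →
    (∀ i, ∀ e ∈ B i, e + k ∈ B (i + 1) ∧ ∀ j ∈ S.support, e - (S.natDegree - j) ∈ B (i + 1)) →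
    2 * (B (x ^ 10)).card * L ^ (2 * J) ≤ 2 ^ x →
    ∀ α α' : ℂ, aeval α S = 0 → aeval α' S = 0 →
      (∀ (E : Finset ℕ) (z : ℕ → ℚ), (∀ e ∈ E, (e : ℤ) ∈ B (x ^ 10)) →
        (∑ e ∈ E, (z e : ℂ) * α ^ e = 0 ↔ ∑ e ∈ E, (z e : ℂ) * α' ^ e = 0)) →
      ‖tau α k - tau α' k‖ ≤ 9 / x

def S_FlatAll : Prop :=
  ∀ (k : ℕ) (F : LQ ℤ k) (J A : ℕ), F.coeff 0 ≠ 0 → 0 < A → ∃ c₀ ε : ℝ, 0 < c₀ ∧ 0 < ε ∧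
    ∃ ν₀ : ℕ, ∀ (a : Fin k → ℤ) (s : ℕ), ν₀ ≤ nu a → Gp F a J s →
      Set.InjOn (· ⬝ᵥ a) F.coeff.support → 0 < (SS F a).natDegree →
      (∀ X j : ℕ, X ^ A ≤ nu a → j ≤ nu a * X → St F a X j) →
      Flat (SS F a) (ε * (SS F a).natDegree * Real.log (SS F a).natDegree)
        (((SS F a).natDegree : ℝ) ^ (-c₀))

/-! ### Leading coefficient a unit -/

def S_Energy : Prop :=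
  ∀ C : ℝ, 1 ≤ C → ∃ C' : ℝ, ∀ (f : ℤ[X]) (N : ℕ), 1 ≤ N → IsUnit f.leadingCoeff →
    f.natDegree ≤ N → (f.aroots ℂ).Nodup → (∀ β ∈ f.aroots ℂ, ‖β‖ ^ N ≤ C) →
    ∑ j ∈ Finset.Icc 1 N, ‖ps f j‖ ^ 2 / j ≤ C' * N * (1 + Real.log N)

def S_LS1 : Prop :=
  ∀ (L s : ℕ) (S : ℤ[X]) (w : ℂ), Lac L s S → ‖w‖ ^ s * (2 * L) ≤ 1 →
    ((S.aroots ℂ).map fun β => 1 / ‖1 - w * β‖ ^ 2).sum ≤ 2 * (1 + 4 * L) * (S.natDegree : ℝ) ^ 2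

def S_LS : Prop :=
  ∀ L J : ℕ, ∃ C : ℝ, 0 < C ∧ ∀ (s : ℕ) (S : ℤ[X]), Lac L s S → S.natDegree ≤ J * s →
    ∀ Z : Finset ℂ, (∀ β ∈ Z, aeval β S = 0 ∧ 1 ≤ ‖β‖) → ∀ x : ℕ → ℂ,
      ∑ β ∈ Z, ‖∑ j ∈ Finset.range S.natDegree, x j * β ^ j‖ ^ 2 ≤
        C * S.natDegree * ∑ j ∈ Finset.range S.natDegree, ‖x j‖ ^ 2

def S_Up : Prop :=
  ∀ (x : ℕ → ℂ) (N K t : ℕ) (W : ℝ) (Ex : Finset ℕ), 1 ≤ N → N ≤ K →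
    (∀ m, 1 ≤ m → m ≤ K → m.divisors.card ≤ t) →
    (∀ d, N < d → d ≤ K → ‖mu x d‖ ≤ N ∧ (mu x d ≠ 0 → d ∈ Ex)) →
    ∑ j ∈ Finset.Icc 1 N, ‖x j‖ ^ 2 / j ≤ W →
    ∑ j ∈ Finset.Icc 1 K, ‖x j‖ ^ 2 ≤
      2 * (t : ℝ) ^ 2 * K * (1 + Real.log N) * W + 2 * (Ex.card : ℝ) ^ 3 * K * N

def S_Low : Prop :=
  ∀ L J : ℕ, ∃ Θ c : ℝ, 0 < c ∧ ∀ (s : ℕ) (S : ℤ[X]) (Z : Finset ℂ) (w : ℂ → ℂ) (ω : ℝ)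
    (k₀ j : ℕ), Lac L s S → 0 < S.natDegree → S.natDegree ≤ J * s → (∀ β ∈ Z, aeval β S = 0) →
    (∀ β ∈ S.aroots ℂ, 1 < ‖β‖ → β ∈ Z) → 0 ≤ ω → (∀ β ∈ Z, ω ≤ ‖w β‖) → 1 ≤ j →
    Θ * (S.natDegree : ℝ) ^ 2 ≤ ‖Qs S k₀‖ →
    c * ω ^ 2 * 4 ^ j * (S.natDegree : ℝ) ^ 2 ≤
      ∑ i ∈ Finset.Icc 1 (j * k₀ + S.natDegree), ‖∑ β ∈ Z, w β * β ^ i‖ ^ 2

def S_UA : Prop :=
  ∀ L J : ℕ, ∃ C : ℝ, ∀ (s K T t : ℕ) (S g h St : ℤ[X]) (c : Multiset ℕ) (y η : ℝ),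
    Lac L s S → 0 < S.natDegree → S.natDegree ≤ J * s → IsUnit S.leadingCoeff →
    Setup S g h St c y K η → Lev L s S → S.natDegree ≤ K → K ≤ T * s →
    (∀ m, 1 ≤ m → m ≤ K → m.divisors.card ≤ t) → t * η ≤ 1 →
    ∑ j ∈ Finset.Icc 1 K, ‖ps g j - (g.natDegree : ℂ) / St.natDegree * ps St j‖ ^ 2 ≤
      C * (t : ℝ) ^ 2 * K * S.natDegree * (1 + Real.log S.natDegree) ^ 2 +
        2 * ((T : ℝ) + 1) ^ (3 * L) * K * S.natDegree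

def S_Unit : Prop :=
  ∀ L J : ℕ, ∃ Θ : ℝ, ∀ (T₀ : ℕ) (c₀ ε : ℝ), 0 < c₀ → 0 < ε → ∃ σ : ℝ, 0 < σ ∧ ∃ N₀ : ℕ,
    ∀ (s : ℕ) (S g h St : ℤ[X]) (c : Multiset ℕ), N₀ ≤ S.natDegree → Lac L s S →
      S.natDegree ≤ J * s → IsUnit S.leadingCoeff →
      Setup S g h St c ((S.natDegree : ℝ) ^ (1 - σ)) (ε * S.natDegree * Real.log S.natDegree)
        ((S.natDegree : ℝ) ^ (-c₀)) → Lev L s S →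
      ∀ k ≤ T₀ * S.natDegree, ‖Qs S k‖ < Θ * (S.natDegree : ℝ) ^ 2

def S_Bdm : Prop :=
  ∀ (L s J p : ℕ) (S : ℤ[X]), Lac L s S → S.natDegree ≤ J * s → IsUnit S.leadingCoeff →
    p.Prime → 2 * L ≤ p → ∀ Z : Finset ℂˣ,
      (∀ β ∈ Z, aeval (β : ℂ) S = 0 ∧ aeval ((β : ℂ) ^ p) S ≠ 0) →
      ∃ O : Finset ℂˣ, (∀ β ∈ O, aeval (β : ℂ) S = 0 ∧ 1 < ‖(β : ℂ)‖) ∧
        Z.card ≤ L * p * J * O.card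

def S_Out : Prop :=
  ∀ (k : ℕ) (F : LQ ℤ k) (J : ℕ), Dat F → F.coeff 0 ^ 2 = 1 → ∃ B : ℕ,
    ∀ (a : Fin k → ℤ) (s : ℕ), NoRel B a → Gp F a J s → ∀ θ : Fin k → ℝ,
      (∀ u ∈ F.coeff.support, u ≠ 0 → lin θ u < 0) →
      ∃ α : ℂˣ, 1 < ‖(α : ℂ)‖ ∧ evc a α (toC F) = 0 ∧
        evc a α (dv (fun i => (θ i : ℂ)) (toC F)) ≠ 0

def S_Pole : Prop :=
  ∀ (f B : ℂ[X]) (ψ : PowerSeries ℂ) (z : ℂ) (C : ℝ) (n : ℕ), (f : PowerSeries ℂ) * ψ = B →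
    f.eval z = 0 → ‖z‖ < 1 → (∀ m, ‖PowerSeries.coeff m ψ‖ ≤ C * ((m : ℝ) + 1) ^ n) →
    B.eval z = 0

def S_Psi : Prop :=
  ∀ (k : ℕ) (F : LQ ℤ k) (J : ℕ), F.coeff 0 ^ 2 = 1 →
    (∀ (θ : Fin k → ℝ) (a : Fin k → ℤ) (s : ℕ) (ψ : PowerSeries ℂ), 1 ≤ s →
      (∀ u ∈ F.coeff.support, u ≠ 0 → u ⬝ᵥ a + s ≤ 0) →
      (pl a (toC F) : PowerSeries ℂ) * ψ =
        (pl a (dv (fun i => (θ i : ℂ)) (toC F)) : PowerSeries ℂ) ^ 2 →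
      ∀ m < (J + 1) * s, PowerSeries.coeff m ψ =
        ∑ w ∈ (Psi F θ J).coeff.support.filter (fun w => -(w ⬝ᵥ a) = m), (Psi F θ J).coeff w) ∧
    (∀ (θ : Fin k → ℝ) (ω : (Fin k → ℤ) →+ ℝ), (∀ u ∈ F.coeff.support, u ≠ 0 → ω u ≤ 0) →
      Bd ω 0 (Psi F θ J)) ∧
    (∀ (θ : Fin k → ℝ) (Δ : ℕ), Bx Δ F → Bx ((J + 2) * Δ) (Psi F θ J)) ∧
    (∀ w, Continuous fun θ : Fin k → ℝ => (Psi F θ J).coeff w) ∧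
    ∀ (θ : Fin k → ℝ) (t : ℝ) (w : Fin k → ℤ),
      (Psi F (t • θ) J).coeff w = (t : ℂ) ^ 2 * (Psi F θ J).coeff w

def S_GrowT : Prop :=
  ∀ (k : ℕ) (F : LQ ℤ k) (a : Fin k → ℤ) (θ : Fin k → ℝ) (κ Θ : ℝ), F.coeff 0 ^ 2 = 1 → 0 < κ →
    (∀ u ∈ F.coeff.support, u ≠ 0 → u ⬝ᵥ a + 1 ≤ 0) →
    (∃ α : ℂˣ, 1 < ‖(α : ℂ)‖ ∧ evc a α (toC F) = 0 ∧
      evc a α (dv (fun i => (θ i : ℂ)) (toC F)) ≠ 0) →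
    ∃ (w : Fin k → ℤ) (J : ℕ), -lin θ w < (J + 1) * κ ∧ Θ < ‖(Psi F θ J).coeff w‖

def S_Qcoef : Prop :=
  ∀ (L s J m : ℕ) (S : ℤ[X]) (ψ : PowerSeries ℂ), Lac L s S → S.natDegree ≤ J * s →
    ((S.reverse.map (Int.castRingHom ℂ) : ℂ[X]) : PowerSeries ℂ) * ψ =
      ((X * derivative (S.reverse.map (Int.castRingHom ℂ)) : ℂ[X]) : PowerSeries ℂ) ^ 2 →
    (L : ℝ) ^ (J + 1) * (S.natDegree : ℝ) ^ 2 < ‖PowerSeries.coeff m ψ‖ →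
    S.natDegree < m ∧ Qs S (m - S.natDegree) = PowerSeries.coeff m ψ

def S_Grow : Prop :=
  ∀ (k : ℕ) (F : LQ ℤ k) (J : ℕ) (Θ : ℝ), Dat F → F.coeff 0 ^ 2 = 1 → ∃ B T₀ : ℕ,
    ∀ (a : Fin k → ℤ) (s : ℕ), NoRel B a → Gp F a J s →
      ∃ j ≤ T₀ * (SS F a).natDegree, Θ * ((SS F a).natDegree : ℝ) ^ 2 ≤ ‖Qs (SS F a) j‖

/-! ### Leading coefficient not a unit -/

def S_Nu1 : Prop :=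
  ∀ (L s : ℕ) (S g h : ℤ[X]), Lac L s S → S = g * h →
    (∀ i, i * L ≤ s → ∃ z : ℤ, PowerSeries.coeff i (rv g) = z) ∧
    ∀ i, ∃ z : ℤ, (S.leadingCoeff : ℂ) * PowerSeries.coeff i (rv g) = z

def S_Nu2 : Prop :=
  ∀ (V : PowerSeries ℂ) (y : ℕ → ℂ) (c : ℤ) (s J j : ℕ), 1 ≤ s → PowerSeries.coeff 0 V = 1 →
    (∀ i, 0 < i → i < s → PowerSeries.coeff i V = 0) →
    (∀ i, ∃ z : ℤ, (c : ℂ) * PowerSeries.coeff i V = z) → IsNS V y → 1 ≤ j → j ≤ J * s →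
    ∃ z : ℤ, (c : ℂ) ^ J * J.factorial * y j = j * z

def S_Ex1 : Prop :=
  ∀ (L s K t : ℕ) (S g h St : ℤ[X]) (c : Multiset ℕ) (y₀ η : ℝ), Lac L s S → 0 < S.natDegree →
    Setup S g h St c y₀ K η → Lev L s S → (∀ m, 1 ≤ m → m ≤ K → m.divisors.card ≤ t) →
    ∃ (Y : PowerSeries ℤ) (V : PowerSeries ℂ) (y : ℕ → ℂ),
      PowerSeries.C (S.leadingCoeff : ℂ) * V = PowerSeries.map (Int.castRingHom ℂ) Y ∧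
      PowerSeries.coeff 0 V = 1 ∧ (∀ i, 0 < i → i < s / L + 1 → PowerSeries.coeff i V = 0) ∧
      IsNS V y ∧ ∀ j, 1 ≤ j → j ≤ K →
        ‖y j - (g.natDegree : ℂ) / St.natDegree * ps S j‖ ≤ (t : ℝ) ^ 2 * S.natDegree * η

def S_Ex2 : Prop :=
  ∀ (s K k₀ : ℕ) (Q₁ Q₂ : ℤ) (y x : ℕ → ℂ) (δ ξ P₁ P γ : ℝ), 1 ≤ s → s ≤ k₀ → k₀ ≤ K →
    x k₀ ≠ 0 → Q₁ ≠ 0 → Q₂ ≠ 0 → (∃ z : ℤ, Q₁ * y k₀ = k₀ * z) → (∃ z : ℤ, Q₁ * x k₀ = k₀ * z) →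
    ‖x k₀‖ ≤ P₁ * s →
    (∀ j, s ≤ j → j ≤ K → (∃ z : ℤ, Q₂ * y j = j * z) ∧ (∃ z : ℤ, Q₂ * x j = j * z) ∧
      ‖y j - δ * x j‖ ≤ ξ * s ∧ ‖x j‖ ≤ P * s) →
    γ ≤ δ → δ ≤ 1 - γ → |(Q₁ : ℝ)| * ξ < γ →
    |(Q₁ : ℝ)| * P₁ * |(Q₂ : ℝ)| * (ξ + |(Q₁ : ℝ)| * ξ * P) < 1 →
    ∃ r s₀ : ℕ, 0 < r ∧ r < s₀ ∧ (s₀ : ℝ) ≤ |(Q₁ : ℝ)| * P₁ ∧
      ∀ j, s ≤ j → j ≤ K → s₀ * y j = r * x j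

def S_Exact : Prop :=
  ∀ L J : ℕ, ∃ R : ℕ, ∀ (T : ℕ) (c₀ : ℝ), 1 ≤ T → 0 < c₀ → ∃ N₀ : ℕ,
    ∀ (s : ℕ) (S g h St : ℤ[X]) (c : Multiset ℕ), N₀ ≤ S.natDegree → Lac L s S →
      S.natDegree ≤ J * s →
      Setup S g h St c ((S.natDegree : ℝ) ^ (1 - c₀ / 2)) (T * S.natDegree : ℕ)
        ((S.natDegree : ℝ) ^ (-c₀)) → Lev L s S →
      ∃ (r s₀ : ℕ) (Y : PowerSeries ℤ), 0 < r ∧ r < s₀ ∧ s₀ ≤ R ∧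
        Rt S.reverse r s₀ (T * S.natDegree) Y

def S_Tr1 : Prop :=
  (∀ r s₀ J : ℕ, 0 < s₀ → ∃ B : ℚ[X], B.natDegree ≤ J ∧ B.coeff 0 = 1 ∧
    X ^ (J + 1) ∣ B ^ s₀ - (1 + X) ^ r) ∧
  ∀ (u v : PowerSeries ℚ) (s₀ K : ℕ), 0 < s₀ → PowerSeries.coeff 0 u = PowerSeries.coeff 0 v →
    PowerSeries.coeff 0 u ≠ 0 → (PowerSeries.X : PowerSeries ℚ) ^ K ∣ u ^ s₀ - v ^ s₀ →
    (PowerSeries.X : PowerSeries ℚ) ^ K ∣ u - v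

def S_Trans : Prop :=
  ∀ (k : ℕ) (F : LQ ℤ k) (a a₀ : Fin k → ℤ) (Δ J s N T r s₀ : ℕ) (Y : PowerSeries ℤ),
    F.coeff 0 ≠ 0 → Bx Δ F → 1 ≤ s → 1 ≤ J →
    (∀ u ∈ F.coeff.support, u ≠ 0 → u ⬝ᵥ a + s ≤ 0 ∧ -(u ⬝ᵥ a) ≤ N) → N ≤ J * s →
    NoRel (2 * T * J * Δ) a → (∀ u ∈ F.coeff.support, u ≠ 0 → u ⬝ᵥ a₀ + 1 ≤ 0) → r ≤ s₀ →
    0 < s₀ → Rt (pl a F) r s₀ (T * N) Y → ∃ Y₀, Rt (pl a₀ F) r s₀ T Y₀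

def S_Q0a : Prop :=
  ∀ (f A B : ℤ[X]) (ρ : ℤ) (p m j r s₀ : ℕ) (Y : PowerSeries ℤ), p.Prime → f.coeff 0 ≠ 0 →
    (p : ℤ) ∣ f.coeff 0 → (∃ i, ¬ (p : ℤ) ∣ f.coeff i) → ρ ≠ 0 → 0 < m →
    A * f + B * derivative f = Polynomial.C ρ * (1 - X ^ m) ^ j → 0 < r → r < s₀ →
    Y ^ s₀ ≠ PowerSeries.C (f.coeff 0 ^ (s₀ - r)) * (f : PowerSeries ℤ) ^ r

def S_Q0b : Prop :=
  ∀ S : ℤ[X], S.coeff 0 ≠ 0 → Simple S → ∃ (A B : ℤ[X]) (ρ : ℤ) (m j : ℕ), ρ ≠ 0 ∧ 0 < m ∧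
    A * S.reverse + B * derivative S.reverse = Polynomial.C ρ * (1 - X ^ m) ^ j

def S_Q0 : Prop :=
  ∀ (S : ℤ[X]) (p R : ℕ), p.Prime → S.coeff 0 ≠ 0 → (p : ℤ) ∣ S.leadingCoeff →
    (∃ i, ¬ (p : ℤ) ∣ S.coeff i) → Simple S → ∃ T, 1 ≤ T ∧
      ∀ (r s₀ : ℕ) (Y : PowerSeries ℤ), 0 < r → r < s₀ → s₀ ≤ R → ¬ Rt S.reverse r s₀ T Y

def S_NonU : Prop :=
  ∀ (k : ℕ) (F : LQ ℤ k) (J R : ℕ), Dat F → F.coeff 0 ^ 2 ≠ 1 → ∃ T B : ℕ, 1 ≤ T ∧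
    ∀ (a : Fin k → ℤ) (s : ℕ), NoRel B a → Gp F a J s → Simple (SS F a) →
      ∀ (r s₀ : ℕ) (Y : PowerSeries ℤ), 0 < r → r < s₀ → s₀ ≤ R →
        ¬ Rt (SS F a).reverse r s₀ (T * (SS F a).natDegree) Y

/-! ### Assembly -/

def S_Levels : Prop :=
  ∀ (k : ℕ) (F : LQ ℤ k) (J : ℕ), Dat F → ∃ B : ℕ, ∀ (a : Fin k → ℤ) (s : ℕ), NoRel B a →
    Gp F a J s → Set.InjOn (· ⬝ᵥ a) F.coeff.support ∧ 0 < (SS F a).natDegree ∧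
      Lev (l1 F) s (SS F a) ∧ HasL (spec a (toQ F))

def S_Step : Prop :=
  ∀ (k : ℕ) (F : LQ ℤ k) (κ : ℝ), Dat F → 0 < κ → ∃ B : ℕ, ∀ a : Fin k → ℤ, Valid F κ B a →
    IH F κ B a → HasL (spec a (toQ F)) ∧ ¬ TwoL (spec a (toQ F))

def S_Norm : Prop :=
  ∀ (n : ℕ) (P : LP n) (κ : ℝ), Irreducible P → NonCol P → 0 < κ →
    ∃ Γ : Finset (Fin n → ℤ), 0 ∉ Γ ∧ ∀ b : Fin n → ℤ, (∀ c ∈ Γ, c ⬝ᵥ b ≠ 0) → Margin κ P b →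
      Abs P b → spec b P ≠ 0 ∧ HasL (spec b P) ∧ ¬ TwoL (spec b P)

def S_Fin : Prop :=
  ∀ (n : ℕ) (F : LP n) (κ : ℝ), Irreducible F → NonCol F → 0 < κ →
    ∃ Γ : Finset (Fin n → ℤ), 0 ∉ Γ ∧ ∃ Ω : Finset (Matrix (Fin n) (Fin n) ℤ),
      (∀ M ∈ Ω, M.det ≠ 0) ∧
      ∀ a : Fin n → ℤ, Margin κ F a → (∃ c ∈ Γ, c ⬝ᵥ a = 0) ∨ Alt F Ω a

end Pool.Agent.P.MP_aef18a_nt.OW
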