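import Pool.Agent.P.MP_aef18a_nt.OW.Iface

namespace Pool.Agent.P.MP_aef18a_nt.OW

open Polynomial Matrix LaurentPolynomial

namespace Kerx

attribute [local instance] Matrix.seminormedAddCommGroup

theorem siegel {n K : ℕ} (A : Matrix (Fin n) (Fin n) ℤ) (hA : ∀ i j, |A i j| ≤ K) (i₀ : Fin n) :
    ∃ c : Fin n → ℤ, c ≠ 0 ∧ (∀ i, i ≠ i₀ → (A *ᵥ c) i = 0) ∧
      ∀ i, |c i| ≤ ((n * (K + 1)) ^ n : ℕ) := by
  have hn : 0 < n := i₀.pos
  have hc : Fintype.card {i // i ≠ i₀} = n - 1 := by simp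
  rcases Nat.eq_zero_or_pos (Fintype.card {i // i ≠ i₀}) with h | h
  · refine ⟨fun _ => 1, fun e => one_ne_zero (congrFun e i₀),
      fun i hi => (Fintype.card_eq_zero_iff.1 h).elim ⟨i, hi⟩, fun i => ?_⟩
    have : 0 < (n * (K + 1)) ^ n := by positivity
    rw [abs_one]
    exact_mod_cast this
  obtain ⟨c, h1, h2, h3⟩ := Int.Matrix.exists_ne_zero_int_vec_norm_le
    (A.submatrix (Subtype.val : {i // i ≠ i₀} → Fin n) id) (by rw [hc, Fintype.card_fin]; omega) h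
  refine ⟨c, h1, fun i hi => congrFun h2 ⟨i, hi⟩, fun i => ?_⟩
  have e : ((n - 1 : ℕ) : ℝ) / ((n : ℝ) - (n - 1 : ℕ)) = (n - 1 : ℕ) := by
    rw [Nat.cast_sub hn, Nat.cast_one, sub_sub_cancel, div_one]
  rw [hc, Fintype.card_fin, e, Real.rpow_natCast] at h3
  have h4 : ‖A.submatrix (Subtype.val : {i // i ≠ i₀} → Fin n) id‖ ≤ K :=
    (norm_le_iff (Nat.cast_nonneg K)).2 fun i j => by
      rw [Int.norm_eq_abs]
      exact_mod_cast hA i j
  have h0 : (0 : ℝ) ≤ K := Nat.cast_nonneg K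
  have h5 : (1 : ℝ) ≤ n := by exact_mod_cast hn
  have h6 := (norm_le_pi_norm c i).trans (h3.trans ((pow_le_pow_left₀ (by positivity)
    (mul_le_mul_of_nonneg_left (max_le (by linarith) (by linarith) : _ ≤ (K : ℝ) + 1)
      (by linarith)) _).trans (pow_le_pow_right₀ (by nlinarith) (Nat.sub_le n 1))))
  rw [Int.norm_eq_abs] at h6
  exact_mod_cast h6

theorem avoid {r : ℕ} {m : ℤ} (hm : m ≠ 0) (S : Finset (Fin r → ℤ)) (h0 : 0 ∉ S) (b : Fin r → ℤ) :
    ∃ z : Fin r → ℤ, (∀ j, z j ∈ Finset.Icc (0 : ℤ) S.card) ∧ ∀ c ∈ S, c ⬝ᵥ (b + m • z) ≠ 0 := by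
  let f : (Fin r → ℤ) → MvPolynomial (Fin r) ℤ := fun c =>
    ∑ j, MvPolynomial.C (c j) * (MvPolynomial.C (b j) + MvPolynomial.C m * MvPolynomial.X j)
  have ev : ∀ c z, MvPolynomial.eval z (f c) = c ⬝ᵥ (b + m • z) := fun c z => by
    simp [f, dotProduct]
  have dg : ∀ c i, (f c).degreeOf i ≤ 1 := fun c i =>
    (MvPolynomial.degreeOf_sum_le _ _ _).trans (Finset.sup_le fun j _ =>
      (MvPolynomial.degreeOf_C_mul_le _ _ _).trans ((MvPolynomial.degreeOf_add_le _ _ _).trans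
        (max_le (by rw [MvPolynomial.degreeOf_C]; exact zero_le_one)
          ((MvPolynomial.degreeOf_C_mul_le _ _ _).trans (by
            rw [MvPolynomial.degreeOf_X]
            split_ifs <;> simp)))))
  by_contra h
  push Not at h
  have hP := MvPolynomial.eq_zero_of_eval_zero_at_prod_finset (∏ c ∈ S, f c)
    (fun _ => Finset.Icc (0 : ℤ) S.card) (fun i => by
      have h1 := (MvPolynomial.degreeOf_prod_le i S f).trans
        (Finset.sum_le_card_nsmul _ _ 1 fun c _ => dg c i)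
      rw [Int.card_Icc]
      simp only [smul_eq_mul] at h1
      omega) fun x hx => by
      obtain ⟨c, hc, e⟩ := h x hx
      rw [map_prod]
      exact Finset.prod_eq_zero hc (by rw [ev, e])
  obtain ⟨c, hc, e⟩ := Finset.prod_eq_zero_iff.1 hP
  refine h0 ((funext fun j => ?_ : c = 0) ▸ hc)
  have e1 := ev c 0
  have e2 := ev c (Pi.single j 1)
  rw [e, map_zero, dotProduct_add, dotProduct_smul] at e1 e2
  rw [dotProduct_zero, smul_zero, add_zero] at e1
  rw [← e1, zero_add, dotProduct_single, mul_one, smul_eq_mul] at e2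
  exact (mul_eq_zero.1 e2.symm).resolve_left hm

/-- the nonzero vectors of a box -/
noncomputable def box (k L : ℕ) : Finset (Fin k → ℤ) :=
  (Fintype.piFinset fun _ => Finset.Icc (-(L : ℤ)) L).erase 0

theorem mem_box {k L : ℕ} {c : Fin k → ℤ} : c ∈ box k L ↔ c ≠ 0 ∧ ∀ i, |c i| ≤ L := by
  simp [box, abs_le]

theorem card_box (k L : ℕ) : (box k L).card ≤ (2 * L + 1) ^ k := by
  refine Finset.card_erase_le.trans_eq ?_
  rw [Fintype.card_piFinset, Finset.prod_const, Finset.card_univ, Fintype.card_fin, Int.card_Icc]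
  congr 1
  omega

end Kerx

theorem p_Ker : S_Ker := by
  intro n r H M hM ⟨u, hu, huM⟩
  obtain ⟨i₀, hi₀⟩ := Function.ne_iff.1 hu
  obtain ⟨c, h1, h2, h3⟩ := Kerx.siegel (K := r * H ^ 2) (M * Mᵀ) (fun i j => by
    rw [mul_apply]
    refine (Finset.abs_sum_le_sum_abs _ _).trans ((Finset.sum_le_card_nsmul _ _ ((H : ℤ) ^ 2)
      fun l _ => ?_).trans_eq (by simp))
    rw [abs_mul, sq]
    exact mul_le_mul (hM i l) (hM j l) (abs_nonneg _) (Nat.cast_nonneg H)) i₀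
  refine ⟨c, h1, ?_, h3⟩
  have e : u ⬝ᵥ (M * Mᵀ) *ᵥ c = 0 := by
    rw [dotProduct_mulVec, ← vecMul_vecMul, huM, zero_vecMul, zero_dotProduct]
  rw [dotProduct, Finset.sum_eq_single_of_mem i₀ (Finset.mem_univ _) fun i _ hi => by
    rw [h2 i hi, mul_zero]] at e
  have e2 : (M * Mᵀ) *ᵥ c = 0 := funext fun i => by
    by_cases hi : i = i₀
    · rw [hi]
      exact (mul_eq_zero.1 e).resolve_left hi₀
    · exact h2 i hi
  rw [← dotProduct_self_eq_zero]
  calc (c ᵥ* M) ⬝ᵥ (c ᵥ* M) = c ⬝ᵥ (M * Mᵀ) *ᵥ c := by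
        rw [← mulVec_mulVec, mulVec_transpose, dotProduct_mulVec]
    _ = 0 := by rw [e2, dotProduct_zero]

theorem p_Half : S_Half := by
  intro n r m₀ E B M b hm hb
  have hm' : (0 : ℤ) < m₀ := by exact_mod_cast hm
  set S := Kerx.box r E ∪ (Kerx.box n B).image (· ᵥ* M) with hS
  have h0 : 0 ∉ S := fun h => by
    rcases Finset.mem_union.1 h with h | h
    · exact (Kerx.mem_box.1 h).1 rfl
    · obtain ⟨c, hc, e⟩ := Finset.mem_image.1 h
      refine hb c (Kerx.mem_box.1 hc).1 (Kerx.mem_box.1 hc).2 ?_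
      rw [dotProduct_mulVec, e, zero_dotProduct]
  have hc : S.card ≤ (2 * E + 1) ^ r + (2 * B + 1) ^ n := (Finset.card_union_le _ _).trans
    (add_le_add (Kerx.card_box _ _) (Finset.card_image_le.trans (Kerx.card_box _ _)))
  obtain ⟨z, h1, h2⟩ := Kerx.avoid hm'.ne' S h0 fun j => b j - m₀ * (b j / (2 * m₀))
  refine ⟨_, fun c c0 c1 => h2 c (Finset.mem_union_left _ (Kerx.mem_box.2 ⟨c0, c1⟩)),
    fun c c0 c1 => ?_, fun j => ⟨z j - b j / (2 * m₀), ?_⟩, fun j => ?_⟩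
  · rw [dotProduct_mulVec]
    exact h2 _ (Finset.mem_union_right _ (Finset.mem_image_of_mem _ (Kerx.mem_box.2 ⟨c0, c1⟩)))
  · simp only [Pi.add_apply, Pi.smul_apply, smul_eq_mul]
    ring
  · obtain ⟨z0, z1⟩ := Finset.mem_Icc.1 (h1 j)
    have k1 := Int.emod_nonneg (b j) (by omega : 2 * (m₀ : ℤ) ≠ 0)
    have k2 := Int.emod_lt_of_pos (b j) (by omega : 0 < 2 * (m₀ : ℤ))
    have k3 : (S.card : ℤ) ≤ ((2 * E + 1) ^ r + (2 * B + 1) ^ n : ℕ) := by exact_mod_cast hc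
    have k4 := mul_le_mul_of_nonneg_left (z1.trans k3) hm'.le
    have k5 := mul_nonneg hm'.le z0
    rw [Int.emod_def] at k1 k2
    simp only [Pi.add_apply, Pi.smul_apply, smul_eq_mul]
    push_cast at k4 ⊢
    rw [abs_le]
    constructor <;> linarith

end Pool.Agent.P.MP_aef18a_nt.OW
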