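import Pool.Agent.P.MP_aef18a_nt.OW.Iface

namespace Pool.Agent.P.MP_aef18a_nt.OW

open Polynomial Matrix LaurentPolynomial

theorem p_NonU (hK : S_Link) (hT : S_Trans) (hQ : S_Q0) : S_NonU := by
  intro k F J R hF hc
  obtain ⟨p, hp, hpc⟩ : ∃ p : ℕ, p.Prime ∧ (p : ℤ) ∣ F.coeff 0 := by
    have : (F.coeff 0).natAbs ≠ 1 := fun e => hc (by rw [← Int.natAbs_sq, e]; rfl)
    obtain ⟨p, hp, hd⟩ := Nat.exists_prime_and_dvd this
    exact ⟨p, hp, Int.natCast_dvd.2 hd⟩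
  obtain ⟨Δ, -, hΔ⟩ := exists_bx F
  by_cases h : ∃ (a₀ : Fin k → ℤ) (s₀ : ℕ), Set.InjOn (· ⬝ᵥ a₀) F.coeff.support ∧ Gp F a₀ J s₀ ∧
      Simple (SS F a₀)
  · obtain ⟨a₀, s₀, hi, hg, hs⟩ := h
    obtain ⟨hl, -, hlc, hrev, hco, -⟩ := hK k F a₀ J s₀ hF.c0 hg hi
    obtain ⟨u, hu⟩ := hF.prim p hp
    have hus : u ∈ F.coeff.support :=
      Finsupp.mem_support_iff.2 fun e => hu (by rw [e]; exact dvd_zero _)
    obtain ⟨i, hi'⟩ := (hco u hus).2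
    obtain ⟨T, hT1, hTq⟩ := hQ (SS F a₀) p R hp hl.1 (by rw [hlc]; exact hpc)
      ⟨i, by rw [hi']; exact hu⟩ hs
    refine ⟨T, 2 * T * J * Δ + 2 * Δ, hT1, fun a s hn hg' _ r s₁ Y hr hrs hsR hRt => ?_⟩
    have hia := (hn.mono (Nat.le_add_left _ _)).injOn hΔ.wb
    obtain ⟨-, hdeg, -, hrev', hco', -⟩ := hK k F a J s hF.c0 hg' hia
    have hJ : 1 ≤ J := by
      obtain ⟨w, hw, hw0⟩ := hF.nc.exists_mem 0
      have h1 := hg'.2.1 w hw hw0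
      have h2 := hg'.2.2.2 w hw
      have h3 := hg'.1
      rcases Nat.eq_zero_or_pos J with rfl | h
      · simp only [Nat.cast_zero, zero_mul] at h2
        omega
      · exact h
    rw [hrev'] at hRt
    obtain ⟨Y₀, hY⟩ := hT k F a a₀ Δ J s _ T r s₁ Y hF.c0 hΔ hg'.1 hJ
      (fun u hu hu0 => ⟨hg'.2.1 u hu hu0, (hco' u hu).1⟩) hdeg (hn.mono (Nat.le_add_right _ _))
      (fun u hu hu0 => by
        have h1 := hg.2.1 u hu hu0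
        have h2 := hg.1
        omega) hrs.le (by omega) hRt
    exact hTq r s₁ Y₀ hr hrs hsR (by rw [hrev]; exact hY)
  · exact ⟨1, 2 * Δ, le_rfl, fun a s hn hg hs => absurd ⟨a, s, hn.injOn hΔ.wb, hg, hs⟩ h⟩

end Pool.Agent.P.MP_aef18a_nt.OW
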