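import Pool.Agent.P.MP_aef18a_nt.OW.Iface

namespace Pool.Agent.P.MP_aef18a_nt.OW

open Polynomial Matrix LaurentPolynomial

namespace Star1x

lemma lemE (hE : S_Ebz) {r H ν : ℕ} {b : Fin r → ℤ} (h2 : 2 ≤ H) (h4 : 4 * r ≤ H)
    (h16 : 16 * r ^ 3 < H) (hν : 0 < ν) (hb : ∀ j, |b j| ≤ (H : ℤ) ^ 2 * ν)
    (hrel : NoRel (H ^ 20) b) {α : ℂˣ} (hdeg : ν ≤ H * (minpoly ℚ (α : ℂ)).natDegree)
    {Q f : LP r} (hQ : Irreducible Q) (wQ : Wb (2 * H ^ 3) Q) (wf : Wb (2 * H ^ 3) f)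
    (hα : evc b α Q = 0) (hd : ¬ Q ∣ f) : evc b α f ≠ 0 := by
  intro hf
  have h1 : 1 ≤ H := by omega
  obtain ⟨hf0, hrp⟩ := relPrime_of_not_dvd hQ hd
  obtain ⟨h, h0, hn, hm⟩ := hE ℚ r (2 * H ^ 3) (H ^ 20) (H ^ 2 * ν) Q f b hQ.ne_zero hf0 hrp wQ wf
    (calc 2 * r * (2 * H ^ 3) = 4 * r * H ^ 3 := by ring
      _ ≤ H * H ^ 3 := Nat.mul_le_mul_right _ h4
      _ = H ^ 4 := by ring
      _ ≤ H ^ 20 := Nat.pow_le_pow_right h1 (by norm_num))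
    (by positivity) (fun i => by exact_mod_cast hb i) hrel
  have h3 : (minpoly ℚ (α : ℂ)).natDegree ≤ h.natDegree :=
    natDegree_le_of_dvd (minpoly.dvd ℚ _ (aeval_eq_zero_of_mem hm hα hf)) h0
  have h5 : ν * H ^ 20 < ν * H ^ 20 :=
    calc ν * H ^ 20 ≤ H * h.natDegree * H ^ 20 :=
          Nat.mul_le_mul_right _ (hdeg.trans (Nat.mul_le_mul_left _ h3))
      _ = H * (h.natDegree * H ^ 20) := by ring
      _ ≤ H * (4 * r ^ 3 * (2 * H ^ 3) ^ 2 * (H ^ 2 * ν)) := Nat.mul_le_mul_left _ hn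
      _ = 16 * r ^ 3 * (ν * H ^ 9) := by ring
      _ < H * (ν * H ^ 9) := Nat.mul_lt_mul_of_pos_right h16 (by positivity)
      _ = ν * H ^ 10 := by ring
      _ ≤ ν * H ^ 20 := Nat.mul_le_mul_left _ (Nat.pow_le_pow_right h1 (by norm_num))
  exact lt_irrefl _ h5

lemma root_of {f : ℚ[T;T⁻¹]} {p : ℚ[X]} {j : ℤ} (h : toLaurent p = f * T j) {α : ℂˣ}
    (hα : evL α f = 0) : aeval (α : ℂ) p = 0 := by
  rw [← evL_toLaurent, h, map_mul, hα, zero_mul]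

end Star1x

open Star1x

theorem p_Star1 (hE : S_Ebz) : S_Star1 := by
  intro n F
  obtain ⟨De, -, hDe⟩ := exists_bx (toQ F : LP n)
  refine ⟨2 + n * De + (16 * (n + 1) ^ 3 + 1) + 4 * (n + 1), ?_⟩
  rintro H r a M b hH hν hsp ⟨hr, ha, hM, hb, hrel⟩ hdeg hno
  have h2 : 2 ≤ H := by omega
  have h1 : 1 ≤ H := by omega
  have h4 : 4 * r ≤ H := by omega
  have h16 : 16 * r ^ 3 < H := by
    have := Nat.pow_le_pow_left hr 3
    omega
  have hG : pb M (toQ F : LP n) ≠ 0 := fun e => hsp (by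
    rw [ha, ← spec_pb, e, spec_eq_spk, map_zero])
  have wG : Wb (2 * H ^ 3) (pb M (toQ F : LP n)) := by
    refine (hDe.pb hM).wb.mono (Nat.mul_le_mul_left _ ?_)
    calc n * De * H ≤ H * H := Nat.mul_le_mul_right _ (by omega)
      _ = H ^ 2 := by ring
      _ ≤ H ^ 3 := Nat.pow_le_pow_right h1 (by norm_num)
  have hev : ∀ (α : ℂˣ) (A : LP n), evc b α (pb M A) = evc a α A := fun α A => by
    rw [evc_pb, ← ha]
  have key : ∀ α : ℂˣ, NonTors α → evc a α (toQ F : LP n) = 0 → ∃ Q G' : LP r, Irreducible Q ∧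
      pb M (toQ F : LP n) = Q * G' ∧ evc b α Q = 0 ∧ Wb (2 * H ^ 3) Q ∧
      ∀ β : ℂˣ, NonTors β → evc b β G' ≠ 0 := by
    intro α hα h0
    obtain ⟨Q, hQ, ⟨G', hG'⟩, hQα⟩ := exists_prime_root hG ((hev α _).trans h0)
    exact ⟨Q, G', hQ.irreducible, hG', hQα, wG.of_dvd hG ⟨G', hG'⟩, fun β hβ e =>
      hno Q G' hG' ((hasL_spec _ _).2 ⟨α, hα, hQα⟩) ((hasL_spec _ _).2 ⟨β, hβ, e⟩)⟩
  refine ⟨fun α hα h0 => ?_, fun α α' hα hα' h0 h0' f wf hf => ?_⟩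
  · obtain ⟨Q, G', hQ, hG', hQα, wQ, hn⟩ := key α hα h0
    have hrel' : NoRel (2 * H ^ 3) b := hrel.mono <|
      calc 2 * H ^ 3 ≤ H * H ^ 3 := Nat.mul_le_mul_right _ h2
        _ = H ^ 4 := by ring
        _ ≤ H ^ 20 := Nat.pow_le_pow_right h1 (by norm_num)
    have h5 := lemE hE h2 h4 h16 hν hb hrel (hdeg α hα h0) hQ wQ (wQ.subset (support_dv _ Q)) hQα
      (not_dvd_dv hQ (hrel'.injOn wQ))
    rw [← hev]
    nth_rw 1 [ha]
    rw [← dv_pb, hG', dv_mul, map_add, map_mul, map_mul, hQα, zero_mul, add_zero]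
    exact mul_ne_zero h5 (hn α hα)
  · obtain ⟨Q, G', hQ, hG', hQα, wQ, hn⟩ := key α hα h0
    obtain ⟨f', rfl⟩ : Q ∣ f := by
      by_contra hd
      exact lemE hE h2 h4 h16 hν hb hrel (hdeg α hα h0) hQ wQ wf hQα hd hf
    rw [← hev, hG', map_mul] at h0'
    rw [map_mul, (mul_eq_zero.1 h0').resolve_right (hn α' hα'), zero_mul]

theorem p_Two : S_Two := by
  rintro S f j hS hf hsim ⟨f₁, f₂, rfl, ⟨α, hα, e₁⟩, α', hα', e₂⟩
  have hS' : S.map (Int.castRingHom ℚ) ≠ 0 :=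
    (Polynomial.map_ne_zero_iff (RingHom.injective_int _)).2 hS
  have h0 : f₁ * f₂ ≠ 0 := fun e => hS' (by rwa [e, zero_mul, toLaurent_eq_zero] at hf)
  obtain ⟨p₁, j₁, hp₁, -⟩ := exists_poly (left_ne_zero_of_mul h0)
  obtain ⟨p₂, j₂, hp₂, -⟩ := exists_poly (right_ne_zero_of_mul h0)
  have r₁ : aeval (α : ℂ) S = 0 := by
    rw [← aeval_map_int]; exact root_of hf (by rw [map_mul, e₁, zero_mul])
  have r₂ : aeval (α' : ℂ) S = 0 := by
    rw [← aeval_map_int]; exact root_of hf (by rw [map_mul, e₂, mul_zero])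
  refine ⟨α, α', hα, hα', r₁, r₂, fun e => hsim α hα r₁ ?_⟩
  have s₁ := root_of hp₁ e₁
  have s₂ : aeval (α : ℂ) p₂ = 0 := by
    obtain ⟨q, hq⟩ := minpoly.dvd ℚ _ (root_of hp₂ e₂)
    rw [hq, ← e, map_mul, minpoly.aeval, zero_mul]
  have hid : S.map (Int.castRingHom ℚ) * X ^ (j₁ + j₂ - j).toNat =
      p₁ * p₂ * X ^ (j - j₁ - j₂).toNat := by
    apply toLaurent_injective
    rw [map_mul, map_mul, map_mul, toLaurent_X_pow, toLaurent_X_pow, hf, hp₁, hp₂,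
      mul_mul_mul_comm, ← T_add, mul_assoc, mul_assoc (f₁ * f₂), ← T_add, ← T_add]
    congr 2
    omega
  have h1 := congrArg (fun p => aeval (α : ℂ) (derivative p)) hid
  simp only [derivative_mul, map_add, map_mul, s₁, s₂, aeval_map_int, r₁, derivative_map,
    zero_mul, mul_zero, add_zero, map_pow, aeval_X] at h1
  exact (mul_eq_zero.1 h1).resolve_right (pow_ne_zero _ α.ne_zero)

end Pool.Agent.P.MP_aef18a_nt.OW
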